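import Mathlib

/-!
Definitions for the threshold of the Elliott-Halberstam conjecture in the random sieve model.
-/

namespace Pool.Agent.H532.EH

open Finset

/-- `#{m < n ≤ m + U : n ≡ r mod D, n ≢ c p mod p for p ∈ Q}` -/
def cntD (c : ℕ → ℕ) (Q : Finset ℕ) (D r m U : ℕ) : ℕ :=
  ((Ioc m (m + U)).filter (fun n => n % D = r % D ∧ ∀ p ∈ Q, n % p ≠ c p % p)).card

/-- the elementary symmetric polynomial of the `1 / p` -/
noncomputable def eS (k : ℕ) (Q : Finset ℕ) : ℝ := ∑ T ∈ Q.powersetCard k, ∏ p ∈ T, 1 / (p : ℝ)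

/-- the number of `t ∈ [1, T]` without prime factors in `S` -/
def Cn (S : Finset ℕ) (T : ℕ) : ℕ := ((Icc 1 T).filter (fun t => ∀ p ∈ S, ¬ p ∣ t)).card

/-- `∑ 1 / log n` over `q t ≤ n < q (t + 1)` -/
noncomputable def Wt (q t : ℕ) : ℝ := ∑ n ∈ Ioc (q * t - 1) (q * t - 1 + q), 1 / Real.log n

open Classical in
/-- `1_{(t, S) = 1} / ∏ (1 - 1/p) - 1` -/
noncomputable def dl (S : Finset ℕ) (t : ℕ) : ℝ :=
  (if ∀ p ∈ S, ¬ p ∣ t then 1 / ∏ p ∈ S, (1 - 1 / (p : ℝ)) else 0) - 1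

end Pool.Agent.H532.EH
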