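import Mathlib
import Pool.Agent.H532.EH.Def

/-!
Partial summation with signs (for helper532, project EH; by helper719).
-/

set_option autoImplicit false

namespace Pool.Agent.H532.EH

open Finset

theorem abel_sign_id (W δ : ℕ → ℝ) (U : ℕ) (hU : 1 ≤ U) :
    ∑ t ∈ Icc 1 U, W t * δ t = W U * ∑ t ∈ Icc 1 U, δ t +
      ∑ T ∈ Ico 1 U, (W T - W (T + 1)) * ∑ t ∈ Icc 1 T, δ t := by
  induction U, hU using Nat.le_induction with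
  | base => simp
  | succ V hV ih =>
    rw [Finset.sum_Icc_succ_top (by omega), Finset.sum_Icc_succ_top (by omega),
      Finset.sum_Ico_succ_top hV, ih]
    ring

theorem abel_sign_pow (a θ : ℝ) (ha : 1 ≤ a) (hθ : 0 < θ) (hθ1 : θ ≤ 1) :
    (a - 1) ^ θ + θ * a ^ (θ - 1) ≤ a ^ θ := by
  have ha0 : 0 < a := by linarith
  have h1 : (1 + (-(1 / a))) ^ θ ≤ 1 + θ * (-(1 / a)) :=
    rpow_one_add_le_one_add_mul_self (by
      have : 1 / a ≤ 1 := (div_le_one ha0).2 ha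
      linarith) hθ.le hθ1
  have h2 : (a - 1) = a * (1 + (-(1 / a))) := by field_simp; ring
  have h3 : 0 ≤ 1 + (-(1 / a)) := by
    have : 1 / a ≤ 1 := (div_le_one ha0).2 ha
    linarith
  rw [h2, Real.mul_rpow ha0.le h3, Real.rpow_sub_one ha0.ne']
  have h4 := mul_le_mul_of_nonneg_left h1 (Real.rpow_nonneg ha0.le θ)
  have h5 : a ^ θ * (1 + θ * (-(1 / a))) + θ * (a ^ θ / a) = a ^ θ := by field_simp; ring
  linarith

theorem abel_sign_sum (θ : ℝ) (hθ : 0 < θ) (hθ1 : θ ≤ 1) (V : ℕ) :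
    ∑ T ∈ Ico 1 (V + 1), (T : ℝ) ^ (θ - 1) ≤ (V : ℝ) ^ θ / θ := by
  induction V with
  | zero => simp [Real.zero_rpow hθ.ne']
  | succ V ih =>
    rw [Finset.sum_Ico_succ_top (by omega)]
    have h1 := abel_sign_pow ((V : ℝ) + 1) θ (by have : (0:ℝ) ≤ V := Nat.cast_nonneg V; linarith)
      hθ hθ1
    have h2 : (((V + 1 : ℕ) : ℝ)) = (V : ℝ) + 1 := by push_cast; ring
    rw [h2]
    rw [add_sub_cancel_right] at h1
    have h3 : (V : ℝ) ^ θ / θ + ((V : ℝ) + 1) ^ (θ - 1) =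
        ((V : ℝ) ^ θ + θ * ((V : ℝ) + 1) ^ (θ - 1)) / θ := by field_simp
    calc _ ≤ (V : ℝ) ^ θ / θ + ((V : ℝ) + 1) ^ (θ - 1) := by linarith
      _ = ((V : ℝ) ^ θ + θ * ((V : ℝ) + 1) ^ (θ - 1)) / θ := h3
      _ ≤ _ := div_le_div_of_nonneg_right h1 hθ.le

/-- T5. Partial summation with signs. -/
theorem abel_sign (W δ : ℕ → ℝ) (U T1 : ℕ) (κ w w0 G θ sg : ℝ) (hsg : sg = 1 ∨ sg = -1)
    (hT1 : 1 ≤ T1) (hTU : T1 ≤ U) (hθ : 0 < θ) (hθ1 : θ ≤ 1) (hκ : 0 ≤ κ) (hw : 0 ≤ w)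
    (hw0 : 0 ≤ w0) (hG : 0 ≤ G)
    (hW : ∀ t : ℕ, 1 ≤ t → t + 1 ≤ U → 0 ≤ W t - W (t + 1) ∧ W t - W (t + 1) ≤ w / t)
    (hWU : w0 ≤ W U)
    (hD1 : ∀ T : ℕ, T1 ≤ T → T ≤ U → κ * T ≤ sg * ∑ t ∈ Icc 1 T, δ t)
    (hD2 : ∀ T : ℕ, 1 ≤ T → T < T1 → |∑ t ∈ Icc 1 T, δ t| ≤ G * (T : ℝ) ^ θ) :
    w0 * (κ * U) - w * G / θ * (T1 : ℝ) ^ θ ≤ sg * ∑ t ∈ Icc 1 U, W t * δ t := by
  rw [abel_sign_id W δ U (hT1.trans hTU)]
  have hU := hD1 U hTU le_rfl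
  have hκU : 0 ≤ κ * U := mul_nonneg hκ (Nat.cast_nonneg U)
  have h1 : w0 * (κ * U) ≤ W U * (sg * ∑ t ∈ Icc 1 U, δ t) :=
    mul_le_mul hWU hU hκU (hw0.trans hWU)
  have habs : ∀ x : ℝ, -|x| ≤ sg * x := by
    intro x
    rcases hsg with h | h
    · rw [h, one_mul]; exact neg_abs_le x
    · rw [h, neg_one_mul]; exact neg_le_neg (le_abs_self x)
  have h2 : ∑ T ∈ Ico 1 T1, -(w * G * (T : ℝ) ^ (θ - 1)) ≤
      ∑ T ∈ Ico 1 U, (W T - W (T + 1)) * (sg * ∑ t ∈ Icc 1 T, δ t) := by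
    rw [← Finset.sum_Ico_consecutive _ hT1 hTU]
    have ha : ∑ T ∈ Ico 1 T1, -(w * G * (T : ℝ) ^ (θ - 1)) ≤
        ∑ T ∈ Ico 1 T1, (W T - W (T + 1)) * (sg * ∑ t ∈ Icc 1 T, δ t) := by
      refine Finset.sum_le_sum fun T hT => ?_
      rw [Finset.mem_Ico] at hT
      obtain ⟨hT0, hTT⟩ := hT
      obtain ⟨hw1, hw2⟩ := hW T hT0 (by omega)
      have hTp : (0:ℝ) < T := by exact_mod_cast hT0
      have h3 := hD2 T hT0 hTT
      have h4 : -(G * (T : ℝ) ^ θ) ≤ sg * ∑ t ∈ Icc 1 T, δ t :=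
        (neg_le_neg h3).trans (habs _)
      have h5 : (W T - W (T + 1)) * (-(G * (T : ℝ) ^ θ)) ≤
          (W T - W (T + 1)) * (sg * ∑ t ∈ Icc 1 T, δ t) := mul_le_mul_of_nonneg_left h4 hw1
      have h6 : (W T - W (T + 1)) * (G * (T : ℝ) ^ θ) ≤ w / T * (G * (T : ℝ) ^ θ) :=
        mul_le_mul_of_nonneg_right hw2 (mul_nonneg hG (Real.rpow_nonneg hTp.le _))
      have h7 : w / T * (G * (T : ℝ) ^ θ) = w * G * (T : ℝ) ^ (θ - 1) := by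
        rw [Real.rpow_sub_one hTp.ne']
        ring
      rw [h7] at h6
      linarith
    have hb : 0 ≤ ∑ T ∈ Ico T1 U, (W T - W (T + 1)) * (sg * ∑ t ∈ Icc 1 T, δ t) := by
      refine Finset.sum_nonneg fun T hT => ?_
      rw [Finset.mem_Ico] at hT
      obtain ⟨hT0, hTT⟩ := hT
      obtain ⟨hw1, -⟩ := hW T (hT1.trans hT0) (by omega)
      have h3 := hD1 T hT0 hTT.le
      exact mul_nonneg hw1 ((mul_nonneg hκ (Nat.cast_nonneg T)).trans h3)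
    linarith
  have h3 : ∑ T ∈ Ico 1 T1, (T : ℝ) ^ (θ - 1) ≤ (T1 : ℝ) ^ θ / θ := by
    obtain ⟨V, rfl⟩ : ∃ V, T1 = V + 1 := ⟨T1 - 1, by omega⟩
    refine (abel_sign_sum θ hθ hθ1 V).trans ?_
    apply div_le_div_of_nonneg_right _ hθ.le
    apply Real.rpow_le_rpow (Nat.cast_nonneg V) _ hθ.le
    push_cast
    linarith
  have h4 : ∑ T ∈ Ico 1 T1, -(w * G * (T : ℝ) ^ (θ - 1)) =
      -(w * G * ∑ T ∈ Ico 1 T1, (T : ℝ) ^ (θ - 1)) := by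
    rw [Finset.sum_neg_distrib, ← Finset.mul_sum]
  have h5 := mul_le_mul_of_nonneg_left h3 (mul_nonneg hw hG)
  have h6 : w * G * ((T1 : ℝ) ^ θ / θ) = w * G / θ * (T1 : ℝ) ^ θ := by ring
  have h7 : sg * (W U * ∑ t ∈ Icc 1 U, δ t +
      ∑ T ∈ Ico 1 U, (W T - W (T + 1)) * ∑ t ∈ Icc 1 T, δ t) =
      W U * (sg * ∑ t ∈ Icc 1 U, δ t) +
      ∑ T ∈ Ico 1 U, (W T - W (T + 1)) * (sg * ∑ t ∈ Icc 1 T, δ t) := by
    have h8 : ∑ T ∈ Ico 1 U, (W T - W (T + 1)) * (sg * ∑ t ∈ Icc 1 T, δ t) =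
        sg * ∑ T ∈ Ico 1 U, (W T - W (T + 1)) * ∑ t ∈ Icc 1 T, δ t := by
      rw [Finset.mul_sum]
      exact Finset.sum_congr rfl fun T _ => by ring
    rw [h8]
    ring
  rw [h7]
  rw [h4] at h2
  rw [h6] at h5
  linarith

end Pool.Agent.H532.EH
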