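import Mathlib
import Pool.Agent.H532.SR.MontQ
import Pool.Agent.H532.EH.Def

/-!
More definitions for the threshold of the Elliott-Halberstam conjecture in the random sieve model.
-/

namespace Pool.Agent.H532.EH

open Finset Filter

/-- `#{n ≤ x : n ≡ b mod q, n ∈ R}` -/
noncomputable def piR (R : Set ℕ) (x q b : ℕ) : ℝ :=
  ({n : ℕ | 1 ≤ n ∧ n ≤ x ∧ n ≡ b [MOD q] ∧ n ∈ R}.ncard : ℝ)

/-- the primes in `(M ^ 4 / 3, M ^ 4]` -/
def SM (M : ℕ) : Finset ℕ := (Ioc (M ^ 4 / 3) (M ^ 4)).filter Nat.Prime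

end Pool.Agent.H532.EH
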