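import Mathlib
import Pool.Agent.H532.EH.Def2

/-!
N1 of the threshold of the Elliott-Halberstam conjecture in the random sieve model: a bad class
from the average over the classes `≡ β mod ∏ S`. The definitions are literal copies of those of
helper532 (`RB`, `Red`, `Wt`, `dl`, `piR`).
-/

namespace Pool.Agent.H532.EH

open Finset Filter
open Pool.Agent.H532.RM (RB)
open Pool.Agent.H532.SR (Red psiR)

/-- numbers in a class in an interval -/
lemma cnt_mod (P m L c : ℕ) (hP : 0 < P) :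
    |(((Ico m (m + L)).filter (fun n => n ≡ c [MOD P])).card : ℝ) - (L : ℝ) / P| ≤ 1 := by
  have hPq : (0 : ℚ) < P := by exact_mod_cast hP
  have h1 := Nat.Ico_filter_modEq_card m (m + L) hP c
  set A : ℤ := ⌈(((m + L : ℕ) : ℚ) - c) / (P : ℚ)⌉ with hA
  set B : ℤ := ⌈((m : ℚ) - c) / (P : ℚ)⌉ with hB
  have h2 : (((m + L : ℕ) : ℚ) - c) / (P : ℚ) = ((m : ℚ) - c) / (P : ℚ) + (L : ℚ) / P := by
    push_cast
    field_simp
    ring
  have h3 := Int.le_ceil ((((m + L : ℕ) : ℚ) - c) / (P : ℚ))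
  have h4 := Int.ceil_lt_add_one ((((m + L : ℕ) : ℚ) - c) / (P : ℚ))
  have h5 := Int.le_ceil (((m : ℚ) - c) / (P : ℚ))
  have h6 := Int.ceil_lt_add_one (((m : ℚ) - c) / (P : ℚ))
  rw [← hA] at h3 h4
  rw [← hB] at h5 h6
  have h7 : (0 : ℚ) ≤ (L : ℚ) / P := by positivity
  have h8 : B ≤ A := by
    rw [hA, hB]
    apply Int.ceil_le_ceil
    rw [h2]
    linarith
  rw [max_eq_left (by omega)] at h1
  have h9 : ((((Ico m (m + L)).filter (fun n => n ≡ c [MOD P])).card : ℚ)) = (A : ℚ) - B := by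
    exact_mod_cast h1
  have h10 : |((((Ico m (m + L)).filter (fun n => n ≡ c [MOD P])).card : ℚ)) - (L : ℚ) / P| ≤ 1 := by
    rw [h9, abs_le]
    constructor <;> linarith
  have h11 := (Rat.cast_le (K := ℝ)).2 h10
  push_cast at h11
  exact h11

lemma totP (S : Finset ℕ) (hS : ∀ p ∈ S, p.Prime) :
    (Nat.totient (∏ p ∈ S, p) : ℝ) =
      ((∏ p ∈ S, p : ℕ) : ℝ) * ∏ p ∈ S, (1 - 1 / (p : ℝ)) := by
  have h1 := Nat.totient_eq_mul_prod_factors (∏ p ∈ S, p)
  rw [Nat.primeFactors_prod hS] at h1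
  have h2 := congrArg (fun r : ℚ => (r : ℝ)) h1
  push_cast at h2
  push_cast
  rw [h2]
  congr 1
  exact prod_congr rfl fun p _ => by rw [one_div]

lemma modn (q P β n t : ℕ) (h : n / q = t) :
    n % q ≡ β [MOD P] ↔ n ≡ β + q * t [MOD P] := by
  subst h
  conv_rhs => rw [← Nat.mod_add_div n q]
  rw [Nat.mod_add_div n q]
  constructor
  · intro h
    have := Nat.ModEq.add_right (q * (n / q)) h
    rwa [Nat.mod_add_div] at this
  · intro h
    refine Nat.ModEq.add_right_cancel' (q * (n / q)) ?_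
    rwa [Nat.mod_add_div]

open Classical in
lemma piR_eq (R : Set ℕ) (x q b : ℕ) :
    piR R x q b = (((Icc 1 x).filter (fun n => n ≡ b [MOD q] ∧ n ∈ R)).card : ℝ) := by
  rw [piR]
  congr 1
  rw [← Set.ncard_coe_finset]
  congr 1
  ext n
  simp only [Set.mem_ofPred_eq, coe_filter, mem_Icc]
  tauto

lemma piR_nonneg (R : Set ℕ) (x q b : ℕ) : 0 ≤ piR R x q b := Nat.cast_nonneg _

open Classical in
/-- the elements of `R` in the classes `≡ β mod P` -/
noncomputable def AA (R : Set ℕ) (x q P β : ℕ) : Finset ℕ :=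
  (Icc 1 x).filter (fun n => n ∈ R ∧ n % q ≡ β [MOD P])

open Classical in
lemma sum_piR (R : Set ℕ) (x q P β : ℕ) (hq : 0 < q) :
    ∑ b ∈ (range q).filter (fun b => b ≡ β [MOD P]), piR R x q b = ((AA R x q P β).card : ℝ) := by
  have h1 : (AA R x q P β).card = ∑ b ∈ (range q).filter (fun b => b ≡ β [MOD P]),
      ((AA R x q P β).filter (fun n => n % q = b)).card := by
    apply card_eq_sum_card_fiberwise
    intro n hn
    have hn' := (mem_filter.1 (mem_coe.1 hn)).2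
    exact mem_coe.2 (mem_filter.2 ⟨mem_range.2 (Nat.mod_lt _ hq), hn'.2⟩)
  rw [h1]
  push_cast
  refine sum_congr rfl fun b hb => ?_
  obtain ⟨hb1, hb2⟩ := mem_filter.1 hb
  rw [piR_eq]
  congr 2
  ext n
  rw [mem_filter, mem_filter, AA, mem_filter]
  constructor
  · rintro ⟨h1, h2, h3⟩
    have h4 : n % q = b := by
      have := h2
      rw [Nat.ModEq, Nat.mod_eq_of_lt (mem_range.1 hb1)] at this
      exact this
    exact ⟨⟨h1, h3, by rw [h4]; exact hb2⟩, h4⟩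
  · rintro ⟨⟨h1, h2, h3⟩, h4⟩
    refine ⟨h1, ?_, h2⟩
    rw [Nat.ModEq, Nat.mod_eq_of_lt (mem_range.1 hb1)]
    exact h4

open Classical in
/-- the part of `AA` with `n / q = t` -/
noncomputable def NN (R : Set ℕ) (x q P β t : ℕ) : Finset ℕ :=
  (AA R x q P β).filter (fun n => n / q = t)

lemma card_AA (R : Set ℕ) (x q P β : ℕ) (hU : 1 ≤ x / q) :
    ((AA R x q P β).card : ℝ) = ((NN R x q P β 0).card : ℝ) +
      ∑ t ∈ Ico 1 (x / q), ((NN R x q P β t).card : ℝ) + ((NN R x q P β (x / q)).card : ℝ) := by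
  classical
  have h1 : (AA R x q P β).card = ∑ t ∈ range (x / q + 1),
      ((AA R x q P β).filter (fun n => n / q = t)).card := by
    apply card_eq_sum_card_fiberwise
    intro n hn
    have hn' := mem_Icc.1 (mem_filter.1 (mem_coe.1 hn)).1
    exact mem_coe.2 (mem_range.2 (Nat.lt_succ_of_le (Nat.div_le_div_right hn'.2)))
  have h2 : ((AA R x q P β).card : ℝ) = ∑ t ∈ range (x / q + 1), ((NN R x q P β t).card : ℝ) := by
    rw [h1]
    push_cast
    rfl
  rw [h2, sum_range_succ, range_eq_Ico, sum_eq_sum_Ico_succ_bot (by omega)]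

lemma mem_NN {R : Set ℕ} {x q P β t n : ℕ} : n ∈ NN R x q P β t ↔
    (1 ≤ n ∧ n ≤ x) ∧ n ∈ R ∧ n % q ≡ β [MOD P] ∧ n / q = t := by
  classical
  rw [NN, mem_filter, AA, mem_filter, mem_Icc]
  tauto

/-- numbers with `n / q = t` -/
lemma div_iff {q n t : ℕ} (hq : 0 < q) : n / q = t ↔ n ∈ Ico (q * t) (q * t + q) := by
  rw [mem_Ico]
  constructor
  · rintro rfl
    have h1 := Nat.mod_add_div n q
    have h2 := Nat.mod_lt n hq
    omega
  · rintro ⟨h1, h2⟩
    exact (Nat.div_eq_iff hq).2 ⟨by rw [mul_comm]; exact h1, by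
      have : t * q = q * t := mul_comm _ _
      omega⟩

section main

variable (z a : ℕ → ℕ) (x q : ℕ) (S : Finset ℕ) (β : ℕ)

lemma not_mem_R (hz : ∀ n, ∏ p ∈ S, p ≤ n → ∀ p ∈ S, p ≤ z n) {n p : ℕ} (hp : p ∈ S)
    (hpp : p.Prime) (hn : n ≡ a p [MOD p]) (hnR : n ∈ RB z a) : n < ∏ p ∈ S, p := by
  by_contra h
  exact hnR p hpp (hz n (by omega) p hp) hn

lemma N0 (hS : ∀ p ∈ S, p.Prime) (hS1 : S.Nonempty) (hq : 0 < q)
    (hz : ∀ n, ∏ p ∈ S, p ≤ n → ∀ p ∈ S, p ≤ z n) (hβ : ∀ p ∈ S, β ≡ a p [MOD p]) :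
    ((NN (RB z a) x q (∏ p ∈ S, p) β 0).card : ℝ) ≤ 1 := by
  have h1 : (NN (RB z a) x q (∏ p ∈ S, p) β 0).card ≤ 1 := by
    rw [card_le_one]
    obtain ⟨p, hp⟩ := hS1
    have key : ∀ n ∈ NN (RB z a) x q (∏ p ∈ S, p) β 0, n = β % ∏ p ∈ S, p := by
      intro n hn
      obtain ⟨h1, h2, h3, h4⟩ := mem_NN.1 hn
      have h5 : n < q := by
        rcases (Nat.div_eq_zero_iff).1 h4 with h | h
        · omega
        · exact h
      rw [Nat.mod_eq_of_lt h5] at h3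
      have h6 : n ≡ a p [MOD p] := (h3.of_dvd (dvd_prod_of_mem _ hp)).trans (hβ p hp)
      have h7 := not_mem_R z a S hz hp (hS p hp) h6 h2
      rw [← Nat.mod_eq_of_lt h7]
      exact h3
    intro n hn m hm
    rw [key n hn, key m hm]
  exact_mod_cast h1

lemma NU (P : ℕ) (hP : 0 < P) (hq : 0 < q) (R : Set ℕ) (t : ℕ) :
    ((NN R x q P β t).card : ℝ) ≤ (q : ℝ) / P + 1 := by
  have h1 : NN R x q P β t ⊆ (Ico (q * t) (q * t + q)).filter (fun n => n ≡ β + q * t [MOD P]) := by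
    intro n hn
    obtain ⟨h1, h2, h3, h4⟩ := mem_NN.1 hn
    exact mem_filter.2 ⟨(div_iff hq).1 h4, (modn q P β n t h4).1 h3⟩
  have h2 : ((NN R x q P β t).card : ℝ) ≤
      (((Ico (q * t) (q * t + q)).filter (fun n => n ≡ β + q * t [MOD P])).card : ℝ) := by
    exact_mod_cast card_le_card h1
  have h3 := (abs_le.1 (cnt_mod P (q * t) q (β + q * t) hP)).2
  linarith

open Classical in
lemma Nt (hS : ∀ p ∈ S, p.Prime) (hPq : 4 * ∏ p ∈ S, p ≤ q) (hq : 0 < q)
    (hz : ∀ n, ∏ p ∈ S, p ≤ n → ∀ p ∈ S, p ≤ z n) (hβ : ∀ p ∈ S, β ≡ a p [MOD p]) (Er : ℝ)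
    (hEr : 0 ≤ Er)
    (hlaw : ∀ t : ℕ, 1 ≤ t → t < x / q → (∀ p ∈ S, ¬ p ∣ t) →
      |(((Ioc (q * t - 1) (q * t - 1 + q)).filter
        (fun n => n ≡ β + q * t [MOD ∏ p ∈ S, p] ∧ n ∈ RB z a)).card : ℝ) -
        Wt q t / Nat.totient (∏ p ∈ S, p)| ≤ Er) (t : ℕ) (ht1 : 1 ≤ t) (htU : t < x / q) :
    |((NN (RB z a) x q (∏ p ∈ S, p) β t).card : ℝ) -
      (if ∀ p ∈ S, ¬ p ∣ t then Wt q t / Nat.totient (∏ p ∈ S, p) else 0)| ≤ Er := by
  have hqt : 1 ≤ q * t := Nat.mul_pos hq ht1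
  by_cases h : ∀ p ∈ S, ¬ p ∣ t
  · rw [if_pos h]
    have h1 : NN (RB z a) x q (∏ p ∈ S, p) β t = (Ioc (q * t - 1) (q * t - 1 + q)).filter
        (fun n => n ≡ β + q * t [MOD ∏ p ∈ S, p] ∧ n ∈ RB z a) := by
      ext n
      rw [mem_NN, mem_filter, mem_Ioc]
      constructor
      · rintro ⟨h1, h2, h3, h4⟩
        have h5 := mem_Ico.1 ((div_iff hq).1 h4)
        exact ⟨⟨by omega, by omega⟩, (modn _ _ _ _ _ h4).1 h3, h2⟩
      · rintro ⟨h1, h2, h3⟩
        have h4 : n / q = t := (div_iff hq).2 (mem_Ico.2 ⟨by omega, by omega⟩)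
        have h5 : q * (t + 1) ≤ x := by
          calc q * (t + 1) ≤ q * (x / q) := Nat.mul_le_mul_left q htU
            _ ≤ x := Nat.mul_div_le x q
        rw [mul_add, mul_one] at h5
        exact ⟨⟨by omega, by omega⟩, h3, (modn _ _ _ _ _ h4).2 h2, h4⟩
    rw [h1]
    exact hlaw t ht1 htU h
  · rw [if_neg h, sub_zero]
    push Not at h
    obtain ⟨p, hp, hpt⟩ := h
    have h1 : NN (RB z a) x q (∏ p ∈ S, p) β t = ∅ := by
      rw [eq_empty_iff_forall_notMem]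
      intro n hn
      obtain ⟨h1, h2, h3, h4⟩ := mem_NN.1 hn
      have h5 := (modn _ _ _ _ _ h4).1 h3
      have h6 : n ≡ β + q * t [MOD p] := h5.of_dvd (dvd_prod_of_mem _ hp)
      have h7 : β + q * t ≡ β + 0 [MOD p] :=
        Nat.ModEq.add_left β ((Nat.modEq_zero_iff_dvd).2 (hpt.mul_left q))
      have h8 : n ≡ a p [MOD p] := (h6.trans h7).trans (hβ p hp)
      have h9 := not_mem_R z a S hz hp (hS p hp) h8 h2
      have h10 := mem_Ico.1 ((div_iff hq).1 h4)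
      have h11 : q * 1 ≤ q * t := Nat.mul_le_mul_left q ht1
      omega
    rw [h1]
    simpa using hEr

end main

lemma Wt_nonneg (q t : ℕ) : 0 ≤ Wt q t := by
  refine sum_nonneg fun n hn => ?_
  have h1 := mem_Ioc.1 hn
  have h2 : (1 : ℝ) ≤ n := by exact_mod_cast (by omega : 1 ≤ n)
  have h3 := Real.log_nonneg h2
  positivity

lemma Wt_le (q t : ℕ) (hq : 3 ≤ q * t) : Wt q t ≤ q := by
  have h0 : ∀ n ∈ Ioc (q * t - 1) (q * t - 1 + q), 1 / Real.log n ≤ 1 := by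
    intro n hn
    have h1 := mem_Ioc.1 hn
    have h2 : (3 : ℝ) ≤ n := by exact_mod_cast (by omega : 3 ≤ n)
    have h3 : 1 ≤ Real.log n := by
      rw [Real.le_log_iff_exp_le (by linarith)]
      exact Real.exp_one_lt_three.le.trans h2
    rw [div_le_one (by linarith)]
    exact h3
  calc Wt q t ≤ ∑ _n ∈ Ioc (q * t - 1) (q * t - 1 + q), (1 : ℝ) := sum_le_sum h0
    _ = q := by simp

/-- the number of elements of a class up to `x` -/
lemma piR_le (R : Set ℕ) (x q b : ℕ) :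
    piR R x q b ≤ ((x / q : ℕ) : ℝ) + 1 := by
  classical
  rw [piR_eq]
  have h1 : ((Icc 1 x).filter (fun n => n ≡ b [MOD q] ∧ n ∈ R)).card ≤ x / q + 1 := by
    rw [← card_range (x / q + 1)]
    apply card_le_card_of_injOn (fun n => n / q)
    · intro n hn
      have h2 := mem_Icc.1 (mem_filter.1 (mem_coe.1 hn)).1
      exact mem_coe.2 (mem_range.2 (Nat.lt_succ_of_le (Nat.div_le_div_right h2.2)))
    · intro n hn m hm hnm
      have h2 := (mem_filter.1 (mem_coe.1 hn)).2.1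
      have h3 := (mem_filter.1 (mem_coe.1 hm)).2.1
      have h4 : n % q = m % q := h2.trans h3.symm
      rw [← Nat.mod_add_div n q, ← Nat.mod_add_div m q, h4]
      have h5 : n / q = m / q := hnm
      rw [h5]
  exact_mod_cast h1

lemma piR_one_le (R : Set ℕ) (x : ℕ) : piR R x 1 0 ≤ x := by
  classical
  rw [piR_eq]
  have h1 : ((Icc 1 x).filter (fun n => n ≡ 0 [MOD 1] ∧ n ∈ R)).card ≤ x := by
    refine (card_filter_le _ _).trans ?_
    simp
  exact_mod_cast h1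

/-- the real inequality at the end -/
lemma alg (P q U Er Er0 Δ sw sp cB Sg Mn pi1 fq F : ℝ) (hP : 1 ≤ P) (hPq : 4 * P ≤ q)
    (hU : 0 ≤ U)
    (hSg : |Sg - sp| ≤ U * Er + q / P + 2)
    (hcB : |cB - q / P| ≤ 1)
    (hsw0 : 0 ≤ sw) (hsw : sw ≤ U * q)
    (hΔ : Δ / P = sp - sw / P)
    (hpi : |pi1 - sw| ≤ Er0)
    (hMn : Mn = Sg - cB * (pi1 / (q - 1)))
    (hfq : |fq| ≤ 2 * U + 2)
    (hF : |Mn| ≤ F + |fq|) :
    (|Δ| - P * (U * Er + 8 * U + 6) - q - 4 * Er0) / P ≤ F := by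
  have hP0 : 0 < P := by linarith
  have hq0 : 0 < q := by linarith
  have hq1 : 0 < q - 1 := by linarith
  -- cB / (q - 1) is close to 1 / P
  have e1 : |cB / (q - 1) - 1 / P| ≤ 4 / q := by
    have h1 : cB / (q - 1) - 1 / P = ((cB - q / P) + 1 / P) / (q - 1) := by
      field_simp
      ring
    rw [h1, abs_div, abs_of_pos hq1, div_le_div_iff₀ hq1 hq0]
    have h2 : |cB - q / P + 1 / P| ≤ 2 := by
      have h3 : 1 / P ≤ 1 := by
        rw [div_le_one hP0]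
        exact hP
      have h4 : 0 ≤ 1 / P := by positivity
      rw [abs_le] at hcB ⊢
      constructor <;> linarith [hcB.1, hcB.2]
    nlinarith
  have e2 : |cB / (q - 1)| ≤ 4 / P := by
    have h1 : |cB / (q - 1)| ≤ |cB / (q - 1) - 1 / P| + |1 / P| := by
      have := abs_add_le (cB / (q - 1) - 1 / P) (1 / P)
      rwa [sub_add_cancel] at this
    have h2 : |1 / P| = 1 / P := abs_of_pos (by positivity)
    have h3 : 4 / q ≤ 1 / P := by
      rw [div_le_div_iff₀ hq0 hP0]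
      linarith
    have h4 : 4 / P = 1 / P + 1 / P + (1 / P + 1 / P) := by ring
    have h5 : 0 < 1 / P := by positivity
    linarith
  -- the main term
  have e3 : |cB * (pi1 / (q - 1)) - sw / P| ≤ 4 * U + 4 * Er0 / P := by
    have h1 : cB * (pi1 / (q - 1)) - sw / P =
        cB / (q - 1) * (pi1 - sw) + (cB / (q - 1) - 1 / P) * sw := by
      field_simp
      ring
    rw [h1]
    refine (abs_add_le _ _).trans ?_
    rw [abs_mul, abs_mul, abs_of_nonneg hsw0]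
    have h2 : |cB / (q - 1)| * |pi1 - sw| ≤ 4 / P * Er0 :=
      mul_le_mul e2 hpi (abs_nonneg _) (by positivity)
    have h3 : |cB / (q - 1) - 1 / P| * sw ≤ 4 / q * (U * q) :=
      mul_le_mul e1 hsw hsw0 (by positivity)
    have h4 : 4 / q * (U * q) = 4 * U := by
      field_simp
    have h5 : 4 / P * Er0 = 4 * Er0 / P := by ring
    linarith
  have e4 : |Δ / P - Mn| ≤ (U * Er + q / P + 2) + (4 * U + 4 * Er0 / P) := by
    have h1 : Δ / P - Mn = -(Sg - sp) + (cB * (pi1 / (q - 1)) - sw / P) := by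
      rw [hΔ, hMn]
      ring
    rw [h1]
    refine (abs_add_le _ _).trans ?_
    rw [abs_neg]
    linarith
  have e5 : |Δ / P| ≤ |Δ / P - Mn| + |Mn| := by
    have := abs_add_le (Δ / P - Mn) Mn
    rwa [sub_add_cancel] at this
  have e6 : |Δ / P| = |Δ| / P := by rw [abs_div, abs_of_pos hP0]
  have e7 : (|Δ| - P * (U * Er + 8 * U + 6) - q - 4 * Er0) / P =
      |Δ| / P - (U * Er + 8 * U + 6) - q / P - 4 * Er0 / P := by
    field_simp
  rw [e7]
  linarith

open Classical in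
/-- N1. A bad class from the average over the classes `≡ β mod ∏ S`. -/
theorem avg_lower (z a : ℕ → ℕ) (ha : ∀ p, p.Prime → a p < p) (x q : ℕ) (hq : q.Prime)
    (S : Finset ℕ) (hS : ∀ p ∈ S, p.Prime) (hS1 : S.Nonempty) (hqS : q ∉ S)
    (hPq : 4 * ∏ p ∈ S, p ≤ q) (hqx : 2 * q ≤ x)
    (hz : ∀ n, ∏ p ∈ S, p ≤ n → ∀ p ∈ S, p ≤ z n)
    (β : ℕ) (hβ : ∀ p ∈ S, β ≡ a p [MOD p]) (Er Er0 : ℝ) (hEr : 0 ≤ Er) (hEr0 : 0 ≤ Er0)
    (hlaw : ∀ t : ℕ, 1 ≤ t → t < x / q → (∀ p ∈ S, ¬ p ∣ t) →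
      |(((Ioc (q * t - 1) (q * t - 1 + q)).filter
        (fun n => n ≡ β + q * t [MOD ∏ p ∈ S, p] ∧ n ∈ RB z a)).card : ℝ) -
        Wt q t / Nat.totient (∏ p ∈ S, p)| ≤ Er)
    (hpi : |piR (RB z a) x 1 0 - ∑ t ∈ Ico 1 (x / q), Wt q t| ≤ Er0) :
    ∃ b < q, Red a q b ∧
      (|∑ t ∈ Ico 1 (x / q), Wt q t * dl S t| - (∏ p ∈ S, p : ℕ) * ((x / q : ℕ) * Er +
        8 * (x / q : ℕ) + 6) - q - 4 * Er0) / (2 * q) ≤
      |piR (RB z a) x q b - piR (RB z a) x 1 0 / Nat.totient q| := by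
  set R : Set ℕ := RB z a with hR
  set P : ℕ := ∏ p ∈ S, p with hPdef
  set U : ℕ := x / q with hUdef
  have hq0 : 0 < q := hq.pos
  have hP0 : 0 < P := prod_pos fun p hp => (hS p hp).pos
  have hP2 : 2 ≤ P := by
    obtain ⟨p, hp⟩ := hS1
    exact (hS p hp).two_le.trans (Nat.le_of_dvd hP0 (dvd_prod_of_mem _ hp))
  have hU2 : 2 ≤ U := (Nat.le_div_iff_mul_le hq0).2 hqx
  have hPR : (0 : ℝ) < P := by exact_mod_cast hP0
  have hqR : (0 : ℝ) < q := by exact_mod_cast hq0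
  have hPqR : 4 * (P : ℝ) ≤ q := by exact_mod_cast hPq
  have hv : ∀ p ∈ S, (1 - 1 / (p : ℝ)) ≠ 0 := by
    intro p hp
    have h1 : (2 : ℝ) ≤ p := by exact_mod_cast (hS p hp).two_le
    have h2 : 1 / (p : ℝ) ≤ 1 / 2 := one_div_le_one_div_of_le (by norm_num) h1
    intro h
    linarith
  have hv0 : ∏ p ∈ S, (1 - 1 / (p : ℝ)) ≠ 0 := prod_ne_zero_iff.2 hv
  have htot : (Nat.totient P : ℝ) = (P : ℝ) * ∏ p ∈ S, (1 - 1 / (p : ℝ)) := totP S hS
  -- the classes
  set B : Finset ℕ := (range q).filter (fun b => b ≡ β [MOD P]) with hBdef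
  have hcB : |(B.card : ℝ) - (q : ℝ) / P| ≤ 1 := by
    have h1 := cnt_mod P 0 q β hP0
    rw [zero_add, ← range_eq_Ico] at h1
    exact h1
  set f : ℕ → ℝ := fun b => piR R x q b - piR R x 1 0 / Nat.totient q with hf
  have hphiq : (Nat.totient q : ℝ) = (q : ℝ) - 1 := by
    rw [Nat.totient_prime hq, Nat.cast_sub hq.one_le, Nat.cast_one]
  have hq1 : (0 : ℝ) < (q : ℝ) - 1 := by
    have : (2 : ℝ) ≤ P := by exact_mod_cast hP2
    linarith
  set B1 : Finset ℕ := B.erase (a q) with hB1def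
  have haq : a q < q := ha q hq
  -- the sum over all classes
  have hMn : ∑ b ∈ B, f b = ((AA R x q P β).card : ℝ) -
      (B.card : ℝ) * (piR R x 1 0 / ((q : ℝ) - 1)) := by
    rw [hf, sum_sub_distrib, sum_piR R x q P β hq0, sum_const, nsmul_eq_mul, hphiq]
  have hpi1 : 0 ≤ piR R x 1 0 := piR_nonneg _ _ _ _
  have hfb : ∀ b < q, |f b| ≤ 2 * (U : ℝ) + 2 := by
    intro b hb
    have h1 := piR_le R x q b
    have h2 := piR_nonneg R x q b
    have h3 : piR R x 1 0 / Nat.totient q ≤ 2 * (U : ℝ) + 2 := by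
      rw [hphiq, div_le_iff₀ hq1]
      have h4 : (x : ℝ) ≤ q * ((U : ℝ) + 1) := by
        have h5 : x < q * (U + 1) := by
          have h5 : x % q + q * U = x := Nat.mod_add_div x q
          have h6 := Nat.mod_lt x hq0
          rw [mul_add, mul_one]
          omega
        exact_mod_cast h5.le
      have h5 := piR_one_le R x
      have h6 : (0 : ℝ) ≤ U := Nat.cast_nonneg _
      have h7 : (2 : ℝ) ≤ P := by exact_mod_cast hP2
      nlinarith
    have h4 : 0 ≤ piR R x 1 0 / Nat.totient q := by positivity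
    have h6 : (0 : ℝ) ≤ U := Nat.cast_nonneg _
    rw [hf, abs_le]
    constructor
    · simp only
      linarith
    · simp only
      linarith
  have hsplit : |∑ b ∈ B, f b| ≤ ∑ b ∈ B1, |f b| + |f (a q)| := by
    by_cases h : a q ∈ B
    · rw [← sum_erase_add B f h]
      exact (abs_add_le _ _).trans (add_le_add (abs_sum_le_sum_abs _ _) le_rfl)
    · rw [hB1def, erase_eq_of_notMem h]
      exact (abs_sum_le_sum_abs _ _).trans (le_add_of_nonneg_right (abs_nonneg _))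
  -- the two sums
  have hsp : |((AA R x q P β).card : ℝ) - ∑ t ∈ Ico 1 U,
      (if ∀ p ∈ S, ¬ p ∣ t then Wt q t / Nat.totient P else 0)| ≤
      (U : ℝ) * Er + (q : ℝ) / P + 2 := by
    rw [card_AA R x q P β (by omega)]
    have h0 := N0 z a x q S β hS hS1 hq0 hz hβ
    have h0' : (0 : ℝ) ≤ ((NN R x q P β 0).card : ℝ) := Nat.cast_nonneg _
    have hu := NU x q β P hP0 hq0 R U
    have hu' : (0 : ℝ) ≤ ((NN R x q P β U).card : ℝ) := Nat.cast_nonneg _
    have ht : |∑ t ∈ Ico 1 U, ((NN R x q P β t).card : ℝ) - ∑ t ∈ Ico 1 U,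
        (if ∀ p ∈ S, ¬ p ∣ t then Wt q t / Nat.totient P else 0)| ≤ (U : ℝ) * Er := by
      rw [← sum_sub_distrib]
      refine (abs_sum_le_sum_abs _ _).trans ?_
      calc ∑ t ∈ Ico 1 U, |((NN R x q P β t).card : ℝ) -
            (if ∀ p ∈ S, ¬ p ∣ t then Wt q t / Nat.totient P else 0)|
          ≤ ∑ _t ∈ Ico 1 U, Er := by
            refine sum_le_sum fun t ht => ?_
            have h1 := mem_Ico.1 ht
            exact Nt z a x q S β hS hPq hq0 hz hβ Er hEr hlaw t h1.1 h1.2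
        _ = ((U - 1 : ℕ) : ℝ) * Er := by
            rw [sum_const, Nat.card_Ico, nsmul_eq_mul]
        _ ≤ (U : ℝ) * Er := by
            apply mul_le_mul_of_nonneg_right _ hEr
            exact_mod_cast Nat.sub_le U 1
    rw [abs_le] at ht ⊢
    have hqP : (0 : ℝ) ≤ (q : ℝ) / P := by positivity
    constructor
    · linarith [ht.1]
    · linarith [ht.2]
  have hq3 : ∀ t ∈ Ico 1 U, 3 ≤ q * t := by
    intro t ht
    have h1 := (mem_Ico.1 ht).1
    have h2 : q * 1 ≤ q * t := Nat.mul_le_mul_left q h1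
    omega
  have hsw0 : 0 ≤ ∑ t ∈ Ico 1 U, Wt q t := sum_nonneg fun t _ => Wt_nonneg q t
  have hsw : ∑ t ∈ Ico 1 U, Wt q t ≤ (U : ℝ) * q := by
    calc ∑ t ∈ Ico 1 U, Wt q t ≤ ∑ _t ∈ Ico 1 U, (q : ℝ) :=
          sum_le_sum fun t ht => Wt_le q t (hq3 t ht)
      _ = ((U - 1 : ℕ) : ℝ) * q := by rw [sum_const, Nat.card_Ico, nsmul_eq_mul]
      _ ≤ (U : ℝ) * q := by
          apply mul_le_mul_of_nonneg_right _ hqR.le
          exact_mod_cast Nat.sub_le U 1
  have hΔ : (∑ t ∈ Ico 1 U, Wt q t * dl S t) / P = ∑ t ∈ Ico 1 U,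
      (if ∀ p ∈ S, ¬ p ∣ t then Wt q t / Nat.totient P else 0) -
      (∑ t ∈ Ico 1 U, Wt q t) / P := by
    rw [sum_div, sum_div, ← sum_sub_distrib]
    refine sum_congr rfl fun t _ => ?_
    rw [dl]
    split_ifs with h
    · rw [htot]
      field_simp
    · ring
  have hP1 : (1 : ℝ) ≤ P := by exact_mod_cast hP0
  have key := alg (P : ℝ) q U Er Er0 (∑ t ∈ Ico 1 U, Wt q t * dl S t) (∑ t ∈ Ico 1 U, Wt q t)
    (∑ t ∈ Ico 1 U, (if ∀ p ∈ S, ¬ p ∣ t then Wt q t / Nat.totient P else 0)) (B.card : ℝ)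
    ((AA R x q P β).card : ℝ) (∑ b ∈ B, f b) (piR R x 1 0) (f (a q)) (∑ b ∈ B1, |f b|)
    hP1 hPqR (Nat.cast_nonneg _) hsp hcB hsw0 hsw hΔ hpi hMn (hfb _ haq) hsplit
  -- the number of classes
  set M : ℝ := |∑ t ∈ Ico 1 U, Wt q t * dl S t| - (P : ℝ) * ((U : ℝ) * Er + 8 * (U : ℝ) + 6) - q -
    4 * Er0 with hM
  have hqP4 : 4 ≤ (q : ℝ) / P := by
    rw [le_div_iff₀ hPR]
    exact hPqR
  have hB3 : 3 ≤ (B.card : ℝ) := by
    have := (abs_le.1 hcB).1
    linarith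
  have hB1c : 1 ≤ B1.card := by
    have h1 : 3 ≤ B.card := by exact_mod_cast hB3
    have h2 : B.card - 1 ≤ B1.card := pred_card_le_card_erase
    omega
  have hB1c' : (B1.card : ℝ) ≤ 2 * q / P := by
    have h1 : (B1.card : ℝ) ≤ B.card := by exact_mod_cast card_erase_le
    have h2 := (abs_le.1 hcB).2
    have h3 : 2 * (q : ℝ) / P = q / P + q / P := by ring
    linarith
  obtain ⟨b, hb, hbM⟩ : ∃ b ∈ B1, M / (2 * q) ≤ |f b| := by
    apply exists_le_of_sum_le (card_pos.1 hB1c)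
    rw [sum_const, nsmul_eq_mul]
    rcases le_or_gt 0 M with h | h
    · refine le_trans ?_ key
      calc (B1.card : ℝ) * (M / (2 * q)) ≤ 2 * q / P * (M / (2 * q)) :=
            mul_le_mul_of_nonneg_right hB1c' (by positivity)
        _ = M / P := by field_simp
    · have h1 : M / (2 * q) ≤ 0 := div_nonpos_of_nonpos_of_nonneg h.le (by positivity)
      exact (mul_nonpos_of_nonneg_of_nonpos (Nat.cast_nonneg _) h1).trans
        (sum_nonneg fun _ _ => abs_nonneg _)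
  have hb1 := mem_erase.1 hb
  have hb2 := mem_filter.1 hb1.2
  refine ⟨b, mem_range.1 hb2.1, ?_, hbM⟩
  intro p hp hpq hbp
  have h1 : p = q := (Nat.prime_dvd_prime_iff_eq hp hq).1 hpq
  subst h1
  apply hb1.1
  have h2 := hbp
  rw [Nat.ModEq, Nat.mod_eq_of_lt (mem_range.1 hb2.1), Nat.mod_eq_of_lt haq] at h2
  exact h2

end Pool.Agent.H532.EH
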