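import Mathlib
import Pool.Agent.H532.EH.AvgLower

/-!
A refinement of `avg_lower` with a better treatment of the last window.
-/

namespace Pool.Agent.H532.EH

open Finset Filter
open Pool.Agent.H532.RM (RB)
open Pool.Agent.H532.SR (Red psiR)

open Classical in
lemma NU2 (z a : ℕ → ℕ) (x q : ℕ) (S : Finset ℕ) (β : ℕ)
    (hS : ∀ p ∈ S, p.Prime) (hPq : 4 * ∏ p ∈ S, p ≤ q) (hq : 0 < q)
    (hz : ∀ n, ∏ p ∈ S, p ≤ n → ∀ p ∈ S, p ≤ z n) (hβ : ∀ p ∈ S, β ≡ a p [MOD p]) (G : ℝ)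
    (hG0 : 0 ≤ G) (t : ℕ) (ht1 : 1 ≤ t)
    (hG : (∀ p ∈ S, ¬ p ∣ t) → (((Ioc (q * t - 1) (q * t - 1 + q)).filter
        (fun n => n ≡ β + q * t [MOD ∏ p ∈ S, p] ∧ n ∈ RB z a)).card : ℝ) ≤ G) :
    ((NN (RB z a) x q (∏ p ∈ S, p) β t).card : ℝ) ≤ G := by
  have hqt : 1 ≤ q * t := Nat.mul_pos hq ht1
  by_cases h : ∀ p ∈ S, ¬ p ∣ t
  · refine le_trans ?_ (hG h)
    have h1 : NN (RB z a) x q (∏ p ∈ S, p) β t ⊆ (Ioc (q * t - 1) (q * t - 1 + q)).filter
        (fun n => n ≡ β + q * t [MOD ∏ p ∈ S, p] ∧ n ∈ RB z a) := by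
      intro n hn
      rw [mem_filter, mem_Ioc]
      obtain ⟨h1, h2, h3, h4⟩ := mem_NN.1 hn
      have h5 := mem_Ico.1 ((div_iff hq).1 h4)
      exact ⟨⟨by omega, by omega⟩, (modn _ _ _ _ _ h4).1 h3, h2⟩
    exact_mod_cast card_le_card h1
  · push Not at h
    obtain ⟨p, hp, hpt⟩ := h
    have h1 : NN (RB z a) x q (∏ p ∈ S, p) β t = ∅ := by
      rw [eq_empty_iff_forall_notMem]
      intro n hn
      obtain ⟨h1, h2, h3, h4⟩ := mem_NN.1 hn
      have h5 := (modn _ _ _ _ _ h4).1 h3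
      have h6 : n ≡ β + q * t [MOD p] := h5.of_dvd (dvd_prod_of_mem _ hp)
      have h7 : β + q * t ≡ β + 0 [MOD p] :=
        Nat.ModEq.add_left β ((Nat.modEq_zero_iff_dvd).2 (hpt.mul_left q))
      have h8 : n ≡ a p [MOD p] := (h6.trans h7).trans (hβ p hp)
      have h9 := not_mem_R z a S hz hp (hS p hp) h8 h2
      have h10 := mem_Ico.1 ((div_iff hq).1 h4)
      have h11 : q * 1 ≤ q * t := Nat.mul_le_mul_left q ht1
      omega
    rw [h1]
    simpa using hG0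

/-- the real inequality at the end -/
lemma alg2 (P q U Er Er0 G Δ sw sp cB Sg Mn pi1 fq F : ℝ) (hP : 1 ≤ P) (hPq : 4 * P ≤ q)
    (hU : 0 ≤ U)
    (hSg : |Sg - sp| ≤ U * Er + G + 2)
    (hcB : |cB - q / P| ≤ 1)
    (hsw0 : 0 ≤ sw) (hsw : sw ≤ U * q)
    (hΔ : Δ / P = sp - sw / P)
    (hpi : |pi1 - sw| ≤ Er0)
    (hMn : Mn = Sg - cB * (pi1 / (q - 1)))
    (hfq : |fq| ≤ 2 * U + 2)
    (hF : |Mn| ≤ F + |fq|) :
    (|Δ| - P * (U * Er + 8 * U + 6) - P * G - 4 * Er0) / P ≤ F := by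
  have hP0 : 0 < P := by linarith
  have hq0 : 0 < q := by linarith
  have hq1 : 0 < q - 1 := by linarith
  -- cB / (q - 1) is close to 1 / P
  have e1 : |cB / (q - 1) - 1 / P| ≤ 4 / q := by
    have h1 : cB / (q - 1) - 1 / P = ((cB - q / P) + 1 / P) / (q - 1) := by
      field_simp
      ring
    rw [h1, abs_div, abs_of_pos hq1, div_le_div_iff₀ hq1 hq0]
    have h2 : |cB - q / P + 1 / P| ≤ 2 := by
      have h3 : 1 / P ≤ 1 := by
        rw [div_le_one hP0]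
        exact hP
      have h4 : 0 ≤ 1 / P := by positivity
      rw [abs_le] at hcB ⊢
      constructor <;> linarith [hcB.1, hcB.2]
    nlinarith
  have e2 : |cB / (q - 1)| ≤ 4 / P := by
    have h1 : |cB / (q - 1)| ≤ |cB / (q - 1) - 1 / P| + |1 / P| := by
      have := abs_add_le (cB / (q - 1) - 1 / P) (1 / P)
      rwa [sub_add_cancel] at this
    have h2 : |1 / P| = 1 / P := abs_of_pos (by positivity)
    have h3 : 4 / q ≤ 1 / P := by
      rw [div_le_div_iff₀ hq0 hP0]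
      linarith
    have h4 : 4 / P = 1 / P + 1 / P + (1 / P + 1 / P) := by ring
    have h5 : 0 < 1 / P := by positivity
    linarith
  -- the main term
  have e3 : |cB * (pi1 / (q - 1)) - sw / P| ≤ 4 * U + 4 * Er0 / P := by
    have h1 : cB * (pi1 / (q - 1)) - sw / P =
        cB / (q - 1) * (pi1 - sw) + (cB / (q - 1) - 1 / P) * sw := by
      field_simp
      ring
    rw [h1]
    refine (abs_add_le _ _).trans ?_
    rw [abs_mul, abs_mul, abs_of_nonneg hsw0]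
    have h2 : |cB / (q - 1)| * |pi1 - sw| ≤ 4 / P * Er0 :=
      mul_le_mul e2 hpi (abs_nonneg _) (by positivity)
    have h3 : |cB / (q - 1) - 1 / P| * sw ≤ 4 / q * (U * q) :=
      mul_le_mul e1 hsw hsw0 (by positivity)
    have h4 : 4 / q * (U * q) = 4 * U := by
      field_simp
    have h5 : 4 / P * Er0 = 4 * Er0 / P := by ring
    linarith
  have e4 : |Δ / P - Mn| ≤ (U * Er + G + 2) + (4 * U + 4 * Er0 / P) := by
    have h1 : Δ / P - Mn = -(Sg - sp) + (cB * (pi1 / (q - 1)) - sw / P) := by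
      rw [hΔ, hMn]
      ring
    rw [h1]
    refine (abs_add_le _ _).trans ?_
    rw [abs_neg]
    linarith
  have e5 : |Δ / P| ≤ |Δ / P - Mn| + |Mn| := by
    have := abs_add_le (Δ / P - Mn) Mn
    rwa [sub_add_cancel] at this
  have e6 : |Δ / P| = |Δ| / P := by rw [abs_div, abs_of_pos hP0]
  have e7 : (|Δ| - P * (U * Er + 8 * U + 6) - P * G - 4 * Er0) / P =
      |Δ| / P - (U * Er + 8 * U + 6) - G - 4 * Er0 / P := by
    field_simp
  rw [e7]
  linarith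

open Classical in
/-- N1. A bad class from the average over the classes `≡ β mod ∏ S`. -/
theorem avg_lower2 (z a : ℕ → ℕ) (ha : ∀ p, p.Prime → a p < p) (x q : ℕ) (hq : q.Prime)
    (S : Finset ℕ) (hS : ∀ p ∈ S, p.Prime) (hS1 : S.Nonempty) (hqS : q ∉ S)
    (hPq : 4 * ∏ p ∈ S, p ≤ q) (hqx : 2 * q ≤ x)
    (hz : ∀ n, ∏ p ∈ S, p ≤ n → ∀ p ∈ S, p ≤ z n)
    (β : ℕ) (hβ : ∀ p ∈ S, β ≡ a p [MOD p]) (Er Er0 G : ℝ) (hEr : 0 ≤ Er) (hG0 : 0 ≤ G)
    (hG : (∀ p ∈ S, ¬ p ∣ x / q) → (((Ioc (q * (x / q) - 1) (q * (x / q) - 1 + q)).filter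
        (fun n => n ≡ β + q * (x / q) [MOD ∏ p ∈ S, p] ∧ n ∈ RB z a)).card : ℝ) ≤ G)
    (hlaw : ∀ t : ℕ, 1 ≤ t → t < x / q → (∀ p ∈ S, ¬ p ∣ t) →
      |(((Ioc (q * t - 1) (q * t - 1 + q)).filter
        (fun n => n ≡ β + q * t [MOD ∏ p ∈ S, p] ∧ n ∈ RB z a)).card : ℝ) -
        Wt q t / Nat.totient (∏ p ∈ S, p)| ≤ Er)
    (hpi : |piR (RB z a) x 1 0 - ∑ t ∈ Ico 1 (x / q), Wt q t| ≤ Er0) :
    ∃ b < q, Red a q b ∧
      (|∑ t ∈ Ico 1 (x / q), Wt q t * dl S t| - (∏ p ∈ S, p : ℕ) * ((x / q : ℕ) * Er +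
        8 * (x / q : ℕ) + 6) - (∏ p ∈ S, p : ℕ) * G - 4 * Er0) / (2 * q) ≤
      |piR (RB z a) x q b - piR (RB z a) x 1 0 / Nat.totient q| := by
  set R : Set ℕ := RB z a with hR
  set P : ℕ := ∏ p ∈ S, p with hPdef
  set U : ℕ := x / q with hUdef
  have hq0 : 0 < q := hq.pos
  have hP0 : 0 < P := prod_pos fun p hp => (hS p hp).pos
  have hP2 : 2 ≤ P := by
    obtain ⟨p, hp⟩ := hS1
    exact (hS p hp).two_le.trans (Nat.le_of_dvd hP0 (dvd_prod_of_mem _ hp))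
  have hU2 : 2 ≤ U := (Nat.le_div_iff_mul_le hq0).2 hqx
  have hPR : (0 : ℝ) < P := by exact_mod_cast hP0
  have hqR : (0 : ℝ) < q := by exact_mod_cast hq0
  have hPqR : 4 * (P : ℝ) ≤ q := by exact_mod_cast hPq
  have hv : ∀ p ∈ S, (1 - 1 / (p : ℝ)) ≠ 0 := by
    intro p hp
    have h1 : (2 : ℝ) ≤ p := by exact_mod_cast (hS p hp).two_le
    have h2 : 1 / (p : ℝ) ≤ 1 / 2 := one_div_le_one_div_of_le (by norm_num) h1
    intro h
    linarith
  have hv0 : ∏ p ∈ S, (1 - 1 / (p : ℝ)) ≠ 0 := prod_ne_zero_iff.2 hv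
  have htot : (Nat.totient P : ℝ) = (P : ℝ) * ∏ p ∈ S, (1 - 1 / (p : ℝ)) := totP S hS
  -- the classes
  set B : Finset ℕ := (range q).filter (fun b => b ≡ β [MOD P]) with hBdef
  have hcB : |(B.card : ℝ) - (q : ℝ) / P| ≤ 1 := by
    have h1 := cnt_mod P 0 q β hP0
    rw [zero_add, ← range_eq_Ico] at h1
    exact h1
  set f : ℕ → ℝ := fun b => piR R x q b - piR R x 1 0 / Nat.totient q with hf
  have hphiq : (Nat.totient q : ℝ) = (q : ℝ) - 1 := by
    rw [Nat.totient_prime hq, Nat.cast_sub hq.one_le, Nat.cast_one]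
  have hq1 : (0 : ℝ) < (q : ℝ) - 1 := by
    have : (2 : ℝ) ≤ P := by exact_mod_cast hP2
    linarith
  set B1 : Finset ℕ := B.erase (a q) with hB1def
  have haq : a q < q := ha q hq
  -- the sum over all classes
  have hMn : ∑ b ∈ B, f b = ((AA R x q P β).card : ℝ) -
      (B.card : ℝ) * (piR R x 1 0 / ((q : ℝ) - 1)) := by
    rw [hf, sum_sub_distrib, sum_piR R x q P β hq0, sum_const, nsmul_eq_mul, hphiq]
  have hpi1 : 0 ≤ piR R x 1 0 := piR_nonneg _ _ _ _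
  have hfb : ∀ b < q, |f b| ≤ 2 * (U : ℝ) + 2 := by
    intro b hb
    have h1 := piR_le R x q b
    have h2 := piR_nonneg R x q b
    have h3 : piR R x 1 0 / Nat.totient q ≤ 2 * (U : ℝ) + 2 := by
      rw [hphiq, div_le_iff₀ hq1]
      have h4 : (x : ℝ) ≤ q * ((U : ℝ) + 1) := by
        have h5 : x < q * (U + 1) := by
          have h5 : x % q + q * U = x := Nat.mod_add_div x q
          have h6 := Nat.mod_lt x hq0
          rw [mul_add, mul_one]
          omega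
        exact_mod_cast h5.le
      have h5 := piR_one_le R x
      have h6 : (0 : ℝ) ≤ U := Nat.cast_nonneg _
      have h7 : (2 : ℝ) ≤ P := by exact_mod_cast hP2
      nlinarith
    have h4 : 0 ≤ piR R x 1 0 / Nat.totient q := by positivity
    have h6 : (0 : ℝ) ≤ U := Nat.cast_nonneg _
    rw [hf, abs_le]
    constructor
    · simp only
      linarith
    · simp only
      linarith
  have hsplit : |∑ b ∈ B, f b| ≤ ∑ b ∈ B1, |f b| + |f (a q)| := by
    by_cases h : a q ∈ B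
    · rw [← sum_erase_add B f h]
      exact (abs_add_le _ _).trans (add_le_add (abs_sum_le_sum_abs _ _) le_rfl)
    · rw [hB1def, erase_eq_of_notMem h]
      exact (abs_sum_le_sum_abs _ _).trans (le_add_of_nonneg_right (abs_nonneg _))
  -- the two sums
  have hsp : |((AA R x q P β).card : ℝ) - ∑ t ∈ Ico 1 U,
      (if ∀ p ∈ S, ¬ p ∣ t then Wt q t / Nat.totient P else 0)| ≤
      (U : ℝ) * Er + G + 2 := by
    rw [card_AA R x q P β (by omega)]
    have h0 := N0 z a x q S β hS hS1 hq0 hz hβ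
    have h0' : (0 : ℝ) ≤ ((NN R x q P β 0).card : ℝ) := Nat.cast_nonneg _
    have hu := NU2 z a x q S β hS hPq hq0 hz hβ G hG0 U (by omega) hG
    have hu' : (0 : ℝ) ≤ ((NN R x q P β U).card : ℝ) := Nat.cast_nonneg _
    have ht : |∑ t ∈ Ico 1 U, ((NN R x q P β t).card : ℝ) - ∑ t ∈ Ico 1 U,
        (if ∀ p ∈ S, ¬ p ∣ t then Wt q t / Nat.totient P else 0)| ≤ (U : ℝ) * Er := by
      rw [← sum_sub_distrib]
      refine (abs_sum_le_sum_abs _ _).trans ?_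
      calc ∑ t ∈ Ico 1 U, |((NN R x q P β t).card : ℝ) -
            (if ∀ p ∈ S, ¬ p ∣ t then Wt q t / Nat.totient P else 0)|
          ≤ ∑ _t ∈ Ico 1 U, Er := by
            refine sum_le_sum fun t ht => ?_
            have h1 := mem_Ico.1 ht
            exact Nt z a x q S β hS hPq hq0 hz hβ Er hEr hlaw t h1.1 h1.2
        _ = ((U - 1 : ℕ) : ℝ) * Er := by
            rw [sum_const, Nat.card_Ico, nsmul_eq_mul]
        _ ≤ (U : ℝ) * Er := by
            apply mul_le_mul_of_nonneg_right _ hEr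
            exact_mod_cast Nat.sub_le U 1
    rw [abs_le] at ht ⊢
    have hqP : (0 : ℝ) ≤ (q : ℝ) / P := by positivity
    constructor
    · linarith [ht.1]
    · linarith [ht.2]
  have hq3 : ∀ t ∈ Ico 1 U, 3 ≤ q * t := by
    intro t ht
    have h1 := (mem_Ico.1 ht).1
    have h2 : q * 1 ≤ q * t := Nat.mul_le_mul_left q h1
    omega
  have hsw0 : 0 ≤ ∑ t ∈ Ico 1 U, Wt q t := sum_nonneg fun t _ => Wt_nonneg q t
  have hsw : ∑ t ∈ Ico 1 U, Wt q t ≤ (U : ℝ) * q := by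
    calc ∑ t ∈ Ico 1 U, Wt q t ≤ ∑ _t ∈ Ico 1 U, (q : ℝ) :=
          sum_le_sum fun t ht => Wt_le q t (hq3 t ht)
      _ = ((U - 1 : ℕ) : ℝ) * q := by rw [sum_const, Nat.card_Ico, nsmul_eq_mul]
      _ ≤ (U : ℝ) * q := by
          apply mul_le_mul_of_nonneg_right _ hqR.le
          exact_mod_cast Nat.sub_le U 1
  have hΔ : (∑ t ∈ Ico 1 U, Wt q t * dl S t) / P = ∑ t ∈ Ico 1 U,
      (if ∀ p ∈ S, ¬ p ∣ t then Wt q t / Nat.totient P else 0) -
      (∑ t ∈ Ico 1 U, Wt q t) / P := by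
    rw [sum_div, sum_div, ← sum_sub_distrib]
    refine sum_congr rfl fun t _ => ?_
    rw [dl]
    split_ifs with h
    · rw [htot]
      field_simp
    · ring
  have hP1 : (1 : ℝ) ≤ P := by exact_mod_cast hP0
  have key := alg2 (P : ℝ) q U Er Er0 G (∑ t ∈ Ico 1 U, Wt q t * dl S t) (∑ t ∈ Ico 1 U, Wt q t)
    (∑ t ∈ Ico 1 U, (if ∀ p ∈ S, ¬ p ∣ t then Wt q t / Nat.totient P else 0)) (B.card : ℝ)
    ((AA R x q P β).card : ℝ) (∑ b ∈ B, f b) (piR R x 1 0) (f (a q)) (∑ b ∈ B1, |f b|)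
    hP1 hPqR (Nat.cast_nonneg _) hsp hcB hsw0 hsw hΔ hpi hMn (hfb _ haq) hsplit
  -- the number of classes
  set M : ℝ := |∑ t ∈ Ico 1 U, Wt q t * dl S t| - (P : ℝ) * ((U : ℝ) * Er + 8 * (U : ℝ) + 6) -
    P * G - 4 * Er0 with hM
  have hqP4 : 4 ≤ (q : ℝ) / P := by
    rw [le_div_iff₀ hPR]
    exact hPqR
  have hB3 : 3 ≤ (B.card : ℝ) := by
    have := (abs_le.1 hcB).1
    linarith
  have hB1c : 1 ≤ B1.card := by
    have h1 : 3 ≤ B.card := by exact_mod_cast hB3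
    have h2 : B.card - 1 ≤ B1.card := pred_card_le_card_erase
    omega
  have hB1c' : (B1.card : ℝ) ≤ 2 * q / P := by
    have h1 : (B1.card : ℝ) ≤ B.card := by exact_mod_cast card_erase_le
    have h2 := (abs_le.1 hcB).2
    have h3 : 2 * (q : ℝ) / P = q / P + q / P := by ring
    linarith
  obtain ⟨b, hb, hbM⟩ : ∃ b ∈ B1, M / (2 * q) ≤ |f b| := by
    apply exists_le_of_sum_le (card_pos.1 hB1c)
    rw [sum_const, nsmul_eq_mul]
    rcases le_or_gt 0 M with h | h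
    · refine le_trans ?_ key
      calc (B1.card : ℝ) * (M / (2 * q)) ≤ 2 * q / P * (M / (2 * q)) :=
            mul_le_mul_of_nonneg_right hB1c' (by positivity)
        _ = M / P := by field_simp
    · have h1 : M / (2 * q) ≤ 0 := div_nonpos_of_nonpos_of_nonneg h.le (by positivity)
      exact (mul_nonpos_of_nonneg_of_nonpos (Nat.cast_nonneg _) h1).trans
        (sum_nonneg fun _ _ => abs_nonneg _)
  have hb1 := mem_erase.1 hb
  have hb2 := mem_filter.1 hb1.2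
  refine ⟨b, mem_range.1 hb2.1, ?_, hbM⟩
  intro p hp hpq hbp
  have h1 : p = q := (Nat.prime_dvd_prime_iff_eq hp hq).1 hpq
  subst h1
  apply hb1.1
  have h2 := hbp
  rw [Nat.ModEq, Nat.mod_eq_of_lt (mem_range.1 hb2.1), Nat.mod_eq_of_lt haq] at h2
  exact h2

end Pool.Agent.H532.EH
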