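import Mathlib
import Pool.Agent.H532.RM.AP5
import Pool.Agent.H532.RM.CSA

/-!
Concentration in all progressions with polynomial precision in `j`.
-/

namespace Pool.Agent.H532.EH

open Finset MeasureTheory Function ProbabilityTheory Filter Pool.Agent.H532.RM
open scoped Topology ENNReal

/-- one progression -/
lemma one_prog (B : ℕ) {C' : ℝ} (hC' : 0 < C') (hKb : ∀ w Z U q j : ℕ, 4 ≤ w → 0 < q →
      q < 2 ^ (j + 3) → 2 * (j + 3) ≤ w → 1 ≤ j →
      KK 1 (fun p => (U : ℝ) / p + 1) ((Qs q Z).filter (fun p => w < p)) ≤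
        1 + C' * (U * V Z * (Real.log w / w)) ∧
      ∀ p ∈ (Qs q Z).filter (fun p => w < p),
        uu 1 ((Qs q Z).filter (fun p => w < p)) p * ((U : ℝ) / p + 1) ≤
        1 + C' * (U * V Z * (Real.log w / w)))
    {j w : ℕ} (hj : 16 ≤ j) (hw : w = j ^ (2 * B + 3))
    (hlog : 160 * ((j : ℝ) + 5) * (j : ℝ) ^ (2 * B) * C' * Real.log w ≤ w)
    {Ω : Type} [MeasurableSpace Ω] {μ : Measure Ω} [IsProbabilityMeasure μ] {A : ℕ → Ω → ℕ}
    (hA : RandomClasses μ A) {q m U Z : ℕ} (hq : 0 < q) (hq2 : q < 2 ^ (j + 3))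
    (hU : j ^ (2 * B + 3) ≤ U) (hZ : w ≤ Z) :
    μ {ω | (U : ℝ) / j ^ B ≤ |((Sq (fun p => A p ω) (Qs q Z) q m U).card : ℝ) -
        Vq q Z / Vq q w * (Sq (fun p => A p ω) (Qs q w) q m U).card|} ≤
      ENNReal.ofReal (2 * Real.exp (-(5 * ((j : ℝ) + 5)))) := by
  have hjr : (16 : ℝ) ≤ j := by exact_mod_cast hj
  have hj0 : (0 : ℝ) < j := by linarith
  have hjB : (1 : ℝ) ≤ (j : ℝ) ^ B := one_le_pow₀ (by linarith)
  have hjB0 : (0 : ℝ) < (j : ℝ) ^ B := by linarith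
  have hw3 : j ^ 3 ≤ w := by
    rw [hw]; exact Nat.pow_le_pow_right (by omega) (by omega)
  have hw4 : 2 * (j + 3) ≤ w := by
    have h1 : 16 * 16 * j ≤ j * j * j := by gcongr
    have h2 : j * j * j = j ^ 3 := by ring
    omega
  have hwpos : (0 : ℝ) < w := by
    have : 0 < w := by omega
    exact_mod_cast this
  have hlw : 0 ≤ Real.log w := Real.log_natCast_nonneg w
  obtain ⟨k1, k2⟩ := hKb w Z U q j (by omega) hq hq2 hw4 (by omega)
  set Kh : ℝ := 1 + C' * (U * (Real.log w / w)) with hKh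
  have hU0 : (0 : ℝ) ≤ U := Nat.cast_nonneg U
  have hKh1 : 1 ≤ Kh := by
    rw [hKh]
    have : 0 ≤ C' * (U * (Real.log w / w)) := by positivity
    linarith
  have hle : 1 + C' * (U * V Z * (Real.log w / w)) ≤ Kh := by
    rw [hKh]
    have h1 := V_le_one Z
    have h2 := (V_pos Z).le
    have : (U : ℝ) * V Z ≤ U := by nlinarith
    gcongr
  set θ : ℝ := 1 / (8 * (j : ℝ) ^ B * Kh) with hθ
  have hθ0 : 0 ≤ θ := by positivity
  have hθK : 4 * θ * Kh = 1 / (2 * (j : ℝ) ^ B) := by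
    rw [hθ]; field_simp; ring
  have h4θ : 4 * θ * Kh ≤ 1 := by
    rw [hθK, div_le_one (by positivity)]; linarith
  have hVw := Vq_pos q w
  have hM : ∀ a, Vq q Z / Vq q w * (Sq a (Qs q w) q m U).card ≤ (U : ℝ) := by
    intro a
    have h1 : Vq q Z / Vq q w ≤ 1 := by
      rw [div_le_one hVw]; exact Vq_anti q hZ
    have h2 : ((Sq a (Qs q w) q m U).card : ℝ) ≤ U := by
      have : (Sq a (Qs q w) q m U).card ≤ (Ioc 0 U).card := card_filter_le _ _
      rw [Nat.card_Ioc] at this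
      exact_mod_cast this
    have h3 : 0 ≤ Vq q Z / Vq q w := div_nonneg (Vq_pos q Z).le hVw.le
    calc Vq q Z / Vq q w * (Sq a (Qs q w) q m U).card ≤ 1 * U := by gcongr
      _ = U := one_mul _
  have htail := tailq hA q m w Z (by omega) hZ U Kh (k1.trans hle)
    (fun p hp => (k2 p hp).trans hle) θ hθ0 h4θ (U / (j : ℝ) ^ B) U hM
  refine htail.trans (ENNReal.ofReal_le_ofReal ?_)
  have hexp : 5 * ((j : ℝ) + 5) ≤ θ * (U / (j : ℝ) ^ B - 4 * θ * Kh * U) := by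
    rw [hθK]
    have e1 : (U : ℝ) / (j : ℝ) ^ B - 1 / (2 * (j : ℝ) ^ B) * U = U / (2 * (j : ℝ) ^ B) := by
      field_simp; ring
    rw [e1]
    have e2 : θ * (U / (2 * (j : ℝ) ^ B)) = U / (16 * (j : ℝ) ^ (2 * B) * Kh) := by
      rw [hθ, two_mul B, pow_add]; field_simp; ring
    rw [e2, le_div_iff₀ (by positivity)]
    have hUr : (j : ℝ) ^ (2 * B) * j ^ 3 ≤ U := by
      have : ((j ^ (2 * B + 3) : ℕ) : ℝ) ≤ U := by exact_mod_cast hU
      push_cast at this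
      rwa [pow_add] at this
    have hj2B : 0 ≤ (j : ℝ) ^ (2 * B) := by positivity
    have h1 : 5 * ((j : ℝ) + 5) * (16 * (j : ℝ) ^ (2 * B)) ≤ U / 2 := by
      have h2 : 160 * ((j : ℝ) + 5) ≤ j ^ 3 := by
        have h3 : (256 : ℝ) ≤ (j : ℝ) ^ 2 := by nlinarith
        have h4 : 256 * (j : ℝ) ≤ (j : ℝ) ^ 2 * j := by gcongr
        have h5 : (j : ℝ) ^ 2 * j = j ^ 3 := by ring
        linarith
      have h3 : 160 * ((j : ℝ) + 5) * (j : ℝ) ^ (2 * B) ≤ j ^ 3 * (j : ℝ) ^ (2 * B) := by gcongr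
      linarith
    have h2 : 5 * ((j : ℝ) + 5) * (16 * (j : ℝ) ^ (2 * B)) * (C' * (U * (Real.log w / w))) ≤
        U / 2 := by
      have e3 : 5 * ((j : ℝ) + 5) * (16 * (j : ℝ) ^ (2 * B)) * (C' * (U * (Real.log w / w))) =
          (160 * ((j : ℝ) + 5) * (j : ℝ) ^ (2 * B) * C' * Real.log w / w) * (U / 2) := by
        field_simp; ring
      rw [e3]
      have h3 : 160 * ((j : ℝ) + 5) * (j : ℝ) ^ (2 * B) * C' * Real.log w / w ≤ 1 := by
        rw [div_le_one hwpos]; exact hlog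
      calc _ ≤ 1 * ((U : ℝ) / 2) := by gcongr
        _ = U / 2 := one_mul _
    calc 5 * ((j : ℝ) + 5) * (16 * (j : ℝ) ^ (2 * B) * Kh) =
        5 * ((j : ℝ) + 5) * (16 * (j : ℝ) ^ (2 * B)) +
        5 * ((j : ℝ) + 5) * (16 * (j : ℝ) ^ (2 * B)) * (C' * (U * (Real.log w / w))) := by
          rw [hKh]; ring
      _ ≤ U / 2 + U / 2 := add_le_add h1 h2
      _ = U := by ring
  gcongr

theorem concE (B : ℕ) {Ω : Type} [MeasurableSpace Ω] (μ : Measure Ω) [IsProbabilityMeasure μ]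
    (A : ℕ → Ω → ℕ) (hA : RandomClasses μ A) :
    ∀ᵐ ω ∂μ, ∀ᶠ j : ℕ in atTop, ∀ q, 0 < q → q < 2 ^ (j + 3) → ∀ m < 2 ^ (j + 3),
      ∀ U < 2 ^ (j + 3), j ^ (2 * B + 3) ≤ U → ∀ Z < 2 ^ (j + 3), j ^ (2 * B + 3) ≤ Z →
      |((Sq (fun p => A p ω) (Qs q Z) q m U).card : ℝ) - Vq q Z / Vq q (j ^ (2 * B + 3)) *
        (Sq (fun p => A p ω) (Qs q (j ^ (2 * B + 3))) q m U).card| ≤ U / (j : ℝ) ^ B := by
  classical
  obtain ⟨C', hC', hKb⟩ := KbQ
  set F : ℕ → Finset ℕ := fun j => (range (2 ^ (j + 3))).filter (fun U => j ^ (2 * B + 3) ≤ U)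
    with hF
  set Gq : ℕ → Finset ℕ := fun j => (range (2 ^ (j + 3))).filter (fun q => 0 < q) with hGq
  set E : ℕ → ℕ → ℕ → ℕ → ℕ → Set Ω := fun j q m U Z =>
    {ω | (U : ℝ) / (j : ℝ) ^ B ≤ |((Sq (fun p => A p ω) (Qs q Z) q m U).card : ℝ) -
        Vq q Z / Vq q (j ^ (2 * B + 3)) *
        (Sq (fun p => A p ω) (Qs q (j ^ (2 * B + 3))) q m U).card|} with hE
  have hlog : ∀ᶠ j : ℕ in atTop, 160 * ((j : ℝ) + 5) * (j : ℝ) ^ (2 * B) * C' *
      Real.log ((j ^ (2 * B + 3) : ℕ) : ℝ) ≤ ((j ^ (2 * B + 3) : ℕ) : ℝ) := by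
    have h1 := ((Real.isLittleO_log_id_atTop.comp_tendsto
      (tendsto_natCast_atTop_atTop (R := ℝ))).bound
        (show (0 : ℝ) < 1 / (320 * C' * (2 * B + 3)) by positivity))
    filter_upwards [h1, eventually_ge_atTop 16] with j h2 h3
    have hjr : (16 : ℝ) ≤ j := by exact_mod_cast h3
    simp only [comp_apply, id_eq, Real.norm_eq_abs] at h2
    rw [abs_of_nonneg (Real.log_natCast_nonneg j), abs_of_nonneg (by positivity)] at h2
    push_cast
    rw [Real.log_pow]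
    push_cast
    have h4 : 320 * C' * (2 * (B : ℝ) + 3) * Real.log j ≤ j := by
      have h5 := mul_le_mul_of_nonneg_left h2
        (by positivity : (0 : ℝ) ≤ 320 * C' * (2 * (B : ℝ) + 3))
      have e : 320 * C' * (2 * (B : ℝ) + 3) * (1 / (320 * C' * (2 * B + 3)) * (j : ℝ)) = j := by
        field_simp
      rwa [e] at h5
    have hl : 0 ≤ Real.log j := Real.log_natCast_nonneg j
    have h6 : (j : ℝ) + 5 ≤ 2 * j := by linarith
    calc 160 * ((j : ℝ) + 5) * (j : ℝ) ^ (2 * B) * C' * ((2 * (B : ℝ) + 3) * Real.log j) ≤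
        160 * (2 * j) * (j : ℝ) ^ (2 * B) * C' * ((2 * (B : ℝ) + 3) * Real.log j) := by gcongr
      _ = (j * (j : ℝ) ^ (2 * B)) * (320 * C' * (2 * (B : ℝ) + 3) * Real.log j) := by ring
      _ ≤ (j * (j : ℝ) ^ (2 * B)) * j := by gcongr
      _ = (j : ℝ) ^ (2 * B) * j ^ 2 * 1 := by ring
      _ ≤ (j : ℝ) ^ (2 * B) * j ^ 2 * j := by gcongr; linarith
      _ = (j : ℝ) ^ (2 * B + 3) := by ring
  have hmeas : ∀ᶠ j : ℕ in atTop,
      μ (⋃ q ∈ Gq j, ⋃ m ∈ range (2 ^ (j + 3)), ⋃ U ∈ F j, ⋃ Z ∈ F j, E j q m U Z) ≤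
        ENNReal.ofReal ((1 / 2 : ℝ) ^ j) := by
    filter_upwards [hlog, eventually_ge_atTop 16] with j h1 h5
    have hone : ∀ q ∈ Gq j, ∀ m ∈ range (2 ^ (j + 3)), ∀ U ∈ F j, ∀ Z ∈ F j, μ (E j q m U Z) ≤
        ENNReal.ofReal (2 * Real.exp (-(5 * ((j : ℝ) + 5)))) := by
      intro q hq m _ U hU Z hZ
      have hq' := mem_filter.1 hq
      exact one_prog B hC' hKb h5 rfl h1 hA hq'.2 (mem_range.1 hq'.1) (mem_filter.1 hU).2
        (mem_filter.1 hZ).2
    calc μ (⋃ q ∈ Gq j, ⋃ m ∈ range (2 ^ (j + 3)), ⋃ U ∈ F j, ⋃ Z ∈ F j, E j q m U Z)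
        ≤ ∑ q ∈ Gq j, μ (⋃ m ∈ range (2 ^ (j + 3)), ⋃ U ∈ F j, ⋃ Z ∈ F j, E j q m U Z) :=
          measure_biUnion_finset_le _ _
      _ ≤ ∑ q ∈ Gq j, ∑ m ∈ range (2 ^ (j + 3)), μ (⋃ U ∈ F j, ⋃ Z ∈ F j, E j q m U Z) := by
          gcongr with q hq
          exact measure_biUnion_finset_le _ _
      _ ≤ ∑ q ∈ Gq j, ∑ m ∈ range (2 ^ (j + 3)), ∑ U ∈ F j, μ (⋃ Z ∈ F j, E j q m U Z) := by
          gcongr with q hq m hm
          exact measure_biUnion_finset_le _ _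
      _ ≤ ∑ q ∈ Gq j, ∑ m ∈ range (2 ^ (j + 3)), ∑ U ∈ F j, ∑ Z ∈ F j, μ (E j q m U Z) := by
          gcongr with q hq m hm U hU
          exact measure_biUnion_finset_le _ _
      _ ≤ ∑ q ∈ Gq j, ∑ m ∈ range (2 ^ (j + 3)), ∑ U ∈ F j, ∑ Z ∈ F j,
            ENNReal.ofReal (2 * Real.exp (-(5 * ((j : ℝ) + 5)))) := by
          gcongr with q hq m hm U hU Z hZ
          exact hone q hq m hm U hU Z hZ
      _ ≤ ∑ q ∈ range (2 ^ (j + 3)), ∑ m ∈ range (2 ^ (j + 3)), ∑ U ∈ range (2 ^ (j + 3)),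
            ∑ Z ∈ range (2 ^ (j + 3)), ENNReal.ofReal (2 * Real.exp (-(5 * ((j : ℝ) + 5)))) := by
          refine (sum_le_sum fun q _ => sum_le_sum fun m _ => (sum_le_sum fun U _ =>
            sum_le_sum_of_subset (filter_subset _ _)).trans
            (sum_le_sum_of_subset (filter_subset _ _))).trans ?_
          exact sum_le_sum_of_subset (filter_subset _ _)
      _ = ENNReal.ofReal ((2 : ℝ) ^ (j + 3) * ((2 : ℝ) ^ (j + 3) * ((2 : ℝ) ^ (j + 3) *
            ((2 : ℝ) ^ (j + 3) * (2 * Real.exp (-(5 * ((j : ℝ) + 5)))))))) := by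
          rw [sum_const, sum_const, sum_const, sum_const, card_range, nsmul_eq_mul, nsmul_eq_mul,
            nsmul_eq_mul, nsmul_eq_mul]
          have hp0 : (0 : ℝ) ≤ (2 : ℝ) ^ (j + 3) := by positivity
          have : ENNReal.ofReal ((2 : ℝ) ^ (j + 3)) = ((2 ^ (j + 3) : ℕ) : ℝ≥0∞) := by
            rw [← ENNReal.ofReal_natCast]; push_cast; rfl
          rw [ENNReal.ofReal_mul hp0, ENNReal.ofReal_mul hp0, ENNReal.ofReal_mul hp0,
            ENNReal.ofReal_mul hp0, this]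
      _ ≤ ENNReal.ofReal ((1 / 2 : ℝ) ^ j) := by
          refine ENNReal.ofReal_le_ofReal ?_
          have h3 : Real.exp (-(5 * ((j : ℝ) + 5))) ≤ (1 / 32 : ℝ) ^ (j + 5) := by
            have h4 : Real.exp (-5) ≤ 1 / 32 := by
              rw [Real.exp_neg, ← one_div]
              refine one_div_le_one_div_of_le (by norm_num) ?_
              have h5 := Real.exp_one_gt_d9
              have h6 : Real.exp 5 = Real.exp 1 ^ 5 := by rw [← Real.exp_nat_mul]; norm_num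
              rw [h6]
              have h7 : (2 : ℝ) ≤ Real.exp 1 := by linarith
              calc (32 : ℝ) = 2 ^ 5 := by norm_num
                _ ≤ Real.exp 1 ^ 5 := by gcongr
            calc Real.exp (-(5 * ((j : ℝ) + 5))) = Real.exp (-5) ^ (j + 5) := by
                  rw [← Real.exp_nat_mul]; congr 1; push_cast; ring
              _ ≤ (1 / 32 : ℝ) ^ (j + 5) := by gcongr
          set h : ℝ := (1 / 2 : ℝ) ^ j with hh
          set t : ℝ := (2 : ℝ) ^ j with ht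
          have hth : t * h = 1 := by rw [ht, hh, ← mul_pow]; norm_num
          have e1 : (1 / 32 : ℝ) ^ (j + 5) = h ^ 5 * (1 / 32) ^ 5 := by
            rw [pow_add, hh, ← pow_mul, show (1 / 32 : ℝ) = (1 / 2) ^ 5 by norm_num, ← pow_mul,
              ← pow_mul, mul_comm j 5]
          have e2 : (2 : ℝ) ^ (j + 3) = t * 8 := by rw [pow_add, ht]; norm_num
          rw [e1] at h3
          rw [e2]
          have ht0 : 0 ≤ t := by positivity
          have hh0 : 0 ≤ h := by positivity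
          calc t * 8 * (t * 8 * (t * 8 * (t * 8 * (2 * Real.exp (-(5 * ((j : ℝ) + 5)))))))
              ≤ t * 8 * (t * 8 * (t * 8 * (t * 8 * (2 * (h ^ 5 * (1 / 32) ^ 5))))) := by gcongr
            _ = (t * h) ^ 4 * h * (8192 * (1 / 32) ^ 5) := by ring
            _ ≤ h := by rw [hth]; nlinarith
  have hbc := borel_cantelli_nat μ _ hmeas
  filter_upwards [hbc] with ω hω
  filter_upwards [hω] with j hj q hq hq2 m hm U hU hΛU Z hZ hZw
  by_contra hcon
  refine hj ?_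
  refine Set.mem_biUnion (x := q) (mem_coe.2 (mem_filter.2 ⟨mem_range.2 hq2, hq⟩)) ?_
  refine Set.mem_biUnion (x := m) (mem_coe.2 (mem_range.2 hm)) ?_
  refine Set.mem_biUnion (x := U) (mem_coe.2 (mem_filter.2 ⟨mem_range.2 hU, hΛU⟩)) ?_
  refine Set.mem_biUnion (x := Z) (mem_coe.2 (mem_filter.2 ⟨mem_range.2 hZ, hZw⟩)) ?_
  exact (not_le.1 hcon).le

end Pool.Agent.H532.EH
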