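import Mathlib
import Pool.Agent.H532.EH.Def

/-!
Brun's sieve of depth `k` (T1 of the task file helper532_EHtasks.lean).
-/

namespace Pool.Agent.H532.EH

open Finset

namespace BrunAux

theorem eS_nonneg (k : ℕ) (Q : Finset ℕ) : 0 ≤ eS k Q :=
  sum_nonneg fun T _ => prod_nonneg fun p _ => by positivity

theorem eS_zero (Q : Finset ℕ) : eS 0 Q = 1 := by
  rw [eS, powersetCard_zero, sum_singleton, prod_empty]

theorem eS_insert (k : ℕ) (Q : Finset ℕ) (p : ℕ) (hp : p ∉ Q) :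
    eS (k + 1) (insert p Q) = eS (k + 1) Q + 1 / (p : ℝ) * eS k Q := by
  unfold eS
  rw [powersetCard_succ_insert hp, sum_union, sum_image, mul_sum]
  · congr 1
    refine sum_congr rfl fun T hT => ?_
    rw [prod_insert]
    exact fun h => hp ((mem_powersetCard.1 hT).1 h)
  · intro T hT T' hT' h
    have h1 : p ∉ T := fun h => hp ((mem_powersetCard.1 hT).1 h)
    have h2 : p ∉ T' := fun h => hp ((mem_powersetCard.1 hT').1 h)
    rw [← erase_insert h1, h, erase_insert h2]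
  · rw [disjoint_left]
    intro T hT hT'
    rw [mem_image] at hT'
    obtain ⟨T', _, rfl⟩ := hT'
    exact hp ((mem_powersetCard.1 hT).1 (mem_insert_self _ _))

theorem cnt_base (c : ℕ → ℕ) (D r m U : ℕ) (hD : 0 < D) :
    |(cntD c ∅ D r m U : ℝ) - U / D| ≤ 1 := by
  have h0 : cntD c ∅ D r m U = #{x ∈ Ioc m (m + U) | x ≡ r [MOD D]} := by
    unfold cntD
    congr 1
    refine filter_congr fun n _ => ?_
    simp only [notMem_empty, false_implies, implies_true, and_true]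
    rfl
  have h1 := Nat.Ioc_filter_modEq_card m (m + U) hD r
  have hDq : (0 : ℚ) < D := by exact_mod_cast hD
  have hle : ⌊((m : ℚ) - r) / (D : ℚ)⌋ ≤ ⌊(((m + U : ℕ) : ℚ) - r) / (D : ℚ)⌋ := by
    refine Int.floor_le_floor (div_le_div_of_nonneg_right ?_ hDq.le)
    push_cast
    have : (0 : ℚ) ≤ U := by positivity
    linarith
  rw [max_eq_left (sub_nonneg.2 hle)] at h1
  have h2 : |(cntD c ∅ D r m U : ℚ) - U / D| ≤ 1 := by
    have h3 : (cntD c ∅ D r m U : ℚ) = ((⌊(((m + U : ℕ) : ℚ) - r) / (D : ℚ)⌋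
        - ⌊((m : ℚ) - r) / (D : ℚ)⌋ : ℤ) : ℚ) := by
      rw [h0, ← h1, Int.cast_natCast]
    rw [h3]
    push_cast
    have a1 := Int.floor_le ((((m : ℚ) + U) - r) / (D : ℚ))
    have a2 := Int.lt_floor_add_one ((((m : ℚ) + U) - r) / (D : ℚ))
    have a3 := Int.floor_le (((m : ℚ) - r) / (D : ℚ))
    have a4 := Int.lt_floor_add_one (((m : ℚ) - r) / (D : ℚ))
    have a5 : (((m : ℚ) + U) - r) / (D : ℚ) = ((m : ℚ) - r) / (D : ℚ) + U / D := by ring
    rw [a5] at a1 a2 ⊢
    rw [abs_le]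
    constructor <;> linarith
  have h4 : (((cntD c ∅ D r m U : ℚ) - U / D : ℚ) : ℝ) = (cntD c ∅ D r m U : ℝ) - U / D := by
    push_cast
    ring
  rw [← h4, ← Rat.cast_abs]
  exact_mod_cast h2

theorem prod_bounds (Q : Finset ℕ) (hQ : ∀ p ∈ Q, p.Prime) :
    0 ≤ ∏ p ∈ Q, (1 - 1 / (p : ℝ)) ∧ ∏ p ∈ Q, (1 - 1 / (p : ℝ)) ≤ 1 := by
  have h : ∀ p ∈ Q, 0 ≤ 1 - 1 / (p : ℝ) ∧ 1 - 1 / (p : ℝ) ≤ 1 := by
    intro p hp
    have h1 : (1 : ℝ) ≤ p := by exact_mod_cast (hQ p hp).one_le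
    have h2 : 1 / (p : ℝ) ≤ 1 := by
      rw [div_le_one (by linarith)]
      exact h1
    have h3 : 0 ≤ 1 / (p : ℝ) := by positivity
    constructor <;> linarith
  exact ⟨prod_nonneg fun p hp => (h p hp).1, prod_le_one (fun p hp => (h p hp).1)
    fun p hp => (h p hp).2⟩

theorem cnt_insert (c : ℕ → ℕ) (Q : Finset ℕ) (D r m U p : ℕ) (hDp : Nat.Coprime D p) :
    ∃ r' : ℕ, cntD c Q D r m U = cntD c (insert p Q) D r m U + cntD c Q (D * p) r' m U := by
  obtain ⟨r', h1, h2⟩ := Nat.chineseRemainder hDp r (c p)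
  refine ⟨r', ?_⟩
  unfold cntD
  rw [← card_filter_add_card_filter_not (s := (Ioc m (m + U)).filter
    (fun n => n % D = r % D ∧ ∀ p ∈ Q, n % p ≠ c p % p)) (fun n => n % p ≠ c p % p)]
  rw [filter_filter, filter_filter]
  congr 2
  · refine filter_congr fun n _ => ?_
    rw [forall_mem_insert]
    tauto
  · refine filter_congr fun n _ => ?_
    have h3 : n % (D * p) = r' % (D * p) ↔ n % D = r % D ∧ n % p = c p % p := by
      have h4 := Nat.modEq_and_modEq_iff_modEq_mul (a := n) (b := r') hDp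
      have h5 : n ≡ r' [MOD D] ↔ n ≡ r [MOD D] := ⟨fun h => h.trans h1, fun h => h.trans h1.symm⟩
      have h6 : n ≡ r' [MOD p] ↔ n ≡ c p [MOD p] :=
        ⟨fun h => h.trans h2, fun h => h.trans h2.symm⟩
      rw [h5, h6] at h4
      exact h4.symm
    rw [h3, not_not]
    tauto

end BrunAux

open BrunAux

/-- T1. Brun's sieve of depth `k`. -/
theorem brun (Q : Finset ℕ) (hQ : ∀ p ∈ Q, p.Prime) (c : ℕ → ℕ) (D r m U : ℕ) (hD : 0 < D)
    (hDQ : ∀ p ∈ Q, ¬ p ∣ D) (k : ℕ) :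
    |(cntD c Q D r m U : ℝ) - U / D * ∏ p ∈ Q, (1 - 1 / (p : ℝ))| ≤
      ((Q.card : ℝ) + 1) ^ k + U / D * eS k Q := by
  induction Q using Finset.induction_on generalizing D r k with
  | empty =>
    rw [prod_empty, mul_one, card_empty, Nat.cast_zero, zero_add, one_pow]
    have h1 := cnt_base c D r m U hD
    have h2 : 0 ≤ (U : ℝ) / D * eS k ∅ := mul_nonneg (by positivity) (eS_nonneg _ _)
    linarith
  | insert p Q hp ih =>
    have hQ' : ∀ q ∈ Q, q.Prime := fun q hq => hQ q (mem_insert_of_mem hq)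
    have hpp : p.Prime := hQ p (mem_insert_self _ _)
    cases k with
    | zero =>
      rw [pow_zero, eS_zero, mul_one]
      obtain ⟨b1, b2⟩ := prod_bounds (insert p Q) hQ
      have h1 := cnt_base c D r m U hD
      have h2 : (cntD c (insert p Q) D r m U : ℝ) ≤ (cntD c ∅ D r m U : ℝ) := by
        have : cntD c (insert p Q) D r m U ≤ cntD c ∅ D r m U := by
          unfold cntD
          refine card_le_card fun n hn => ?_
          rw [mem_filter] at hn ⊢
          exact ⟨hn.1, hn.2.1, fun q hq => absurd hq (notMem_empty q)⟩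
        exact_mod_cast this
      have h3 : (0 : ℝ) ≤ (cntD c (insert p Q) D r m U : ℝ) := Nat.cast_nonneg _
      have hU : (0 : ℝ) ≤ (U : ℝ) / D := by positivity
      have h4 : 0 ≤ (U : ℝ) / D * ∏ p ∈ insert p Q, (1 - 1 / (p : ℝ)) := mul_nonneg hU b1
      have h5 : (U : ℝ) / D * ∏ p ∈ insert p Q, (1 - 1 / (p : ℝ)) ≤ U / D :=
        mul_le_of_le_one_right hU b2
      rw [abs_le] at h1 ⊢
      constructor <;> linarith [h1.1, h1.2]
    | succ k =>
      have hDp : Nat.Coprime D p :=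
        ((Nat.Prime.coprime_iff_not_dvd hpp).2 (hDQ p (mem_insert_self _ _))).symm
      obtain ⟨r', hr'⟩ := cnt_insert c Q D r m U p hDp
      have e1 := ih hQ' D r hD (fun q hq => hDQ q (mem_insert_of_mem hq)) (k + 1)
      have e2 := ih hQ' (D * p) r' (Nat.mul_pos hD hpp.pos) (fun q hq h => by
        rcases (hQ' q hq).dvd_mul.1 h with h | h
        · exact hDQ q (mem_insert_of_mem hq) h
        · have := (Nat.prime_dvd_prime_iff_eq (hQ' q hq) hpp).1 h
          exact hp (this ▸ hq)) k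
      rw [prod_insert hp, card_insert_of_notMem hp, eS_insert k Q p hp]
      have hr2 : (cntD c Q D r m U : ℝ) = (cntD c (insert p Q) D r m U : ℝ)
          + (cntD c Q (D * p) r' m U : ℝ) := by exact_mod_cast hr'
      set Pq := ∏ q ∈ Q, (1 - 1 / (q : ℝ)) with hPq
      have hp0 : (p : ℝ) ≠ 0 := by exact_mod_cast hpp.ne_zero
      have hD0 : (D : ℝ) ≠ 0 := by exact_mod_cast hD.ne'
      have e3 : (U : ℝ) / ((D * p : ℕ) : ℝ) = U / D * (1 / p) := by
        push_cast
        field_simp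
      rw [e3] at e2
      have e4 : (cntD c (insert p Q) D r m U : ℝ) - U / D * ((1 - 1 / (p : ℝ)) * Pq)
          = ((cntD c Q D r m U : ℝ) - U / D * Pq)
            - ((cntD c Q (D * p) r' m U : ℝ) - U / D * (1 / p) * Pq) := by
        rw [hr2]
        ring
      rw [e4]
      refine (abs_sub _ _).trans ?_
      have e5 : ((Q.card : ℝ) + 1) ^ (k + 1) + ((Q.card : ℝ) + 1) ^ k
          ≤ (((Q.card + 1 : ℕ) : ℝ) + 1) ^ (k + 1) := by
        push_cast
        have hx : (0 : ℝ) ≤ (Q.card : ℝ) + 1 := by positivity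
        have h6 : ((Q.card : ℝ) + 1) ^ k ≤ ((Q.card : ℝ) + 1 + 1) ^ k :=
          pow_le_pow_left₀ hx (by linarith) k
        calc ((Q.card : ℝ) + 1) ^ (k + 1) + ((Q.card : ℝ) + 1) ^ k
            = ((Q.card : ℝ) + 1) ^ k * ((Q.card : ℝ) + 1 + 1) := by ring
          _ ≤ ((Q.card : ℝ) + 1 + 1) ^ k * ((Q.card : ℝ) + 1 + 1) :=
            mul_le_mul_of_nonneg_right h6 (by linarith)
          _ = _ := by ring
      have e6 : (U : ℝ) / D * (eS (k + 1) Q + 1 / (p : ℝ) * eS k Q)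
          = U / D * eS (k + 1) Q + U / D * (1 / p) * eS k Q := by ring
      rw [e6]
      linarith

end Pool.Agent.H532.EH
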