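import Mathlib
import Pool.Agent.H532.EH.Def

/-!
The elementary symmetric polynomials of the `1 / p` (task eS_le of helper532, by helper791).
-/

namespace Pool.Agent.H532.EH

open Finset

theorem eS_zero (Q : Finset ℕ) : eS 0 Q = 1 := by
  unfold eS
  rw [powersetCard_zero, sum_singleton, prod_empty]

theorem eS_nonneg (k : ℕ) (Q : Finset ℕ) : 0 ≤ eS k Q := by
  unfold eS
  exact sum_nonneg fun T _ => prod_nonneg fun p _ => by positivity

theorem eS_succ_insert {p : ℕ} {Q : Finset ℕ} (hp : p ∉ Q) (k : ℕ) :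
    eS (k + 1) (insert p Q) = eS (k + 1) Q + 1 / (p : ℝ) * eS k Q := by
  unfold eS
  rw [powersetCard_succ_insert hp, sum_union]
  · congr 1
    rw [sum_image, mul_sum]
    · refine sum_congr rfl fun T hT => ?_
      have hpT : p ∉ T := fun h => hp ((mem_powersetCard.1 hT).1 h)
      rw [prod_insert hpT]
    · intro T hT T' hT' h
      have hpT : p ∉ T := fun h' => hp ((mem_powersetCard.1 hT).1 h')
      have hpT' : p ∉ T' := fun h' => hp ((mem_powersetCard.1 hT').1 h')
      have h1 := congrArg (fun A : Finset ℕ => A.erase p) h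
      simp only [erase_insert hpT, erase_insert hpT'] at h1
      exact h1
  · rw [disjoint_left]
    intro T hT hT'
    rw [mem_image] at hT'
    obtain ⟨T', _, rfl⟩ := hT'
    exact hp ((mem_powersetCard.1 hT).1 (mem_insert_self p T'))

theorem pow_add_le {a x : ℝ} (ha : 0 ≤ a) (hx : 0 ≤ x) (k : ℕ) :
    a ^ (k + 1) + (k + 1) * (x * a ^ k) ≤ (a + x) ^ (k + 1) := by
  induction k with
  | zero => simp
  | succ k ih =>
    have h1 : (a + x) * (a ^ (k + 1) + (k + 1) * (x * a ^ k)) ≤ (a + x) * (a + x) ^ (k + 1) :=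
      mul_le_mul_of_nonneg_left ih (by positivity)
    have h2 : (a + x) * (a ^ (k + 1) + (k + 1) * (x * a ^ k)) = a ^ (k + 1 + 1) +
        ((k : ℝ) + 2) * (x * a ^ (k + 1)) + (k + 1) * (x ^ 2 * a ^ k) := by ring
    have h3 : (0 : ℝ) ≤ (k + 1) * (x ^ 2 * a ^ k) := by positivity
    rw [h2] at h1
    rw [pow_succ' (a + x) (k + 1)]
    push_cast
    linarith

/-- T2. -/
theorem eS_le (Q : Finset ℕ) (k : ℕ) :
    eS k Q ≤ (∑ p ∈ Q, 1 / (p : ℝ)) ^ k / (k.factorial : ℝ) := by
  induction Q using Finset.induction_on generalizing k with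
  | empty =>
    cases k with
    | zero =>
      rw [eS_zero]
      simp
    | succ k =>
      have h1 : eS (k + 1) ∅ = 0 := by
        unfold eS
        rw [powersetCard_eq_empty.2 (by simp), sum_empty]
      rw [h1]
      positivity
  | insert p Q hp ih =>
    cases k with
    | zero =>
      rw [eS_zero]
      simp
    | succ k =>
      rw [eS_succ_insert hp, sum_insert hp]
      have ha : 0 ≤ ∑ p ∈ Q, 1 / (p : ℝ) := sum_nonneg fun p _ => by positivity
      have hx : (0 : ℝ) ≤ 1 / (p : ℝ) := by positivity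
      obtain ⟨a, hadef⟩ : ∃ a : ℝ, a = ∑ p ∈ Q, 1 / (p : ℝ) := ⟨_, rfl⟩
      obtain ⟨x, hxdef⟩ : ∃ x : ℝ, x = 1 / (p : ℝ) := ⟨_, rfl⟩
      have h1 := ih (k + 1)
      have h2 := ih k
      rw [← hadef] at h1 h2 ha ⊢
      rw [← hxdef] at hx ⊢
      have h3 := pow_add_le ha hx k
      have hf : (0 : ℝ) < (k.factorial : ℝ) := by exact_mod_cast k.factorial_pos
      have h4 : x * eS k Q ≤ x * (a ^ k / (k.factorial : ℝ)) := mul_le_mul_of_nonneg_left h2 hx
      calc eS (k + 1) Q + x * eS k Q
          ≤ a ^ (k + 1) / ((k + 1).factorial : ℝ) + x * (a ^ k / (k.factorial : ℝ)) :=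
            add_le_add h1 h4
        _ = (a ^ (k + 1) + (k + 1) * (x * a ^ k)) / ((k + 1).factorial : ℝ) := by
            rw [Nat.factorial_succ]
            push_cast
            field_simp
        _ ≤ (x + a) ^ (k + 1) / ((k + 1).factorial : ℝ) := by
            rw [add_comm x a]
            gcongr

end Pool.Agent.H532.EH
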