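import Mathlib
import Pool.Agent.H532.EH.Brun
import Pool.Agent.H532.EH.ESle

/-!
P1 of the second group of statements: the sieve by the primes up to `j ^ E` (helper80).
-/

namespace Pool.Agent.H532.EH

open Finset Filter

/-- P1. The sieve by the primes up to `j ^ E` with precision `j ^ (-B)`. -/
theorem small_sieve (hM : ∃ C : ℝ, ∀ w : ℕ, 3 ≤ w →
      ∑ p ∈ (range (w + 1)).filter Nat.Prime, 1 / (p : ℝ) ≤ Real.log (Real.log w) + C)
    (B E : ℕ) : ∃ K : ℝ, 0 < K ∧ ∀ᶠ j : ℕ in atTop, ∀ Q : Finset ℕ,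
      (∀ p ∈ Q, p.Prime ∧ p ≤ j ^ E) → ∀ (c : ℕ → ℕ) (m U : ℕ),
      K * (Real.log j ^ 2 / Real.log (Real.log j)) ≤ Real.log U → 0 < U →
      |(cntD c Q 1 0 m U : ℝ) - U * ∏ p ∈ Q, (1 - 1 / (p : ℝ))| ≤ U / (j : ℝ) ^ B := by
  obtain ⟨C, hC⟩ := hM
  obtain ⟨F, hF⟩ : ∃ F, F = max E 1 := ⟨_, rfl⟩
  have hF1 : 1 ≤ F := by rw [hF]; exact le_max_right _ _
  have hEF : E ≤ F := by rw [hF]; exact le_max_left _ _
  have hF1r : (1 : ℝ) ≤ F := by exact_mod_cast hF1
  have hF0 : (0 : ℝ) < F := by linarith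
  refine ⟨6 * F * (B + 2), by positivity, ?_⟩
  have hLL : Tendsto (fun j : ℕ => Real.log (Real.log j)) atTop atTop :=
    Real.tendsto_log_atTop.comp (Real.tendsto_log_atTop.comp tendsto_natCast_atTop_atTop)
  have hlog : ∀ᶠ t : ℝ in atTop, 2 * Real.log t + 1 ≤ t / 2 := by
    have h1 := (Real.isLittleO_log_id_atTop).def (show (0 : ℝ) < 1 / 8 by norm_num)
    filter_upwards [h1, eventually_ge_atTop (4 : ℝ)] with t h2 h3
    simp only [id, Real.norm_eq_abs] at h2
    rw [abs_of_nonneg (show (0 : ℝ) ≤ t by linarith)] at h2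
    have h4 := le_abs_self (Real.log t)
    linarith
  filter_upwards [hLL.eventually_ge_atTop (max 1 (Real.log F + C)), hLL.eventually hlog,
    eventually_ge_atTop 3] with j h1 h2 h3
  intro Q hQ c m U hU hU0
  have h1a : 1 ≤ Real.log (Real.log j) := (le_max_left _ _).trans h1
  have h1b : Real.log F + C ≤ Real.log (Real.log j) := (le_max_right _ _).trans h1
  obtain ⟨L, hL⟩ : ∃ L, L = Real.log (j : ℝ) := ⟨_, rfl⟩
  obtain ⟨l, hl⟩ : ∃ l, l = Real.log L := ⟨_, rfl⟩
  rw [← hL] at h1a h1b h2 hU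
  rw [← hl] at h1a h1b h2 hU
  have hj0 : (0 : ℝ) < j := by
    have : 0 < j := by omega
    exact_mod_cast this
  have hL0 : 0 ≤ L := by
    rw [hL]
    exact Real.log_natCast_nonneg j
  have hLp : 0 < L := by
    rcases hL0.lt_or_eq with h | h
    · exact h
    · exfalso
      rw [hl, ← h, Real.log_zero] at h1a
      linarith
  have hlL : l ≤ L := by
    rw [hl]
    exact (Real.log_le_sub_one_of_pos hLp).trans (by linarith)
  have hl0 : 0 < l := by linarith
  have hr1 : 1 ≤ L / l := by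
    rw [le_div_iff₀ hl0]
    linarith
  have hUr : (0 : ℝ) < U := by exact_mod_cast hU0
  have hB0 : (0 : ℝ) ≤ B := Nat.cast_nonneg _
  obtain ⟨lu, hlu⟩ : ∃ lu, lu = Real.log (U : ℝ) := ⟨_, rfl⟩
  rw [← hlu] at hU
  have hUe : (U : ℝ) = Real.exp lu := by
    rw [hlu, Real.exp_log hUr]
  have hje : ∀ n : ℕ, (j : ℝ) ^ n = Real.exp (n * L) := by
    intro n
    rw [hL, ← Real.log_pow, Real.exp_log (pow_pos hj0 _)]
  have hU2 : 6 * F * (B + 2) * (L / l) * L ≤ lu := by
    have e : 6 * (F : ℝ) * (B + 2) * (L / l) * L = 6 * F * (B + 2) * (L ^ 2 / l) := by ring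
    rw [e]
    exact hU
  have hlu0 : 0 ≤ lu := by
    refine le_trans ?_ hU2
    positivity
  -- the depth
  obtain ⟨k, hk⟩ : ∃ k : ℕ, k = ⌊lu / (2 * F * L)⌋₊ := ⟨_, rfl⟩
  have hk1 : (k : ℝ) ≤ lu / (2 * F * L) := by
    rw [hk]
    exact Nat.floor_le (by positivity)
  have hk2 : lu / (2 * F * L) < k + 1 := by
    rw [hk]
    exact Nat.lt_floor_add_one _
  have hk3 : 2 * (B + 2) * (L / l) ≤ k := by
    have e1 : 3 * (B + 2) * (L / l) ≤ lu / (2 * F * L) := by
      rw [le_div_iff₀ (by positivity)]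
      have e : 3 * ((B : ℝ) + 2) * (L / l) * (2 * F * L) = 6 * F * (B + 2) * (L / l) * L := by ring
      rw [e]
      exact hU2
    have e2 : 1 ≤ (B + 2) * (L / l) := by nlinarith
    have e3 : 3 * ((B : ℝ) + 2) * (L / l) = 2 * (B + 2) * (L / l) + (B + 2) * (L / l) := by ring
    linarith
  have hk0 : (0 : ℝ) < k := lt_of_lt_of_le (by positivity) hk3
  have hb := brun Q (fun p hp => (hQ p hp).1) c 1 0 m U one_pos
    (fun p hp h => (hQ p hp).1.one_lt.ne' (Nat.dvd_one.1 h)) k
  rw [Nat.cast_one, div_one] at hb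
  refine hb.trans ?_
  -- the first term
  have t1 : ((Q.card : ℝ) + 1) ^ k ≤ U / (2 * (j : ℝ) ^ B) := by
    have e1 : Q.card + 1 ≤ j ^ F := by
      have e2 : Q ⊆ Icc 2 (j ^ F) := by
        intro p hp
        have h := hQ p hp
        rw [Finset.mem_Icc]
        exact ⟨h.1.two_le, h.2.trans (Nat.pow_le_pow_right (by omega) hEF)⟩
      have e3 := Finset.card_le_card e2
      rw [Nat.card_Icc] at e3
      have e4 : 1 ≤ j ^ F := Nat.one_le_pow _ _ (by omega)
      omega
    have e2 : ((Q.card : ℝ) + 1) ^ k ≤ ((j : ℝ) ^ F) ^ k := by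
      refine pow_le_pow_left₀ (add_nonneg (Nat.cast_nonneg _) zero_le_one) ?_ k
      exact_mod_cast e1
    refine e2.trans ?_
    rw [le_div_iff₀ (by positivity), ← pow_mul, hje, hje, hUe]
    have e3 : (2 : ℝ) ≤ Real.exp L := by
      have := Real.add_one_le_exp L
      linarith
    calc Real.exp (((F * k : ℕ) : ℝ) * L) * (2 * Real.exp (B * L))
        ≤ Real.exp (((F * k : ℕ) : ℝ) * L) * (Real.exp L * Real.exp (B * L)) := by gcongr
      _ = Real.exp (F * k * L + (L + B * L)) := by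
          rw [← Real.exp_add, ← Real.exp_add, Nat.cast_mul]
      _ ≤ Real.exp lu := by
          rw [Real.exp_le_exp]
          have e4 : (F : ℝ) * k * L ≤ lu / 2 := by
            rw [le_div_iff₀ (by positivity)] at hk1
            linarith
          have e5 : L + B * L ≤ lu / 2 := by
            have e6 : 6 * F * (B + 2) * 1 * L ≤ 6 * F * (B + 2) * (L / l) * L := by gcongr
            have e7 : 2 * ((B : ℝ) + 1) * L ≤ 6 * F * (B + 2) * 1 * L := by
              have e8 : 2 * ((B : ℝ) + 1) ≤ 6 * F * (B + 2) * 1 := by nlinarith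
              exact mul_le_mul_of_nonneg_right e8 hL0
            linarith
          linarith
  -- the second term
  have t2 : eS k Q ≤ 1 / (2 * (j : ℝ) ^ B) := by
    have e1 : ∑ p ∈ Q, 1 / (p : ℝ) ≤ 2 * l := by
      have e2 : Q ⊆ (range (j ^ F + 1)).filter Nat.Prime := by
        intro p hp
        have h := hQ p hp
        rw [Finset.mem_filter, Finset.mem_range]
        exact ⟨Nat.lt_succ_of_le (h.2.trans (Nat.pow_le_pow_right (by omega) hEF)), h.1⟩
      have e3 : 3 ≤ j ^ F := h3.trans (Nat.le_self_pow (by omega) j)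
      have e4 := hC (j ^ F) e3
      rw [Nat.cast_pow, Real.log_pow, Real.log_mul hF0.ne' (by rw [← hL]; exact hLp.ne'), ← hL,
        ← hl] at e4
      have e5 : ∑ p ∈ Q, 1 / (p : ℝ) ≤ ∑ p ∈ (range (j ^ F + 1)).filter Nat.Prime, 1 / (p : ℝ) :=
        Finset.sum_le_sum_of_subset_of_nonneg e2 (fun p _ _ => by positivity)
      linarith
    have e2 : (0 : ℝ) ≤ ∑ p ∈ Q, 1 / (p : ℝ) := Finset.sum_nonneg fun p _ => by positivity
    have e3 : eS k Q ≤ (2 * l) ^ k / (k.factorial : ℝ) :=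
      (eS_le Q k).trans (by gcongr)
    have e4 : (k : ℝ) ^ k / (k.factorial : ℝ) ≤ Real.exp k :=
      Real.pow_div_factorial_le_exp _ hk0.le k
    have e5 : (2 * l) ^ k / (k.factorial : ℝ) ≤ Real.exp (k * (Real.log (2 * l / k) + 1)) := by
      have e6 : (2 * l) ^ k / (k.factorial : ℝ) =
          (2 * l / k) ^ k * ((k : ℝ) ^ k / (k.factorial : ℝ)) := by
        rw [div_pow]
        have : (k : ℝ) ^ k ≠ 0 := (pow_pos hk0 k).ne'
        field_simp
      have e7 : (2 * l / k) ^ k = Real.exp (k * Real.log (2 * l / k)) := by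
        rw [← Real.log_pow, Real.exp_log (by positivity)]
      rw [e6, mul_add, mul_one, Real.exp_add, ← e7]
      gcongr
    have e6 : Real.log (2 * l / k) + 1 ≤ -(l / 2) := by
      have e7 : 2 * l / k ≤ l ^ 2 / L := by
        rw [div_le_div_iff₀ hk0 hLp]
        have e8 : 2 * (L / l) ≤ k := by
          refine le_trans ?_ hk3
          have : (2 : ℝ) ≤ 2 * (B + 2) := by linarith
          gcongr
        have e9 : l ^ 2 * (2 * (L / l)) ≤ l ^ 2 * k := by gcongr
        have e10 : l ^ 2 * (2 * (L / l)) = 2 * l * L := by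
          field_simp
        linarith
      have e8 : Real.log (2 * l / k) ≤ Real.log (l ^ 2 / L) := Real.log_le_log (by positivity) e7
      rw [Real.log_div (by positivity) hLp.ne', Real.log_pow, ← hl] at e8
      push_cast at e8
      linarith
    have e7 : (k : ℝ) * (Real.log (2 * l / k) + 1) ≤ -((B + 2) * L) := by
      have e8 : (k : ℝ) * (Real.log (2 * l / k) + 1) ≤ k * (-(l / 2)) := by gcongr
      have e9 : 2 * ((B : ℝ) + 2) * (L / l) * (l / 2) ≤ k * (l / 2) := by gcongr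
      have e10 : 2 * ((B : ℝ) + 2) * (L / l) * (l / 2) = (B + 2) * L := by
        field_simp
      linarith
    refine (e3.trans e5).trans ((Real.exp_le_exp.2 e7).trans ?_)
    rw [le_div_iff₀ (by positivity), hje]
    have e8 : (2 : ℝ) ≤ Real.exp L := by
      have := Real.add_one_le_exp L
      linarith
    calc Real.exp (-((B + 2) * L)) * (2 * Real.exp (B * L))
        ≤ Real.exp (-((B + 2) * L)) * (Real.exp L * Real.exp (B * L)) := by gcongr
      _ = Real.exp (-L) := by
          rw [← Real.exp_add, ← Real.exp_add]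
          congr 1
          ring
      _ ≤ 1 := by
          rw [Real.exp_le_one_iff]
          linarith
  have hjB : (0 : ℝ) < (j : ℝ) ^ B := pow_pos hj0 _
  calc ((Q.card : ℝ) + 1) ^ k + U * eS k Q
      ≤ U / (2 * (j : ℝ) ^ B) + U * (1 / (2 * (j : ℝ) ^ B)) := by gcongr
    _ = U / (j : ℝ) ^ B := by
        field_simp
        norm_num

end Pool.Agent.H532.EH
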