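import Mathlib
import Pool.Agent.H532.EH.Cnc
import Pool.Agent.H532.EH.SmallSieve
import Pool.Agent.H532.SR.Mont

/-!
The number of elements of the random sieve in short progressions.
-/

namespace Pool.Agent.H532.EH

open Finset MeasureTheory Function ProbabilityTheory Filter Pool.Agent.H532.RM Pool.Agent.H532.SR
open scoped Topology ENNReal

lemma mertens_upper : ∃ C : ℝ, ∀ w : ℕ, 3 ≤ w →
    ∑ p ∈ (range (w + 1)).filter Nat.Prime, 1 / (p : ℝ) ≤ Real.log (Real.log w) + C := by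
  obtain ⟨c, _, hc, _, hV⟩ := V_two_sided
  refine ⟨-Real.log c, fun w hw => ?_⟩
  have h1 := (hV w (by omega)).1
  have hl : 0 < Real.log w := Real.log_pos (by
    have : (3 : ℝ) ≤ w := by exact_mod_cast hw
    linarith)
  have hVp := V_pos w
  have h2 : ∑ p ∈ (range (w + 1)).filter Nat.Prime, 1 / (p : ℝ) ≤ -Real.log (V w) := by
    unfold V primesLe
    rw [Real.log_prod (fun p hp => (fac_pos (mem_filter.1 hp).2).ne'), ← sum_neg_distrib]
    refine sum_le_sum fun p hp => ?_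
    have h3 := Real.log_le_sub_one_of_pos (fac_pos (mem_filter.1 hp).2)
    linarith
  have h3 : -Real.log (V w) ≤ Real.log (Real.log w) - Real.log c := by
    have h4 : Real.log c ≤ Real.log (V w * Real.log w) := Real.log_le_log hc h1
    rw [Real.log_mul hVp.ne' hl.ne'] at h4
    linarith
  linarith

theorem block_j {Ω : Type} [MeasurableSpace Ω] {μ : Measure Ω} [IsProbabilityMeasure μ]
    {A : ℕ → Ω → ℕ} (hA : RandomClasses μ A) (B : ℕ) : ∃ K : ℝ, 0 < K ∧ ∀ᵐ ω ∂μ,
    ∀ᶠ j : ℕ in atTop, ∀ q, 0 < q → q < 2 ^ (j + 3) → ∀ m < 2 ^ (j + 3),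
      ∀ U : ℕ, U < 2 ^ (j + 3) → 0 < U → K * (Real.log j ^ 2 / Real.log (Real.log j)) ≤ Real.log U →
      ∀ Z < 2 ^ (j + 3), j ^ (2 * B + 3) ≤ Z →
      |((Sq (fun p => A p ω) (Qs q Z) q m U).card : ℝ) - U * Vq q Z| ≤
        2 * (U / (j : ℝ) ^ B) := by
  obtain ⟨K1, hK1, h1⟩ := small_sieve mertens_upper B (2 * B + 3)
  refine ⟨K1 + (2 * B + 3), by positivity, ?_⟩
  filter_upwards [concE B μ A hA] with ω hω
  have hLL : Tendsto (fun j : ℕ => Real.log (Real.log j)) atTop atTop :=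
    Real.tendsto_log_atTop.comp (Real.tendsto_log_atTop.comp tendsto_natCast_atTop_atTop)
  have hlogle : ∀ᶠ j : ℕ in atTop, Real.log (Real.log j) ≤ Real.log j := by
    have h2 : Tendsto (fun j : ℕ => Real.log j) atTop atTop :=
      Real.tendsto_log_atTop.comp tendsto_natCast_atTop_atTop
    filter_upwards [h2.eventually_ge_atTop 1] with j hj
    have := Real.log_le_sub_one_of_pos (by linarith : 0 < Real.log (j : ℝ))
    linarith
  filter_upwards [hω, h1, hLL.eventually_ge_atTop 1, hlogle, eventually_ge_atTop 2] with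
    j hj1 hj2 hj3 hj4 hj5 q hq hq2 m hm U hU hU0 hlogU Z hZ hZw
  have hjr : (2 : ℝ) ≤ j := by exact_mod_cast hj5
  have hlj : 0 < Real.log (j : ℝ) := Real.log_pos (by linarith)
  have hth : Real.log (j : ℝ) ≤ Real.log j ^ 2 / Real.log (Real.log j) := by
    rw [le_div_iff₀ (by linarith)]
    nlinarith
  have hth0 : 0 ≤ Real.log (j : ℝ) ^ 2 / Real.log (Real.log j) := hlj.le.trans hth
  have hlogU1 : K1 * (Real.log j ^ 2 / Real.log (Real.log j)) ≤ Real.log U := by
    refine le_trans ?_ hlogU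
    gcongr
    have : (0 : ℝ) ≤ 2 * (B : ℝ) + 3 := by positivity
    linarith
  have hUbig : j ^ (2 * B + 3) ≤ U := by
    have h2 : (2 * (B : ℝ) + 3) * Real.log j ≤ Real.log U := by
      refine le_trans ?_ hlogU
      have h3 : (2 * (B : ℝ) + 3) * Real.log j ≤
          (2 * (B : ℝ) + 3) * (Real.log j ^ 2 / Real.log (Real.log j)) := by gcongr
      have h4 : 0 ≤ K1 * (Real.log j ^ 2 / Real.log (Real.log j)) := by positivity
      nlinarith
    have h5 : ((j ^ (2 * B + 3) : ℕ) : ℝ) ≤ U := by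
      have hU0' : (0 : ℝ) < U := by exact_mod_cast hU0
      rw [← Real.log_le_log_iff (by positivity) hU0']
      push_cast
      rw [Real.log_pow]
      push_cast
      exact h2
    exact_mod_cast h5
  set w := j ^ (2 * B + 3) with hw
  have h2 := hj1 q hq hq2 m hm U hU hUbig Z hZ hZw
  obtain ⟨c, hc⟩ := Sq_card_le (fun p => A p ω) q m w U
  have h3 : (Tc c q w 0 U : ℝ) = (cntD c (Qs q w) 1 0 0 U : ℝ) := by
    congr 1
    unfold Tc cntD
    congr 1
    ext n
    rw [mem_T1, mem_filter, mem_Ioc]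
    simp [Nat.mod_one]
  have h4 := hj2 (Qs q w) (fun p hp => ⟨(mem_Qs.1 hp).1.2, (mem_Qs.1 hp).1.1⟩) c 0 U hlogU1 hU0
  have e1 : ∏ p ∈ Qs q w, (1 - 1 / (p : ℝ)) = Vq q w := rfl
  rw [e1, ← h3, ← hc] at h4
  have hVw := Vq_pos q w
  have hratio : Vq q Z / Vq q w ≤ 1 := by rw [div_le_one hVw]; exact Vq_anti q hZw
  have hratio0 : 0 ≤ Vq q Z / Vq q w := div_nonneg (Vq_pos q Z).le hVw.le
  have e2 : ((Sq (fun p => A p ω) (Qs q Z) q m U).card : ℝ) - U * Vq q Z =
      (((Sq (fun p => A p ω) (Qs q Z) q m U).card : ℝ) -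
        Vq q Z / Vq q w * (Sq (fun p => A p ω) (Qs q w) q m U).card) +
      Vq q Z / Vq q w * (((Sq (fun p => A p ω) (Qs q w) q m U).card : ℝ) - U * Vq q w) := by
    field_simp
    ring
  rw [e2]
  refine (abs_add_le _ _).trans ?_
  rw [abs_mul, abs_of_nonneg hratio0]
  have h5 : Vq q Z / Vq q w * |((Sq (fun p => A p ω) (Qs q w) q m U).card : ℝ) - U * Vq q w| ≤
      1 * (U / (j : ℝ) ^ B) := by gcongr
  linarith

lemma z_lt {z : ℕ → ℕ} (hz : Lim1 z) : ∀ᶠ n : ℕ in atTop, z n < n := by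
  have he : Real.exp (-Real.eulerMascheroniConstant) < 0.65 := by
    have h1 := Real.one_half_lt_eulerMascheroniConstant
    have h2 : Real.exp (-Real.eulerMascheroniConstant) < Real.exp (-(1 / 2)) := by
      apply Real.exp_lt_exp.2; linarith
    have h3 : Real.exp (-(1 / 2 : ℝ)) ≤ 0.65 := by
      have h4 : Real.exp (-(1 / 2 : ℝ)) ^ 2 = Real.exp (-1) := by
        rw [← Real.exp_nat_mul]; norm_num
      have h5 : Real.exp (-1) < 0.3679 := by
        have h6 := Real.exp_one_gt_d9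
        rw [Real.exp_neg, inv_lt_comm₀ (Real.exp_pos 1) (by norm_num)]
        refine lt_trans ?_ h6
        norm_num
      by_contra hcon
      push Not at hcon
      have := Real.exp_pos (-(1 / 2 : ℝ))
      nlinarith
    linarith
  have h1 := V_log.eventually (gt_mem_nhds he)
  have h2 := hz.eventually (lt_mem_nhds (show (0.9 : ℝ) < 1 by norm_num))
  filter_upwards [h1, h2, eventually_ge_atTop 2] with n h3 h4 h5
  by_contra h6
  push Not at h6
  have h7 := V_anti h6
  have h8 : 0 < Real.log n := Real.log_pos (by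
    have : (2 : ℝ) ≤ n := by exact_mod_cast h5
    linarith)
  have h9 : V (z n) * Real.log n ≤ V n * Real.log n := by gcongr
  linarith

/-- comparison of the scales -/
lemma scale_facts : ∀ᶠ x : ℕ in atTop,
    ((Nat.log 2 x : ℕ) : ℝ) * Real.log 2 ≤ Real.log x ∧ Real.log x ≤ Nat.log 2 x ∧
    Real.log (Nat.log 2 x : ℕ) ^ 2 / Real.log (Real.log (Nat.log 2 x : ℕ)) ≤
      4 * (Real.log (Real.log x) ^ 2 / Real.log (Real.log (Real.log x))) := by
  have hlog : Tendsto (fun x : ℕ => Real.log (x : ℝ)) atTop atTop :=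
    Real.tendsto_log_atTop.comp tendsto_natCast_atTop_atTop
  have hll := Real.tendsto_log_atTop.comp hlog
  have hlll := Real.tendsto_log_atTop.comp hll
  filter_upwards [hlog.eventually_ge_atTop 10, hll.eventually_ge_atTop 2,
    hlll.eventually_ge_atTop 1, eventually_ge_atTop 16] with x h1 h2 h3 h4
  simp only [comp_apply] at h2 h3
  set j := Nat.log 2 x with hj
  have hx1 : 2 ^ j ≤ x := Nat.pow_log_le_self 2 (by omega)
  have hx2 : x < 2 ^ (j + 1) := Nat.lt_pow_succ_log_self (by norm_num) x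
  have hx0 : (0 : ℝ) < x := by
    have : 0 < x := by omega
    exact_mod_cast this
  have k1 : (j : ℝ) * Real.log 2 ≤ Real.log x := by
    rw [← Real.log_pow]
    refine Real.log_le_log (by positivity) ?_
    exact_mod_cast hx1
  have k2 : Real.log x ≤ ((j : ℝ) + 1) * Real.log 2 := by
    have : Real.log x ≤ Real.log ((2 : ℝ) ^ (j + 1)) := by
      refine Real.log_le_log hx0 ?_
      exact_mod_cast hx2.le
    rw [Real.log_pow] at this
    push_cast at this
    exact this
  have hl2 := Real.log_two_lt_d9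
  have hl2' := Real.log_two_gt_d9
  have k3 : Real.log x ≤ j := by
    have : (9 : ℝ) ≤ j := by
      by_contra hcon
      push Not at hcon
      nlinarith
    nlinarith
  refine ⟨k1, k3, ?_⟩
  have hj0 : (0 : ℝ) < j := by linarith
  have k4 : Real.log (Real.log x) ≤ Real.log j := Real.log_le_log (by linarith) k3
  have k5 : Real.log j ≤ 2 * Real.log (Real.log x) := by
    have : (j : ℝ) ≤ 2 * Real.log x := by nlinarith
    have k6 := Real.log_le_log hj0 this
    rw [Real.log_mul (by norm_num) (by linarith)] at k6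
    linarith
  have k6 : Real.log (Real.log (Real.log x)) ≤ Real.log (Real.log j) :=
    Real.log_le_log (by linarith) k4
  calc Real.log j ^ 2 / Real.log (Real.log j) ≤
      (2 * Real.log (Real.log x)) ^ 2 / Real.log (Real.log (Real.log x)) := by
        have : 0 ≤ Real.log (j : ℝ) := by linarith
        gcongr
    _ = 4 * (Real.log (Real.log x) ^ 2 / Real.log (Real.log (Real.log x))) := by ring

theorem block_x {Ω : Type} [MeasurableSpace Ω] {μ : Measure Ω} [IsProbabilityMeasure μ]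
    {A : ℕ → Ω → ℕ} (hA : RandomClasses μ A) {z : ℕ → ℕ} (hz : Rt z) (B : ℕ) :
    ∃ K : ℝ, 0 < K ∧ ∀ᵐ ω ∂μ, ∀ᶠ x : ℕ in atTop, ∀ q n0 U : ℕ, 0 < q → x ≤ n0 ^ 2 →
      n0 + q * U ≤ 2 * x → 0 < U →
      K * (Real.log (Real.log x) ^ 2 / Real.log (Real.log (Real.log x))) ≤ Real.log U →
      Red (fun p => A p ω) q n0 →
      |({i : ℕ | 1 ≤ i ∧ i ≤ U ∧ n0 + q * i ∈ RB z (fun p => A p ω)}.ncard : ℝ) -
        U * ((q : ℝ) / Nat.totient q) / Real.log n0| ≤
        U * ((q : ℝ) / Nat.totient q) * (1 / Real.log n0 - 1 / Real.log ((n0 + q * U : ℕ) : ℝ)) +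
          U / Real.log x ^ B := by
  obtain ⟨K, hK, h0⟩ := block_j hA (B + 1)
  obtain ⟨C, hC1, hC⟩ := main_bound hz
  obtain ⟨c, hc, hct⟩ := totient_ratio
  refine ⟨4 * K, by positivity, ?_⟩
  have h3 : Tendsto (fun X : ℕ => Nat.log 2 X) atTop atTop := by
    refine tendsto_atTop.2 fun B => ?_
    filter_upwards [eventually_ge_atTop (2 ^ B)] with X hX
    exact Nat.le_log_of_pow_le (by norm_num) hX
  -- numerical facts
  have hpoly : ∀ᶠ j : ℕ in atTop, (c * C * 64 * 4) * (j : ℝ) ^ (B + 5) ≤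
      Real.exp (Real.log 2 / 4 * j) := by
    have h1 := Pool.Agent.H532.UN.pow_le_exp (B + 6) (Real.log 2 / 4) (by
      have := Real.log_two_gt_d9
      linarith)
    have hr : Tendsto (fun j : ℕ => (j : ℝ)) atTop atTop := tendsto_natCast_atTop_atTop
    filter_upwards [h1, hr.eventually_ge_atTop (c * C * 64 * 4)] with j h2 h4
    refine le_trans ?_ h2
    rw [pow_succ' (j : ℝ) (B + 5)]
    gcongr
  have hpoly2 : ∀ᶠ j : ℕ in atTop, (j : ℝ) ^ (2 * (B + 1) + 3) ≤
      Real.exp (Real.log 2 / 4 * j) := by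
    exact Pool.Agent.H532.UN.pow_le_exp (2 * (B + 1) + 3) (Real.log 2 / 4) (by
      have := Real.log_two_gt_d9
      linarith)
  obtain ⟨n1, hn1⟩ := eventually_atTop.1 ((z_lt hz.lim).and hz.lim.big)
  have hsq : ∀ᶠ x : ℕ in atTop, (n1 + 3) ^ 2 < x := eventually_gt_atTop _
  filter_upwards [h0] with ω hω
  filter_upwards [h3.eventually hω, scale_facts, h3.eventually hpoly, h3.eventually hpoly2, hsq,
    h3.eventually_ge_atTop 8] with x hx hsc hp1 hp2 hx3 hj8 q n0 U hq hn0 hn2 hU0 hlU hred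
  set j := Nat.log 2 x with hj
  have hxpos : 0 < x := by omega
  have hX1 : 2 ^ j ≤ x := Nat.pow_log_le_self 2 (by omega)
  have hX2 : x < 2 ^ (j + 1) := Nat.lt_pow_succ_log_self (by norm_num) x
  have h2j : 2 ^ (j + 3) = 4 * 2 ^ (j + 1) := by ring
  set a : ℕ → ℕ := fun p => A p ω with ha
  obtain ⟨hs1, hs2, hs3⟩ := hsc
  have hjr : (8 : ℝ) ≤ j := by exact_mod_cast hj8
  have hqU : q ≤ q * U := Nat.le_mul_of_pos_right _ hU0
  have hUq : U ≤ q * U := Nat.le_mul_of_pos_left _ hq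
  -- `n0` is large
  have hn1' : n1 + 3 ≤ n0 := by
    by_contra hcon
    push Not at hcon
    have : n0 ^ 2 ≤ (n1 + 3) ^ 2 := Nat.pow_le_pow_left hcon.le 2
    omega
  set N2 := n0 + q * U with hN2
  have hzlt : ∀ n, n1 ≤ n → n ≤ 2 * x → z n < 2 ^ (j + 3) := fun n h1 h2 => by
    have := (hn1 n h1).1
    omega
  have hE0 : Real.exp (Real.log 2 / 4 * j) ≤ Real.sqrt (Real.sqrt x) := by
    have h4 : Real.exp (Real.log 2 / 4 * j) ^ 4 = (2 : ℝ) ^ j := by
      rw [← Real.exp_nat_mul]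
      have : ((4 : ℕ) : ℝ) * (Real.log 2 / 4 * j) = Real.log ((2 : ℝ) ^ j) := by
        rw [Real.log_pow]; push_cast; ring
      rw [this, Real.exp_log (by positivity)]
    apply Real.le_sqrt_of_sq_le
    apply Real.le_sqrt_of_sq_le
    have h5 : (2 : ℝ) ^ j ≤ x := by exact_mod_cast hX1
    calc (Real.exp (Real.log 2 / 4 * j) ^ 2) ^ 2 = Real.exp (Real.log 2 / 4 * j) ^ 4 := by ring
      _ ≤ (x : ℝ) := by rw [h4]; exact h5
  have hsqn : ∀ n : ℕ, n0 ≤ n → Real.sqrt (Real.sqrt x) ≤ Real.sqrt n := by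
    intro n hn
    apply Real.sqrt_le_sqrt
    rw [Real.sqrt_le_left (Nat.cast_nonneg n)]
    have h4 : (x : ℝ) ≤ (n0 : ℝ) ^ 2 := by exact_mod_cast hn0
    have h5 : (n0 : ℝ) ≤ n := by exact_mod_cast hn
    calc (x : ℝ) ≤ (n0 : ℝ) ^ 2 := h4
      _ ≤ (n : ℝ) ^ 2 := by gcongr
  have hzw : ∀ n, n0 ≤ n → j ^ (2 * (B + 1) + 3) ≤ z n := by
    intro n hn
    have h4 := (hn1 n (by omega)).2
    have h5 : ((j ^ (2 * (B + 1) + 3) : ℕ) : ℝ) ≤ z n := by
      push_cast
      exact (hp2.trans (hE0.trans (hsqn n hn))).trans h4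
    exact_mod_cast h5
  have hlU' : K * (Real.log j ^ 2 / Real.log (Real.log j)) ≤ Real.log U := by
    refine le_trans ?_ hlU
    calc K * (Real.log j ^ 2 / Real.log (Real.log j)) ≤
        K * (4 * (Real.log (Real.log x) ^ 2 / Real.log (Real.log (Real.log x)))) := by gcongr
      _ = _ := by ring
  have hcount : ∀ n, n0 ≤ n → n ≤ N2 →
      |((Sq a (Qs q (z n)) q n0 U).card : ℝ) - U * Vq q (z n)| ≤
        2 * (U / (j : ℝ) ^ (B + 1)) := fun n h1 h2 =>
    hx q hq (by omega) n0 (by omega) U (by omega) hU0 hlU' (z n) (hzlt n (by omega) (by omega))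
      (hzw n h1)
  have hup := cq_le z hz.mono a n0 q n0 U le_rfl
  have hlo := le_cq z hz.mono a N2 q n0 U le_rfl hred
  have hq0 : (0 : ℝ) < q := by exact_mod_cast hq
  have hφ : (0 : ℝ) < Nat.totient q := by exact_mod_cast Nat.totient_pos.2 hq
  set ρ : ℝ := (q : ℝ) / Nat.totient q with hρ
  have hρ0 : 0 < ρ := by positivity
  have hρc : ρ ≤ c * ((j : ℝ) + 3) := hct j q (by omega) hq (by omega)
  have hUr : (0 : ℝ) < U := by exact_mod_cast hU0
  -- the main terms
  have hV : ∀ n, n0 ≤ n → n ≤ N2 →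
      |U * Vq q (z n) - U * ρ / Real.log n| ≤ U / (4 * (j : ℝ) ^ B) := by
    intro n h1 h2
    have h4 := hC j q n (by omega) hq (by omega) (by omega) (by omega)
    have hln : 1 ≤ Real.log n := by
      rw [Real.le_log_iff_exp_le (by
        have : 0 < n := by omega
        exact_mod_cast this)]
      have := Real.exp_one_lt_d9
      have h5 : (3 : ℝ) ≤ n := by
        have : 3 ≤ n := by omega
        exact_mod_cast this
      linarith
    have e1 : U * Vq q (z n) - U * ρ / Real.log n = U * ρ / Real.log n *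
        (Real.log n * Vq q (z n) * ((Nat.totient q : ℝ) / q) - 1) := by
      rw [hρ]
      field_simp
    rw [e1, abs_mul, abs_of_nonneg (by positivity)]
    have h5 : U * ρ / Real.log n ≤ U * (c * ((j : ℝ) + 3)) := by
      calc U * ρ / Real.log n ≤ U * ρ := div_le_self (by positivity) hln
        _ ≤ _ := by gcongr
    have hsn : Real.exp (Real.log 2 / 4 * j) ≤ Real.sqrt n := hE0.trans (hsqn n h1)
    have hEpos := Real.exp_pos (Real.log 2 / 4 * j)
    have h6 : C * ((j : ℝ) + 3) ^ 2 / Real.sqrt n ≤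
        C * ((j : ℝ) + 3) ^ 2 / Real.exp (Real.log 2 / 4 * j) := by gcongr
    have hj3 : (j : ℝ) + 3 ≤ 2 * j := by linarith
    calc U * ρ / Real.log n * |Real.log n * Vq q (z n) * ((Nat.totient q : ℝ) / q) - 1| ≤
        U * (c * ((j : ℝ) + 3)) * (C * ((j : ℝ) + 3) ^ 2 / Real.exp (Real.log 2 / 4 * j)) := by
          have := h4.trans h6
          gcongr
      _ ≤ U * (c * (2 * (j : ℝ))) * (C * (2 * (j : ℝ)) ^ 2 /
          Real.exp (Real.log 2 / 4 * j)) := by gcongr
      _ = U * ((c * C * 8) * (j : ℝ) ^ 3) / Real.exp (Real.log 2 / 4 * j) := by ring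
      _ ≤ U / (4 * (j : ℝ) ^ B) := by
          rw [div_le_div_iff₀ hEpos (by positivity)]
          have h7 : (c * C * 8) * (j : ℝ) ^ 3 * (4 * (j : ℝ) ^ B) ≤
              Real.exp (Real.log 2 / 4 * j) := by
            refine le_trans ?_ hp1
            have e2 : (c * C * 8) * (j : ℝ) ^ 3 * (4 * (j : ℝ) ^ B) =
                c * C * 8 * 4 * (j : ℝ) ^ (B + 3) := by rw [pow_add]; ring
            rw [e2]
            have h8 : (j : ℝ) ^ (B + 3) ≤ (j : ℝ) ^ (B + 5) :=
              pow_le_pow_right₀ (by linarith) (by omega)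
            have h9 : c * C * 8 * 4 ≤ c * C * 64 * 4 := by
              have : 0 ≤ c * C := by positivity
              linarith
            gcongr
          calc U * ((c * C * 8) * (j : ℝ) ^ 3) * (4 * (j : ℝ) ^ B) =
              U * ((c * C * 8) * (j : ℝ) ^ 3 * (4 * (j : ℝ) ^ B)) := by ring
            _ ≤ U * Real.exp (Real.log 2 / 4 * j) := by gcongr
  have herr : 2 * (U / (j : ℝ) ^ (B + 1)) + U / (4 * (j : ℝ) ^ B) ≤ U / Real.log x ^ B := by
    have hlx : 0 < Real.log x := by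
      have := Real.log_two_gt_d9
      nlinarith
    have h4 : U / (j : ℝ) ^ B ≤ U / Real.log x ^ B := by gcongr
    have h5 : 2 * (U / (j : ℝ) ^ (B + 1)) ≤ 1 / 4 * (U / (j : ℝ) ^ B) := by
      rw [pow_succ]
      have : 2 * (U / ((j : ℝ) ^ B * j)) = (2 / j) * (U / (j : ℝ) ^ B) := by
        field_simp
      rw [this]
      have h6 : (2 : ℝ) / j ≤ 1 / 4 := by
        rw [div_le_div_iff₀ (by linarith) (by norm_num)]; linarith
      gcongr
    have h6 : U / (4 * (j : ℝ) ^ B) = 1 / 4 * (U / (j : ℝ) ^ B) := by field_simp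
    have h7 : 0 ≤ U / (j : ℝ) ^ B := by positivity
    linarith
  have a1 := abs_le.1 (hcount n0 le_rfl (by omega))
  have a2 := abs_le.1 (hcount N2 (by omega) le_rfl)
  have b1 := abs_le.1 (hV n0 le_rfl (by omega))
  have b2 := abs_le.1 (hV N2 (by omega) le_rfl)
  have e0 : ({i : ℕ | 1 ≤ i ∧ i ≤ U ∧ n0 + q * i ∈ RB z a}.ncard : ℝ) =
      (cq (RB z a) q n0 U : ℝ) := rfl
  rw [e0]
  have c1 : (cq (RB z a) q n0 U : ℝ) ≤ (Sq a (Qs q (z n0)) q n0 U).card := by exact_mod_cast hup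
  have c2 : ((Sq a (Qs q (z N2)) q n0 U).card : ℝ) ≤ cq (RB z a) q n0 U := by exact_mod_cast hlo
  have e1 : U * ρ * (1 / Real.log n0 - 1 / Real.log (N2 : ℝ)) =
      U * ρ / Real.log n0 - U * ρ / Real.log (N2 : ℝ) := by ring
  have hmono : U * ρ / Real.log (N2 : ℝ) ≤ U * ρ / Real.log n0 := by
    have h4 : 0 < Real.log (n0 : ℝ) := Real.log_pos (by
      have : 1 < n0 := by omega
      exact_mod_cast this)
    have h5 : Real.log (n0 : ℝ) ≤ Real.log (N2 : ℝ) := by
      refine Real.log_le_log ?_ ?_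
      · have : 0 < n0 := by omega
        exact_mod_cast this
      · have : n0 ≤ N2 := by omega
        exact_mod_cast this
    gcongr
  rw [e1, abs_le]
  constructor <;> linarith

end Pool.Agent.H532.EH
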