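import Mathlib

namespace Pool.Agent.H532.EH

open Finset Filter

namespace BS

open Classical in
/-- indicator -/
noncomputable def sI (R : Set ℕ) (q b i : ℕ) : ℕ := if b + q * i ∈ R then 1 else 0

/-- the block of index `k + 1` -/
noncomputable def Bl (R : Set ℕ) (q b L k : ℕ) : ℕ :=
  {i : ℕ | 1 ≤ i ∧ i ≤ L ∧ (b + q * ((k + 1) * L)) + q * i ∈ R}.ncard

lemma Bl_eq (R : Set ℕ) (q b L k : ℕ) :
    Bl R q b L k = ∑ i ∈ range L, sI R q b (L + 1 + (k * L + i)) := by
  classical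
  unfold Bl sI
  have h : {i : ℕ | 1 ≤ i ∧ i ≤ L ∧ (b + q * ((k + 1) * L)) + q * i ∈ R} =
      ↑(((range L).filter (fun i => b + q * (L + 1 + (k * L + i)) ∈ R)).image
        (fun i => i + 1)) := by
    ext i
    simp only [Set.mem_ofPred_eq, coe_image, Set.mem_image, mem_coe, mem_filter, mem_range]
    constructor
    · rintro ⟨h1, h2, h3⟩
      obtain ⟨j, rfl⟩ : ∃ j, i = j + 1 := ⟨i - 1, by omega⟩
      refine ⟨j, ⟨by omega, ?_⟩, rfl⟩
      have e : b + q * (L + 1 + (k * L + j)) = (b + q * ((k + 1) * L)) + q * (j + 1) := by ring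
      rwa [e]
    · rintro ⟨j, ⟨h1, h2⟩, rfl⟩
      refine ⟨by omega, by omega, ?_⟩
      have e : (b + q * ((k + 1) * L)) + q * (j + 1) = b + q * (L + 1 + (k * L + j)) := by ring
      rwa [e]
  rw [h, Set.ncard_coe_finset, card_image_of_injective _ (add_left_injective 1), card_filter]

lemma sum_Bl (R : Set ℕ) (q b L m : ℕ) :
    ∑ k ∈ range m, Bl R q b L k = ∑ j ∈ range (m * L), sI R q b (L + 1 + j) := by
  induction m with
  | zero => simp
  | succ m ih =>
    rw [sum_range_succ, ih, Bl_eq, add_mul, one_mul, sum_range_add]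

lemma sI_le (R : Set ℕ) (q b i : ℕ) : sI R q b i ≤ 1 := by
  unfold sI
  split_ifs <;> omega

lemma dec (R : Set ℕ) (q b x L m : ℕ) (hq : 0 < q) (hb : b < q) (hL : 0 < L)
    (h1 : 0 < m → b + q * ((m + 1) * L) ≤ x) (h2 : x < b + q * ((m + 3) * L)) :
    ∑ k ∈ range m, Bl R q b L k ≤
      {n : ℕ | 1 ≤ n ∧ n ≤ x ∧ n ≡ b [MOD q] ∧ n ∈ R}.ncard ∧
    {n : ℕ | 1 ≤ n ∧ n ≤ x ∧ n ≡ b [MOD q] ∧ n ∈ R}.ncard ≤
      ∑ k ∈ range m, Bl R q b L k + 3 * L := by
  classical
  have hinj : Function.Injective (fun i : ℕ => b + q * i) := by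
    intro i j h
    have h' : q * i = q * j := by simpa using h
    exact Nat.eq_of_mul_eq_mul_left hq h'
  have hfin : {n : ℕ | 1 ≤ n ∧ n ≤ x ∧ n ≡ b [MOD q] ∧ n ∈ R}.Finite :=
    (Set.finite_Iic x).subset (fun n hn => hn.2.1)
  constructor
  · rw [sum_Bl]
    unfold sI
    rw [← card_filter, ← card_image_of_injective (s := (range (m * L)).filter
      (fun j => b + q * (L + 1 + j) ∈ R)) (f := fun j => b + q * (L + 1 + j))
      (by
        intro i j h
        have := hinj h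
        simpa using this), ← Set.ncard_coe_finset]
    refine Set.ncard_le_ncard ?_ hfin
    intro n hn
    simp only [coe_image, Set.mem_image, mem_coe, mem_filter, mem_range] at hn
    obtain ⟨j, ⟨hj1, hj2⟩, rfl⟩ := hn
    have hm : 0 < m := by
      rcases Nat.eq_zero_or_pos m with h | h
      · subst h
        simp at hj1
      · exact h
    refine ⟨?_, ?_, ?_, hj2⟩
    · have : 1 ≤ q * (L + 1 + j) := Nat.mul_pos hq (by omega)
      omega
    · refine le_trans ?_ (h1 hm)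
      have : L + 1 + j ≤ (m + 1) * L := by
        have e : (m + 1) * L = m * L + L := by ring
        omega
      exact Nat.add_le_add_left (Nat.mul_le_mul_left q this) b
    · unfold Nat.ModEq
      simp [Nat.add_mul_mod_self_left]
  · have hN : {n : ℕ | 1 ≤ n ∧ n ≤ x ∧ n ≡ b [MOD q] ∧ n ∈ R}.ncard ≤
        ∑ i ∈ range ((m + 3) * L), sI R q b i := by
      unfold sI
      rw [← card_filter, ← card_image_of_injective (s := (range ((m + 3) * L)).filter
        (fun i => b + q * i ∈ R)) (f := fun i => b + q * i) hinj, ← Set.ncard_coe_finset]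
      refine Set.ncard_le_ncard ?_ (Finset.finite_toSet _)
      intro n hn
      obtain ⟨a1, a2, a3, a4⟩ := hn
      have e1 : n % q = b := by
        have := a3
        unfold Nat.ModEq at this
        rw [this, Nat.mod_eq_of_lt hb]
      have e2 : b + q * (n / q) = n := by
        have := Nat.mod_add_div n q
        rw [e1] at this
        exact this
      simp only [coe_image, Set.mem_image, mem_coe, mem_filter, mem_range]
      refine ⟨n / q, ⟨?_, ?_⟩, e2⟩
      · by_contra hcon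
        have h3 : (m + 3) * L ≤ n / q := by omega
        have h4 : q * ((m + 3) * L) ≤ q * (n / q) := Nat.mul_le_mul_left q h3
        omega
      · rw [e2]
        exact a4
    refine hN.trans ?_
    have e : (m + 3) * L = (L + 1) + m * L + (2 * L - 1) := by
      have : (m + 3) * L = m * L + 3 * L := by ring
      omega
    rw [e, sum_range_add, sum_range_add, sum_Bl]
    have b1 : ∑ i ∈ range (L + 1), sI R q b i ≤ L + 1 := by
      calc ∑ i ∈ range (L + 1), sI R q b i ≤ ∑ i ∈ range (L + 1), 1 :=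
            sum_le_sum (fun i _ => sI_le R q b i)
        _ = L + 1 := by simp
    have b2 : ∑ i ∈ range (2 * L - 1), sI R q b (L + 1 + m * L + i) ≤ 2 * L - 1 := by
      calc ∑ i ∈ range (2 * L - 1), sI R q b (L + 1 + m * L + i) ≤
            ∑ i ∈ range (2 * L - 1), 1 := sum_le_sum (fun i _ => sI_le R q b _)
        _ = 2 * L - 1 := by simp
    omega

lemma core (R : Set ℕ) (q b x L m : ℕ) (X ρ φ : ℝ) (hX : 0 < X) (hq : 0 < q) (hb : b < q)
    (hL : 0 < L) (hφ : 0 < φ) (hρ : ρ = q / φ) (hρ1 : 1 ≤ ρ)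
    (h1 : 0 < m → b + q * ((m + 1) * L) ≤ x) (h2 : x < b + q * ((m + 2) * L))
    (hlog : 1 ≤ Real.log ((q * L : ℕ) : ℝ))
    (hBq : ∀ k < m, |(Bl R q b L k : ℝ) - L * ρ / Real.log ((b + q * ((k + 1) * L) : ℕ) : ℝ)| ≤
      L * ρ * (1 / Real.log ((b + q * ((k + 1) * L) : ℕ) : ℝ) -
        1 / Real.log ((b + q * ((k + 1) * L) + q * L : ℕ) : ℝ)) + L / X)
    (hB1 : ∀ k < m, |(Bl R 1 0 (q * L) k : ℝ) -
      (q * L : ℕ) * 1 / Real.log ((0 + 1 * ((k + 1) * (q * L)) : ℕ) : ℝ)| ≤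
      (q * L : ℕ) * 1 * (1 / Real.log ((0 + 1 * ((k + 1) * (q * L)) : ℕ) : ℝ) -
        1 / Real.log ((0 + 1 * ((k + 1) * (q * L)) + 1 * (q * L) : ℕ) : ℝ)) + (q * L : ℕ) / X) :
    |({n : ℕ | 1 ≤ n ∧ n ≤ x ∧ n ≡ b [MOD q] ∧ n ∈ R}.ncard : ℝ) -
      ({n : ℕ | 1 ≤ n ∧ n ≤ x ∧ n ≡ 0 [MOD 1] ∧ n ∈ R}.ncard : ℝ) / φ| ≤
      12 * (ρ * L) + 2 * (ρ * (m * L)) / X := by
  have hqL : 0 < q * L := Nat.mul_pos hq hL
  have hanti : ∀ s t : ℕ, q * L ≤ s → s ≤ t → 1 / Real.log (t : ℝ) ≤ 1 / Real.log (s : ℝ) := by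
    intro s t hs hst
    have hs0 : (0 : ℝ) < s := by exact_mod_cast lt_of_lt_of_le hqL hs
    have hqL' : (0 : ℝ) < ((q * L : ℕ) : ℝ) := by exact_mod_cast hqL
    have e1 : Real.log ((q * L : ℕ) : ℝ) ≤ Real.log s :=
      Real.log_le_log hqL' (by exact_mod_cast hs)
    have e2 : Real.log (s : ℝ) ≤ Real.log t := Real.log_le_log hs0 (by exact_mod_cast hst)
    exact one_div_le_one_div_of_le (by linarith) e2
  set g : ℕ → ℝ := fun k => 1 / Real.log (((k + 1) * (q * L) : ℕ) : ℝ) with hg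
  have hgpos : ∀ k, 0 ≤ g k := by
    intro k
    have hqL' : (0 : ℝ) < ((q * L : ℕ) : ℝ) := by exact_mod_cast hqL
    have e1 : Real.log ((q * L : ℕ) : ℝ) ≤ Real.log (((k + 1) * (q * L) : ℕ) : ℝ) :=
      Real.log_le_log hqL' (by exact_mod_cast Nat.le_mul_of_pos_left _ (Nat.succ_pos k))
    exact one_div_nonneg.mpr (by linarith)
  have hg0 : g 0 ≤ 1 := by
    simp only [hg, zero_add, one_mul]
    rw [div_le_one (by linarith)]
    exact hlog
  have hganti : ∀ k, g (k + 1) ≤ g k := by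
    intro k
    exact hanti _ _ (Nat.le_mul_of_pos_left _ (Nat.succ_pos k))
      (Nat.mul_le_mul_right _ (by omega))
  have hP : 0 < ρ * L := mul_pos (by linarith) (by exact_mod_cast hL)
  have hPq : ((q * L : ℕ) : ℝ) / φ = ρ * L := by
    rw [hρ]
    push_cast
    ring
  have hblock : ∀ k ∈ range m, |(Bl R q b L k : ℝ) - (Bl R 1 0 (q * L) k : ℝ) / φ| ≤
      3 * (ρ * L) * ((g k + g (k + 1)) - (g (k + 1) + g (k + 1 + 1))) + 2 * (ρ * L) / X := by
    intro k hk
    have hk' := mem_range.mp hk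
    have a1 := hBq k hk'
    have a2 := hB1 k hk'
    have f1 : q * L ≤ q * ((k + 1) * L) :=
      Nat.mul_le_mul_left q (Nat.le_mul_of_pos_left _ (Nat.succ_pos k))
    have f2 : q * ((k + 1) * L) = (k + 1) * (q * L) := by ring
    have f3 : b < q * L := lt_of_lt_of_le hb (Nat.le_mul_of_pos_right _ hL)
    have f4 : (k + 1 + 1) * (q * L) = (k + 1) * (q * L) + q * L := by ring
    have f5 : (k + 1 + 1 + 1) * (q * L) = (k + 1) * (q * L) + q * L + q * L := by ring
    rw [zero_add, one_mul, one_mul, ← f4] at a2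
    set α : ℝ := 1 / Real.log ((b + q * ((k + 1) * L) : ℕ) : ℝ) with hα
    set β : ℝ := 1 / Real.log ((b + q * ((k + 1) * L) + q * L : ℕ) : ℝ) with hβ
    have g1 : α ≤ g k := hanti _ _ (by omega) (by omega)
    have g2 : g (k + 1) ≤ α := hanti _ _ (by omega) (by rw [f4]; omega)
    have g3 : g (k + 1 + 1) ≤ β := hanti _ _ (by omega) (by rw [f5]; omega)
    have a1' : |(Bl R q b L k : ℝ) - (ρ * L) * α| ≤ (ρ * L) * (α - β) + L / X := by
      have e1 : (L : ℝ) * ρ / Real.log ((b + q * ((k + 1) * L) : ℕ) : ℝ) = (ρ * L) * α := by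
        rw [hα]; ring
      rw [e1] at a1
      calc _ ≤ _ := a1
        _ = _ := by ring
    have a2' : |(Bl R 1 0 (q * L) k : ℝ) / φ - (ρ * L) * g k| ≤
        (ρ * L) * (g k - g (k + 1)) + (ρ * L) / X := by
      have e1 : (Bl R 1 0 (q * L) k : ℝ) / φ - (ρ * L) * g k =
          ((Bl R 1 0 (q * L) k : ℝ) - ((q * L : ℕ) : ℝ) * 1 /
            Real.log (((k + 1) * (q * L) : ℕ) : ℝ)) / φ := by
        rw [← hPq]
        simp only [hg]
        ring
      have e2 : (ρ * L) * (g k - g (k + 1)) + (ρ * L) / X =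
          (((q * L : ℕ) : ℝ) * 1 * (1 / Real.log (((k + 1) * (q * L) : ℕ) : ℝ) -
            1 / Real.log (((k + 1 + 1) * (q * L) : ℕ) : ℝ)) + ((q * L : ℕ) : ℝ) / X) / φ := by
        rw [← hPq]
        simp only [hg]
        ring
      rw [e1, e2, abs_div, abs_of_pos hφ]
      exact div_le_div_of_nonneg_right a2 hφ.le
    have hLX : (L : ℝ) / X ≤ (ρ * L) / X := by
      apply div_le_div_of_nonneg_right _ hX.le
      have : (0 : ℝ) < L := by exact_mod_cast hL
      nlinarith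
    have e3 : 2 * (ρ * L) / X = ρ * L / X + ρ * L / X := by ring
    rw [abs_le] at a1' a2' ⊢
    have p1 : 0 ≤ ρ * L * (g k - α) := mul_nonneg hP.le (by linarith)
    have p2 : 0 ≤ ρ * L * (α - g (k + 1)) := mul_nonneg hP.le (by linarith)
    have p3 : 0 ≤ ρ * L * (β - g (k + 1 + 1)) := mul_nonneg hP.le (by linarith)
    have p4 : 0 ≤ ρ * L * (g (k + 1) - g (k + 1 + 1)) := mul_nonneg hP.le
      (by linarith [hganti (k + 1)])
    constructor <;> nlinarith [a1'.1, a1'.2, a2'.1, a2'.2]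
  have hsum : |∑ k ∈ range m, (Bl R q b L k : ℝ) - (∑ k ∈ range m, (Bl R 1 0 (q * L) k : ℝ)) / φ|
      ≤ 6 * (ρ * L) + 2 * (ρ * (m * L)) / X := by
    rw [sum_div, ← sum_sub_distrib]
    refine (abs_sum_le_sum_abs _ _).trans ((sum_le_sum hblock).trans ?_)
    rw [sum_add_distrib, ← mul_sum, sum_range_sub' (fun k => g k + g (k + 1)), sum_const,
      card_range, nsmul_eq_mul]
    have e1 : (m : ℝ) * (2 * (ρ * L) / X) = 2 * (ρ * (m * L)) / X := by ring
    rw [e1]
    have e2 : g 0 + g (0 + 1) - (g m + g (m + 1)) ≤ 2 := by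
      linarith [hgpos m, hgpos (m + 1), hganti 0]
    nlinarith
  obtain ⟨d1, d2⟩ := dec R q b x L m hq hb hL h1 (lt_of_lt_of_le h2 (by
    exact Nat.add_le_add_left (Nat.mul_le_mul_left q (Nat.mul_le_mul_right L (by omega))) b))
  have f3 : b < q * L := lt_of_lt_of_le hb (Nat.le_mul_of_pos_right _ hL)
  have f6 : q * ((m + 1) * L) = (m + 1) * (q * L) := by ring
  have f7 : q * ((m + 2) * L) = (m + 2) * (q * L) := by ring
  have f8 : (m + 3) * (q * L) = (m + 2) * (q * L) + q * L := by ring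
  obtain ⟨d3, d4⟩ := dec R 1 0 x (q * L) m one_pos one_pos hqL
    (by intro hm; have := h1 hm; omega) (by omega)
  set Nq : ℕ := {n : ℕ | 1 ≤ n ∧ n ≤ x ∧ n ≡ b [MOD q] ∧ n ∈ R}.ncard with hNq
  set N1 : ℕ := {n : ℕ | 1 ≤ n ∧ n ≤ x ∧ n ≡ 0 [MOD 1] ∧ n ∈ R}.ncard with hN1
  have r1 : (∑ k ∈ range m, (Bl R q b L k : ℝ)) ≤ Nq := by exact_mod_cast d1
  have r2 : (Nq : ℝ) ≤ (∑ k ∈ range m, (Bl R q b L k : ℝ)) + 3 * L := by exact_mod_cast d2
  have r3 : (∑ k ∈ range m, (Bl R 1 0 (q * L) k : ℝ)) ≤ N1 := by exact_mod_cast d3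
  have r4 : (N1 : ℝ) ≤ (∑ k ∈ range m, (Bl R 1 0 (q * L) k : ℝ)) + 3 * ((q * L : ℕ) : ℝ) := by
    exact_mod_cast d4
  have r5 : (∑ k ∈ range m, (Bl R 1 0 (q * L) k : ℝ)) / φ ≤ N1 / φ :=
    div_le_div_of_nonneg_right r3 hφ.le
  have r6 : (N1 : ℝ) / φ ≤ (∑ k ∈ range m, (Bl R 1 0 (q * L) k : ℝ)) / φ + 3 * (ρ * L) := by
    rw [← hPq]
    calc (N1 : ℝ) / φ ≤ ((∑ k ∈ range m, (Bl R 1 0 (q * L) k : ℝ)) +
          3 * ((q * L : ℕ) : ℝ)) / φ := div_le_div_of_nonneg_right r4 hφ.le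
      _ = _ := by ring
  have hLP : (L : ℝ) ≤ ρ * L := by
    have : (0 : ℝ) < L := by exact_mod_cast hL
    nlinarith
  rw [abs_le] at hsum ⊢
  constructor <;> linarith [hsum.1, hsum.2]


lemma ev_f (B : ℕ) : ∀ᶠ x : ℕ in atTop,
    (B : ℝ) * Real.log (Real.log x) + 1 ≤
      Real.log (Real.log x) ^ 2 / Real.log (Real.log (Real.log x)) := by
  have h1 : Tendsto (fun x : ℕ => Real.log (Real.log (x : ℝ))) atTop atTop :=
    Real.tendsto_log_atTop.comp (Real.tendsto_log_atTop.comp tendsto_natCast_atTop_atTop)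
  have h2 : ∀ᶠ t : ℝ in atTop, (B : ℝ) * t + 1 ≤ t ^ 2 / Real.log t := by
    have h3 := Real.isLittleO_log_id_atTop.bound
      (show (0 : ℝ) < 1 / ((B : ℝ) + 1) by positivity)
    filter_upwards [h3, eventually_ge_atTop (3 : ℝ)] with t ht ht3
    have hlt : 0 < Real.log t := Real.log_pos (by linarith)
    rw [Real.norm_eq_abs, abs_of_pos hlt, id, Real.norm_eq_abs, abs_of_pos (by linarith)] at ht
    rw [le_div_iff₀ hlt]
    have hB : (0 : ℝ) < (B : ℝ) + 1 := by positivity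
    have h4 : ((B : ℝ) + 1) * Real.log t ≤ t := by
      calc ((B : ℝ) + 1) * Real.log t ≤ ((B : ℝ) + 1) * (1 / ((B : ℝ) + 1) * t) :=
            mul_le_mul_of_nonneg_left ht hB.le
        _ = t := by field_simp
    have h5 : ((B : ℝ) * t + 1) ≤ ((B : ℝ) + 1) * t := by nlinarith
    calc ((B : ℝ) * t + 1) * Real.log t ≤ (((B : ℝ) + 1) * t) * Real.log t :=
          mul_le_mul_of_nonneg_right h5 hlt.le
      _ = (((B : ℝ) + 1) * Real.log t) * t := by ring
      _ ≤ t * t := mul_le_mul_of_nonneg_right h4 (by linarith)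
      _ = t ^ 2 := by ring
  exact h1.eventually h2

lemma ev_X (B : ℕ) : ∀ᶠ x : ℕ in atTop, 4 * (Real.log x ^ B) ^ 2 ≤ (x : ℝ) := by
  have h2 : ∀ᶠ t : ℝ in atTop, 4 * (Real.log t ^ B) ^ 2 ≤ t := by
    have h3 := (Real.isLittleO_pow_log_id_atTop (n := B * 2)).bound
      (show (0 : ℝ) < 1 / 4 by norm_num)
    filter_upwards [h3, eventually_ge_atTop (3 : ℝ)] with t ht ht3
    have hlt : 0 < Real.log t := Real.log_pos (by linarith)
    rw [Real.norm_eq_abs, abs_of_pos (pow_pos hlt _), id, Real.norm_eq_abs,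
      abs_of_pos (by linarith)] at ht
    rw [← pow_mul]
    linarith
  exact tendsto_natCast_atTop_atTop.eventually h2

end BS

open BS in
/-- P4. From short progressions to `π(x; q, b)`. Here `Rd q b` stands for `b` being in a reduced
class modulo `q`. -/
theorem blocks_sum (R : Set ℕ) (Rd : ℕ → ℕ → Prop) (hRd1 : ∀ b, Rd 1 b)
    (hRd : ∀ q b b' : ℕ, b ≡ b' [MOD q] → Rd q b → Rd q b') (c : ℝ) (hc0 : 0 < c)
    (hc : ∀ᶠ x : ℕ in atTop, ∀ q : ℕ, 0 < q → q ≤ 2 * x →
      (q : ℝ) / Nat.totient q ≤ c * Real.log x)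
    (hB : ∀ B : ℕ, ∃ K : ℝ, 0 < K ∧ ∀ᶠ x : ℕ in atTop, ∀ q n0 U : ℕ, 0 < q → x ≤ n0 ^ 2 →
      n0 + q * U ≤ 2 * x → 0 < U →
      K * (Real.log (Real.log x) ^ 2 / Real.log (Real.log (Real.log x))) ≤ Real.log U →
      Rd q n0 →
      |({i : ℕ | 1 ≤ i ∧ i ≤ U ∧ n0 + q * i ∈ R}.ncard : ℝ) -
        U * ((q : ℝ) / Nat.totient q) / Real.log n0| ≤
        U * ((q : ℝ) / Nat.totient q) * (1 / Real.log n0 - 1 / Real.log ((n0 + q * U : ℕ) : ℝ)) +
          U / Real.log x ^ B) :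
    ∀ A : ℝ, 0 < A → ∃ K : ℝ, 0 < K ∧ ∀ᶠ x : ℕ in atTop, ∀ q b : ℕ, 1 ≤ q → b < q → q ≤ x →
      K * (Real.log (Real.log x) ^ 2 / Real.log (Real.log (Real.log x))) ≤ Real.log (x / q) →
      Rd q b →
      |({n : ℕ | 1 ≤ n ∧ n ≤ x ∧ n ≡ b [MOD q] ∧ n ∈ R}.ncard : ℝ) -
        ({n : ℕ | 1 ≤ n ∧ n ≤ x ∧ n ≡ 0 [MOD 1] ∧ n ∈ R}.ncard : ℝ) / Nat.totient q| ≤
        x / q * Real.log x ^ (-A) := by
  intro A hA
  set B : ℕ := ⌈A⌉₊ + 2 with hBdef
  have hBA : A + 2 ≤ (B : ℝ) := by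
    rw [hBdef]
    push_cast
    linarith [Nat.le_ceil A]
  obtain ⟨K', hK', hev⟩ := hB B
  refine ⟨K' + 1, by linarith, ?_⟩
  have hl : Tendsto (fun x : ℕ => Real.log (x : ℝ)) atTop atTop :=
    Real.tendsto_log_atTop.comp tendsto_natCast_atTop_atTop
  filter_upwards [hev, hc, hl.eventually_ge_atTop (14 * c), hl.eventually_ge_atTop 2, ev_f B,
    ev_X B, eventually_ge_atTop 1] with x hx hcx hx14 hx2 hxf hxX hx1
  intro q b hq hbq hqx hK hR
  set f : ℝ := Real.log (Real.log x) ^ 2 / Real.log (Real.log (Real.log x)) with hf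
  set lx : ℝ := Real.log x with hlx
  have hlx0 : 0 < lx := by linarith
  have hllx : 0 ≤ Real.log lx := Real.log_nonneg (by linarith)
  have hf0 : 1 ≤ f := by
    have : 0 ≤ (B : ℝ) * Real.log lx := by positivity
    linarith
  set X : ℝ := lx ^ B with hX
  have hX0 : 0 < X := pow_pos hlx0 _
  have hq0 : (0 : ℝ) < q := by exact_mod_cast hq
  have hx0 : (0 : ℝ) < x := by exact_mod_cast hx1
  set y : ℝ := (x : ℝ) / q / X with hy
  have hy0 : 0 < y := div_pos (div_pos hx0 hq0) hX0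
  have hlogy : Real.log y = Real.log (x / q) - B * Real.log lx := by
    rw [hy, Real.log_div (div_pos hx0 hq0).ne' hX0.ne', hX, Real.log_pow]
  have hlog2 : Real.log 2 < 1 := by
    have := Real.log_two_lt_d9
    linarith
  have hlogy1 : Real.log 2 + K' * f ≤ Real.log y := by
    rw [hlogy]
    have : (K' + 1) * f = K' * f + f := by ring
    rw [this] at hK
    linarith
  have hy2 : 2 ≤ y := by
    have h1 : Real.log 2 ≤ Real.log y := by
      have : 0 ≤ K' * f := by positivity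
      linarith
    exact (Real.log_le_log_iff (by norm_num) hy0).mp h1
  set L : ℕ := ⌊y⌋₊ with hLdef
  have hLy : (L : ℝ) ≤ y := Nat.floor_le hy0.le
  have hLy2 : y / 2 ≤ (L : ℝ) := by
    have := Nat.lt_floor_add_one y
    rw [← hLdef] at this
    linarith
  have hL0' : (0 : ℝ) < (L : ℝ) := by linarith
  have hL0 : 0 < L := by exact_mod_cast hL0'
  have hlogL : K' * f ≤ Real.log L := by
    have h1 : Real.log (y / 2) ≤ Real.log L := Real.log_le_log (by linarith) hLy2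
    rw [Real.log_div hy0.ne' (by norm_num)] at h1
    linarith
  have hqL0 : 0 < q * L := Nat.mul_pos hq hL0
  have hqy : (q : ℝ) * y = x / X := by
    rw [hy]
    field_simp
  have hqLr : (x : ℝ) / (2 * X) ≤ ((q * L : ℕ) : ℝ) := by
    push_cast
    calc (x : ℝ) / (2 * X) = q * (y / 2) := by
          rw [show (q : ℝ) * (y / 2) = (q * y) / 2 by ring, hqy]
          field_simp
      _ ≤ q * L := mul_le_mul_of_nonneg_left hLy2 hq0.le
  have hxqL : x ≤ (q * L) ^ 2 := by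
    have h1 : (x : ℝ) ≤ (((q * L : ℕ) : ℝ)) ^ 2 := by
      calc (x : ℝ) = (x : ℝ) * (4 * X ^ 2) / (4 * X ^ 2) := by field_simp
        _ ≤ (x : ℝ) * x / (4 * X ^ 2) := by
            apply div_le_div_of_nonneg_right _ (by positivity)
            exact mul_le_mul_of_nonneg_left hxX hx0.le
        _ = ((x : ℝ) / (2 * X)) ^ 2 := by field_simp; ring
        _ ≤ _ := pow_le_pow_left₀ (by positivity) hqLr 2
    exact_mod_cast h1
  have hqLpos : (0 : ℝ) < ((q * L : ℕ) : ℝ) := by exact_mod_cast hqL0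
  have hlogqL : 1 ≤ Real.log ((q * L : ℕ) : ℝ) := by
    have h1 : Real.log x ≤ Real.log ((((q * L : ℕ) : ℝ)) ^ 2) :=
      Real.log_le_log hx0 (by exact_mod_cast hxqL)
    rw [Real.log_pow] at h1
    push_cast at h1 ⊢
    linarith
  have hlogqL2 : K' * f ≤ Real.log ((q * L : ℕ) : ℝ) := by
    refine hlogL.trans (Real.log_le_log hL0' ?_)
    exact_mod_cast Nat.le_mul_of_pos_left L hq
  set m : ℕ := (x - b) / (q * L) - 1 with hm
  have hM1 : (x - b) / (q * L) * (q * L) ≤ x - b := Nat.div_mul_le_self _ _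
  have hM2 : x - b < (q * L) * ((x - b) / (q * L) + 1) := Nat.lt_mul_div_succ _ hqL0
  have h1 : 0 < m → b + q * ((m + 1) * L) ≤ x := by
    intro hm0
    have e1 : (x - b) / (q * L) = m + 1 := by omega
    rw [e1] at hM1
    have e2 : q * ((m + 1) * L) = (m + 1) * (q * L) := by ring
    have e3 : 0 < (m + 1) * (q * L) := Nat.mul_pos (Nat.succ_pos m) hqL0
    omega
  have h2 : x < b + q * ((m + 2) * L) := by
    have e1 : (x - b) / (q * L) + 1 ≤ m + 2 := by omega
    have e2 : q * ((m + 2) * L) = (q * L) * (m + 2) := by ring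
    have e3 : (q * L) * ((x - b) / (q * L) + 1) ≤ (q * L) * (m + 2) := Nat.mul_le_mul_left _ e1
    omega
  have htot : 0 < Nat.totient q := Nat.totient_pos.mpr hq
  have htot' : (0 : ℝ) < (Nat.totient q : ℝ) := by exact_mod_cast htot
  have hρ1 : 1 ≤ (q : ℝ) / (Nat.totient q : ℝ) := by
    rw [le_div_iff₀ htot', one_mul]
    exact_mod_cast Nat.totient_le q
  have hρc : (q : ℝ) / (Nat.totient q : ℝ) ≤ c * lx := hcx q hq (by omega)
  have hcore := core R q b x L m X ((q : ℝ) / (Nat.totient q : ℝ)) (Nat.totient q : ℝ) hX0 hq hbq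
    hL0 htot' rfl hρ1 h1 h2 hlogqL
    (by
      intro k hk
      have f1 : q * L ≤ q * ((k + 1) * L) :=
        Nat.mul_le_mul_left q (Nat.le_mul_of_pos_left _ (Nat.succ_pos k))
      have f2 : q * ((k + 1) * L) + q * L ≤ q * ((m + 1) * L) := by
        have : q * ((k + 1) * L) + q * L = q * ((k + 1 + 1) * L) := by ring
        rw [this]
        exact Nat.mul_le_mul_left q (Nat.mul_le_mul_right L (by omega))
      have f3 := h1 (by omega)
      refine hx q (b + q * ((k + 1) * L)) L hq ?_ (by omega) hL0 hlogL ?_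
      · exact hxqL.trans (Nat.pow_le_pow_left (by omega) 2)
      · refine hRd q b _ ?_ hR
        unfold Nat.ModEq
        simp [Nat.add_mul_mod_self_left])
    (by
      intro k hk
      have f1 : q * L ≤ (k + 1) * (q * L) := Nat.le_mul_of_pos_left _ (Nat.succ_pos k)
      have f2 : (k + 1) * (q * L) + q * L ≤ q * ((m + 1) * L) := by
        have e1 : (k + 1) * (q * L) + q * L = q * ((k + 1 + 1) * L) := by ring
        rw [e1]
        exact Nat.mul_le_mul_left q (Nat.mul_le_mul_right L (by omega))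
      have f3 := h1 (by omega)
      have h5 := hx 1 (0 + 1 * ((k + 1) * (q * L))) (q * L) one_pos
        (hxqL.trans (Nat.pow_le_pow_left (by omega) 2)) (by omega) hqL0 hlogqL2 (hRd1 _)
      have e2 : ((1 : ℕ) : ℝ) / (Nat.totient 1 : ℝ) = 1 := by simp
      rw [e2] at h5
      exact h5)
  refine hcore.trans ?_
  set ρ : ℝ := (q : ℝ) / (Nat.totient q : ℝ) with hρ
  have hmL : (m : ℝ) * L / X ≤ y := by
    rw [hy]
    apply div_le_div_of_nonneg_right _ hX0.le
    rw [le_div_iff₀ hq0]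
    rcases Nat.eq_zero_or_pos m with h0 | h0
    · rw [h0]
      simp
    · have e1 := h1 h0
      have e2 : m * L * q ≤ x := by
        have e3 : m * L * q ≤ q * ((m + 1) * L) := by
          have e4 : q * ((m + 1) * L) = m * L * q + q * L := by ring
          omega
        omega
      exact_mod_cast e2
  have hb1 : 12 * (ρ * L) + 2 * (ρ * (m * L)) / X ≤ 14 * (ρ * y) := by
    have e1 : 2 * (ρ * (m * L)) / X = 2 * ρ * ((m : ℝ) * L / X) := by ring
    rw [e1]
    have e2 : ρ * L ≤ ρ * y := mul_le_mul_of_nonneg_left hLy (by linarith)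
    have e3 : 2 * ρ * ((m : ℝ) * L / X) ≤ 2 * ρ * y :=
      mul_le_mul_of_nonneg_left hmL (by linarith)
    nlinarith
  refine hb1.trans ?_
  have hb2 : 14 * (ρ * y) ≤ 14 * (c * lx * y) := by
    have := mul_le_mul_of_nonneg_right hρc hy0.le
    linarith
  refine hb2.trans ?_
  have hb3 : 14 * (c * lx) * lx ^ A ≤ X := by
    have e1 : lx ^ (A + 2) ≤ X := by
      rw [hX, ← Real.rpow_natCast]
      exact Real.rpow_le_rpow_of_exponent_le (by linarith) hBA
    have e2 : lx ^ (A + 2) = lx ^ A * lx ^ 2 := by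
      rw [Real.rpow_add hlx0]
      norm_num
    rw [e2] at e1
    refine le_trans ?_ e1
    have e3 : 0 < lx ^ A := Real.rpow_pos_of_pos hlx0 A
    have e4 : 14 * (c * lx) ≤ lx ^ 2 := by nlinarith
    calc 14 * (c * lx) * lx ^ A ≤ lx ^ 2 * lx ^ A := mul_le_mul_of_nonneg_right e4 e3.le
      _ = lx ^ A * lx ^ 2 := by ring
  have hA0 : 0 < lx ^ A := Real.rpow_pos_of_pos hlx0 A
  rw [Real.rpow_neg hlx0.le]
  have e5 : 14 * (c * lx * y) = (x : ℝ) / q * (14 * (c * lx) / X) := by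
    rw [hy]
    ring
  rw [e5]
  apply mul_le_mul_of_nonneg_left _ (div_pos hx0 hq0).le
  rw [div_le_iff₀ hX0, ← div_eq_inv_mul, le_div_iff₀ hA0]
  exact hb3

end Pool.Agent.H532.EH
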