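import Mathlib
import Pool.Agent.H532.EH.Def

/-!
Chebyshev bounds for the primes in `(y / 3, y]`.
-/

namespace Pool.Agent.H532.EH

open Finset

namespace Cheb

theorem log_small : ∃ y0 : ℕ, ∀ y : ℕ, y0 ≤ y → Real.log y ≤ 1 / 100 * √(y : ℝ) := by
  have h1 := (isLittleO_log_rpow_atTop (r := 1 / 2) (by norm_num)).def
    (show (0 : ℝ) < 1 / 100 by norm_num)
  have h2 := tendsto_natCast_atTop_atTop (R := ℝ) |>.eventually h1
  obtain ⟨y0, hy0⟩ := Filter.eventually_atTop.1 h2
  refine ⟨y0, fun y hy => ?_⟩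
  have h3 := hy0 y hy
  rw [← Real.sqrt_eq_rpow, Real.norm_of_nonneg (Real.sqrt_nonneg _)] at h3
  exact (Real.le_norm_self _).trans h3

theorem log_four : Real.log 4 = 2 * Real.log 2 := by
  have h : (4 : ℝ) = 2 ^ 2 := by norm_num
  rw [h, Real.log_pow]
  norm_num

end Cheb

/-- T6. Chebyshev bounds for the primes in `(y / 3, y]`. -/
theorem cheb : ∃ y0 : ℕ, ∀ y : ℕ, y0 ≤ y →
    (y : ℝ) / (10 * Real.log y) ≤ (((Ioc (y / 3) y).filter Nat.Prime).card : ℝ) ∧
    (((Ioc (y / 3) y).filter Nat.Prime).card : ℝ) ≤ 3 * y / Real.log y := by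
  obtain ⟨y0, hy0⟩ := Cheb.log_small
  refine ⟨max y0 100, fun y hy => ?_⟩
  have hy1 : 100 ≤ y := (le_max_right _ _).trans hy
  have hyR : (100 : ℝ) ≤ y := by exact_mod_cast hy1
  have hlog := hy0 y ((le_max_left _ _).trans hy)
  have hlpos : 0 < Real.log y := Real.log_pos (by linarith)
  have hs : √(y : ℝ) * √(y : ℝ) = y := Real.mul_self_sqrt (by linarith)
  have hs0 : 0 ≤ √(y : ℝ) := Real.sqrt_nonneg _
  have hs10 : 10 ≤ √(y : ℝ) := by
    rw [show (10 : ℝ) = √100 by
      rw [show (100 : ℝ) = 10 ^ 2 by norm_num, Real.sqrt_sq (by norm_num)]]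
    exact Real.sqrt_le_sqrt hyR
  have hl2 := Real.log_two_gt_d9
  have hl2' := Real.log_two_lt_d9
  set S := (Ioc (y / 3) y).filter Nat.Prime with hS
  constructor
  · -- lower bound
    have h1 : Chebyshev.theta (y : ℝ) - Chebyshev.theta ((y / 3 : ℕ) : ℝ) ≤ S.card * Real.log y := by
      rw [Chebyshev.theta_eq_sum_primesLE_log, Chebyshev.theta_eq_sum_primesLE_log]
      have h2 : Nat.primesLE (y / 3) ⊆ Nat.primesLE y := Nat.primesLE_mono (Nat.div_le_self y 3)
      rw [← Finset.sum_sdiff h2, add_sub_cancel_right]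
      have h3 : Nat.primesLE y \ Nat.primesLE (y / 3) = S := by
        ext p
        rw [Finset.mem_sdiff, Nat.mem_primesLE, Nat.mem_primesLE, hS, Finset.mem_filter,
          Finset.mem_Ioc]
        constructor
        · rintro ⟨⟨a, b⟩, c⟩
          refine ⟨⟨?_, a⟩, b⟩
          by_contra hc
          exact c ⟨not_lt.1 hc, b⟩
        · rintro ⟨⟨a, b⟩, c⟩
          exact ⟨⟨b, c⟩, fun h => absurd h.1 (not_le.2 a)⟩
      rw [h3, ← nsmul_eq_mul]
      refine Finset.sum_le_card_nsmul _ _ _ fun p hp => ?_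
      rw [hS, Finset.mem_filter, Finset.mem_Ioc] at hp
      exact Real.log_le_log (by exact_mod_cast hp.2.pos) (by exact_mod_cast hp.1.2)
    have h2 := Chebyshev.theta_ge y
    have h3 := Chebyshev.theta_le_log4_mul_x (x := ((y / 3 : ℕ) : ℝ)) (Nat.cast_nonneg _)
    have h4 : ((y / 3 : ℕ) : ℝ) ≤ (y : ℝ) / 3 := Nat.cast_div_le
    have h5 : Real.log ((y : ℝ) + 1) ≤ Real.log y + 1 := by
      have h6 : Real.log ((y : ℝ) + 1) ≤ Real.log (2 * y) :=
        Real.log_le_log (by linarith) (by linarith)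
      rw [Real.log_mul (by norm_num) (by linarith)] at h6
      linarith
    have h6 : 2 * √(y : ℝ) * Real.log y ≤ 1 / 50 * y := by
      have h7 : √(y : ℝ) * Real.log y ≤ √(y : ℝ) * (1 / 100 * √(y : ℝ)) :=
        mul_le_mul_of_nonneg_left hlog hs0
      nlinarith
    have h7 : √(y : ℝ) ≤ y / 10 := by nlinarith
    have h8 : Real.log 4 * ((y / 3 : ℕ) : ℝ) ≤ 2 * Real.log 2 * ((y : ℝ) / 3) := by
      rw [Cheb.log_four]
      exact mul_le_mul_of_nonneg_left h4 (by linarith)
    have h9 : (0.6931471803 : ℝ) * y ≤ Real.log 2 * y := mul_le_mul_of_nonneg_right hl2.le (by linarith)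
    have h10 : (y : ℝ) / 10 ≤ S.card * Real.log y := by
      have e1 : (y : ℝ) * Real.log 2 - 2 * Real.log 2 * ((y : ℝ) / 3) = Real.log 2 * y / 3 := by ring
      have e2 : Real.log ((y : ℝ) + 1) ≤ 1 / 100 * (y / 10) + 1 := by linarith
      have e3 : (1 : ℝ) ≤ y / 100 := by linarith
      linarith
    rw [div_le_iff₀ (by positivity)]
    linarith
  · -- upper bound
    have h1 : S.card ≤ Nat.primeCounting y := by
      rw [← Nat.primesLE_card_eq_primeCounting]
      refine Finset.card_le_card fun p hp => ?_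
      rw [hS, Finset.mem_filter, Finset.mem_Ioc] at hp
      exact Nat.mem_primesLE.2 ⟨hp.1.2, hp.2⟩
    have h2 := Chebyshev.pi_le_log4_mul_div (x := (y : ℝ)) (by linarith)
    rw [Nat.floor_natCast, Real.log_sqrt (by linarith), Cheb.log_four] at h2
    have h3 : (S.card : ℝ) ≤ Nat.primeCounting y := by exact_mod_cast h1
    rw [le_div_iff₀ hlpos]
    have h4 : (S.card : ℝ) * Real.log y ≤ (2 * Real.log 2 * y / (Real.log y / 2) + √(y : ℝ)) * Real.log y :=
      mul_le_mul_of_nonneg_right (h3.trans h2) hlpos.le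
    have h5 : (2 * Real.log 2 * y / (Real.log y / 2) + √(y : ℝ)) * Real.log y =
        4 * Real.log 2 * y + √(y : ℝ) * Real.log y := by
      field_simp
      ring
    rw [h5] at h4
    have h6 : √(y : ℝ) * Real.log y ≤ 1 / 100 * y := by
      have h7 : √(y : ℝ) * Real.log y ≤ √(y : ℝ) * (1 / 100 * √(y : ℝ)) :=
        mul_le_mul_of_nonneg_left hlog hs0
      nlinarith
    have h7 : Real.log 2 * y ≤ 0.6931471808 * y := mul_le_mul_of_nonneg_right hl2'.le (by linarith)
    linarith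

end Pool.Agent.H532.EH
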