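import Mathlib
import Pool.Agent.H532.EH.Def2

/-!
From logarithmic weights to counts by partial summation.
-/

namespace Pool.Agent.H532.EH

open Finset Filter
open Pool.Agent.H532.RM (RB)
open Pool.Agent.H532.SR (Red psiR)

lemma abel_id (f g F : ℕ → ℝ) (m : ℕ) (hF0 : F 0 = 0)
    (hF : ∀ k, F (k + 1) = F k + f (m + (k + 1))) (y : ℕ) :
    ∑ n ∈ Ioc m (m + y), f n * g n =
      F y * g (m + y) + ∑ k ∈ range y, F k * (g (m + k) - g (m + k + 1)) := by
  induction y with
  | zero => simp [hF0]
  | succ k ih =>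
    have h1 : Ioc m (m + (k + 1)) = insert (m + (k + 1)) (Ioc m (m + k)) := by
      ext n
      rw [mem_insert, mem_Ioc, mem_Ioc]
      omega
    rw [h1, sum_insert (by rw [mem_Ioc]; omega), ih, sum_range_succ, hF k]
    have h2 : m + (k + 1) = m + k + 1 := by ring
    rw [h2]
    ring

open Classical in
/-- From logarithmic weights to counts. -/
theorem cnt_of_psi (R : Set ℕ) (m y D b : ℕ) (Bd : ℝ) (hm : 2 ≤ m) (hD : 0 < D)
    (h : ∀ y' ≤ y, |psiR R m y' D b - y' / Nat.totient D| ≤ Bd) :
    |(((Ioc m (m + y)).filter (fun n => n ≡ b [MOD D] ∧ n ∈ R)).card : ℝ) -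
      (∑ n ∈ Ioc m (m + y), 1 / Real.log n) / Nat.totient D| ≤ 2 * Bd := by
  set φ : ℝ := (Nat.totient D : ℝ) with hφ
  set f : ℕ → ℝ := fun n => (if n ≡ b [MOD D] ∧ n ∈ R then Real.log n else 0) - 1 / φ with hf
  set g : ℕ → ℝ := fun n => 1 / Real.log n with hg
  set F : ℕ → ℝ := fun k => psiR R m k D b - k / φ with hFdef
  have hlog : ∀ n, m ≤ n → 0 < Real.log (n : ℝ) := fun n hn => Real.log_pos (by
    have : (2 : ℝ) ≤ n := by exact_mod_cast hm.trans hn
    linarith)
  have hF0 : F 0 = 0 := by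
    simp [hFdef, psiR]
  have hF : ∀ k, F (k + 1) = F k + f (m + (k + 1)) := by
    intro k
    have h1 : Ioc m (m + (k + 1)) = insert (m + (k + 1)) (Ioc m (m + k)) := by
      ext n
      rw [mem_insert, mem_Ioc, mem_Ioc]
      omega
    simp only [hFdef, hf]
    unfold psiR
    rw [sum_filter, sum_filter, h1, sum_insert (by rw [mem_Ioc]; omega)]
    push_cast
    ring
  have hab := abel_id f g F m hF0 hF y
  have hcard : ((((Ioc m (m + y)).filter (fun n => n ≡ b [MOD D] ∧ n ∈ R)).card : ℝ) -
      (∑ n ∈ Ioc m (m + y), 1 / Real.log n) / φ) = ∑ n ∈ Ioc m (m + y), f n * g n := by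
    rw [card_filter, Nat.cast_sum, sum_div, ← sum_sub_distrib]
    refine sum_congr rfl fun n hn => ?_
    have hn' := (mem_Ioc.1 hn).1
    have hl := hlog n hn'.le
    simp only [hf, hg]
    split_ifs with hc
    · push_cast
      field_simp
    · push_cast
      field_simp
      ring
  rw [hcard, hab]
  have hBd : 0 ≤ Bd := (abs_nonneg _).trans (h 0 (Nat.zero_le _))
  have hganti : ∀ k, g (m + k + 1) ≤ g (m + k) := by
    intro k
    simp only [hg]
    have h1 := hlog (m + k) (by omega)
    apply one_div_le_one_div_of_le h1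
    apply Real.log_le_log
    · have : 0 < m + k := by omega
      exact_mod_cast this
    · push_cast
      linarith
  have hgpos : 0 < g (m + y) := by
    simp only [hg]
    have := hlog (m + y) (by omega)
    positivity
  have h1 : |F y * g (m + y)| ≤ Bd * g (m + y) := by
    rw [abs_mul, abs_of_pos hgpos]
    gcongr
    exact h y le_rfl
  have h2 : |∑ k ∈ range y, F k * (g (m + k) - g (m + k + 1))| ≤
      ∑ k ∈ range y, Bd * (g (m + k) - g (m + k + 1)) := by
    refine (abs_sum_le_sum_abs _ _).trans (sum_le_sum fun k hk => ?_)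
    have h3 : 0 ≤ g (m + k) - g (m + k + 1) := by linarith [hganti k]
    rw [abs_mul, abs_of_nonneg h3]
    gcongr
    exact h k (mem_range.1 hk).le
  have h3 : ∑ k ∈ range y, Bd * (g (m + k) - g (m + k + 1)) = Bd * (g m - g (m + y)) := by
    rw [← mul_sum]
    congr 1
    have := Finset.sum_range_sub' (fun k => g (m + k)) y
    simpa [add_assoc] using this
  have h4 : g m ≤ 2 := by
    simp only [hg]
    rw [div_le_iff₀ (hlog m le_rfl)]
    have h5 : Real.log 2 ≤ Real.log m := Real.log_le_log (by norm_num) (by exact_mod_cast hm)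
    have := Real.log_two_gt_d9
    linarith
  calc |F y * g (m + y) + ∑ k ∈ range y, F k * (g (m + k) - g (m + k + 1))| ≤
      |F y * g (m + y)| + |∑ k ∈ range y, F k * (g (m + k) - g (m + k + 1))| := abs_add_le _ _
    _ ≤ Bd * g (m + y) + Bd * (g m - g (m + y)) := by linarith
    _ = Bd * g m := by ring
    _ ≤ Bd * 2 := by gcongr
    _ = 2 * Bd := by ring

end Pool.Agent.H532.EH
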