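import Mathlib
import Pool.Agent.H532.EH.Def

/-! # The signed main term of Legendre's sieve (helper139 for helper532) -/

set_option autoImplicit false

namespace Pool.Agent.H532.EH

open Finset

theorem osc_zero (Q : Finset ℕ) : eS 0 Q = 1 := by
  unfold eS
  rw [powersetCard_zero, sum_singleton, prod_empty]

theorem osc_insert (Q : Finset ℕ) (p : ℕ) (hp : p ∉ Q) (k : ℕ) :
    eS (k + 1) (insert p Q) = eS (k + 1) Q + 1 / (p : ℝ) * eS k Q := by
  unfold eS
  rw [powersetCard_succ_insert hp, sum_union, sum_image]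
  · congr 1
    rw [mul_sum]
    refine sum_congr rfl fun A hA => ?_
    rw [prod_insert]
    exact fun h => hp ((mem_powersetCard.mp hA).1 h)
  · intro A hA B hB h
    have h1 : p ∉ A := fun h => hp ((mem_powersetCard.mp hA).1 h)
    have h2 : p ∉ B := fun h => hp ((mem_powersetCard.mp hB).1 h)
    have h3 : (insert p A).erase p = (insert p B).erase p := congrArg (fun Z => Finset.erase Z p) h
    rwa [erase_insert h1, erase_insert h2] at h3
  · rw [disjoint_left]
    intro A hA hB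
    obtain ⟨B, -, rfl⟩ := mem_image.mp hB
    exact hp ((mem_powersetCard.mp hA).1 (mem_insert_self p B))

/-- the alternating partial sum minus the product -/
noncomputable def oscG (Q : Finset ℕ) (r : ℕ) : ℝ :=
  ∑ j ∈ range (r + 1), (-1) ^ j * eS j Q - ∏ p ∈ Q, (1 - 1 / (p : ℝ))

theorem osc_G_insert (Q : Finset ℕ) (p : ℕ) (hp : p ∉ Q) (r : ℕ) :
    oscG (insert p Q) (r + 1) = oscG Q (r + 1) - 1 / (p : ℝ) * oscG Q r := by
  unfold oscG
  rw [sum_range_succ' _ (r + 1), sum_range_succ' (fun j => (-1 : ℝ) ^ j * eS j Q) (r + 1),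
    prod_insert hp]
  simp only [osc_insert Q p hp, osc_zero]
  have h1 : ∀ j : ℕ, (-1 : ℝ) ^ (j + 1) * (eS (j + 1) Q + 1 / (p : ℝ) * eS j Q) =
      (-1) ^ (j + 1) * eS (j + 1) Q - 1 / (p : ℝ) * ((-1) ^ j * eS j Q) := fun j => by ring
  simp only [h1]
  rw [sum_sub_distrib, ← mul_sum]
  ring

theorem osc_prod_mem (Q : Finset ℕ) (hQ : ∀ p ∈ Q, p.Prime) :
    0 ≤ ∏ p ∈ Q, (1 - 1 / (p : ℝ)) ∧ ∏ p ∈ Q, (1 - 1 / (p : ℝ)) ≤ 1 := by
  have h : ∀ p ∈ Q, 0 ≤ 1 - 1 / (p : ℝ) ∧ 1 - 1 / (p : ℝ) ≤ 1 := by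
    intro p hp
    have h1 : (1 : ℝ) ≤ p := by exact_mod_cast (hQ p hp).one_lt.le
    have h2 : 1 / (p : ℝ) ≤ 1 := by rw [div_le_one (by linarith)]; exact h1
    have h3 : 0 ≤ 1 / (p : ℝ) := by positivity
    constructor <;> linarith
  exact ⟨prod_nonneg fun p hp => (h p hp).1, prod_le_one (fun p hp => (h p hp).1)
    fun p hp => (h p hp).2⟩

theorem osc_G_nonneg (Q : Finset ℕ) (hQ : ∀ p ∈ Q, p.Prime) (r : ℕ) :
    0 ≤ (-1) ^ r * oscG Q r := by
  induction Q using Finset.induction_on generalizing r with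
  | empty =>
    have h : oscG ∅ r = 0 := by
      unfold oscG
      rw [sum_range_succ', osc_zero]
      have h1 : ∀ j : ℕ, eS (j + 1) ∅ = 0 := by
        intro j
        unfold eS
        rw [powersetCard_eq_empty.mpr (by simp), sum_empty]
      simp [h1]
    rw [h, mul_zero]
  | insert p Q hp ih =>
    have hQ' : ∀ q ∈ Q, q.Prime := fun q hq => hQ q (mem_insert_of_mem hq)
    cases r with
    | zero =>
      unfold oscG
      rw [zero_add, sum_range_one, osc_zero, pow_zero]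
      have := (osc_prod_mem (insert p Q) hQ).2
      linarith
    | succ r =>
      rw [osc_G_insert Q p hp]
      have h1 := ih hQ' (r + 1)
      have h2 := ih hQ' r
      have h3 : 0 ≤ 1 / (p : ℝ) := by positivity
      have h4 := mul_nonneg h3 h2
      have h5 : (-1 : ℝ) ^ (r + 1) * (oscG Q (r + 1) - 1 / (p : ℝ) * oscG Q r) =
          (-1) ^ (r + 1) * oscG Q (r + 1) + 1 / (p : ℝ) * ((-1) ^ r * oscG Q r) := by ring
      rw [h5]
      linarith

theorem osc_G_abs (Q : Finset ℕ) (hQ : ∀ p ∈ Q, p.Prime) (r : ℕ) :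
    |oscG Q r| ≤ eS (r + 1) Q := by
  have h1 := osc_G_nonneg Q hQ r
  have h2 := osc_G_nonneg Q hQ (r + 1)
  have h3 : oscG Q (r + 1) = oscG Q r + (-1) ^ (r + 1) * eS (r + 1) Q := by
    unfold oscG
    rw [sum_range_succ _ (r + 1)]
    ring
  have h4 : (-1 : ℝ) ^ (r + 1) * (-1) ^ (r + 1) = 1 := by
    rw [← mul_pow]; norm_num
  have h5 : (-1 : ℝ) ^ (r + 1) * oscG Q (r + 1) =
      -((-1) ^ r * oscG Q r) + eS (r + 1) Q := by
    rw [h3, mul_add, ← mul_assoc, h4]
    ring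
  have h6 : |oscG Q r| = |(-1) ^ r * oscG Q r| := by
    rw [abs_mul, abs_pow, abs_neg, abs_one, one_pow, one_mul]
  rw [h6, abs_of_nonneg h1]
  linarith

theorem osc_Cn_insert (S : Finset ℕ) (hS : ∀ p ∈ S, p.Prime) (p : ℕ) (hpp : p.Prime)
    (hp : p ∉ S) (T : ℕ) : (Cn (insert p S) T : ℝ) = Cn S T - Cn S (T / p) := by
  have h1 : Cn S T = Cn (insert p S) T + Cn S (T / p) := by
    unfold Cn
    rw [← card_filter_add_card_filter_not (s := (Icc 1 T).filter (fun t => ∀ q ∈ S, ¬ q ∣ t))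
      (fun t => ¬ p ∣ t)]
    congr 1
    · congr 1
      ext t
      simp only [mem_filter, mem_Icc, mem_insert, forall_eq_or_imp]
      tauto
    · symm
      refine card_bij (fun u _ => p * u) ?_ ?_ ?_
      · intro u hu
        simp only [mem_filter, mem_Icc] at hu ⊢
        refine ⟨⟨⟨?_, ?_⟩, ?_⟩, ?_⟩
        · exact Nat.mul_pos hpp.pos hu.1.1
        · calc p * u ≤ p * (T / p) := Nat.mul_le_mul_left _ hu.1.2
            _ ≤ T := Nat.mul_div_le T p
        · intro q hq hdvd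
          rcases (hS q hq).dvd_mul.mp hdvd with h | h
          · have := (Nat.prime_dvd_prime_iff_eq (hS q hq) hpp).mp h
            exact hp (this ▸ hq)
          · exact hu.2 q hq h
        · exact not_not.mpr (dvd_mul_right p u)
      · intro a _ b _ h
        exact Nat.eq_of_mul_eq_mul_left hpp.pos h
      · intro t ht
        simp only [mem_filter, mem_Icc, not_not] at ht
        obtain ⟨⟨⟨h1, h2⟩, h3⟩, u, rfl⟩ := ht
        refine ⟨u, ?_, rfl⟩
        simp only [mem_filter, mem_Icc]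
        refine ⟨⟨?_, ?_⟩, ?_⟩
        · exact Nat.pos_of_ne_zero fun h => by rw [h] at h1; simp at h1
        · rw [Nat.le_div_iff_mul_le hpp.pos, mul_comm]
          exact h2
        · exact fun q hq hdvd => h3 q hq (dvd_mul_of_dvd_right hdvd p)
  rw [h1]
  push_cast
  ring

theorem osc_Cn (S : Finset ℕ) (hS : ∀ p ∈ S, p.Prime) (T : ℕ) :
    (Cn S T : ℝ) = ∑ A ∈ S.powerset, (-1) ^ A.card * ((T / ∏ p ∈ A, p : ℕ) : ℝ) := by
  induction S using Finset.induction_on generalizing T with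
  | empty =>
    rw [powerset_empty, sum_singleton, prod_empty, card_empty, pow_zero, one_mul, Nat.div_one]
    unfold Cn
    congr 1
    rw [filter_true_of_mem (by simp), Nat.card_Icc]
    omega
  | insert p S hp ih =>
    have hS' : ∀ q ∈ S, q.Prime := fun q hq => hS q (mem_insert_of_mem hq)
    have hpp : p.Prime := hS p (mem_insert_self p S)
    rw [osc_Cn_insert S hS' p hpp hp, ih hS', ih hS', sum_powerset_insert hp, sub_eq_add_neg,
      ← sum_neg_distrib]
    congr 1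
    refine sum_congr rfl fun A hA => ?_
    have h1 : p ∉ A := fun h => hp (mem_powerset.mp hA h)
    rw [card_insert_of_notMem h1, prod_insert h1, Nat.div_div_eq_div_mul]
    ring

/-- T3. The signed main term if all products of `s + 1` primes exceed `T`. -/
theorem osc (S : Finset ℕ) (hS : ∀ p ∈ S, p.Prime) (s T : ℕ)
    (hT : ∀ A ∈ S.powersetCard (s + 1), T < ∏ p ∈ A, p) :
    |(Cn S T : ℝ) - T * (∏ p ∈ S, (1 - 1 / (p : ℝ))) - (-1) ^ s * (T * eS (s + 1) S)| ≤
      ∑ j ∈ range (s + 1), (S.card.choose j : ℝ) + T * eS (s + 2) S := by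
  have h0 : ∀ A ∈ S.powerset, s + 1 ≤ A.card → T / ∏ p ∈ A, p = 0 := by
    intro A hA hc
    obtain ⟨B, hB, hB'⟩ := exists_subset_card_eq hc
    have h1 : T < ∏ p ∈ B, p :=
      hT B (mem_powersetCard.mpr ⟨hB.trans (mem_powerset.mp hA), hB'⟩)
    have h2 : ∏ p ∈ B, p ≤ ∏ p ∈ A, p :=
      prod_le_prod_of_subset_of_one_le' hB
        fun p hp _ => (hS p (mem_powerset.mp hA hp)).one_lt.le
    exact Nat.div_eq_of_lt (h1.trans_le h2)
  have h1 : (Cn S T : ℝ) = ∑ j ∈ range (s + 1), ∑ A ∈ S.powersetCard j,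
      (-1) ^ j * ((T / ∏ p ∈ A, p : ℕ) : ℝ) := by
    rw [osc_Cn S hS]
    rw [← sum_filter_add_sum_filter_not S.powerset (fun A => A.card < s + 1)]
    have h2 : ∑ A ∈ S.powerset with ¬ A.card < s + 1,
        (-1 : ℝ) ^ A.card * ((T / ∏ p ∈ A, p : ℕ) : ℝ) = 0 := by
      refine sum_eq_zero fun A hA => ?_
      rw [mem_filter, not_lt] at hA
      rw [h0 A hA.1 hA.2, Nat.cast_zero, mul_zero]
    rw [h2, add_zero, ← sum_fiberwise_of_maps_to (t := range (s + 1)) (g := fun A => A.card)]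
    · refine sum_congr rfl fun j hj => ?_
      have h3 : (S.powerset.filter (fun A => A.card < s + 1)).filter (fun A => A.card = j) =
          S.powersetCard j := by
        ext A
        simp only [mem_filter, mem_powerset, mem_powersetCard]
        have := mem_range.mp hj
        constructor
        · exact fun h => ⟨h.1.1, h.2⟩
        · exact fun h => ⟨⟨h.1, by omega⟩, h.2⟩
      rw [h3]
      refine sum_congr rfl fun A hA => ?_
      rw [(mem_powersetCard.mp hA).2]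
    · intro A hA
      exact mem_range.mpr (mem_filter.mp hA).2
  have h2 : (Cn S T : ℝ) = T * ∑ j ∈ range (s + 1), (-1) ^ j * eS j S -
      ∑ j ∈ range (s + 1), ∑ A ∈ S.powersetCard j,
        (-1) ^ j * ((T : ℝ) / ∏ p ∈ A, (p : ℝ) - ((T / ∏ p ∈ A, p : ℕ) : ℝ)) := by
    rw [h1, mul_sum, ← sum_sub_distrib]
    refine sum_congr rfl fun j _ => ?_
    unfold eS
    rw [mul_sum, mul_sum, ← sum_sub_distrib]
    refine sum_congr rfl fun A _ => ?_
    rw [prod_div_distrib, prod_const_one]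
    ring
  have h3 : |∑ j ∈ range (s + 1), ∑ A ∈ S.powersetCard j,
        (-1 : ℝ) ^ j * ((T : ℝ) / ∏ p ∈ A, (p : ℝ) - ((T / ∏ p ∈ A, p : ℕ) : ℝ))| ≤
      ∑ j ∈ range (s + 1), (S.card.choose j : ℝ) := by
    refine (abs_sum_le_sum_abs _ _).trans (sum_le_sum fun j _ => ?_)
    refine (abs_sum_le_sum_abs _ _).trans ?_
    have h4 : ∀ A ∈ S.powersetCard j, |(-1 : ℝ) ^ j *
        ((T : ℝ) / ∏ p ∈ A, (p : ℝ) - ((T / ∏ p ∈ A, p : ℕ) : ℝ))| ≤ 1 := by
      intro A hA
      have hpos : 0 < ∏ p ∈ A, p :=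
        prod_pos fun p hp => (hS p ((mem_powersetCard.mp hA).1 hp)).pos
      rw [abs_mul, abs_pow, abs_neg, abs_one, one_pow, one_mul, ← Nat.cast_prod]
      have h5 : ((T / ∏ p ∈ A, p : ℕ) : ℝ) ≤ (T : ℝ) / ((∏ p ∈ A, p : ℕ) : ℝ) := Nat.cast_div_le
      have h6 : (T : ℝ) / ((∏ p ∈ A, p : ℕ) : ℝ) < ((T / ∏ p ∈ A, p : ℕ) : ℝ) + 1 := by
        rw [div_lt_iff₀ (by exact_mod_cast hpos)]
        have h7 : T < (T / (∏ p ∈ A, p) + 1) * ∏ p ∈ A, p := by
          have h8 := Nat.lt_mul_div_succ T hpos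
          rw [mul_comm]
          exact h8
        exact_mod_cast h7
      rw [abs_of_nonneg (by linarith)]
      linarith
    refine (sum_le_sum h4).trans ?_
    rw [sum_const, card_powersetCard, nsmul_eq_mul, mul_one]
  have h4 := osc_G_abs S hS (s + 1)
  have h5 : (Cn S T : ℝ) - T * (∏ p ∈ S, (1 - 1 / (p : ℝ))) - (-1) ^ s * (T * eS (s + 1) S) =
      T * oscG S (s + 1) - ∑ j ∈ range (s + 1), ∑ A ∈ S.powersetCard j,
        (-1) ^ j * ((T : ℝ) / ∏ p ∈ A, (p : ℝ) - ((T / ∏ p ∈ A, p : ℕ) : ℝ)) := by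
    rw [h2]
    unfold oscG
    rw [sum_range_succ _ (s + 1)]
    ring
  rw [h5]
  refine (abs_sub _ _).trans ?_
  rw [abs_mul, Nat.abs_cast]
  have h6 : (T : ℝ) * |oscG S (s + 1)| ≤ T * eS (s + 2) S :=
    mul_le_mul_of_nonneg_left h4 (Nat.cast_nonneg T)
  linarith

end Pool.Agent.H532.EH
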