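import Mathlib
import Pool.Agent.H532.EH.Def

/-!
Threshold of the Elliott-Halberstam conjecture in the random sieve model: Rankin's trick.
(helper333 for helper532; definitions from helper532_EHtasks.lean)
-/

set_option autoImplicit false

namespace Pool.Agent.H532.EH

open Finset

/-- one more prime -/
theorem Cn_insert (S : Finset ℕ) (hS : ∀ p ∈ S, p.Prime) (q : ℕ) (hq : q.Prime) (hqS : q ∉ S)
    (T : ℕ) : Cn S (T / q) + Cn (insert q S) T = Cn S T := by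
  have e1 := card_filter_add_card_filter_not
    (s := (Icc 1 T).filter (fun t => ∀ p ∈ S, ¬ p ∣ t)) (fun t => q ∣ t)
  have e2 : (((Icc 1 T).filter (fun t => ∀ p ∈ S, ¬ p ∣ t)).filter (fun t => ¬ q ∣ t)) =
      (Icc 1 T).filter (fun t => ∀ p ∈ insert q S, ¬ p ∣ t) := by
    ext t
    simp only [mem_filter, mem_insert, forall_eq_or_imp]
    tauto
  have e3 : (((Icc 1 T).filter (fun t => ∀ p ∈ S, ¬ p ∣ t)).filter (fun t => q ∣ t)).card =
      ((Icc 1 (T / q)).filter (fun t => ∀ p ∈ S, ¬ p ∣ t)).card := by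
    refine card_nbij' (fun t => t / q) (fun t => q * t) ?_ ?_ ?_ ?_
    · intro t ht
      obtain ⟨h1, h2⟩ := mem_filter.1 ht
      obtain ⟨h3, h4⟩ := mem_filter.1 h1
      obtain ⟨h5, h6⟩ := mem_Icc.1 h3
      obtain ⟨u, rfl⟩ := h2
      have h7 : q * u / q = u := Nat.mul_div_cancel_left u hq.pos
      refine mem_filter.2 ⟨mem_Icc.2 ⟨?_, Nat.div_le_div_right h6⟩, fun p hp h => ?_⟩
      · show 1 ≤ q * u / q
        rw [h7]
        rcases Nat.eq_zero_or_pos u with rfl | h8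
        · omega
        · exact h8
      · refine h4 p hp ?_
        have h9 : p ∣ q * u / q := h
        rw [h7] at h9
        exact h9.mul_left q
    · intro t ht
      obtain ⟨h3, h4⟩ := mem_filter.1 ht
      obtain ⟨h5, h6⟩ := mem_Icc.1 h3
      refine mem_filter.2 ⟨mem_filter.2 ⟨mem_Icc.2 ⟨Nat.mul_pos hq.pos h5, ?_⟩,
        fun p hp h => ?_⟩, Dvd.intro t rfl⟩
      · show q * t ≤ T
        rw [mul_comm]
        exact (Nat.le_div_iff_mul_le hq.pos).1 h6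
      · rcases (hS p hp).dvd_mul.1 h with h7 | h7
        · rw [(Nat.prime_dvd_prime_iff_eq (hS p hp) hq).1 h7] at hp
          exact hqS hp
        · exact h4 p hp h7
    · intro t ht
      exact Nat.mul_div_cancel' (mem_filter.1 ht).2
    · intro t ht
      exact Nat.mul_div_cancel_left t hq.pos
  rw [e2, e3] at e1
  exact e1

/-- Rankin's trick for real numbers. -/
theorem rankin_real (σ : ℝ) (h0 : 0 ≤ σ) (h1 : σ ≤ 1) (S : Finset ℕ) :
    (∀ p ∈ S, p.Prime) → ∀ y : ℝ, 0 ≤ y →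
    |(Cn S ⌊y⌋₊ : ℝ) - y * ∏ p ∈ S, (1 - 1 / (p : ℝ))| ≤
      y ^ σ * ∏ p ∈ S, (1 + 1 / (p : ℝ) ^ σ) := by
  induction S using Finset.induction_on with
  | empty =>
    intro _ y hy
    have h2 : Cn ∅ ⌊y⌋₊ = ⌊y⌋₊ := by
      unfold Cn
      simp
    rw [h2, prod_empty, prod_empty, mul_one, mul_one, abs_sub_comm]
    have h3 : (⌊y⌋₊ : ℝ) ≤ y := Nat.floor_le hy
    have h4 : y < ⌊y⌋₊ + 1 := Nat.lt_floor_add_one y
    rw [abs_of_nonneg (by linarith)]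
    rcases le_or_gt 1 y with h5 | h5
    · have h6 : 1 ≤ y ^ σ := Real.one_le_rpow h5 h0
      linarith
    · have h6 : y ≤ y ^ σ := by
        rcases hy.eq_or_lt with h7 | h7
        · rw [← h7]
          exact Real.rpow_nonneg le_rfl σ
        · have h8 := Real.rpow_le_rpow_of_exponent_ge h7 h5.le h1
          rwa [Real.rpow_one] at h8
      have h9 : (0 : ℝ) ≤ ⌊y⌋₊ := Nat.cast_nonneg _
      linarith
  | insert q S hq ih =>
    intro hS y hy
    have hqp : q.Prime := hS q (mem_insert_self q S)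
    have hS' : ∀ p ∈ S, p.Prime := fun p hp => hS p (mem_insert_of_mem hp)
    have hq0 : (0 : ℝ) < q := by exact_mod_cast hqp.pos
    have a1 := ih hS' y hy
    have a2 := ih hS' (y / q) (div_nonneg hy hq0.le)
    rw [Nat.floor_div_natCast] at a2
    have a3 := Cn_insert S hS' q hqp hq ⌊y⌋₊
    have a4 : (Cn (insert q S) ⌊y⌋₊ : ℝ) = (Cn S ⌊y⌋₊ : ℝ) - (Cn S (⌊y⌋₊ / q) : ℝ) := by
      rw [← a3]
      push_cast
      ring
    rw [prod_insert hq, prod_insert hq, a4]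
    obtain ⟨P, hP⟩ : ∃ P, P = ∏ p ∈ S, (1 - 1 / (p : ℝ)) := ⟨_, rfl⟩
    obtain ⟨R, hR⟩ : ∃ R, R = ∏ p ∈ S, (1 + 1 / (p : ℝ) ^ σ) := ⟨_, rfl⟩
    rw [← hP, ← hR] at a1 a2 ⊢
    have a5 : (Cn S ⌊y⌋₊ : ℝ) - (Cn S (⌊y⌋₊ / q) : ℝ) - y * ((1 - 1 / (q : ℝ)) * P) =
        ((Cn S ⌊y⌋₊ : ℝ) - y * P) - ((Cn S (⌊y⌋₊ / q) : ℝ) - y / q * P) := by
      ring
    have a6 : y ^ σ * ((1 + 1 / (q : ℝ) ^ σ) * R) = y ^ σ * R + (y / q) ^ σ * R := by
      rw [Real.div_rpow hy hq0.le]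
      ring
    rw [a5, a6]
    exact (abs_sub _ _).trans (add_le_add a1 a2)

/-- T4. Rankin's trick. -/
theorem rankin (S : Finset ℕ) (hS : ∀ p ∈ S, p.Prime) (T : ℕ) (σ : ℝ) (h0 : 0 ≤ σ)
    (h1 : σ ≤ 1) :
    |(Cn S T : ℝ) - T * ∏ p ∈ S, (1 - 1 / (p : ℝ))| ≤
      (T : ℝ) ^ σ * ∏ p ∈ S, (1 + 1 / (p : ℝ) ^ σ) := by
  have h := rankin_real σ h0 h1 S hS (T : ℝ) (Nat.cast_nonneg T)
  rwa [Nat.floor_natCast] at h

end Pool.Agent.H532.EH
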