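import Mathlib
import Pool.Agent.H532.EH.Def
import Pool.Agent.H532.EH.Abel
import Pool.Agent.H532.EH.Osc
import Pool.Agent.H532.EH.Rankin

/-!
N2: the size of the oscillating sum (definitions `Wt`, `dl` as in Tasks3).
-/

namespace Pool.Agent.H532.EH

open Finset Filter

namespace DLow

lemma v_pos {S : Finset ℕ} (hS : ∀ p ∈ S, p.Prime) : 0 < ∏ p ∈ S, (1 - 1 / (p : ℝ)) := by
  apply Finset.prod_pos
  intro p hp
  have h : (1 : ℝ) < p := by exact_mod_cast (hS p hp).one_lt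
  have : 1 / (p : ℝ) < 1 := by
    rw [div_lt_one (by linarith)]
    exact h
  linarith

lemma v_le {S : Finset ℕ} (hS : ∀ p ∈ S, p.Prime) : ∏ p ∈ S, (1 - 1 / (p : ℝ)) ≤ 1 := by
  apply Finset.prod_le_one
  · intro p hp
    have h : (1 : ℝ) < p := by exact_mod_cast (hS p hp).one_lt
    have : 1 / (p : ℝ) < 1 := by
      rw [div_lt_one (by linarith)]
      exact h
    linarith
  · intro p hp
    have : 0 ≤ 1 / (p : ℝ) := by positivity
    linarith

lemma eS_nonneg (k : ℕ) (S : Finset ℕ) : 0 ≤ eS k S :=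
  Finset.sum_nonneg fun T _ => Finset.prod_nonneg fun p _ => by positivity

lemma sum_dl (S : Finset ℕ) (T : ℕ) :
    ∑ t ∈ Icc 1 T, dl S t = (Cn S T : ℝ) * (1 / ∏ p ∈ S, (1 - 1 / (p : ℝ))) - T := by
  classical
  unfold dl Cn
  rw [Finset.sum_sub_distrib, Finset.sum_const, Nat.card_Icc, nsmul_eq_mul, mul_one,
    Nat.add_sub_cancel, ← Finset.sum_filter, Finset.sum_const, nsmul_eq_mul]

lemma wt_succ {q t : ℕ} (hq : 1 ≤ q) (ht : 1 ≤ t) :
    Wt q (t + 1) = ∑ n ∈ Ioc (q * t - 1) (q * t - 1 + q), 1 / Real.log ((n + q : ℕ) : ℝ) := by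
  unfold Wt
  have h1 : 1 ≤ q * t := Nat.mul_pos hq ht
  have h2 : q * (t + 1) - 1 = (q * t - 1) + q := by
    rw [mul_add, mul_one]; omega
  have e : Ioc (q * t - 1 + q) (q * t - 1 + q + q) =
      (Ioc (q * t - 1) (q * t - 1 + q)).map (addRightEmbedding q) :=
    (Finset.map_add_right_Ioc _ _ _).symm
  rw [h2, e, Finset.sum_map]
  rfl

lemma wt_term {q t n : ℕ} (hq : 8 ≤ q) (ht : 1 ≤ t) (hn : q * t ≤ n) :
    0 ≤ 1 / Real.log n - 1 / Real.log ((n + q : ℕ) : ℝ) ∧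
    1 / Real.log n - 1 / Real.log ((n + q : ℕ) : ℝ) ≤ 1 / (t * Real.log q ^ 2) := by
  have hqR : (8 : ℝ) ≤ q := by exact_mod_cast hq
  have htR : (1 : ℝ) ≤ t := by exact_mod_cast ht
  have hnR : (q : ℝ) * t ≤ n := by exact_mod_cast hn
  have hqn : (q : ℝ) ≤ n := by nlinarith
  have hn0 : (0 : ℝ) < n := by linarith
  have hlq : 0 < Real.log q := Real.log_pos (by linarith)
  have hln : Real.log q ≤ Real.log n := Real.log_le_log (by linarith) hqn
  have hln0 : 0 < Real.log n := lt_of_lt_of_le hlq hln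
  have hnq : (n : ℝ) ≤ ((n + q : ℕ) : ℝ) := by push_cast; linarith
  have hlnq : Real.log n ≤ Real.log ((n + q : ℕ) : ℝ) := Real.log_le_log hn0 hnq
  have hlnq0 : 0 < Real.log ((n + q : ℕ) : ℝ) := lt_of_lt_of_le hln0 hlnq
  constructor
  · rw [sub_nonneg]
    exact one_div_le_one_div_of_le hln0 hlnq
  · have h1 : Real.log ((n + q : ℕ) : ℝ) - Real.log n ≤ q / n := by
      rw [← Real.log_div (by positivity) hn0.ne']
      have h2 : (((n + q : ℕ) : ℝ)) / n = 1 + q / n := by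
        push_cast
        field_simp
      rw [h2]
      have h3 := Real.log_le_sub_one_of_pos (show (0 : ℝ) < 1 + q / n by positivity)
      linarith
    have h2 : (q : ℝ) / n ≤ 1 / t := by
      rw [div_le_div_iff₀ hn0 (by linarith)]
      linarith
    have h3 : 1 / Real.log n - 1 / Real.log ((n + q : ℕ) : ℝ) =
        (Real.log ((n + q : ℕ) : ℝ) - Real.log n) /
          (Real.log n * Real.log ((n + q : ℕ) : ℝ)) := by
      field_simp
    rw [h3]
    have h4 : Real.log q ^ 2 ≤ Real.log n * Real.log ((n + q : ℕ) : ℝ) := by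
      rw [sq]
      exact mul_le_mul hln (hln.trans hlnq) hlq.le hln0.le
    calc (Real.log ((n + q : ℕ) : ℝ) - Real.log n) /
          (Real.log n * Real.log ((n + q : ℕ) : ℝ))
        ≤ (1 / t) / (Real.log q ^ 2) := by
          apply div_le_div₀ (by positivity) (h1.trans h2) (by positivity) h4
      _ = 1 / (t * Real.log q ^ 2) := by rw [div_div]

lemma wt_diff {q t : ℕ} (hq : 8 ≤ q) (ht : 1 ≤ t) :
    0 ≤ Wt q t - Wt q (t + 1) ∧ Wt q t - Wt q (t + 1) ≤ (q / Real.log q ^ 2) / t := by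
  have h1 : 1 ≤ q * t := Nat.mul_pos (by omega) ht
  rw [wt_succ (by omega) ht]
  unfold Wt
  rw [← Finset.sum_sub_distrib]
  have hm : ∀ n ∈ Ioc (q * t - 1) (q * t - 1 + q), q * t ≤ n := by
    intro n hn
    rw [Finset.mem_Ioc] at hn
    omega
  constructor
  · exact Finset.sum_nonneg fun n hn => (wt_term hq ht (hm n hn)).1
  · calc ∑ n ∈ Ioc (q * t - 1) (q * t - 1 + q), (1 / Real.log n - 1 / Real.log ((n + q : ℕ) : ℝ))
        ≤ ∑ n ∈ Ioc (q * t - 1) (q * t - 1 + q), 1 / (t * Real.log q ^ 2) :=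
          Finset.sum_le_sum fun n hn => (wt_term hq ht (hm n hn)).2
      _ = q * (1 / (t * Real.log q ^ 2)) := by
          rw [Finset.sum_const, Nat.card_Ioc, nsmul_eq_mul, Nat.add_sub_cancel_left]
      _ = (q / Real.log q ^ 2) / t := by
          rw [mul_one_div, div_div, mul_comm (t : ℝ)]

lemma wt_ge {x q U : ℕ} (hq : 8 ≤ q) (hU : 1 ≤ U) (hx : q * (U + 1) ≤ x) :
    q / Real.log x ≤ Wt q U := by
  unfold Wt
  have h1 : 8 ≤ q * U := by nlinarith
  calc (q : ℝ) / Real.log x = ∑ n ∈ Ioc (q * U - 1) (q * U - 1 + q), 1 / Real.log x := by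
        rw [Finset.sum_const, Nat.card_Ioc, nsmul_eq_mul, Nat.add_sub_cancel_left]
        ring
    _ ≤ ∑ n ∈ Ioc (q * U - 1) (q * U - 1 + q), 1 / Real.log n := by
        apply Finset.sum_le_sum
        intro n hn
        rw [Finset.mem_Ioc] at hn
        have hn8 : 8 ≤ n := by omega
        have hnx : n ≤ x := by
          have : q * (U + 1) = q * U + q := by ring
          omega
        have hn8R : (8 : ℝ) ≤ n := by exact_mod_cast hn8
        have hnxR : (n : ℝ) ≤ x := by exact_mod_cast hnx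
        exact one_div_le_one_div_of_le (Real.log_pos (by linarith))
          (Real.log_le_log (by linarith) hnxR)

end DLow

open DLow in
/-- N2. The size of the oscillating sum. -/
theorem delta_lower (x q : ℕ) (S : Finset ℕ) (hS : ∀ p ∈ S, p.Prime) (s T1 : ℕ) (σ : ℝ)
    (hσ : 0 < σ) (hσ1 : σ ≤ 1) (hq : 8 ≤ q) (hT1 : 1 ≤ T1) (hTU : T1 < x / q)
    (hprod : ∀ A ∈ S.powersetCard (s + 1), x / q ≤ ∏ p ∈ A, p)
    (h1 : eS (s + 2) S ≤ eS (s + 1) S / 2)
    (h2 : ∑ j ∈ range (s + 1), (S.card.choose j : ℝ) ≤ T1 * eS (s + 1) S / 4) :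
    q / Real.log x * (eS (s + 1) S / 4 * ((x / q : ℕ) - 1 : ℝ)) -
      q / Real.log q ^ 2 * ((∏ p ∈ S, (1 + 1 / (p : ℝ) ^ σ)) / ∏ p ∈ S, (1 - 1 / (p : ℝ))) / σ *
        (T1 : ℝ) ^ σ ≤
      |∑ t ∈ Ico 1 (x / q), Wt q t * dl S t| := by
  obtain ⟨U, hU⟩ : ∃ U, x / q = U + 1 := ⟨x / q - 1, by omega⟩
  have hv := v_pos hS
  have hv1 := v_le hS
  have he := eS_nonneg (s + 1) S
  have hx : q * (U + 1) ≤ x := by
    rw [← hU]
    exact Nat.mul_div_le x q
  have hqR : (8 : ℝ) ≤ q := by exact_mod_cast hq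
  have hxR : (8 : ℝ) ≤ x := by
    have : 8 ≤ x := by nlinarith
    exact_mod_cast this
  have hlx : 0 < Real.log x := Real.log_pos (by linarith)
  set v : ℝ := ∏ p ∈ S, (1 - 1 / (p : ℝ)) with hvd
  have hsg : ((-1 : ℝ) ^ s = 1 ∨ (-1 : ℝ) ^ s = -1) := neg_one_pow_eq_or ℝ s
  have hss : (-1 : ℝ) ^ s * (-1) ^ s = 1 := by
    rw [← mul_pow]; norm_num
  have hsa : |(-1 : ℝ) ^ s| = 1 := by
    rw [abs_pow, abs_neg, abs_one, one_pow]
  have hR0 : 0 ≤ ∏ p ∈ S, (1 + 1 / (p : ℝ) ^ σ) := Finset.prod_nonneg fun p _ => by positivity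
  rw [hU] at hTU hprod ⊢
  have key := abel_sign (Wt q) (dl S) U T1 (eS (s + 1) S / 4) (q / Real.log q ^ 2)
    (q / Real.log x) ((∏ p ∈ S, (1 + 1 / (p : ℝ) ^ σ)) / v) σ ((-1) ^ s) hsg hT1 (by omega) hσ hσ1
    (by positivity) (by positivity) (by positivity) (by positivity)
    (fun t ht _ => wt_diff hq ht) (wt_ge hq (by omega) hx) ?_ ?_
  · have h3 : Ico 1 (U + 1) = Icc 1 U := by
      ext t
      rw [Finset.mem_Ico, Finset.mem_Icc]
      omega
    rw [h3]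
    have h4 : (((U + 1 : ℕ) : ℝ) - 1) = U := by push_cast; ring
    rw [h4]
    refine key.trans ?_
    calc (-1) ^ s * ∑ t ∈ Icc 1 U, Wt q t * dl S t
        ≤ |(-1) ^ s * ∑ t ∈ Icc 1 U, Wt q t * dl S t| := le_abs_self _
      _ = |∑ t ∈ Icc 1 U, Wt q t * dl S t| := by rw [abs_mul, hsa, one_mul]
  · intro T hT hTU'
    have h3 := osc S hS s T (fun A hA => lt_of_lt_of_le (by omega) (hprod A hA))
    rw [← hvd] at h3
    have hTR : (T1 : ℝ) ≤ T := by exact_mod_cast hT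
    have h4 : (-1 : ℝ) ^ s * ((Cn S T : ℝ) - T * v) ≥ T * eS (s + 1) S / 4 := by
      have h5 : |(-1 : ℝ) ^ s * ((Cn S T : ℝ) - T * v - (-1) ^ s * (T * eS (s + 1) S))| ≤
          ∑ j ∈ range (s + 1), (S.card.choose j : ℝ) + T * eS (s + 2) S := by
        rw [abs_mul, hsa, one_mul]
        exact h3
      have h6 : (-1 : ℝ) ^ s * ((Cn S T : ℝ) - T * v - (-1) ^ s * (T * eS (s + 1) S)) =
          (-1 : ℝ) ^ s * ((Cn S T : ℝ) - T * v) - T * eS (s + 1) S := by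
        calc (-1 : ℝ) ^ s * ((Cn S T : ℝ) - T * v - (-1) ^ s * (T * eS (s + 1) S)) =
            (-1 : ℝ) ^ s * ((Cn S T : ℝ) - T * v) -
              ((-1 : ℝ) ^ s * (-1) ^ s) * (T * eS (s + 1) S) := by ring
          _ = _ := by rw [hss, one_mul]
      rw [h6] at h5
      have h7 := (abs_le.1 h5).1
      have h8 : (T : ℝ) * eS (s + 2) S ≤ T * (eS (s + 1) S / 2) :=
        mul_le_mul_of_nonneg_left h1 (by positivity)
      have h9 : (T1 : ℝ) * eS (s + 1) S ≤ T * eS (s + 1) S :=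
        mul_le_mul_of_nonneg_right hTR he
      linarith
    rw [sum_dl, ← hvd]
    have h5 : (-1 : ℝ) ^ s * ((Cn S T : ℝ) * (1 / v) - T) =
        ((-1 : ℝ) ^ s * ((Cn S T : ℝ) - T * v)) * (1 / v) := by
      field_simp
    rw [h5]
    have h6 : 0 ≤ (-1 : ℝ) ^ s * ((Cn S T : ℝ) - T * v) := le_trans (by positivity) h4
    have h7 : 1 ≤ 1 / v := by
      rw [le_div_iff₀ hv]
      linarith
    calc eS (s + 1) S / 4 * T = T * eS (s + 1) S / 4 := by ring
      _ ≤ (-1 : ℝ) ^ s * ((Cn S T : ℝ) - T * v) := h4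
      _ ≤ ((-1 : ℝ) ^ s * ((Cn S T : ℝ) - T * v)) * (1 / v) := le_mul_of_one_le_right h6 h7
  · intro T _ _
    have h3 := rankin S hS T σ hσ.le hσ1
    rw [← hvd] at h3
    rw [sum_dl, ← hvd]
    have h5 : (Cn S T : ℝ) * (1 / v) - T = ((Cn S T : ℝ) - T * v) * (1 / v) := by
      field_simp
    rw [h5, abs_mul, abs_of_pos (by positivity : 0 < 1 / v)]
    calc |(Cn S T : ℝ) - T * v| * (1 / v)
        ≤ ((T : ℝ) ^ σ * ∏ p ∈ S, (1 + 1 / (p : ℝ) ^ σ)) * (1 / v) :=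
          mul_le_mul_of_nonneg_right h3 (by positivity)
      _ = (∏ p ∈ S, (1 + 1 / (p : ℝ) ^ σ)) / v * (T : ℝ) ^ σ := by ring

end Pool.Agent.H532.EH
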