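import Mathlib
import Pool.Agent.H532.EH.Def2
import Pool.Agent.H532.EH.Cheb
import Pool.Agent.H532.EH.ESle
import Pool.Agent.H532.EH.Rankin
import Pool.Agent.H532.EH.Osc

namespace Pool.Agent.H532.EH

open Finset Filter

namespace Nmr

theorem mem_SM {M p : ℕ} (h : p ∈ SM M) : p.Prime ∧ M ^ 4 ≤ 3 * p ∧ p ≤ M ^ 4 := by
  unfold SM at h
  rw [mem_filter, mem_Ioc] at h
  exact ⟨h.2, by omega, h.1.2⟩

theorem eS_nonneg (k : ℕ) (Q : Finset ℕ) : 0 ≤ eS k Q := by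
  unfold eS
  exact sum_nonneg fun T _ => prod_nonneg fun p _ => by positivity

theorem eS_insert (k a : ℕ) (Q : Finset ℕ) (ha : a ∉ Q) :
    eS (k + 1) (insert a Q) = eS (k + 1) Q + 1 / (a : ℝ) * eS k Q := by
  unfold eS
  rw [powersetCard_succ_insert ha, sum_union, mul_sum]
  · congr 1
    rw [sum_image]
    · refine sum_congr rfl fun T hT => ?_
      rw [prod_insert fun hh => ha ((mem_powersetCard.1 hT).1 hh)]
    · intro T hT T' hT' hTT
      have h1 : a ∉ T := fun hh => ha ((mem_powersetCard.1 hT).1 hh)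
      have h2 : a ∉ T' := fun hh => ha ((mem_powersetCard.1 hT').1 hh)
      have := congrArg (fun z => z.erase a) hTT
      simpa [erase_insert h1, erase_insert h2] using this
  · rw [disjoint_left]
    intro T hT hT'
    obtain ⟨T', hT'1, rfl⟩ := mem_image.1 hT'
    exact ha ((mem_powersetCard.1 hT).1 (mem_insert_self _ _))

theorem eS_zero (Q : Finset ℕ) : eS 0 Q = 1 := by
  unfold eS
  simp

theorem eS_mono_insert (k a : ℕ) (Q : Finset ℕ) (ha : a ∉ Q) :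
    eS k Q ≤ eS k (insert a Q) := by
  cases k with
  | zero => rw [eS_zero, eS_zero]
  | succ k =>
    rw [eS_insert k a Q ha]
    have : 0 ≤ 1 / (a : ℝ) * eS k Q := mul_nonneg (by positivity) (eS_nonneg _ _)
    linarith

theorem eS_succ_le (k : ℕ) (Q : Finset ℕ) : eS (k + 1) Q ≤ (∑ p ∈ Q, 1 / (p : ℝ)) * eS k Q := by
  induction Q using Finset.induction_on with
  | empty =>
    unfold eS
    rw [powersetCard_eq_empty.2 (by simp)]
    simp
  | insert a Q ha ih =>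
    rw [eS_insert k a Q ha, sum_insert ha]
    have h1 := eS_mono_insert k a Q ha
    have h2 : 0 ≤ 1 / (a : ℝ) := by positivity
    have h3 : 0 ≤ ∑ p ∈ Q, 1 / (p : ℝ) := sum_nonneg fun _ _ => by positivity
    nlinarith [mul_le_mul_of_nonneg_left h1 (add_nonneg h2 h3)]

theorem eS_ge (M k : ℕ) : ((SM M).card.choose k : ℝ) / ((M : ℝ) ^ 4) ^ k ≤ eS k (SM M) := by
  unfold eS
  have h : ∀ T ∈ (SM M).powersetCard k, 1 / ((M : ℝ) ^ 4) ^ k ≤ ∏ p ∈ T, 1 / (p : ℝ) := by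
    intro T hT
    obtain ⟨hT1, hT2⟩ := mem_powersetCard.1 hT
    rw [← hT2, ← one_div_pow, ← prod_const]
    refine prod_le_prod (fun _ _ => by positivity) fun p hp => ?_
    obtain ⟨hp1, hp2, hp3⟩ := mem_SM (hT1 hp)
    refine one_div_le_one_div_of_le (by exact_mod_cast hp1.pos) ?_
    exact_mod_cast hp3
  have h2 := sum_le_sum h
  rw [sum_const, card_powersetCard, nsmul_eq_mul] at h2
  rw [div_eq_mul_one_div]
  exact h2

theorem sum_inv_le (M : ℕ) (hM : 0 < M) :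
    ∑ p ∈ SM M, 1 / (p : ℝ) ≤ (SM M).card * (3 / (M : ℝ) ^ 4) := by
  rw [← nsmul_eq_mul]
  refine sum_le_card_nsmul _ _ _ fun p hp => ?_
  obtain ⟨hp1, hp2, hp3⟩ := mem_SM hp
  have hp0 : (0 : ℝ) < p := by exact_mod_cast hp1.pos
  have hM0 : (0 : ℝ) < (M : ℝ) ^ 4 := by positivity
  rw [div_le_div_iff₀ hp0 hM0]
  have : (M : ℝ) ^ 4 ≤ 3 * p := by exact_mod_cast hp2
  linarith

theorem prod_one_sub_ge (Q : Finset ℕ) (hQ : ∀ p ∈ Q, 1 ≤ p) :
    1 - ∑ p ∈ Q, 1 / (p : ℝ) ≤ ∏ p ∈ Q, (1 - 1 / (p : ℝ)) ∧ ∏ p ∈ Q, (1 - 1 / (p : ℝ)) ≤ 1 ∧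
      0 ≤ ∏ p ∈ Q, (1 - 1 / (p : ℝ)) := by
  induction Q using Finset.induction_on with
  | empty => simp
  | insert a Q ha ih =>
    obtain ⟨h1, h2, h3⟩ := ih fun p hp => hQ p (mem_insert_of_mem hp)
    have ha1 := hQ a (mem_insert_self _ _)
    have ha2 : (1 : ℝ) ≤ a := by exact_mod_cast ha1
    have ha3 : 1 / (a : ℝ) ≤ 1 := by
      rw [div_le_one (by linarith)]
      exact ha2
    have ha4 : 0 ≤ 1 / (a : ℝ) := by positivity
    rw [prod_insert ha, sum_insert ha]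
    refine ⟨?_, ?_, ?_⟩
    · nlinarith
    · nlinarith
    · exact mul_nonneg (by linarith) h3

theorem prod_one_add_le (M : ℕ) (hM : 2 ≤ M) (σ : ℝ) (hσ0 : 0 ≤ σ) (hσ : σ ≤ 1) :
    ∏ p ∈ SM M, (1 + 1 / (p : ℝ) ^ σ) ≤
      Real.exp ((SM M).card * (3 / (M : ℝ) ^ 4 * Real.exp ((1 - σ) * (4 * Real.log M)))) := by
  have hM0 : (0 : ℝ) < M := by exact_mod_cast (by omega : 0 < M)
  have h : ∀ p ∈ SM M, 1 + 1 / (p : ℝ) ^ σ ≤
      Real.exp (3 / (M : ℝ) ^ 4 * Real.exp ((1 - σ) * (4 * Real.log M))) := by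
    intro p hp
    obtain ⟨hp1, hp2, hp3⟩ := mem_SM hp
    have hp0 : (0 : ℝ) < p := by exact_mod_cast hp1.pos
    have h1 : (M : ℝ) ^ 4 ≤ 3 * p := by exact_mod_cast hp2
    have h2 : 1 / (p : ℝ) ^ σ ≤ 3 / (M : ℝ) ^ 4 * Real.exp ((1 - σ) * (4 * Real.log M)) := by
      have e1 : Real.exp ((1 - σ) * (4 * Real.log M)) = (M : ℝ) ^ 4 / ((M : ℝ) ^ 4) ^ σ := by
        rw [Real.rpow_def_of_pos (by positivity), Real.log_pow, sub_mul, one_mul, Real.exp_sub]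
        congr 1
        · rw [← Real.rpow_natCast, Real.rpow_def_of_pos hM0, mul_comm]
          push_cast
          rfl
        · rw [mul_comm]
          push_cast
          rfl
      rw [e1]
      have e2 : 3 / (M : ℝ) ^ 4 * ((M : ℝ) ^ 4 / ((M : ℝ) ^ 4) ^ σ) = 3 / ((M : ℝ) ^ 4) ^ σ := by
        field_simp
      rw [e2, div_le_div_iff₀ (by positivity) (by positivity), one_mul]
      calc ((M : ℝ) ^ 4) ^ σ ≤ (3 * (p : ℝ)) ^ σ :=
            Real.rpow_le_rpow (by positivity) h1 hσ0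
        _ = 3 ^ σ * (p : ℝ) ^ σ := Real.mul_rpow (by norm_num) hp0.le
        _ ≤ 3 * (p : ℝ) ^ σ := by
            refine mul_le_mul_of_nonneg_right ?_ (by positivity)
            calc (3 : ℝ) ^ σ ≤ 3 ^ (1 : ℝ) := Real.rpow_le_rpow_of_exponent_le (by norm_num) hσ
              _ = 3 := Real.rpow_one 3
    calc 1 + 1 / (p : ℝ) ^ σ ≤ 3 / (M : ℝ) ^ 4 * Real.exp ((1 - σ) * (4 * Real.log M)) + 1 := by
          linarith
      _ ≤ _ := Real.add_one_le_exp _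
  calc ∏ p ∈ SM M, (1 + 1 / (p : ℝ) ^ σ) ≤
      ∏ _p ∈ SM M, Real.exp (3 / (M : ℝ) ^ 4 * Real.exp ((1 - σ) * (4 * Real.log M))) :=
        prod_le_prod (fun _ _ => by positivity) h
    _ = _ := by
        rw [prod_const, ← Real.exp_nat_mul]

theorem choose_le_of_le_half {n s j : ℕ} (hs : 2 * s ≤ n) (hj : j ≤ s) :
    n.choose j ≤ n.choose s := by
  induction s with
  | zero => rw [Nat.le_zero.1 hj]
  | succ s ih =>
    rcases Nat.lt_or_ge j (s + 1) with h | h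
    · exact (ih (by omega) (by omega)).trans (Nat.choose_le_succ_of_lt_half_left (by omega))
    · rw [le_antisymm hj h]

theorem sum_choose_le (n s : ℕ) (hs : 2 * s ≤ n) :
    ∑ j ∈ range (s + 1), (n.choose j : ℝ) ≤ (s + 1) * n.choose s := by
  have h : ∀ j ∈ range (s + 1), (n.choose j : ℝ) ≤ n.choose s := by
    intro j hj
    exact_mod_cast choose_le_of_le_half hs (by have := mem_range.1 hj; omega)
  have := sum_le_card_nsmul _ _ _ h
  rw [card_range, nsmul_eq_mul] at this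
  exact_mod_cast this


section core

variable {M s : ℕ} {m : ℝ}

theorem big_M (hm : 7680 ≤ m) (hM : Real.exp m = M) : 320 * m ^ 3 ≤ M ∧ m ≤ M ∧ 7681 ≤ M := by
  have hm0 : 0 ≤ m := by linarith
  have h1 : m ^ 4 / (Nat.factorial 4 : ℕ) ≤ Real.exp m := Real.pow_div_factorial_le_exp m hm0 4
  have h2 : ((Nat.factorial 4 : ℕ) : ℝ) = 24 := by norm_num [Nat.factorial]
  rw [h2, hM] at h1
  have h3 : 320 * m ^ 3 ≤ m ^ 4 / 24 := by
    have : 0 ≤ m ^ 3 := by positivity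
    nlinarith
  have h4 : m + 1 ≤ M := by
    rw [← hM]
    exact Real.add_one_le_exp m
  have h5 : (7681 : ℝ) ≤ M := by linarith
  exact ⟨by linarith, by linarith, by exact_mod_cast h5⟩

/-- the cardinality bounds -/
structure CB (M : ℕ) (m : ℝ) : Prop where
  lo : (M : ℝ) ^ 4 / (40 * m) ≤ (SM M).card
  hi : ((SM M).card : ℝ) ≤ 3 * (M : ℝ) ^ 4 / (4 * m)

theorem e1_le (hm : 7680 ≤ m) (hM : Real.exp m = M) (hc : CB M m) :
    ∑ p ∈ SM M, 1 / (p : ℝ) ≤ 1 / 2 := by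
  obtain ⟨h1, h2, h3⟩ := big_M hm hM
  refine (sum_inv_le M (by omega)).trans ?_
  have hM0 : (0 : ℝ) < (M : ℝ) ^ 4 := by
    have : (0 : ℝ) < M := by linarith
    positivity
  calc ((SM M).card : ℝ) * (3 / (M : ℝ) ^ 4) ≤ 3 * (M : ℝ) ^ 4 / (4 * m) * (3 / (M : ℝ) ^ 4) :=
        mul_le_mul_of_nonneg_right hc.hi (by positivity)
    _ = 9 / (4 * m) := by
        field_simp
        norm_num
    _ ≤ 1 / 2 := by
        rw [div_le_div_iff₀ (by linarith) (by norm_num)]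
        linarith

theorem piece_e (hm : 7680 ≤ m) (hM : Real.exp m = M) (hc : CB M m) :
    eS (s + 2) (SM M) ≤ eS (s + 1) (SM M) / 2 := by
  have h1 := eS_succ_le (s + 1) (SM M)
  have h2 := e1_le hm hM hc
  have h3 := mul_le_mul_of_nonneg_right h2 (eS_nonneg (s + 1) (SM M))
  linarith

theorem card_big (hm : 7680 ≤ m) (hM : Real.exp m = M) (hc : CB M m) (hs : 16 * ((s : ℝ) + 1) ≤ m) :
    4 * (M : ℝ) ^ 3 * ((s : ℝ) + 1) ^ 2 ≤ (SM M).card - s ∧ 2 * (s + 1) ≤ (SM M).card ∧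
      (M : ℝ) ^ 4 / (80 * m) ≤ (SM M).card - s := by
  obtain ⟨h1, h2, h3⟩ := big_M hm hM
  have hM0 : (0 : ℝ) < M := by linarith
  have hm0 : 0 < m := by linarith
  have hM4 : 320 * m ^ 3 * (M : ℝ) ^ 3 ≤ (M : ℝ) ^ 4 := by
    have : (M : ℝ) ^ 4 = M * (M : ℝ) ^ 3 := by ring
    rw [this]
    exact mul_le_mul_of_nonneg_right h1 (by positivity)
  have hs0 : (0 : ℝ) ≤ s := Nat.cast_nonneg s
  have hs2 : ((s : ℝ) + 1) ^ 2 ≤ m ^ 2 := by
    apply pow_le_pow_left₀ (by linarith)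
    linarith
  have hM3 : (1 : ℝ) ≤ (M : ℝ) ^ 3 := by
    apply one_le_pow₀
    linarith
  have hx : (M : ℝ) ^ 4 / (40 * m) = 2 * ((M : ℝ) ^ 4 / (80 * m)) := by
    field_simp
    norm_num
  have hy : 4 * m ^ 2 * (M : ℝ) ^ 3 ≤ (M : ℝ) ^ 4 / (80 * m) := by
    rw [le_div_iff₀ (by linarith)]
    calc 4 * m ^ 2 * (M : ℝ) ^ 3 * (80 * m) = 320 * m ^ 3 * (M : ℝ) ^ 3 := by ring
      _ ≤ _ := hM4
  have hz : 2 * m ≤ 4 * m ^ 2 * (M : ℝ) ^ 3 := by
    have : 2 * m ≤ 4 * m ^ 2 := by nlinarith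
    have h4 : 4 * m ^ 2 * 1 ≤ 4 * m ^ 2 * (M : ℝ) ^ 3 := mul_le_mul_of_nonneg_left hM3 (by positivity)
    linarith
  have hlo := hc.lo
  rw [hx] at hlo
  refine ⟨?_, ?_, ?_⟩
  · have : 4 * (M : ℝ) ^ 3 * ((s : ℝ) + 1) ^ 2 ≤ 4 * m ^ 2 * (M : ℝ) ^ 3 := by
      calc 4 * (M : ℝ) ^ 3 * ((s : ℝ) + 1) ^ 2 ≤ 4 * (M : ℝ) ^ 3 * m ^ 2 :=
            mul_le_mul_of_nonneg_left hs2 (by positivity)
        _ = _ := by ring
    linarith
  · have : (2 * ((s : ℝ) + 1)) ≤ (SM M).card := by linarith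
    exact_mod_cast this
  · linarith

theorem E_lower (hm : 7680 ≤ m) (hM : Real.exp m = M) (hc : CB M m)
    (hs : 16 * ((s : ℝ) + 1) ≤ m) :
    (1 / (80 * m * ((s : ℝ) + 1))) ^ (s + 1) ≤ eS (s + 1) (SM M) := by
  obtain ⟨h1, h2, h3⟩ := card_big hm hM hc hs
  obtain ⟨h4, h5, h6⟩ := big_M hm hM
  have hM0 : (0 : ℝ) < M := by linarith
  have hm0 : 0 < m := by linarith
  have hs0 : (0 : ℝ) ≤ s := Nat.cast_nonneg s
  refine le_trans ?_ (eS_ge M (s + 1))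
  have h7 := Nat.pow_le_choose (α := ℝ) (s + 1) (SM M).card
  have h8 : (((SM M).card + 1 - (s + 1) : ℕ) : ℝ) = (SM M).card - s := by
    rw [Nat.cast_sub (by omega)]
    push_cast
    ring
  have h9 : (((s + 1).factorial : ℕ) : ℝ) ≤ ((s : ℝ) + 1) ^ (s + 1) := by
    have := Nat.factorial_le_pow (s + 1)
    exact_mod_cast this
  have h10 : ((M : ℝ) ^ 4 / (80 * m)) ^ (s + 1) / ((s : ℝ) + 1) ^ (s + 1) ≤
      ((SM M).card.choose (s + 1) : ℝ) := by
    refine le_trans ?_ h7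
    push_cast at h8 ⊢
    rw [h8]
    have hf : (0 : ℝ) < ((s + 1).factorial : ℕ) := by exact_mod_cast Nat.factorial_pos _
    refine div_le_div₀ ?_ ?_ hf h9
    · exact pow_nonneg (le_trans (by positivity) h3) _
    · exact pow_le_pow_left₀ (by positivity) h3 _
  have h11 := div_le_div_of_nonneg_right h10 (by positivity : (0 : ℝ) ≤ ((M : ℝ) ^ 4) ^ (s + 1))
  refine le_trans (le_of_eq ?_) h11
  rw [← div_pow, ← div_pow]
  congr 1
  field_simp

theorem piece_f (hm : 7680 ≤ m) (hM : Real.exp m = M) (hc : CB M m)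
    (hs : 16 * ((s : ℝ) + 1) ≤ m) :
    ∑ j ∈ range (s + 1), ((SM M).card.choose j : ℝ) ≤
      (M : ℝ) ^ (4 * s + 1) * eS (s + 1) (SM M) / 4 := by
  obtain ⟨h1, h2, h3⟩ := card_big hm hM hc hs
  obtain ⟨h4, h5, h6⟩ := big_M hm hM
  have hM0 : (0 : ℝ) < M := by linarith
  have hm0 : 0 < m := by linarith
  have hs0 : (0 : ℝ) ≤ s := Nat.cast_nonneg s
  refine (sum_choose_le _ s (by omega)).trans ?_
  have h7 := eS_ge M (s + 1)
  have h8 : ((SM M).card.choose (s + 1) : ℝ) * ((s : ℝ) + 1) =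
      ((SM M).card.choose s : ℝ) * ((SM M).card - s) := by
    have := Nat.choose_succ_right_eq (SM M).card s
    rw [← Nat.cast_sub (by omega)]
    exact_mod_cast this
  have h9 : (M : ℝ) ^ (4 * s + 1) * (((SM M).card.choose (s + 1) : ℝ) /
      ((M : ℝ) ^ 4) ^ (s + 1)) / 4 = ((SM M).card.choose (s + 1) : ℝ) / (4 * (M : ℝ) ^ 3) := by
    have e : ((M : ℝ) ^ 4) ^ (s + 1) = (M : ℝ) ^ (4 * s + 1) * (M : ℝ) ^ 3 := by
      rw [← pow_mul, ← pow_add]
      congr 1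
    rw [e]
    field_simp
  calc ((s : ℝ) + 1) * ((SM M).card.choose s : ℝ)
      ≤ ((SM M).card.choose (s + 1) : ℝ) / (4 * (M : ℝ) ^ 3) := by
        rw [le_div_iff₀ (by positivity)]
        have hpos : (0 : ℝ) < (s : ℝ) + 1 := by linarith
        have h10 : ((SM M).card.choose s : ℝ) * (4 * (M : ℝ) ^ 3 * ((s : ℝ) + 1) ^ 2) ≤
            ((SM M).card.choose s : ℝ) * ((SM M).card - s) :=
          mul_le_mul_of_nonneg_left h1 (Nat.cast_nonneg _)
        rw [← h8] at h10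
        refine le_of_mul_le_mul_right ?_ hpos
        calc ((s : ℝ) + 1) * ((SM M).card.choose s : ℝ) * (4 * (M : ℝ) ^ 3) * ((s : ℝ) + 1)
            = ((SM M).card.choose s : ℝ) * (4 * (M : ℝ) ^ 3 * ((s : ℝ) + 1) ^ 2) := by ring
          _ ≤ _ := h10
    _ = _ := h9.symm
    _ ≤ _ := by
        refine div_le_div_of_nonneg_right ?_ (by norm_num)
        exact mul_le_mul_of_nonneg_left h7 (by positivity)

theorem piece_d (hm : 7680 ≤ m) (hM : Real.exp m = M) (hs : 16 * ((s : ℝ) + 1) ≤ m) :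
    ∀ A ∈ (SM M).powersetCard (s + 1), M ^ (4 * s + 3) ≤ ∏ p ∈ A, p := by
  intro A hA
  obtain ⟨h4, h5, h6⟩ := big_M hm hM
  obtain ⟨hA1, hA2⟩ := mem_powersetCard.1 hA
  have h1 : (M ^ 4) ^ (s + 1) ≤ ∏ p ∈ A, (3 * p) := by
    rw [← hA2, ← prod_const]
    exact prod_le_prod (fun _ _ => Nat.zero_le _) fun p hp => (mem_SM (hA1 hp)).2.1
  rw [prod_mul_distrib, prod_const, hA2] at h1
  have h2 : 3 ^ (s + 1) ≤ M := by
    have : (3 : ℝ) ^ (s + 1) ≤ M := by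
      rw [← hM]
      have h3 : (3 : ℝ) ≤ Real.exp 2 := by
        have := Real.add_one_le_exp (2 : ℝ)
        linarith
      calc (3 : ℝ) ^ (s + 1) ≤ Real.exp 2 ^ (s + 1) := pow_le_pow_left₀ (by norm_num) h3 _
        _ = Real.exp (((s + 1 : ℕ) : ℝ) * 2) := (Real.exp_nat_mul 2 (s + 1)).symm
        _ ≤ Real.exp m := by
            apply Real.exp_le_exp.2
            push_cast
            have hs0 : (0 : ℝ) ≤ s := Nat.cast_nonneg s
            linarith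
    exact_mod_cast this
  have h3 : M * M ^ (4 * s + 3) ≤ M * ∏ p ∈ A, p := by
    calc M * M ^ (4 * s + 3) = (M ^ 4) ^ (s + 1) := by
          rw [← pow_mul]
          ring
      _ ≤ _ := h1
      _ ≤ _ := Nat.mul_le_mul_right _ h2
  exact Nat.le_of_mul_le_mul_left h3 (by omega)

theorem piece_b {K L : ℝ} (hK : 0 < K) (hm : 7680 ≤ m) (hL1 : 4 * m ≤ L) (hL2 : L ≤ 5 * m)
    (hlm : 1 ≤ Real.log m) (hsK : 7 * K * m / Real.log m ≤ s) :
    K * (L ^ 2 / Real.log L) ≤ (4 * s + 2) * m := by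
  have hm0 : 0 < m := by linarith
  have hlog : Real.log m ≤ Real.log L := Real.log_le_log hm0 (by linarith)
  have hl0 : 0 < Real.log m := by linarith
  calc K * (L ^ 2 / Real.log L) ≤ K * ((5 * m) ^ 2 / Real.log m) := by
        refine mul_le_mul_of_nonneg_left ?_ hK.le
        refine div_le_div₀ (by positivity) ?_ hl0 hlog
        exact pow_le_pow_left₀ (by linarith) hL2 2
    _ ≤ 4 * (7 * K * m / Real.log m) * m := by
        have : K * ((5 * m) ^ 2 / Real.log m) = (K * m ^ 2 / Real.log m) * 25 := by ring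
        rw [this]
        have h2 : 4 * (7 * K * m / Real.log m) * m = (K * m ^ 2 / Real.log m) * 28 := by ring
        rw [h2]
        refine mul_le_mul_of_nonneg_left (by norm_num) (by positivity)
    _ ≤ (4 * s + 2) * m := by
        refine mul_le_mul_of_nonneg_right ?_ hm0.le
        linarith

theorem piece_h {K L : ℝ} (hK : 0 < K) (hm : 7680 ≤ m) (hM : Real.exp m = M) (hc : CB M m)
    (hs : 16 * ((s : ℝ) + 1) ≤ m) (hL1 : 4 * m ≤ L)
    (hsK : ((s : ℝ) + 1) * Real.log m ≤ 8 * K * m) :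
    Real.exp (L * (-(6 * K))) ≤ eS (s + 1) (SM M) := by
  have hm0 : 0 < m := by linarith
  have hs0 : (0 : ℝ) ≤ s := Nat.cast_nonneg s
  refine le_trans ?_ (E_lower hm hM hc hs)
  have h1 : 80 * m * ((s : ℝ) + 1) ≤ m ^ 3 := by
    have h2 : 80 * ((s : ℝ) + 1) ≤ m ^ 2 := by nlinarith
    calc 80 * m * ((s : ℝ) + 1) = 80 * ((s : ℝ) + 1) * m := by ring
      _ ≤ m ^ 2 * m := mul_le_mul_of_nonneg_right h2 hm0.le
      _ = m ^ 3 := by ring
  have h3 : (1 / m ^ 3) ^ (s + 1) ≤ (1 / (80 * m * ((s : ℝ) + 1))) ^ (s + 1) := by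
    refine pow_le_pow_left₀ (by positivity) ?_ _
    exact one_div_le_one_div_of_le (by positivity) h1
  refine le_trans ?_ h3
  have h4 : (1 / m ^ 3) ^ (s + 1) = Real.exp (-(3 * (((s : ℝ) + 1) * Real.log m))) := by
    have e : 1 / m ^ 3 = Real.exp (-(3 * Real.log m)) := by
      rw [Real.exp_neg, one_div]
      congr 1
      have := Real.exp_nat_mul (Real.log m) 3
      rw [Real.exp_log hm0] at this
      rw [← this]
      push_cast
      rfl
    rw [e, ← Real.exp_nat_mul]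
    congr 1
    push_cast
    ring
  rw [h4]
  apply Real.exp_le_exp.2
  have h5 : 4 * m * (6 * K) ≤ L * (6 * K) := mul_le_mul_of_nonneg_right hL1 (by linarith)
  linarith

theorem piece_c {y : ℝ} (hm : 7680 ≤ m) (hM : Real.exp m = M)
    (hs : 16 * ((s : ℝ) + 1) ≤ m) (hy : 10 * (M : ℝ) ^ 4 ≤ y) :
    (M : ℝ) ^ (4 * s + 3) ≤ Real.exp (y * (1 / 20)) := by
  obtain ⟨h4, h5, h6⟩ := big_M hm hM
  have hm0 : 0 < m := by linarith
  have hs0 : (0 : ℝ) ≤ s := Nat.cast_nonneg s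
  rw [← hM, ← Real.exp_nat_mul]
  apply Real.exp_le_exp.2
  push_cast
  have h7 : (4 * (s : ℝ) + 3) * m ≤ m * m := mul_le_mul_of_nonneg_right (by linarith) hm0.le
  have h8 : m * m ≤ (M : ℝ) ^ 2 := by
    rw [sq]
    exact mul_le_mul h5 h5 hm0.le (by linarith)
  have h9 : (M : ℝ) ^ 2 * 2 ≤ (M : ℝ) ^ 4 := by
    have : (2 : ℝ) ≤ (M : ℝ) ^ 2 := by nlinarith
    calc (M : ℝ) ^ 2 * 2 ≤ (M : ℝ) ^ 2 * (M : ℝ) ^ 2 :=
          mul_le_mul_of_nonneg_left this (by positivity)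
      _ = (M : ℝ) ^ 4 := by ring
  linarith

theorem piece_g {y w σ : ℝ} (hm : 7680 ≤ m) (hM : Real.exp m = M) (hc : CB M m)
    (hs : 16 * ((s : ℝ) + 1) ≤ m) (hy : 10 * (M : ℝ) ^ 4 ≤ y)
    (hw : Real.exp w = m * ((s : ℝ) + 1)) (hσ : σ = 1 - w / (4 * m)) :
    0 < σ ∧ σ ≤ 1 ∧ 4 / y ^ 2 * ((∏ p ∈ SM M, (1 + 1 / (p : ℝ) ^ σ)) /
        ∏ p ∈ SM M, (1 - 1 / (p : ℝ))) / σ * ((M : ℝ) ^ (4 * s + 1)) ^ σ ≤
        eS (s + 1) (SM M) * (M : ℝ) ^ (4 * s + 2) / (16 * y) := by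
  obtain ⟨h4, h5, h6⟩ := big_M hm hM
  have hm0 : 0 < m := by linarith
  have hs0 : (0 : ℝ) ≤ s := Nat.cast_nonneg s
  have hM0 : (0 : ℝ) < M := by linarith
  have hw0 : 0 ≤ w := by
    by_contra hcon
    push Not at hcon
    have := Real.exp_lt_exp.2 hcon
    rw [Real.exp_zero] at this
    rw [hw] at this
    nlinarith
  have hw1 : w ≤ 2 * m := by
    have : Real.exp w ≤ Real.exp (2 * m) := by
      rw [hw]
      have e : Real.exp (2 * m) = M * M := by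
        rw [two_mul, Real.exp_add, hM]
      rw [e]
      exact mul_le_mul h5 (by linarith) (by linarith) hM0.le
    exact Real.exp_le_exp.1 this
  have hσ2 : 1 / 2 ≤ σ := by
    rw [hσ]
    have : w / (4 * m) ≤ 1 / 2 := by
      rw [div_le_div_iff₀ (by linarith) (by norm_num)]
      linarith
    linarith
  have hσ1 : σ ≤ 1 := by
    rw [hσ]
    have : 0 ≤ w / (4 * m) := by positivity
    linarith
  have hσ0 : 0 < σ := by linarith
  refine ⟨hσ0, hσ1, ?_⟩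
  have hlogM : Real.log M = m := by rw [← hM, Real.log_exp]
  -- the product over 1 + p^(-σ)
  have hP1 : ∏ p ∈ SM M, (1 + 1 / (p : ℝ) ^ σ) ≤ Real.exp (3 * ((s : ℝ) + 1)) := by
    refine (prod_one_add_le M (by omega) σ hσ0.le hσ1).trans ?_
    apply Real.exp_le_exp.2
    have e : (1 - σ) * (4 * Real.log M) = w := by
      rw [hlogM, hσ]
      field_simp
      ring
    rw [e, hw]
    calc ((SM M).card : ℝ) * (3 / (M : ℝ) ^ 4 * (m * ((s : ℝ) + 1)))
        ≤ 3 * (M : ℝ) ^ 4 / (4 * m) * (3 / (M : ℝ) ^ 4 * (m * ((s : ℝ) + 1))) :=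
          mul_le_mul_of_nonneg_right hc.hi (by positivity)
      _ = 9 / 4 * ((s : ℝ) + 1) := by
          field_simp
          norm_num
      _ ≤ _ := by linarith
  obtain ⟨hP2, hP2', hP2''⟩ := prod_one_sub_ge (SM M) (fun p hp => (mem_SM hp).1.one_le)
  have hP3 : 1 / 2 ≤ ∏ p ∈ SM M, (1 - 1 / (p : ℝ)) := by
    have := e1_le hm hM hc
    linarith
  have hR : (∏ p ∈ SM M, (1 + 1 / (p : ℝ) ^ σ)) / ∏ p ∈ SM M, (1 - 1 / (p : ℝ)) ≤
      2 * Real.exp (3 * ((s : ℝ) + 1)) := by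
    rw [div_le_iff₀ (by linarith)]
    have h1 : 0 < Real.exp (3 * ((s : ℝ) + 1)) := Real.exp_pos _
    nlinarith
  have hpow : ((M : ℝ) ^ (4 * s + 1)) ^ σ ≤ (M : ℝ) ^ (4 * s + 1) / (m * ((s : ℝ) + 1)) ^ s := by
    have e1 : ((M : ℝ) ^ (4 * s + 1)) ^ σ = Real.exp ((4 * s + 1) * m * σ) := by
      rw [Real.rpow_def_of_pos (by positivity), Real.log_pow, hlogM]
      push_cast
      rfl
    have e2 : (M : ℝ) ^ (4 * s + 1) / (m * ((s : ℝ) + 1)) ^ s =
        Real.exp ((4 * s + 1) * m - s * w) := by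
      rw [← hM, ← hw, ← Real.exp_nat_mul, ← Real.exp_nat_mul, ← Real.exp_sub]
      push_cast
      rfl
    rw [e1, e2]
    apply Real.exp_le_exp.2
    rw [hσ]
    have : (4 * (s : ℝ) + 1) * m * (1 - w / (4 * m)) = (4 * s + 1) * m - s * w - w / 4 := by
      field_simp
      ring
    rw [this]
    linarith
  have hE := E_lower hm hM hc hs
  have hy0 : 0 < y := by
    have : 0 < (M : ℝ) ^ 4 := by positivity
    linarith
  -- the final comparison
  have hq : (80 * m * ((s : ℝ) + 1)) ^ (s + 1) =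
      80 ^ (s + 1) * ((m * ((s : ℝ) + 1)) ^ s * (m * ((s : ℝ) + 1))) := by
    rw [← pow_succ, ← mul_pow]
    congr 1
    ring
  have hfin : 256 * Real.exp (3 * ((s : ℝ) + 1)) * (80 ^ (s + 1) * (m * ((s : ℝ) + 1))) ≤
      (M : ℝ) ^ 5 := by
    have h80 : (80 : ℝ) ^ (s + 1) ≤ Real.exp (5 * ((s : ℝ) + 1)) := by
      have h80' : (80 : ℝ) ≤ Real.exp 5 := by
        have h1 : (2.7182818283 : ℝ) < Real.exp 1 := Real.exp_one_gt_d9
        have h2 : Real.exp 5 = Real.exp 1 ^ 5 := by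
          rw [← Real.exp_nat_mul]
          norm_num
        rw [h2]
        calc (80 : ℝ) ≤ 2.7 ^ 5 := by norm_num
          _ ≤ Real.exp 1 ^ 5 := pow_le_pow_left₀ (by norm_num) (by linarith) 5
      calc (80 : ℝ) ^ (s + 1) ≤ Real.exp 5 ^ (s + 1) := pow_le_pow_left₀ (by norm_num) h80' _
        _ = Real.exp (5 * ((s : ℝ) + 1)) := by
            rw [← Real.exp_nat_mul]
            congr 1
            push_cast
            ring
    have h1 : Real.exp (3 * ((s : ℝ) + 1)) * Real.exp (5 * ((s : ℝ) + 1)) ≤ M := by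
      rw [← Real.exp_add, ← hM]
      apply Real.exp_le_exp.2
      linarith
    have h2 : m * ((s : ℝ) + 1) ≤ (M : ℝ) ^ 2 := by
      rw [sq]
      exact mul_le_mul h5 (by linarith) (by linarith) hM0.le
    have h3 : (256 : ℝ) ≤ (M : ℝ) ^ 2 := by
      have : (7681 : ℝ) ≤ M := by exact_mod_cast h6
      nlinarith
    calc 256 * Real.exp (3 * ((s : ℝ) + 1)) * (80 ^ (s + 1) * (m * ((s : ℝ) + 1)))
        = 256 * (Real.exp (3 * ((s : ℝ) + 1)) * 80 ^ (s + 1)) * (m * ((s : ℝ) + 1)) := by ring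
      _ ≤ 256 * (Real.exp (3 * ((s : ℝ) + 1)) * Real.exp (5 * ((s : ℝ) + 1))) *
          (m * ((s : ℝ) + 1)) := by gcongr
      _ ≤ (M : ℝ) ^ 2 * M * (M : ℝ) ^ 2 := by gcongr
      _ = (M : ℝ) ^ 5 := by ring
  have hA : (0 : ℝ) < (m * ((s : ℝ) + 1)) ^ s := by positivity
  have hB : (0 : ℝ) < m * ((s : ℝ) + 1) := by positivity
  calc 4 / y ^ 2 * ((∏ p ∈ SM M, (1 + 1 / (p : ℝ) ^ σ)) /
        ∏ p ∈ SM M, (1 - 1 / (p : ℝ))) / σ * ((M : ℝ) ^ (4 * s + 1)) ^ σ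
      ≤ 4 / y ^ 2 * (2 * Real.exp (3 * ((s : ℝ) + 1))) / (1 / 2) *
        ((M : ℝ) ^ (4 * s + 1) / (m * ((s : ℝ) + 1)) ^ s) := by gcongr
    _ ≤ (1 / (80 * m * ((s : ℝ) + 1))) ^ (s + 1) * (M : ℝ) ^ (4 * s + 2) / (16 * y) := by
        rw [one_div_pow, hq]
        have e1 : 4 / y ^ 2 * (2 * Real.exp (3 * ((s : ℝ) + 1))) / (1 / 2) *
            ((M : ℝ) ^ (4 * s + 1) / (m * ((s : ℝ) + 1)) ^ s) =
            (256 * Real.exp (3 * ((s : ℝ) + 1)) * (80 ^ (s + 1) * (m * ((s : ℝ) + 1)))) *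
            ((M : ℝ) ^ (4 * s + 1) /
              (16 * y ^ 2 * (80 ^ (s + 1) * ((m * ((s : ℝ) + 1)) ^ s * (m * ((s : ℝ) + 1)))))) := by
          field_simp
          norm_num
        have e2 : 1 / (80 ^ (s + 1) * ((m * ((s : ℝ) + 1)) ^ s * (m * ((s : ℝ) + 1)))) *
            (M : ℝ) ^ (4 * s + 2) / (16 * y) = (y * M) *
            ((M : ℝ) ^ (4 * s + 1) /
              (16 * y ^ 2 * (80 ^ (s + 1) * ((m * ((s : ℝ) + 1)) ^ s * (m * ((s : ℝ) + 1)))))) := by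
          have : (M : ℝ) ^ (4 * s + 2) = (M : ℝ) ^ (4 * s + 1) * M := by rw [← pow_succ]
          rw [this]
          field_simp
        rw [e1, e2]
        refine mul_le_mul_of_nonneg_right ?_ (by positivity)
        refine hfin.trans ?_
        have : (M : ℝ) ^ 5 = (M : ℝ) ^ 4 * M := by ring
        rw [this]
        refine mul_le_mul_of_nonneg_right ?_ hM0.le
        have : 0 ≤ (M : ℝ) ^ 4 := by positivity
        linarith
    _ ≤ _ := by gcongr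

end core


theorem log_le_eps (K : ℝ) (hK : 0 < K) : ∀ᶠ m : ℝ in atTop, 2 * Real.log m ≤ K * m := by
  have h := Real.isLittleO_log_id_atTop.bound (show (0 : ℝ) < K / 2 by linarith)
  filter_upwards [h, eventually_ge_atTop 0] with m hm hm0
  rw [id, Real.norm_eq_abs, Real.norm_eq_abs, abs_of_nonneg hm0] at hm
  have := (le_abs_self _).trans hm
  linarith

end Nmr

open Nmr in
/-- N3. The choice of the parameters. -/
theorem numeric (K : ℝ) (hK : 0 < K) : ∃ A0 : ℝ, 0 < A0 ∧ ∀ᶠ x : ℕ in atTop,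
    ∃ (M s : ℕ) (σ : ℝ), 3 ≤ M ∧ 0 < σ ∧ σ ≤ 1 ∧ 10 * (M : ℝ) ^ 4 ≤ Real.log x ∧
      K * (Real.log (Real.log x) ^ 2 / Real.log (Real.log (Real.log x))) ≤
        (4 * s + 2) * Real.log M ∧
      (M : ℝ) ^ (4 * s + 3) ≤ (x : ℝ) ^ (1 / 20 : ℝ) ∧
      12 ≤ M ∧ (SM M).Nonempty ∧
      (∀ A ∈ (SM M).powersetCard (s + 1), M ^ (4 * s + 3) ≤ ∏ p ∈ A, p) ∧
      eS (s + 2) (SM M) ≤ eS (s + 1) (SM M) / 2 ∧
      ∑ j ∈ range (s + 1), ((SM M).card.choose j : ℝ) ≤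
        (M : ℝ) ^ (4 * s + 1) * eS (s + 1) (SM M) / 4 ∧
      Real.log x ^ (-A0) ≤ eS (s + 1) (SM M) ∧
      4 / Real.log x ^ 2 * ((∏ p ∈ SM M, (1 + 1 / (p : ℝ) ^ σ)) /
        ∏ p ∈ SM M, (1 - 1 / (p : ℝ))) / σ * ((M : ℝ) ^ (4 * s + 1)) ^ σ ≤
        eS (s + 1) (SM M) * (M : ℝ) ^ (4 * s + 2) / (16 * Real.log x) := by
  refine ⟨6 * K, by positivity, ?_⟩
  obtain ⟨y0, hy0⟩ := cheb
  -- the parameter `M`
  set F : ℕ → ℕ := fun x => ⌊(Real.log x / 10) ^ (1 / 4 : ℝ)⌋₊ with hF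
  have hlogx : Tendsto (fun x : ℕ => Real.log x) atTop atTop :=
    Real.tendsto_log_atTop.comp tendsto_natCast_atTop_atTop
  have hFt : Tendsto F atTop atTop := by
    have h1 : Tendsto (fun x : ℕ => (Real.log x / 10) ^ (1 / 4 : ℝ)) atTop atTop :=
      (tendsto_rpow_atTop (by norm_num : (0 : ℝ) < 1 / 4)).comp
        (hlogx.atTop_div_const (by norm_num))
    exact tendsto_nat_floor_atTop.comp h1
  have hmt : Tendsto (fun x : ℕ => Real.log (F x)) atTop atTop :=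
    Real.tendsto_log_atTop.comp (tendsto_natCast_atTop_atTop.comp hFt)
  have hmm : Tendsto (fun x : ℕ => Real.log (Real.log (F x))) atTop atTop :=
    Real.tendsto_log_atTop.comp hmt
  filter_upwards [hlogx.eventually_ge_atTop 10, hFt.eventually_ge_atTop (y0 + 1),
    hmt.eventually_ge_atTop 7680, hmm.eventually_ge_atTop 1,
    hmm.eventually_ge_atTop (224 * K), hmt.eventually (log_le_eps K hK),
    eventually_gt_atTop 0] with x hx hFx hm hlm hlm2 hlm3 hx0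
  obtain ⟨M, hMdef⟩ : ∃ M : ℕ, M = F x := ⟨_, rfl⟩
  rw [← hMdef] at hFx hm hlm hlm2 hlm3
  obtain ⟨m, hmdef⟩ : ∃ m : ℝ, m = Real.log M := ⟨_, rfl⟩
  rw [← hmdef] at hm hlm hlm2 hlm3
  have hM0' : 0 < M := by omega
  have hM0 : (0 : ℝ) < M := by exact_mod_cast hM0'
  have hM : Real.exp m = M := by rw [hmdef, Real.exp_log hM0]
  have hm0 : 0 < m := by linarith
  obtain ⟨hb1, hb2, hb3⟩ := big_M hm hM
  -- the bounds for `y = log x`
  obtain ⟨y, hydef⟩ : ∃ y : ℝ, y = Real.log x := ⟨_, rfl⟩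
  have hy0' : 0 ≤ y / 10 := by rw [hydef]; linarith
  have h4th : ((y / 10) ^ (1 / 4 : ℝ)) ^ 4 = y / 10 := by
    rw [← Real.rpow_natCast, ← Real.rpow_mul hy0']
    norm_num
  have hMle : (M : ℝ) ≤ (y / 10) ^ (1 / 4 : ℝ) := by
    rw [hMdef, hydef]
    exact Nat.floor_le (Real.rpow_nonneg (by linarith) _)
  have hMlt : (y / 10) ^ (1 / 4 : ℝ) < M + 1 := by
    rw [hMdef, hydef]
    exact Nat.lt_floor_add_one _
  have hy1 : 10 * (M : ℝ) ^ 4 ≤ y := by
    have := pow_le_pow_left₀ hM0.le hMle 4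
    rw [h4th] at this
    linarith
  have hy2 : y ≤ 20 * (M : ℝ) ^ 4 := by
    have h1 := pow_lt_pow_left₀ hMlt (Real.rpow_nonneg hy0' _) (by norm_num : (4 : ℕ) ≠ 0)
    rw [h4th] at h1
    have h2 : ((M : ℝ) + 1) ^ 4 ≤ 2 * (M : ℝ) ^ 4 := by
      have h3 : (7681 : ℝ) ≤ M := by exact_mod_cast hb3
      have h4 : (M : ℝ) + 1 ≤ 1.1 * M := by linarith
      calc ((M : ℝ) + 1) ^ 4 ≤ (1.1 * M) ^ 4 := pow_le_pow_left₀ (by linarith) h4 4
        _ = 1.1 ^ 4 * (M : ℝ) ^ 4 := by ring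
        _ ≤ 2 * (M : ℝ) ^ 4 := mul_le_mul_of_nonneg_right (by norm_num) (by positivity)
    linarith
  have hM4 : (0 : ℝ) < (M : ℝ) ^ 4 := by positivity
  have hypos : 0 < y := by linarith
  have hL1 : 4 * m ≤ Real.log y := by
    have : Real.log ((M : ℝ) ^ 4) ≤ Real.log y := Real.log_le_log hM4 (by linarith)
    rw [Real.log_pow, ← hmdef] at this
    exact_mod_cast this
  have hL2 : Real.log y ≤ 5 * m := by
    have h1 : Real.log y ≤ Real.log ((M : ℝ) ^ 5) := by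
      apply Real.log_le_log hypos
      have h3 : (7681 : ℝ) ≤ M := by exact_mod_cast hb3
      calc y ≤ 20 * (M : ℝ) ^ 4 := hy2
        _ ≤ M * (M : ℝ) ^ 4 := mul_le_mul_of_nonneg_right (by linarith) hM4.le
        _ = (M : ℝ) ^ 5 := by ring
    rw [Real.log_pow, ← hmdef] at h1
    exact_mod_cast h1
  -- the cardinality
  have hcb : CB M m := by
    have h1 := hy0 (M ^ 4) (by
      calc y0 ≤ M := by omega
        _ ≤ M ^ 4 := Nat.le_self_pow (by norm_num) M)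
    have h2 : Real.log ((M ^ 4 : ℕ) : ℝ) = 4 * m := by
      push_cast
      rw [Real.log_pow, ← hmdef]
      norm_num
    rw [h2] at h1
    push_cast at h1
    refine ⟨?_, h1.2⟩
    have h3 : (M : ℝ) ^ 4 / (40 * m) = (M : ℝ) ^ 4 / (10 * (4 * m)) := by
      congr 1
      ring
    rw [h3]
    exact h1.1
  -- the parameter `s`
  obtain ⟨s, hsdef⟩ : ∃ s : ℕ, s = ⌈7 * K * m / Real.log m⌉₊ := ⟨_, rfl⟩
  have hl0 : 0 < Real.log m := by linarith
  have hs1 : 7 * K * m / Real.log m ≤ s := by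
    rw [hsdef]
    exact Nat.le_ceil _
  have hs2 : (s : ℝ) < 7 * K * m / Real.log m + 1 := by
    rw [hsdef]
    exact Nat.ceil_lt_add_one (by positivity)
  have hs3 : 16 * ((s : ℝ) + 1) ≤ m := by
    have h1 : 7 * K * m / Real.log m ≤ m / 32 := by
      rw [div_le_div_iff₀ hl0 (by norm_num)]
      calc 7 * K * m * 32 = m * (224 * K) := by ring
        _ ≤ m * Real.log m := mul_le_mul_of_nonneg_left hlm2 hm0.le
    linarith
  have hs4 : ((s : ℝ) + 1) * Real.log m ≤ 8 * K * m := by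
    have h1 : ((s : ℝ) + 1) * Real.log m ≤ (7 * K * m / Real.log m + 2) * Real.log m :=
      mul_le_mul_of_nonneg_right (by linarith) hl0.le
    have h2 : (7 * K * m / Real.log m + 2) * Real.log m = 7 * K * m + 2 * Real.log m := by
      field_simp
    linarith
  -- the parameter `σ`
  have hs0 : (0 : ℝ) ≤ s := Nat.cast_nonneg s
  obtain ⟨w, hw⟩ : ∃ w : ℝ, Real.exp w = m * ((s : ℝ) + 1) :=
    ⟨Real.log (m * ((s : ℝ) + 1)), Real.exp_log (by positivity)⟩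
  obtain ⟨hσ0, hσ1, hg⟩ := piece_g (σ := 1 - w / (4 * m)) hm hM hcb hs3 hy1 hw rfl
  refine ⟨M, s, 1 - w / (4 * m), by omega, hσ0, hσ1, ?_, ?_, ?_, by omega, ?_, ?_, ?_, ?_, ?_, ?_⟩
  · rw [← hydef]
    exact hy1
  · rw [← hydef, ← hmdef]
    exact piece_b hK hm hL1 hL2 hlm hs1
  · have hx0' : (0 : ℝ) < x := by exact_mod_cast hx0
    rw [Real.rpow_def_of_pos hx0', ← hydef]
    exact piece_c hm hM hs3 hy1
  · obtain ⟨h1, h2, h3⟩ := card_big hm hM hcb hs3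
    exact card_pos.1 (by omega)
  · exact piece_d hm hM hs3
  · exact piece_e hm hM hcb
  · exact piece_f hm hM hcb hs3
  · rw [← hydef, Real.rpow_def_of_pos hypos]
    exact piece_h hK hm hM hcb hs3 hL1 hs4
  · rw [← hydef]
    exact hg

end Pool.Agent.H532.EH
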