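import Mathlib
import Pool.Agent.H532.EH.CntPsi
import Pool.Agent.H532.EH.AvgLower
import Pool.Agent.H532.EH.DeltaLower
import Pool.Agent.H532.EH.Cheb
import Pool.Agent.H532.EH.Numeric

/-!
Failure of the Elliott-Halberstam bound beyond the threshold.
-/

namespace Pool.Agent.H532.EH

open Finset Filter
open Pool.Agent.H532.RM (RB)
open Pool.Agent.H532.SR (Red psiR)

lemma pow_dom {a b C : ℝ} (hab : a < b) :
    ∀ᶠ x : ℕ in atTop, C * (x : ℝ) ^ a ≤ (x : ℝ) ^ b := by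
  have h1 := (tendsto_rpow_atTop (show 0 < b - a by linarith)).comp
    (tendsto_natCast_atTop_atTop (R := ℝ))
  filter_upwards [h1.eventually_ge_atTop C, eventually_ge_atTop 1] with x h2 h3
  simp only [Function.comp_apply] at h2
  have hx : (0 : ℝ) < x := by exact_mod_cast h3
  have h4 : (x : ℝ) ^ b = (x : ℝ) ^ (b - a) * (x : ℝ) ^ a := by
    rw [← Real.rpow_add hx]
    congr 1
    ring
  rw [h4]
  gcongr

/-- the numerical facts used below -/
structure PF (x : ℕ) : Prop where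
  x3 : 3 ≤ x
  lg : 1 ≤ Real.log x
  f1 : 18 * (x : ℝ) ^ (7 / 10 : ℝ) ≤ (x : ℝ) ^ (9 / 10 : ℝ)
  f2 : 4 * (x : ℝ) ^ (51 / 100 : ℝ) ≤ (x : ℝ) ^ (9 / 10 : ℝ)
  f3 : 4 * (x : ℝ) ^ (7 / 50 : ℝ) ≤ (x : ℝ) ^ (9 / 10 : ℝ)
  f4 : 100 * (x : ℝ) ^ (9 / 10 : ℝ) ≤ (x : ℝ) ^ (19 / 20 : ℝ)
  f5 : Real.log x < (x : ℝ) ^ (9 / 10 : ℝ)
  f6 : 100 ≤ (x : ℝ) ^ (9 / 10 : ℝ)

lemma pf_ev : ∀ᶠ x : ℕ in atTop, PF x := by
  have h5 : ∀ᶠ x : ℕ in atTop, Real.log x < (x : ℝ) ^ (9 / 10 : ℝ) := by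
    have h1 := (isLittleO_log_rpow_atTop (r := 9 / 10) (by norm_num)).def
      (show (0 : ℝ) < 1 / 2 by norm_num)
    have h2 := (tendsto_natCast_atTop_atTop (R := ℝ)).eventually h1
    filter_upwards [h2, eventually_ge_atTop 1] with x h3 h4
    have hx : (0 : ℝ) < x := by exact_mod_cast h4
    have h6 : 0 < (x : ℝ) ^ (9 / 10 : ℝ) := by positivity
    rw [Real.norm_of_nonneg h6.le] at h3
    have := Real.le_norm_self (Real.log (x : ℝ))
    linarith
  have h6 := ((tendsto_rpow_atTop (show (0 : ℝ) < 9 / 10 by norm_num)).comp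
    (tendsto_natCast_atTop_atTop (R := ℝ))).eventually_ge_atTop 100
  have hlog : Tendsto (fun x : ℕ => Real.log (x : ℝ)) atTop atTop :=
    Real.tendsto_log_atTop.comp tendsto_natCast_atTop_atTop
  filter_upwards [pow_dom (a := 7 / 10) (b := 9 / 10) (C := 18) (by norm_num),
    pow_dom (a := 51 / 100) (b := 9 / 10) (C := 4) (by norm_num),
    pow_dom (a := 7 / 50) (b := 9 / 10) (C := 4) (by norm_num),
    pow_dom (a := 9 / 10) (b := 19 / 20) (C := 100) (by norm_num), h5, h6,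
    hlog.eventually_ge_atTop 1, eventually_ge_atTop 3] with x a1 a2 a3 a4 a5 a6 a7 a8
  exact ⟨a8, a7, a1, a2, a3, a4, a5, a6⟩

/-- the product of the primes in `SM M` -/
lemma prod_SM_le {M x : ℕ} (hx : 1 ≤ x) (hMx : 10 * (M : ℝ) ^ 4 ≤ Real.log x) :
    ((∏ p ∈ SM M, p : ℕ) : ℝ) ≤ (x : ℝ) ^ (7 / 50 : ℝ) := by
  have h1 : ∏ p ∈ SM M, p ≤ 4 ^ (M ^ 4) := by
    refine le_trans ?_ (primorial_le_four_pow (M ^ 4))
    unfold primorial
    refine Finset.prod_le_prod_of_subset_of_one_le' ?_ ?_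
    · intro p hp
      unfold SM at hp
      rw [mem_filter, mem_Ioc] at hp
      rw [mem_filter, mem_range]
      exact ⟨by omega, hp.2⟩
    · intro p hp _
      exact (mem_filter.1 hp).2.one_le
  have hx0 : (0 : ℝ) < x := by exact_mod_cast hx
  calc ((∏ p ∈ SM M, p : ℕ) : ℝ) ≤ ((4 ^ (M ^ 4) : ℕ) : ℝ) := by exact_mod_cast h1
    _ = Real.exp (Real.log 4 * (M : ℝ) ^ 4) := by
      push_cast
      rw [show Real.log 4 * (M : ℝ) ^ 4 = ((M ^ 4 : ℕ) : ℝ) * Real.log 4 by push_cast; ring,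
        Real.exp_nat_mul, Real.exp_log (by norm_num)]
    _ ≤ Real.exp (Real.log x * (7 / 50)) := by
      apply Real.exp_le_exp.2
      rw [Cheb.log_four]
      have := Real.log_two_lt_d9
      have h3 : 0 ≤ (M : ℝ) ^ 4 := by positivity
      nlinarith
    _ = (x : ℝ) ^ (7 / 50 : ℝ) := by rw [Real.rpow_def_of_pos hx0]

lemma sum_Wt (q U : ℕ) (hU : 1 ≤ U) :
    ∑ t ∈ Ico 1 U, Wt q t = ∑ n ∈ Ioc (q - 1) (q * U - 1), 1 / Real.log n := by
  induction U, hU using Nat.le_induction with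
  | base => simp
  | succ k hk ih =>
    rw [sum_Ico_succ_top (by omega), ih]
    unfold Wt
    rcases Nat.eq_zero_or_pos q with hq | hq
    · subst hq; simp
    have h1 : q ≤ q * k := Nat.le_mul_of_pos_right _ (by omega)
    have h2 : q * (k + 1) - 1 = q * k - 1 + q := by
      have : q * (k + 1) = q * k + q := by ring
      omega
    rw [h2, sum_Ioc_consecutive _ (by omega) (by omega)]

open Classical in
/-- one modulus -/
theorem one_mod {z a : ℕ → ℕ} (ha : ∀ p, p.Prime → a p < p) {n1 : ℕ}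
    (hzn : ∀ n, n1 ≤ n → Real.sqrt n ≤ z n) (x : ℕ)
    (hm : ∀ m y q b : ℕ, m + y ≤ 2 * x → 0 < q → q ≤ 2 * x → Red a q b →
      |psiR (RB z a) m y q b - y / Nat.totient q| ≤ (x : ℝ) ^ (1 / 100 : ℝ) * Real.sqrt (1 + y / q))
    (M s : ℕ) (σ : ℝ) (hM : 12 ≤ M) (hσ0 : 0 < σ) (hσ1 : σ ≤ 1)
    (hMx : 10 * (M : ℝ) ^ 4 ≤ Real.log x) (hMs : (M : ℝ) ^ (4 * s + 3) ≤ (x : ℝ) ^ (1 / 20 : ℝ))
    (hS1 : (SM M).Nonempty)
    (hprod : ∀ A ∈ (SM M).powersetCard (s + 1), M ^ (4 * s + 3) ≤ ∏ p ∈ A, p)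
    (h1 : eS (s + 2) (SM M) ≤ eS (s + 1) (SM M) / 2)
    (h2 : ∑ j ∈ range (s + 1), ((SM M).card.choose j : ℝ) ≤
        (M : ℝ) ^ (4 * s + 1) * eS (s + 1) (SM M) / 4)
    (hfin : 4 / Real.log x ^ 2 * ((∏ p ∈ SM M, (1 + 1 / (p : ℝ) ^ σ)) /
        ∏ p ∈ SM M, (1 - 1 / (p : ℝ))) / σ * ((M : ℝ) ^ (4 * s + 1)) ^ σ ≤
        eS (s + 1) (SM M) * (M : ℝ) ^ (4 * s + 2) / (16 * Real.log x))
    (hs2 : 2 ≤ s) (hn1 : n1 ≤ M ^ (4 * s + 3)) (hne : 0 < eS (s + 1) (SM M))
    (hbig : 7 * (32 * Real.log x) ≤ eS (s + 1) (SM M) * (M : ℝ) ^ (4 * s + 2))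
    (pf : PF x) (q : ℕ) (hq : q.Prime) (hqx : (x : ℝ) ^ (9 / 10 : ℝ) ≤ q)
    (hqU : x / q ≤ M ^ (4 * s + 3)) (hqD : M ^ (4 * s + 2) ≤ x / q) :
    ∃ b < q, Red a q b ∧ eS (s + 1) (SM M) * (M : ℝ) ^ (4 * s + 2) / (32 * Real.log x) ≤
      |piR (RB z a) x q b - piR (RB z a) x 1 0 / Nat.totient q| := by
  obtain ⟨x3, lg, f1, f2, f3, f4, f5, f6⟩ := pf
  set S := SM M with hS
  set P := ∏ p ∈ S, p with hP
  have hx0 : (0 : ℝ) < x := by
    have : 0 < x := by omega
    exact_mod_cast this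
  have hSp : ∀ p ∈ S, p.Prime := fun p hp => by
    rw [hS] at hp
    unfold SM at hp
    exact (mem_filter.1 hp).2
  have hSle : ∀ p ∈ S, p ≤ M ^ 4 := fun p hp => by
    rw [hS] at hp
    unfold SM at hp
    exact (mem_Ioc.1 (mem_filter.1 hp).1).2
  have hPr : (P : ℝ) ≤ (x : ℝ) ^ (7 / 50 : ℝ) := by
    have := prod_SM_le (M := M) (x := x) (by omega) hMx
    simpa [hP] using this
  have hP0 : 0 < P := Finset.prod_pos fun p hp => (hSp p hp).pos
  have hqpos := hq.pos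
  have hq0 : (0 : ℝ) < q := by exact_mod_cast hqpos
  -- `P` is large
  have hPbig : M ^ (4 * s + 3) ≤ P := by
    have : (S.powersetCard (s + 1)).Nonempty := by
      by_contra hcon
      rw [not_nonempty_iff_eq_empty] at hcon
      unfold eS at hne
      rw [hcon] at hne
      simp at hne
    obtain ⟨A, hA⟩ := this
    refine (hprod A hA).trans ?_
    exact Finset.prod_le_prod_of_subset_of_one_le' (mem_powersetCard.1 hA).1
      (fun p hp _ => (hSp p hp).one_le)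
  have hz : ∀ n, P ≤ n → ∀ p ∈ S, p ≤ z n := by
    intro n hn p hp
    have e1 := hzn n (by omega)
    have e2 : ((M : ℝ) ^ 4) ≤ Real.sqrt n := by
      apply Real.le_sqrt_of_sq_le
      have e3 : M ^ 8 ≤ M ^ (4 * s + 3) := Nat.pow_le_pow_right (by omega) (by omega)
      have e4 : ((M ^ 8 : ℕ) : ℝ) ≤ n := by
        have : M ^ 8 ≤ n := by omega
        exact_mod_cast this
      calc ((M : ℝ) ^ 4) ^ 2 = ((M ^ 8 : ℕ) : ℝ) := by push_cast; ring
        _ ≤ (n : ℝ) := e4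
    have e3 : (p : ℝ) ≤ (M : ℝ) ^ 4 := by exact_mod_cast hSle p hp
    have e4 : (p : ℝ) ≤ z n := by linarith
    exact_mod_cast e4
  have hMq : ((M ^ 4 : ℕ) : ℝ) < q := by
    push_cast
    have : 0 ≤ (M : ℝ) ^ 4 := by positivity
    linarith
  have hMq' : M ^ 4 < q := by exact_mod_cast hMq
  have hqS : q ∉ S := fun h => by
    have := hSle q h
    omega
  have hPq : 4 * P ≤ q := by
    have : ((4 * P : ℕ) : ℝ) ≤ q := by
      push_cast
      linarith
    exact_mod_cast this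
  have hM1 : 2 ≤ M ^ (4 * s + 2) := by
    calc 2 ≤ M := by omega
      _ = M ^ 1 := (pow_one M).symm
      _ ≤ M ^ (4 * s + 2) := Nat.pow_le_pow_right (by omega) (by omega)
  have hqx2 : 2 * q ≤ x := by
    have e1 : 2 ≤ x / q := hM1.trans hqD
    have e2 := (Nat.le_div_iff_mul_le hqpos).1 e1
    omega
  have hPx : P ≤ 2 * x := by omega
  -- the class `β`
  obtain ⟨β, hβ⟩ : ∃ β : ℕ, ∀ p ∈ S, β ≡ a p [MOD p] := by
    have pp : Set.Pairwise (S : Set ℕ) (Function.onFun Nat.Coprime (fun p : ℕ => p)) := by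
      intro p hp r hr hpr
      exact (Nat.coprime_primes (hSp p hp) (hSp r hr)).2 hpr
    exact ⟨_, (Nat.chineseRemainderOfFinset a (fun p => p) S (fun p hp => (hSp p hp).ne_zero)
      pp).2⟩
  -- the law in the windows
  set Er : ℝ := 2 * ((x : ℝ) ^ (1 / 100 : ℝ) * Real.sqrt (1 + x)) with hEr
  have hE0 : 0 ≤ Er := by positivity
  have hEr4 : Er ≤ 4 * (x : ℝ) ^ (51 / 100 : ℝ) := by
    have e1 : Real.sqrt (1 + x) ≤ 2 * (x : ℝ) ^ (1 / 2 : ℝ) := by
      rw [← Real.sqrt_eq_rpow]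
      apply Real.sqrt_le_iff.2
      refine ⟨by positivity, ?_⟩
      rw [mul_pow, Real.sq_sqrt hx0.le]
      have : (3 : ℝ) ≤ x := by exact_mod_cast x3
      linarith
    have e2 : (x : ℝ) ^ (51 / 100 : ℝ) = (x : ℝ) ^ (1 / 100 : ℝ) * (x : ℝ) ^ (1 / 2 : ℝ) := by
      rw [← Real.rpow_add hx0]; norm_num
    rw [hEr, e2]
    calc 2 * ((x : ℝ) ^ (1 / 100 : ℝ) * Real.sqrt (1 + x)) ≤
        2 * ((x : ℝ) ^ (1 / 100 : ℝ) * (2 * (x : ℝ) ^ (1 / 2 : ℝ))) := by gcongr
      _ = _ := by ring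
  have hlaw : ∀ t : ℕ, 1 ≤ t → t < x / q → (∀ p ∈ S, ¬ p ∣ t) →
      |(((Ioc (q * t - 1) (q * t - 1 + q)).filter
        (fun n => n ≡ β + q * t [MOD P] ∧ n ∈ RB z a)).card : ℝ) -
        Wt q t / Nat.totient P| ≤ Er := by
    intro t ht1 ht2 ht3
    have e1 : q * (t + 1) ≤ x := by
      have : (t + 1) * q ≤ x := (Nat.le_div_iff_mul_le hqpos).1 (by omega)
      rw [mul_comm]
      exact this
    have hqt : q ≤ q * t := Nat.le_mul_of_pos_right _ (by omega)
    have hqt1 : q * (t + 1) = q * t + q := by ring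
    have hred : Red a P (β + q * t) := by
      intro p hp hpP hcon
      have hpS : p ∈ S := by
        obtain ⟨r, hr, hpr⟩ := (hp.prime.dvd_finsetProd_iff _).1 hpP
        rwa [(Nat.prime_dvd_prime_iff_eq hp (hSp r hr)).1 hpr]
      have e2 : β + q * t ≡ β + 0 [MOD p] := by
        rw [add_zero]
        exact hcon.trans (hβ p hpS).symm
      have e3 := Nat.ModEq.add_left_cancel' β e2
      have e4 : p ∣ q * t := (Nat.modEq_zero_iff_dvd).1 e3
      rcases hp.dvd_mul.1 e4 with h | h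
      · have := (Nat.prime_dvd_prime_iff_eq hp hq).1 h
        exact hqS (this ▸ hpS)
      · exact ht3 p hpS h
    have h8 : (100 : ℝ) ≤ q := by linarith
    have h8' : 100 ≤ q := by exact_mod_cast h8
    have e5 := cnt_of_psi (RB z a) (q * t - 1) q P (β + q * t)
      ((x : ℝ) ^ (1 / 100 : ℝ) * Real.sqrt (1 + x)) (by omega) hP0 (fun y' hy' => by
        refine (hm (q * t - 1) y' P (β + q * t) (by omega) hP0 hPx hred).trans ?_
        have e6 : (y' : ℝ) / P ≤ x := by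
          have e7 : (y' : ℝ) ≤ x := by
            have : y' ≤ x := by omega
            exact_mod_cast this
          have e8 : (1 : ℝ) ≤ P := by exact_mod_cast hP0
          calc (y' : ℝ) / P ≤ y' := div_le_self (Nat.cast_nonneg _) e8
            _ ≤ x := e7
        gcongr)
    rw [hEr]
    unfold Wt
    exact e5
  -- all of `R`
  set U := x / q with hU
  have hU1 : 2 ≤ U := hM1.trans hqD
  have hUx : U * q ≤ x := Nat.div_mul_le_self x q
  have hxU : x < U * q + q := by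
    have e1 := Nat.div_add_mod x q
    have e2 := Nat.mod_lt x hqpos
    have e3 : q * (x / q) = U * q := by rw [hU]; ring
    omega
  have h8 : (100 : ℝ) ≤ q := by linarith
  have h8' : 100 ≤ q := by exact_mod_cast h8
  have hqU1 : q ≤ U * q := Nat.le_mul_of_pos_left _ (by omega)
  have hUq : q * U = U * q := mul_comm _ _
  have hpi : |piR (RB z a) x 1 0 - ∑ t ∈ Ico 1 U, Wt q t| ≤ 3 * q := by
    rw [sum_Wt q U (by omega), piR_eq]
    have e1 := cnt_of_psi (RB z a) (q - 1) (U * q - q) 1 0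
      ((x : ℝ) ^ (1 / 100 : ℝ) * Real.sqrt (1 + x)) (by omega) one_pos (fun y' hy' => by
        refine (hm (q - 1) y' 1 0 (by omega) one_pos (by omega) (fun p hp hp1 => by
          exact absurd (Nat.dvd_one.1 hp1) hp.one_lt.ne')).trans ?_
        have e7 : (y' : ℝ) / (1 : ℕ) ≤ x := by
          have : y' ≤ x := by omega
          simp only [Nat.cast_one, div_one]
          exact_mod_cast this
        gcongr)
    have e2 : q - 1 + (U * q - q) = q * U - 1 := by omega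
    rw [e2, Nat.totient_one, Nat.cast_one, div_one] at e1
    set G := (Ioc (q - 1) (q * U - 1)).filter (fun n => n ≡ 0 [MOD 1] ∧ n ∈ RB z a) with hG
    set F := (Icc 1 x).filter (fun n => n ≡ 0 [MOD 1] ∧ n ∈ RB z a) with hF
    have e3 : G.card ≤ F.card := by
      apply card_le_card
      intro n hn
      rw [hG, mem_filter, mem_Ioc] at hn
      rw [hF, mem_filter, mem_Icc]
      exact ⟨by omega, hn.2⟩
    have e4 : F.card ≤ G.card + 2 * q := by
      have e5 : F ⊆ G ∪ (Icc 1 (q - 1) ∪ Icc (q * U) x) := by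
        intro n hn
        rw [hF, mem_filter, mem_Icc] at hn
        rw [mem_union, mem_union, mem_Icc, mem_Icc]
        by_cases h : n ∈ Ioc (q - 1) (q * U - 1)
        · left
          rw [hG, mem_filter]
          exact ⟨h, hn.2⟩
        · right
          rw [mem_Ioc] at h
          omega
      refine (card_le_card e5).trans ((card_union_le _ _).trans ?_)
      have e6 := card_union_le (Icc 1 (q - 1)) (Icc (q * U) x)
      rw [Nat.card_Icc, Nat.card_Icc] at e6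
      omega
    have e5 : (G.card : ℝ) ≤ F.card := by exact_mod_cast e3
    have e6 : (F.card : ℝ) ≤ G.card + 2 * q := by exact_mod_cast e4
    have e7 : Er ≤ q := by linarith
    rw [abs_le] at e1 ⊢
    constructor <;> linarith [e1.1, e1.2]
  obtain ⟨b, hb1, hb2, hb3⟩ := avg_lower z a ha x q hq S hSp hS1 hqS hPq hqx2 hz β hβ Er (3 * q) hE0
    (by positivity) hlaw hpi
  refine ⟨b, hb1, hb2, le_trans ?_ hb3⟩
  -- the lower bound for the oscillating sum
  set ee := eS (s + 1) S with hee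
  set D : ℝ := (M : ℝ) ^ (4 * s + 2) with hD
  have hMr : (12 : ℝ) ≤ M := by exact_mod_cast hM
  have hD0 : (4 : ℝ) ≤ D := by
    calc (4 : ℝ) ≤ (M : ℝ) ^ 1 := by rw [pow_one]; linarith
      _ ≤ D := pow_le_pow_right₀ (by linarith) (by omega)
  have hUr : D ≤ (U : ℝ) := by
    rw [hD]; exact_mod_cast hqD
  have hdl := delta_lower x q S hSp s (M ^ (4 * s + 1)) σ hσ0 hσ1 (by omega)
    (Nat.one_le_iff_ne_zero.2 (pow_ne_zero _ (by omega)))
    (lt_of_lt_of_le (Nat.pow_lt_pow_right (by omega) (by omega)) hqD)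
    (fun A hA => hqU.trans (hprod A hA)) h1 (by push_cast; exact h2)
  rw [← hU, ← hee] at hdl
  push_cast at hdl
  have hlogq : Real.log x / 2 ≤ Real.log q := by
    have e1 : Real.log ((x : ℝ) ^ (9 / 10 : ℝ)) ≤ Real.log q :=
      Real.log_le_log (by positivity) hqx
    rw [Real.log_rpow hx0] at e1
    linarith
  have hlx0 : 0 < Real.log x := by linarith
  have hlq0 : 0 < Real.log q := by linarith
  have hW0 : 0 ≤ (∏ p ∈ S, (1 + 1 / (p : ℝ) ^ σ)) / ∏ p ∈ S, (1 - 1 / (p : ℝ)) := by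
    apply div_nonneg
    · exact prod_nonneg fun p hp => by positivity
    · exact (DLow.v_pos hSp).le
  have t1 : q / Real.log q ^ 2 * ((∏ p ∈ S, (1 + 1 / (p : ℝ) ^ σ)) / ∏ p ∈ S, (1 - 1 / (p : ℝ))) / σ *
        ((M : ℝ) ^ (4 * s + 1)) ^ σ ≤ q * (ee * D / (16 * Real.log x)) := by
    calc _ ≤ q * (4 / Real.log x ^ 2) * ((∏ p ∈ S, (1 + 1 / (p : ℝ) ^ σ)) /
          ∏ p ∈ S, (1 - 1 / (p : ℝ))) / σ * ((M : ℝ) ^ (4 * s + 1)) ^ σ := by
          have : (q : ℝ) / Real.log q ^ 2 ≤ q * (4 / Real.log x ^ 2) := by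
            rw [div_eq_mul_one_div]
            have e2 : 1 / Real.log q ^ 2 ≤ 4 / Real.log x ^ 2 := by
              rw [div_le_div_iff₀ (by positivity) (by positivity)]
              nlinarith
            gcongr
          gcongr
      _ = q * (4 / Real.log x ^ 2 * ((∏ p ∈ S, (1 + 1 / (p : ℝ) ^ σ)) /
          ∏ p ∈ S, (1 - 1 / (p : ℝ))) / σ * ((M : ℝ) ^ (4 * s + 1)) ^ σ) := by ring
      _ ≤ _ := by gcongr
  have t2 : q * (3 * (ee * D) / (16 * Real.log x)) ≤ q / Real.log x * (ee / 4 * ((U : ℝ) - 1)) := by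
    have e1 : 3 / 4 * D ≤ (U : ℝ) - 1 := by linarith
    calc q * (3 * (ee * D) / (16 * Real.log x)) = q / Real.log x * (ee / 4 * (3 / 4 * D)) := by
          field_simp
          ring
      _ ≤ _ := by gcongr
  have t3 : q * (ee * D / (8 * Real.log x)) ≤ |∑ t ∈ Ico 1 U, Wt q t * dl S t| := by
    have e1 : q * (3 * (ee * D) / (16 * Real.log x)) - q * (ee * D / (16 * Real.log x)) =
        q * (ee * D / (8 * Real.log x)) := by
      field_simp
      ring
    linarith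
  -- the error term
  have t4 : (P : ℝ) * ((U : ℝ) * Er + 8 * U + 6) ≤ q := by
    have e1 : (U : ℝ) ≤ (x : ℝ) ^ (1 / 20 : ℝ) := by
      refine le_trans ?_ hMs
      exact_mod_cast hqU
    have e2 : (1 : ℝ) ≤ (x : ℝ) ^ (51 / 100 : ℝ) := Real.one_le_rpow (by
      have : (3 : ℝ) ≤ x := by exact_mod_cast x3
      linarith) (by norm_num)
    have e3 : (1 : ℝ) ≤ (x : ℝ) ^ (1 / 20 : ℝ) := Real.one_le_rpow (by
      have : (3 : ℝ) ≤ x := by exact_mod_cast x3
      linarith) (by norm_num)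
    set u := (x : ℝ) ^ (1 / 20 : ℝ) with hu
    set v := (x : ℝ) ^ (51 / 100 : ℝ) with hv
    calc (P : ℝ) * ((U : ℝ) * Er + 8 * U + 6) ≤
        (x : ℝ) ^ (7 / 50 : ℝ) * (u * (4 * v) + 8 * u + 6) := by gcongr
      _ ≤ (x : ℝ) ^ (7 / 50 : ℝ) * (18 * (u * v)) := by
          have : 1 ≤ u * v := one_le_mul_of_one_le_of_one_le e3 e2
          have e4 : u ≤ u * v := le_mul_of_one_le_right (by linarith) e2
          gcongr
          linarith
      _ = 18 * (x : ℝ) ^ (7 / 10 : ℝ) := by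
          rw [hu, hv]
          have : (x : ℝ) ^ (7 / 10 : ℝ) = (x : ℝ) ^ (7 / 50 : ℝ) *
              ((x : ℝ) ^ (1 / 20 : ℝ) * (x : ℝ) ^ (51 / 100 : ℝ)) := by
            rw [← Real.rpow_add hx0, ← Real.rpow_add hx0]
            norm_num
          rw [this]
          ring
      _ ≤ q := by linarith
  rw [le_div_iff₀ (by positivity)]
  have t5 : ee * D / (32 * Real.log x) * (2 * q) = q * (ee * D / (16 * Real.log x)) := by
    field_simp
    ring
  have t6 : q * (ee * D / (8 * Real.log x)) =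
      q * (ee * D / (16 * Real.log x)) + q * (ee * D / (16 * Real.log x)) := by
    field_simp
    ring
  have t7 : (14 : ℝ) * q ≤ q * (ee * D / (16 * Real.log x)) := by
    have e1 : 14 ≤ ee * D / (16 * Real.log x) := by
      rw [le_div_iff₀ (by positivity)]
      linarith
    nlinarith
  rw [t5]
  linarith

lemma thr_big {K C : ℝ} (hK : 0 < K) : ∀ᶠ x : ℕ in atTop,
    C * Real.log (Real.log x) ≤
      K * (Real.log (Real.log x) ^ 2 / Real.log (Real.log (Real.log x))) := by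
  have hlog : Tendsto (fun x : ℕ => Real.log (x : ℝ)) atTop atTop :=
    Real.tendsto_log_atTop.comp tendsto_natCast_atTop_atTop
  have hll : Tendsto (fun x : ℕ => Real.log (Real.log (x : ℝ))) atTop atTop :=
    Real.tendsto_log_atTop.comp hlog
  have hlll : Tendsto (fun x : ℕ => Real.log (Real.log (Real.log (x : ℝ)))) atTop atTop :=
    Real.tendsto_log_atTop.comp hll
  have h1 := (Real.isLittleO_log_id_atTop).def (show 0 < K / (|C| + 1) by positivity)
  have h2 := hll.eventually h1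
  filter_upwards [h2, hll.eventually_ge_atTop 1, hlll.eventually_ge_atTop 1] with x h3 h4 h5
  simp only [id] at h3
  set l := Real.log (Real.log (x : ℝ)) with hl
  rw [Real.norm_of_nonneg (by linarith), Real.norm_of_nonneg (by linarith)] at h3
  have h6 : C * Real.log l ≤ K * l := by
    have h7 : C * Real.log l ≤ (|C| + 1) * Real.log l := by
      have := le_abs_self C
      gcongr
      linarith
    have h8 : (|C| + 1) * Real.log l ≤ (|C| + 1) * (K / (|C| + 1) * l) := by gcongr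
    have h9 : (|C| + 1) * (K / (|C| + 1) * l) = K * l := by field_simp
    linarith
  rw [← mul_div_assoc, le_div_iff₀ (by linarith)]
  nlinarith

theorem neg_det {z a : ℕ → ℕ} (ha : ∀ p, p.Prime → a p < p) (hz : Pool.Agent.H532.SR.Rt z)
    (hm : ∀ ε : ℝ, 0 < ε → ∀ᶠ X : ℕ in atTop, ∀ x y q b : ℕ, x + y ≤ 2 * X → 0 < q → q ≤ 2 * X →
      Red a q b → |psiR (RB z a) x y q b - y / Nat.totient q| ≤
        (X : ℝ) ^ ε * Real.sqrt (1 + y / q))
    (E : ℕ → ℕ → ℝ) (hE0 : ∀ x q, 0 ≤ E x q)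
    (hE : ∀ x q b, b < q → Red a q b →
      |piR (RB z a) x q b - piR (RB z a) x 1 0 / Nat.totient q| ≤ E x q) (K : ℝ) (hK : 0 < K) :
    ∃ A0 : ℝ, 0 < A0 ∧ ∀ᶠ x : ℕ in atTop, ∃ Y : ℕ, 1 ≤ Y ∧
      K * (Real.log (Real.log x) ^ 2 / Real.log (Real.log (Real.log x))) ≤ Real.log (x / Y) ∧
      (∀ q : ℕ, q.Prime → Y / 3 < q → q ≤ Y → x / q * Real.log x ^ (-A0) ≤ E x q) ∧
      x * Real.log x ^ (-A0) ≤ ∑ q ∈ Icc 1 Y, E x q := by
  obtain ⟨A0, hA0, hN⟩ := numeric K hK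
  obtain ⟨n1, hn1⟩ := eventually_atTop.1 hz.lim.big
  obtain ⟨y0, hy0⟩ := cheb
  refine ⟨A0 + 3, by positivity, ?_⟩
  have hlog : Tendsto (fun x : ℕ => Real.log (x : ℝ)) atTop atTop :=
    Real.tendsto_log_atTop.comp tendsto_natCast_atTop_atTop
  have hll : Tendsto (fun x : ℕ => Real.log (Real.log (x : ℝ))) atTop atTop :=
    Real.tendsto_log_atTop.comp hlog
  have hy : ∀ᶠ x : ℕ in atTop, (y0 : ℝ) ≤ (x : ℝ) ^ (9 / 10 : ℝ) :=
    ((tendsto_rpow_atTop (show (0 : ℝ) < 9 / 10 by norm_num)).comp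
      (tendsto_natCast_atTop_atTop (R := ℝ))).eventually_ge_atTop _
  filter_upwards [hN, hm (1 / 100) (by norm_num), pf_ev, thr_big (K := K) (C := A0 + 3) hK,
    hlog.eventually_ge_atTop 640, hlog.eventually_ge_atTop n1, hll.eventually_ge_atTop 1, hy] with
    x hNx hmx pf hth hl640 hln1 hll1 hyx
  obtain ⟨M, s, σ, -, hσ0, hσ1, hMx, hKs, hMs, hM12, hSne, hprod, he1, he2, hge, hfin⟩ := hNx
  set D : ℝ := (M : ℝ) ^ (4 * s + 2) with hD
  set Dn : ℕ := M ^ (4 * s + 2) with hDn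
  have hDD : (Dn : ℝ) = D := by rw [hDn, hD]; push_cast; rfl
  set L := Real.log (x : ℝ) with hL
  set ll := Real.log L with hlldef
  have hL0 : 0 < L := by linarith
  have hMr : (12 : ℝ) ≤ M := by exact_mod_cast hM12
  have hlM : 0 < Real.log (M : ℝ) := Real.log_pos (by linarith)
  have hD0 : 0 < D := by positivity
  have hlogD : Real.log D = (4 * s + 2) * Real.log M := by
    rw [hD, Real.log_pow]; push_cast; ring
  have hD1 : (A0 + 3) * ll ≤ Real.log D := by rw [hlogD]; linarith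
  have hD2 : L ^ (A0 + 3) ≤ D := by
    rw [Real.rpow_def_of_pos hL0, ← Real.log_le_log_iff (Real.exp_pos _) hD0, Real.log_exp]
    linarith
  have hs2 : 2 ≤ s := by
    have e1 : 4 * Real.log (M : ℝ) ≤ ll := by
      have : Real.log ((M : ℝ) ^ 4) ≤ Real.log L := Real.log_le_log (by positivity) (by
        have : 0 < (M : ℝ) ^ 4 := by positivity
        linarith)
      rw [Real.log_pow] at this
      push_cast at this
      exact this
    have e2 : (A0 + 3) * ll ≤ (4 * s + 2) * Real.log M := by linarith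
    by_contra hcon
    push Not at hcon
    have e3 : (s : ℝ) ≤ 1 := by
      have : s ≤ 1 := by omega
      exact_mod_cast this
    nlinarith
  have hLA : L ^ (A0 + 3) = L ^ A0 * L ^ 3 := by
    rw [Real.rpow_add hL0]
    norm_num
  have hLA0 : 1 ≤ L ^ A0 := Real.one_le_rpow (by linarith) hA0.le
  have hgepos : 0 < eS (s + 1) (SM M) := lt_of_lt_of_le (by positivity) hge
  have hgeD : L ^ 3 ≤ eS (s + 1) (SM M) * D := by
    calc L ^ 3 = L ^ (-A0) * (L ^ A0 * L ^ 3) := by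
          rw [Real.rpow_neg hL0.le]
          field_simp
      _ ≤ eS (s + 1) (SM M) * D := by
          rw [← hLA]
          gcongr
  have hbig : 7 * (32 * L) ≤ eS (s + 1) (SM M) * D := by
    refine le_trans ?_ hgeD
    have : 224 ≤ L ^ 2 := by nlinarith
    nlinarith
  have hDn3 : M ^ (4 * s + 3) = M * Dn := by rw [hDn]; ring
  have hn1' : n1 ≤ M ^ (4 * s + 3) := by
    have e1 : (n1 : ℝ) ≤ Dn := by
      rw [hDD]
      calc (n1 : ℝ) ≤ L := hln1
        _ ≤ L ^ 3 := by nlinarith [sq_nonneg L]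
        _ ≤ L ^ A0 * L ^ 3 := le_mul_of_one_le_left (by positivity) hLA0
        _ ≤ D := by rw [← hLA]; exact hD2
    have e2 : n1 ≤ Dn := by exact_mod_cast e1
    rw [hDn3]
    nlinarith
  obtain ⟨x3, lg, f1, f2, f3, f4, f5, f6⟩ := id pf
  have hx0 : (0 : ℝ) < x := by
    have : 0 < x := by omega
    exact_mod_cast this
  have hDn0 : 0 < Dn := by rw [hDn]; positivity
  have hDx : D ≤ (x : ℝ) ^ (1 / 20 : ℝ) := by
    refine le_trans ?_ hMs
    rw [hD]
    exact pow_le_pow_right₀ (by linarith) (by omega)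
  set Y : ℕ := x / Dn with hY
  have hYD : Y * Dn ≤ x := Nat.div_mul_le_self x Dn
  have hYD2 : x < (Y + 1) * Dn := by
    have e1 := Nat.div_add_mod x Dn
    have e2 := Nat.mod_lt x hDn0
    have e3 : Dn * (x / Dn) = Y * Dn := by rw [hY]; ring
    have e4 : (Y + 1) * Dn = Y * Dn + Dn := by ring
    omega
  have hYr : (x : ℝ) ^ (19 / 20 : ℝ) ≤ (Y : ℝ) + 1 := by
    have e1 : (x : ℝ) ≤ ((Y : ℝ) + 1) * D := by
      rw [← hDD]
      exact_mod_cast hYD2.le
    have e2 : (x : ℝ) = (x : ℝ) ^ (19 / 20 : ℝ) * (x : ℝ) ^ (1 / 20 : ℝ) := by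
      rw [← Real.rpow_add hx0]; norm_num
    have e3 : (x : ℝ) ^ (19 / 20 : ℝ) * (x : ℝ) ^ (1 / 20 : ℝ) ≤
        ((Y : ℝ) + 1) * (x : ℝ) ^ (1 / 20 : ℝ) := by
      rw [← e2]
      exact e1.trans (by gcongr)
    exact le_of_mul_le_mul_right e3 (by positivity)
  have hYbig : 99 * (x : ℝ) ^ (9 / 10 : ℝ) ≤ Y := by linarith
  have hY1 : 1 ≤ Y := by
    have : (1 : ℝ) ≤ Y := by linarith
    exact_mod_cast this
  have hYy0 : y0 ≤ Y := by
    have : (y0 : ℝ) ≤ Y := by linarith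
    exact_mod_cast this
  have hYr0 : (0 : ℝ) < Y := by exact_mod_cast hY1
  have hDY : D ≤ (x : ℝ) / Y := by
    rw [le_div_iff₀ hYr0, ← hDD, mul_comm]
    exact_mod_cast hYD
  have hYK : K * (Real.log L ^ 2 / Real.log (Real.log L)) ≤ Real.log ((x : ℝ) / Y) := by
    calc _ ≤ (4 * (s : ℝ) + 2) * Real.log M := hKs
      _ = Real.log D := hlogD.symm
      _ ≤ Real.log (x / Y) := Real.log_le_log hD0 hDY
  -- the lower bound
  have hone : ∀ q ∈ (Ioc (Y / 3) Y).filter Nat.Prime,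
      eS (s + 1) (SM M) * D / (32 * L) ≤ E x q := by
    intro q hq
    rw [mem_filter, mem_Ioc] at hq
    obtain ⟨⟨hq1, hq2⟩, hqp⟩ := hq
    have h3q : Y + 1 ≤ 3 * q := by omega
    have h3qr : (Y : ℝ) + 1 ≤ 3 * q := by exact_mod_cast h3q
    obtain ⟨b, hb1, hb2, hb3⟩ := one_mod ha hn1 x (fun m y q b h1 h2 h3 h4 => by
      have := hmx m y q b h1 h2 h3 h4
      exact_mod_cast this) M s σ hM12 hσ0 hσ1 hMx hMs hSne hprod he1 he2 hfin hs2 hn1' hgepos hbig
      pf q hqp (by linarith) (by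
        have e1 : x < q * (3 * Dn) := by
          calc x < (Y + 1) * Dn := hYD2
            _ ≤ 3 * q * Dn := Nat.mul_le_mul_right _ h3q
            _ = q * (3 * Dn) := by ring
        have e2 := Nat.div_lt_of_lt_mul e1
        rw [hDn3]
        nlinarith) (by
        rw [← hDn, Nat.le_div_iff_mul_le hqp.pos]
        calc Dn * q ≤ Dn * Y := Nat.mul_le_mul_left _ hq2
          _ = Y * Dn := mul_comm _ _
          _ ≤ x := hYD)
    exact hb3.trans (hE x q b hb1 hb2)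
  have e1 : L ^ (-(A0 + 3)) = L ^ (-A0) / L ^ 3 := by
    rw [Real.rpow_neg hL0.le, Real.rpow_neg hL0.le, hLA]
    field_simp
  refine ⟨Y, hY1, hYK, ?_, ?_⟩
  · intro q hqp hq1 hq2
    refine le_trans ?_ (hone q (by rw [mem_filter, mem_Ioc]; exact ⟨⟨hq1, hq2⟩, hqp⟩))
    have hq0 : (0 : ℝ) < q := by exact_mod_cast hqp.pos
    have h3q : Y + 1 ≤ 3 * q := by omega
    have e2 : x < q * (3 * Dn) := by
      calc x < (Y + 1) * Dn := hYD2
        _ ≤ 3 * q * Dn := Nat.mul_le_mul_right _ h3q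
        _ = q * (3 * Dn) := by ring
    have e3 : (x : ℝ) / q ≤ 3 * D := by
      rw [div_le_iff₀ hq0, ← hDD]
      have : (x : ℝ) ≤ q * (3 * Dn) := by exact_mod_cast e2.le
      linarith
    rw [e1]
    calc (x : ℝ) / q * (L ^ (-A0) / L ^ 3) ≤ (3 * D) * (eS (s + 1) (SM M) / L ^ 3) := by gcongr
      _ ≤ eS (s + 1) (SM M) * D / (32 * L) := by
        rw [← mul_div_assoc, div_le_div_iff₀ (by positivity) (by positivity)]
        have e5 : 96 * L ≤ L ^ 3 := by nlinarith [sq_nonneg (L - 640)]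
        calc 3 * D * eS (s + 1) (SM M) * (32 * L) = eS (s + 1) (SM M) * D * (96 * L) := by ring
          _ ≤ eS (s + 1) (SM M) * D * L ^ 3 := by gcongr
  have hlY : Real.log Y ≤ L := by
    apply Real.log_le_log hYr0
    have : Y ≤ x := Nat.div_le_self _ _
    exact_mod_cast this
  have hlY0 : 0 < Real.log Y := Real.log_pos (by linarith)
  have hcard := (hy0 Y hYy0).1
  have hsub : (Ioc (Y / 3) Y).filter Nat.Prime ⊆ Icc 1 Y := by
    intro q hq
    rw [mem_filter, mem_Ioc] at hq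
    rw [mem_Icc]
    exact ⟨hq.2.one_le, hq.1.2⟩
  have hYDr : (x : ℝ) / 2 ≤ Y * D := by
    have e1 : (x : ℝ) ≤ ((Y : ℝ) + 1) * D := by
      rw [← hDD]
      exact_mod_cast hYD2.le
    have e2 : (1 : ℝ) ≤ Y := by exact_mod_cast hY1
    nlinarith
  calc (x : ℝ) * L ^ (-(A0 + 3)) ≤ (Y : ℝ) / (10 * Real.log Y) *
        (eS (s + 1) (SM M) * D / (32 * L)) := by
        have e2 : (Y : ℝ) / (10 * L) * (L ^ (-A0) * D / (32 * L)) ≤
            (Y : ℝ) / (10 * Real.log Y) * (eS (s + 1) (SM M) * D / (32 * L)) := by gcongr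
        refine le_trans ?_ e2
        have e3 : (Y : ℝ) / (10 * L) * (L ^ (-A0) * D / (32 * L)) =
            (Y * D) * L ^ (-A0) * L / (320 * L ^ 3) := by
          field_simp
          ring
        rw [e1, e3, ← mul_div_assoc, div_le_div_iff₀ (by positivity) (by positivity)]
        have e4 : 0 < L ^ (-A0) := by positivity
        have e5 : (x : ℝ) * 320 ≤ Y * D * L := by nlinarith
        calc (x : ℝ) * L ^ (-A0) * (320 * L ^ 3) = (x * 320) * (L ^ (-A0) * L ^ 3) := by ring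
          _ ≤ (Y * D * L) * (L ^ (-A0) * L ^ 3) := by gcongr
          _ = _ := by ring
    _ ≤ (((Ioc (Y / 3) Y).filter Nat.Prime).card : ℝ) * (eS (s + 1) (SM M) * D / (32 * L)) := by
        gcongr
    _ = ∑ q ∈ (Ioc (Y / 3) Y).filter Nat.Prime, eS (s + 1) (SM M) * D / (32 * L) := by
        rw [sum_const, nsmul_eq_mul]
    _ ≤ ∑ q ∈ (Ioc (Y / 3) Y).filter Nat.Prime, E x q := sum_le_sum hone
    _ ≤ ∑ q ∈ Icc 1 Y, E x q := sum_le_sum_of_subset_of_nonneg hsub fun q _ _ => hE0 x q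

end Pool.Agent.H532.EH
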