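import Mathlib
import Pool.Agent.H532.EH.Neg
import Pool.Agent.H532.EH.AvgLower2

/-!
Every prime modulus beyond the threshold is irregular.
-/

namespace Pool.Agent.H532.EH

open Finset Filter
open Pool.Agent.H532.RM (RB)
open Pool.Agent.H532.SR (Red psiR)

/-- more numerical facts -/
structure PF2 (x : ℕ) : Prop extends PF x where
  f7 : 5 * (x : ℝ) ^ (51 / 100 : ℝ) * Real.log x ≤ (x : ℝ) ^ (9 / 10 : ℝ)
  f8 : 18 * (x : ℝ) ^ (7 / 10 : ℝ) * Real.log x ≤ (x : ℝ) ^ (9 / 10 : ℝ)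

lemma log_dom {a b C : ℝ} (hab : a < b) (hC : 0 ≤ C) :
    ∀ᶠ x : ℕ in atTop, C * (x : ℝ) ^ a * Real.log x ≤ (x : ℝ) ^ b := by
  have h1 := (isLittleO_log_rpow_atTop (r := (b - a) / 2) (by linarith)).def
      (show (0 : ℝ) < 1 by norm_num)
  have h2 := (tendsto_natCast_atTop_atTop (R := ℝ)).eventually h1
  filter_upwards [h2, pow_dom (a := (a + b) / 2) (b := b) (C := C) (by linarith),
    eventually_ge_atTop 1] with x h3 h4 h5
  have hx : (0 : ℝ) < x := by exact_mod_cast h5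
  have h6 : 0 < (x : ℝ) ^ ((b - a) / 2) := by positivity
  rw [Real.norm_of_nonneg h6.le, one_mul] at h3
  have h7 := (Real.le_norm_self (Real.log (x : ℝ))).trans h3
  refine le_trans ?_ h4
  have h8 : (x : ℝ) ^ ((a + b) / 2) = (x : ℝ) ^ a * (x : ℝ) ^ ((b - a) / 2) := by
    rw [← Real.rpow_add hx]
    congr 1
    ring
  rw [h8, ← mul_assoc]
  gcongr

lemma pf2_ev : ∀ᶠ x : ℕ in atTop, PF2 x := by
  filter_upwards [pf_ev, log_dom (a := 51 / 100) (b := 9 / 10) (C := 5) (by norm_num) (by norm_num),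
    log_dom (a := 7 / 10) (b := 9 / 10) (C := 18) (by norm_num) (by norm_num)] with x h1 h2 h3
  exact { toPF := h1, f7 := h2, f8 := h3 }

lemma Er_le {x : ℕ} (x3 : 3 ≤ x) :
    2 * ((x : ℝ) ^ (1 / 100 : ℝ) * Real.sqrt (1 + x)) ≤ 4 * (x : ℝ) ^ (51 / 100 : ℝ) := by
  have hx0 : (0 : ℝ) < x := by
    have : 0 < x := by omega
    exact_mod_cast this
  have e1 : Real.sqrt (1 + x) ≤ 2 * (x : ℝ) ^ (1 / 2 : ℝ) := by
    rw [← Real.sqrt_eq_rpow]
    apply Real.sqrt_le_iff.2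
    refine ⟨by positivity, ?_⟩
    rw [mul_pow, Real.sq_sqrt hx0.le]
    have : (3 : ℝ) ≤ x := by exact_mod_cast x3
    linarith
  have e2 : (x : ℝ) ^ (51 / 100 : ℝ) = (x : ℝ) ^ (1 / 100 : ℝ) * (x : ℝ) ^ (1 / 2 : ℝ) := by
    rw [← Real.rpow_add hx0]; norm_num
  rw [e2]
  calc 2 * ((x : ℝ) ^ (1 / 100 : ℝ) * Real.sqrt (1 + x)) ≤
      2 * ((x : ℝ) ^ (1 / 100 : ℝ) * (2 * (x : ℝ) ^ (1 / 2 : ℝ))) := by gcongr
    _ = _ := by ring

open Classical in
/-- the law in progressions, in terms of counts -/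
lemma law_cnt {R : Set ℕ} {a : ℕ → ℕ} {x : ℕ} (x3 : 3 ≤ x)
    (hm : ∀ m y q b : ℕ, m + y ≤ 2 * x → 0 < q → q ≤ 2 * x → Red a q b →
      |psiR R m y q b - y / Nat.totient q| ≤ (x : ℝ) ^ (1 / 100 : ℝ) * Real.sqrt (1 + y / q))
    (m y q b : ℕ) (h2 : 2 ≤ m) (hy : y ≤ x) (hmy : m + y ≤ 2 * x) (hq : 0 < q) (hq2 : q ≤ 2 * x)
    (hr : Red a q b) :
    |(((Ioc m (m + y)).filter (fun n => n ≡ b [MOD q] ∧ n ∈ R)).card : ℝ) -
      (∑ n ∈ Ioc m (m + y), 1 / Real.log n) / Nat.totient q| ≤ 4 * (x : ℝ) ^ (51 / 100 : ℝ) := by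
  refine le_trans ?_ (Er_le x3)
  refine cnt_of_psi R m y q b _ h2 hq fun y' hy' => ?_
  refine (hm m y' q b (by omega) hq hq2 hr).trans ?_
  have e6 : (y' : ℝ) / q ≤ x := by
    have e7 : (y' : ℝ) ≤ x := by exact_mod_cast hy'.trans hy
    have e8 : (1 : ℝ) ≤ q := by exact_mod_cast hq
    calc (y' : ℝ) / q ≤ y' := div_le_self (Nat.cast_nonneg _) e8
      _ ≤ x := e7
  gcongr

lemma red_one (a : ℕ → ℕ) (b : ℕ) : Red a 1 b :=
  fun _ hp hp1 => absurd (Nat.dvd_one.1 hp1) hp.one_lt.ne'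

lemma sum_inv_log_le (m y : ℕ) (L : ℝ) (hL : 0 < L) (h : ∀ n, m < n → L ≤ Real.log n) :
    ∑ n ∈ Ioc m (m + y), 1 / Real.log n ≤ y / L := by
  have h1 : ∀ n ∈ Ioc m (m + y), 1 / Real.log n ≤ 1 / L := fun n hn =>
    one_div_le_one_div_of_le hL (h n (mem_Ioc.1 hn).1)
  have h2 := sum_le_card_nsmul _ _ _ h1
  rw [Nat.card_Ioc, nsmul_eq_mul] at h2
  simp only [add_tsub_cancel_left] at h2
  rw [mul_one_div] at h2
  exact h2

open Classical in
lemma piR_split (R : Set ℕ) (m y : ℕ) :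
    piR R (m + y) 1 0 = piR R m 1 0 +
      (((Ioc m (m + y)).filter (fun n => n ≡ 0 [MOD 1] ∧ n ∈ R)).card : ℝ) := by
  rw [piR_eq, piR_eq, ← Nat.cast_add]
  congr 1
  rw [← card_union_of_disjoint]
  · congr 1
    ext n
    simp only [mem_filter, mem_union, mem_Icc, mem_Ioc]
    constructor
    · rintro ⟨h1, h2⟩
      rcases Nat.lt_or_ge m n with h | h
      · exact Or.inr ⟨⟨h, h1.2⟩, h2⟩
      · exact Or.inl ⟨⟨h1.1, h⟩, h2⟩
    · rintro (⟨h1, h2⟩ | ⟨h1, h2⟩)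
      · exact ⟨⟨h1.1, by omega⟩, h2⟩
      · exact ⟨⟨by omega, h1.2⟩, h2⟩
  · rw [disjoint_left]
    intro n h1 h2
    simp only [mem_filter, mem_Icc, mem_Ioc] at h1 h2
    omega

open Classical in
lemma piR_le_self (R : Set ℕ) (m : ℕ) : piR R m 1 0 ≤ m := by
  rw [piR_eq]
  have := card_filter_le (Icc 1 m) (fun n => n ≡ 0 [MOD 1] ∧ n ∈ R)
  rw [Nat.card_Icc] at this
  have h2 : m + 1 - 1 = m := by omega
  rw [h2] at this
  exact_mod_cast this

/-- an upper bound for the number of elements up to `w` -/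
lemma piR_up {R : Set ℕ} {a : ℕ → ℕ} {x : ℕ} (pf : PF2 x)
    (hm : ∀ m y q b : ℕ, m + y ≤ 2 * x → 0 < q → q ≤ 2 * x → Red a q b →
      |psiR R m y q b - y / Nat.totient q| ≤ (x : ℝ) ^ (1 / 100 : ℝ) * Real.sqrt (1 + y / q))
    (w : ℕ) (hw : w ≤ x) (hw2 : (x : ℝ) ^ (9 / 10 : ℝ) ≤ w) :
    piR R w 1 0 ≤ 3 * w / Real.log x := by
  have x3 := pf.x3
  have lg := pf.lg
  have hx0 : (0 : ℝ) < x := by
    have : 0 < x := by omega
    exact_mod_cast this
  set m := Nat.sqrt x with hm'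
  have hmx : m * m ≤ x := Nat.sqrt_le x
  have hxm : x < (m + 1) * (m + 1) := Nat.lt_succ_sqrt x
  have hmr : (m : ℝ) ≤ (x : ℝ) ^ (1 / 2 : ℝ) := by
    rw [← Real.sqrt_eq_rpow]
    exact Real.nat_sqrt_le_real_sqrt
  have h12 : (x : ℝ) ^ (1 / 2 : ℝ) ≤ (x : ℝ) ^ (51 / 100 : ℝ) := by
    apply Real.rpow_le_rpow_of_exponent_le
    · have : (3 : ℝ) ≤ x := by exact_mod_cast x3
      linarith
    · norm_num
  have hpos51 : 0 < (x : ℝ) ^ (51 / 100 : ℝ) := by positivity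
  have hmw : m ≤ w := by
    have : (m : ℝ) ≤ w := by
      have := pf.f2
      linarith
    exact_mod_cast this
  have hx100 : (100 : ℝ) ≤ x := by
    have h1 := pf.f6
    have h2 : (x : ℝ) ^ (9 / 10 : ℝ) ≤ (x : ℝ) ^ (1 : ℝ) := by
      apply Real.rpow_le_rpow_of_exponent_le
      · have : (3 : ℝ) ≤ x := by exact_mod_cast x3
        linarith
      · norm_num
    rw [Real.rpow_one] at h2
    linarith
  have hx100' : 100 ≤ x := by exact_mod_cast hx100
  have hm2 : 2 ≤ m := by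
    by_contra hcon
    push Not at hcon
    have : m + 1 ≤ 2 := by omega
    nlinarith
  obtain ⟨y, rfl⟩ := Nat.exists_eq_add_of_le hmw
  rw [piR_split]
  have h1 := piR_le_self R m
  have h2 := law_cnt x3 hm m y 1 0 hm2 (by omega) (by omega) one_pos (by omega) (red_one a 0)
  rw [Nat.totient_one, Nat.cast_one, div_one] at h2
  have h3 := sum_inv_log_le m y (Real.log x / 2) (by linarith) (fun n hn => by
    have h4 : (x : ℝ) ≤ (n : ℝ) ^ 2 := by
      have : x ≤ n * n := by nlinarith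
      have h5 : (x : ℝ) ≤ (n : ℝ) * n := by exact_mod_cast this
      rw [sq]; exact h5
    have h5 := Real.log_le_log hx0 h4
    rw [Real.log_pow] at h5
    push_cast at h5
    linarith)
  have h4 := (abs_le.1 h2).2
  have h5 : (y : ℝ) / (Real.log x / 2) = 2 * y / Real.log x := by field_simp
  rw [h5] at h3
  have h6 : 5 * (x : ℝ) ^ (51 / 100 : ℝ) ≤ ((m + y : ℕ) : ℝ) / Real.log x := by
    rw [le_div_iff₀ (by linarith)]
    exact pf.f7.trans hw2
  have h7 : 2 * (y : ℝ) / Real.log x ≤ 2 * ((m + y : ℕ) : ℝ) / Real.log x := by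
    push_cast
    have : (0 : ℝ) ≤ m := Nat.cast_nonneg _
    have h8 : 0 < Real.log x := by linarith
    gcongr
    linarith
  have h8 : 3 * ((m + y : ℕ) : ℝ) / Real.log x = 2 * ((m + y : ℕ) : ℝ) / Real.log x +
      ((m + y : ℕ) : ℝ) / Real.log x := by ring
  rw [h8]
  linarith

/-- a lower bound for the number of elements up to `x` -/
lemma piR_low {R : Set ℕ} {a : ℕ → ℕ} {x : ℕ} (pf : PF2 x) (hlx : 20 ≤ Real.log x)
    (hm : ∀ m y q b : ℕ, m + y ≤ 2 * x → 0 < q → q ≤ 2 * x → Red a q b →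
      |psiR R m y q b - y / Nat.totient q| ≤ (x : ℝ) ^ (1 / 100 : ℝ) * Real.sqrt (1 + y / q)) :
    x / (2 * Real.log x) ≤ piR R x 1 0 := by
  have x3 := pf.x3
  have hx0 : (0 : ℝ) < x := by
    have : 0 < x := by omega
    exact_mod_cast this
  obtain ⟨y, hy⟩ := Nat.exists_eq_add_of_le (show 2 ≤ x by omega)
  have h1 : piR R x 1 0 = piR R (2 + y) 1 0 := by rw [← hy]
  rw [h1, piR_split]
  have h2 := law_cnt x3 hm 2 y 1 0 le_rfl (by omega) (by omega) one_pos (by omega) (red_one a 0)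
  rw [Nat.totient_one, Nat.cast_one, div_one] at h2
  have h3 := (abs_le.1 h2).1
  have h4 := piR_nonneg R 2 1 0
  have h5 : (y : ℝ) / Real.log x ≤ ∑ n ∈ Ioc 2 (2 + y), 1 / Real.log (n : ℝ) := by
    have h6 : ∀ n ∈ Ioc 2 (2 + y), 1 / Real.log x ≤ 1 / Real.log (n : ℝ) := by
      intro n hn
      obtain ⟨h7, h8⟩ := mem_Ioc.1 hn
      apply one_div_le_one_div_of_le
      · apply Real.log_pos
        have : (2 : ℝ) < n := by exact_mod_cast h7
        linarith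
      · apply Real.log_le_log
        · have : (0 : ℕ) < n := by omega
          exact_mod_cast this
        · have : n ≤ x := by omega
          exact_mod_cast this
    have h7 := card_nsmul_le_sum _ _ _ h6
    rw [Nat.card_Ioc, nsmul_eq_mul, mul_one_div] at h7
    simpa using h7
  have h6 : (x : ℝ) = 2 + y := by exact_mod_cast hy
  have h7 : 5 * (x : ℝ) ^ (51 / 100 : ℝ) * Real.log x ≤ x / 20 := by
    have h8 := pf.f4
    have h9 := pf.f7
    have h10 : (x : ℝ) ^ (19 / 20 : ℝ) ≤ x := by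
      have : (x : ℝ) ^ (19 / 20 : ℝ) ≤ (x : ℝ) ^ (1 : ℝ) := by
        apply Real.rpow_le_rpow_of_exponent_le
        · have : (3 : ℝ) ≤ x := by exact_mod_cast x3
          linarith
        · norm_num
      rwa [Real.rpow_one] at this
    linarith
  have hl0 : 0 < Real.log x := by linarith
  have h8 : 4 * (x : ℝ) ^ (51 / 100 : ℝ) ≤ (x / 20) / Real.log x := by
    rw [le_div_iff₀ hl0]
    have : 0 < (x : ℝ) ^ (51 / 100 : ℝ) := by positivity
    nlinarith
  have h9 : (x : ℝ) / (2 * Real.log x) ≤ (y : ℝ) / Real.log x - (x / 20) / Real.log x := by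
    rw [← sub_div, div_le_div_iff₀ (by positivity) hl0]
    have hxx : (100 : ℝ) ≤ x := by
      have h1 := pf.f6
      have h2 : (x : ℝ) ^ (9 / 10 : ℝ) ≤ (x : ℝ) ^ (1 : ℝ) := by
        apply Real.rpow_le_rpow_of_exponent_le
        · have : (3 : ℝ) ≤ x := by exact_mod_cast x3
          linarith
        · norm_num
      rw [Real.rpow_one] at h2
      linarith
    have : (x : ℝ) ≤ ((y : ℝ) - x / 20) * 2 := by linarith
    nlinarith
  linarith

open Classical in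
/-- one modulus, all ranges -/
theorem one_mod2 {z a : ℕ → ℕ} (ha : ∀ p, p.Prime → a p < p) {n1 : ℕ}
    (hzn : ∀ n, n1 ≤ n → Real.sqrt n ≤ z n) (x : ℕ)
    (hm : ∀ m y q b : ℕ, m + y ≤ 2 * x → 0 < q → q ≤ 2 * x → Red a q b →
      |psiR (RB z a) m y q b - y / Nat.totient q| ≤ (x : ℝ) ^ (1 / 100 : ℝ) * Real.sqrt (1 + y / q))
    (M s : ℕ) (σ : ℝ) (hM : 12 ≤ M) (hσ0 : 0 < σ) (hσ1 : σ ≤ 1)
    (hMx : 10 * (M : ℝ) ^ 4 ≤ Real.log x) (hMs : (M : ℝ) ^ (4 * s + 3) ≤ (x : ℝ) ^ (1 / 20 : ℝ))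
    (hS1 : (SM M).Nonempty)
    (hprod : ∀ A ∈ (SM M).powersetCard (s + 1), M ^ (4 * s + 3) ≤ ∏ p ∈ A, p)
    (h1 : eS (s + 2) (SM M) ≤ eS (s + 1) (SM M) / 2)
    (h2 : ∑ j ∈ range (s + 1), ((SM M).card.choose j : ℝ) ≤
        (M : ℝ) ^ (4 * s + 1) * eS (s + 1) (SM M) / 4)
    (hfin : 4 / Real.log x ^ 2 * ((∏ p ∈ SM M, (1 + 1 / (p : ℝ) ^ σ)) /
        ∏ p ∈ SM M, (1 - 1 / (p : ℝ))) / σ * ((M : ℝ) ^ (4 * s + 1)) ^ σ ≤
        eS (s + 1) (SM M) * (M : ℝ) ^ (4 * s + 2) / (16 * Real.log x))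
    (hP8 : M ^ 8 ≤ ∏ p ∈ SM M, p) (hn1 : n1 ≤ ∏ p ∈ SM M, p) (hne : 0 < eS (s + 1) (SM M))
    (hv : 1 / 2 ≤ ∏ p ∈ SM M, (1 - 1 / (p : ℝ)))
    (hbig : 608 ≤ eS (s + 1) (SM M) * (M : ℝ) ^ (4 * s + 2))
    (pf : PF2 x) (q : ℕ) (hq : q.Prime) (hqx : (x : ℝ) ^ (9 / 10 : ℝ) ≤ q)
    (hqU : x / q ≤ M ^ (4 * s + 3)) (hqD : M ^ (4 * s + 2) ≤ x / q) :
    ∃ b < q, Red a q b ∧ eS (s + 1) (SM M) * (M : ℝ) ^ (4 * s + 2) / (32 * Real.log x) ≤
      |piR (RB z a) x q b - piR (RB z a) x 1 0 / Nat.totient q| := by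
  obtain ⟨⟨x3, lg, f1, f2, f3, f4, f5, f6⟩, f7, f8⟩ := id pf
  set S := SM M with hS
  set P := ∏ p ∈ S, p with hP
  have hx0 : (0 : ℝ) < x := by
    have : 0 < x := by omega
    exact_mod_cast this
  have hSp : ∀ p ∈ S, p.Prime := fun p hp => by
    rw [hS] at hp
    unfold SM at hp
    exact (mem_filter.1 hp).2
  have hSle : ∀ p ∈ S, p ≤ M ^ 4 := fun p hp => by
    rw [hS] at hp
    unfold SM at hp
    exact (mem_Ioc.1 (mem_filter.1 hp).1).2
  have hPr : (P : ℝ) ≤ (x : ℝ) ^ (7 / 50 : ℝ) := by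
    have := prod_SM_le (M := M) (x := x) (by omega) hMx
    simpa [hP] using this
  have hP0 : 0 < P := Finset.prod_pos fun p hp => (hSp p hp).pos
  have hqpos := hq.pos
  have hq0 : (0 : ℝ) < q := by exact_mod_cast hqpos
  have hz : ∀ n, P ≤ n → ∀ p ∈ S, p ≤ z n := by
    intro n hn p hp
    have e1 := hzn n (by omega)
    have e2 : ((M : ℝ) ^ 4) ≤ Real.sqrt n := by
      apply Real.le_sqrt_of_sq_le
      have e4 : ((M ^ 8 : ℕ) : ℝ) ≤ n := by
        have : M ^ 8 ≤ n := by omega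
        exact_mod_cast this
      calc ((M : ℝ) ^ 4) ^ 2 = ((M ^ 8 : ℕ) : ℝ) := by push_cast; ring
        _ ≤ (n : ℝ) := e4
    have e3 : (p : ℝ) ≤ (M : ℝ) ^ 4 := by exact_mod_cast hSle p hp
    have e4 : (p : ℝ) ≤ z n := by linarith
    exact_mod_cast e4
  have hMq : ((M ^ 4 : ℕ) : ℝ) < q := by
    push_cast
    have : 0 ≤ (M : ℝ) ^ 4 := by positivity
    linarith
  have hMq' : M ^ 4 < q := by exact_mod_cast hMq
  have hqS : q ∉ S := fun h => by
    have := hSle q h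
    omega
  have hPq : 4 * P ≤ q := by
    have : ((4 * P : ℕ) : ℝ) ≤ q := by
      push_cast
      linarith
    exact_mod_cast this
  have hM1 : 2 ≤ M ^ (4 * s + 2) := by
    calc 2 ≤ M := by omega
      _ = M ^ 1 := (pow_one M).symm
      _ ≤ M ^ (4 * s + 2) := Nat.pow_le_pow_right (by omega) (by omega)
  have hqx2 : 2 * q ≤ x := by
    have e1 : 2 ≤ x / q := hM1.trans hqD
    have e2 := (Nat.le_div_iff_mul_le hqpos).1 e1
    omega
  have hPx : P ≤ 2 * x := by omega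
  -- the class `β`
  obtain ⟨β, hβ⟩ : ∃ β : ℕ, ∀ p ∈ S, β ≡ a p [MOD p] := by
    have pp : Set.Pairwise (S : Set ℕ) (Function.onFun Nat.Coprime (fun p : ℕ => p)) := by
      intro p hp r hr hpr
      exact (Nat.coprime_primes (hSp p hp) (hSp r hr)).2 hpr
    exact ⟨_, (Nat.chineseRemainderOfFinset a (fun p => p) S (fun p hp => (hSp p hp).ne_zero)
      pp).2⟩
  have h8 : (100 : ℝ) ≤ q := by linarith
  have h8' : 100 ≤ q := by exact_mod_cast h8
  set L := Real.log (x : ℝ) with hL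
  have hlx0 : 0 < L := by linarith
  -- the law in the windows
  set Er : ℝ := 4 * (x : ℝ) ^ (51 / 100 : ℝ) with hEr
  have hE0 : 0 ≤ Er := by positivity
  have hErq : Er ≤ q / L := by
    rw [le_div_iff₀ hlx0]
    have : 0 ≤ (x : ℝ) ^ (51 / 100 : ℝ) * L := by positivity
    rw [hEr]
    nlinarith
  have hredt : ∀ t, (∀ p ∈ S, ¬ p ∣ t) → Red a P (β + q * t) := by
    intro t ht3 p hp hpP hcon
    have hpS : p ∈ S := by
      obtain ⟨r, hr, hpr⟩ := (hp.prime.dvd_finsetProd_iff _).1 hpP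
      rwa [(Nat.prime_dvd_prime_iff_eq hp (hSp r hr)).1 hpr]
    have e2 : β + q * t ≡ β + 0 [MOD p] := by
      rw [add_zero]
      exact hcon.trans (hβ p hpS).symm
    have e3 := Nat.ModEq.add_left_cancel' β e2
    have e4 : p ∣ q * t := (Nat.modEq_zero_iff_dvd).1 e3
    rcases hp.dvd_mul.1 e4 with h | h
    · have := (Nat.prime_dvd_prime_iff_eq hp hq).1 h
      exact hqS (this ▸ hpS)
    · exact ht3 p hpS h
  set U := x / q with hU
  have hU1 : 2 ≤ U := hM1.trans hqD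
  have hUx : U * q ≤ x := Nat.div_mul_le_self x q
  have hlawt : ∀ t : ℕ, 1 ≤ t → t ≤ U → (∀ p ∈ S, ¬ p ∣ t) →
      |(((Ioc (q * t - 1) (q * t - 1 + q)).filter
        (fun n => n ≡ β + q * t [MOD P] ∧ n ∈ RB z a)).card : ℝ) -
        Wt q t / Nat.totient P| ≤ Er := by
    intro t ht1 ht2 ht3
    have e1 : q * t ≤ x := by
      calc q * t ≤ q * U := Nat.mul_le_mul_left _ ht2
        _ = U * q := mul_comm _ _
        _ ≤ x := hUx
    have hqt : q ≤ q * t := Nat.le_mul_of_pos_right _ (by omega)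
    exact law_cnt x3 hm (q * t - 1) q P (β + q * t) (by omega) (by omega) (by omega) hP0 hPx
      (hredt t ht3)
  have hlaw : ∀ t : ℕ, 1 ≤ t → t < x / q → (∀ p ∈ S, ¬ p ∣ t) →
      |(((Ioc (q * t - 1) (q * t - 1 + q)).filter
        (fun n => n ≡ β + q * t [MOD P] ∧ n ∈ RB z a)).card : ℝ) -
        Wt q t / Nat.totient P| ≤ Er := fun t h1 h2 h3 => hlawt t h1 h2.le h3
  have hlogq : L / 2 ≤ Real.log q := by
    have e1 : Real.log ((x : ℝ) ^ (9 / 10 : ℝ)) ≤ Real.log q :=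
      Real.log_le_log (by positivity) hqx
    rw [Real.log_rpow hx0] at e1
    linarith
  have hlq0 : 0 < Real.log q := by linarith
  -- the last window
  have hWU : ∀ m, q ≤ m + 1 → ∑ n ∈ Ioc m (m + q), 1 / Real.log (n : ℝ) ≤ 2 * q / L := by
    intro m hmq
    refine (sum_inv_log_le m q (L / 2) (by positivity) (fun n hn => hlogq.trans ?_)).trans (le_of_eq
      (by field_simp))
    apply Real.log_le_log hq0
    have : q ≤ n := by omega
    exact_mod_cast this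
  have hqU1 : q ≤ U * q := Nat.le_mul_of_pos_left _ (by omega)
  have hUq : q * U = U * q := mul_comm _ _
  have hφP : (1 : ℝ) / Nat.totient P ≤ 2 / P := by
    rw [totP S hSp]
    have hPr0 : (0 : ℝ) < P := by exact_mod_cast hP0
    rw [div_le_div_iff₀ (by positivity) hPr0]
    nlinarith
  set G : ℝ := 2 * q / L * (2 / P) + Er with hG
  have hG0 : 0 ≤ G := by positivity
  have hGc : (∀ p ∈ S, ¬ p ∣ x / q) → (((Ioc (q * (x / q) - 1) (q * (x / q) - 1 + q)).filter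
        (fun n => n ≡ β + q * (x / q) [MOD ∏ p ∈ S, p] ∧ n ∈ RB z a)).card : ℝ) ≤ G := by
    intro h
    have e1 := (abs_le.1 (hlawt U (by omega) le_rfl h)).2
    have e2 : Wt q U / Nat.totient P ≤ 2 * q / L * (2 / P) := by
      rw [div_eq_mul_one_div]
      have e3 : Wt q U ≤ 2 * q / L := hWU (q * U - 1) (by omega)
      have e4 : 0 ≤ Wt q U := Wt_nonneg q U
      gcongr
    rw [hG]
    linarith
  -- all of `R`
  have hxU : x < U * q + q := by
    have e1 := Nat.div_add_mod x q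
    have e2 := Nat.mod_lt x hqpos
    have e3 : q * (x / q) = U * q := by rw [hU]; ring
    omega
  have hpi : |piR (RB z a) x 1 0 - ∑ t ∈ Ico 1 U, Wt q t| ≤ 8 * q / L := by
    rw [sum_Wt q U (by omega)]
    obtain ⟨r, hr⟩ := Nat.exists_eq_add_of_le (show q * U - 1 ≤ x by omega)
    have hrq : r ≤ q := by omega
    have e0 : piR (RB z a) x 1 0 = piR (RB z a) (q - 1 + (U * q - q)) 1 0 +
        (((Ioc (q * U - 1) (q * U - 1 + r)).filter
          (fun n => n ≡ 0 [MOD 1] ∧ n ∈ RB z a)).card : ℝ) := by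
      have e1 : q - 1 + (U * q - q) = q * U - 1 := by omega
      rw [e1, ← piR_split, ← hr]
    rw [e0, piR_split]
    have e1 := law_cnt x3 hm (q - 1) (U * q - q) 1 0 (by omega) (by omega) (by omega) one_pos
      (by omega) (red_one a 0)
    have e2 : q - 1 + (U * q - q) = q * U - 1 := by omega
    rw [e2, Nat.totient_one, Nat.cast_one, div_one] at e1
    rw [e2]
    have e3 : piR (RB z a) (q - 1) 1 0 ≤ 3 * q / L := by
      refine le_trans ?_ (piR_up pf hm q (by omega) hqx)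
      have h4 := piR_split (RB z a) (q - 1) 1
      have h5 : q - 1 + 1 = q := by omega
      rw [h5] at h4
      rw [h4]
      have : (0 : ℝ) ≤ (((Ioc (q - 1) q).filter
          (fun n => n ≡ 0 [MOD 1] ∧ n ∈ RB z a)).card : ℝ) := Nat.cast_nonneg _
      linarith
    have e4 := piR_nonneg (RB z a) (q - 1) 1 0
    have e5 := law_cnt x3 hm (q * U - 1) q 1 0 (by omega) (by omega) (by omega) one_pos
      (by omega) (red_one a 0)
    rw [Nat.totient_one, Nat.cast_one, div_one] at e5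
    have e6 := hWU (q * U - 1) (by omega)
    have e7 : (((Ioc (q * U - 1) (q * U - 1 + r)).filter
          (fun n => n ≡ 0 [MOD 1] ∧ n ∈ RB z a)).card : ℝ) ≤
        (((Ioc (q * U - 1) (q * U - 1 + q)).filter
          (fun n => n ≡ 0 [MOD 1] ∧ n ∈ RB z a)).card : ℝ) := by
      have : (Ioc (q * U - 1) (q * U - 1 + r)).filter (fun n => n ≡ 0 [MOD 1] ∧ n ∈ RB z a) ⊆
          (Ioc (q * U - 1) (q * U - 1 + q)).filter (fun n => n ≡ 0 [MOD 1] ∧ n ∈ RB z a) := by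
        apply filter_subset_filter
        intro n hn
        rw [mem_Ioc] at hn ⊢
        omega
      exact_mod_cast card_le_card this
    have e8 : (0 : ℝ) ≤ (((Ioc (q * U - 1) (q * U - 1 + r)).filter
          (fun n => n ≡ 0 [MOD 1] ∧ n ∈ RB z a)).card : ℝ) := Nat.cast_nonneg _
    have e9 : 8 * (q : ℝ) / L = 3 * q / L + 2 * q / L + q / L + q / L + q / L := by ring
    have e10 : 0 ≤ (q : ℝ) / L := by positivity
    rw [abs_le] at e1 e5 ⊢
    constructor <;> linarith [e1.1, e1.2, e5.1, e5.2]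
  obtain ⟨b, hb1, hb2, hb3⟩ := avg_lower2 z a ha x q hq S hSp hS1 hqS hPq hqx2 hz β hβ Er (8 * q / L)
    G hE0 hG0 hGc hlaw hpi
  refine ⟨b, hb1, hb2, le_trans ?_ hb3⟩
  -- the lower bound for the oscillating sum
  set ee := eS (s + 1) S with hee
  set D : ℝ := (M : ℝ) ^ (4 * s + 2) with hD
  have hMr : (12 : ℝ) ≤ M := by exact_mod_cast hM
  have hD0 : (4 : ℝ) ≤ D := by
    calc (4 : ℝ) ≤ (M : ℝ) ^ 1 := by rw [pow_one]; linarith
      _ ≤ D := pow_le_pow_right₀ (by linarith) (by omega)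
  have hUr : D ≤ (U : ℝ) := by
    rw [hD]; exact_mod_cast hqD
  have hdl := delta_lower x q S hSp s (M ^ (4 * s + 1)) σ hσ0 hσ1 (by omega)
    (Nat.one_le_iff_ne_zero.2 (pow_ne_zero _ (by omega)))
    (lt_of_lt_of_le (Nat.pow_lt_pow_right (by omega) (by omega)) hqD)
    (fun A hA => hqU.trans (hprod A hA)) h1 (by push_cast; exact h2)
  rw [← hU, ← hee] at hdl
  push_cast at hdl
  have hW0 : 0 ≤ (∏ p ∈ S, (1 + 1 / (p : ℝ) ^ σ)) / ∏ p ∈ S, (1 - 1 / (p : ℝ)) := by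
    apply div_nonneg
    · exact prod_nonneg fun p hp => by positivity
    · exact (DLow.v_pos hSp).le
  have t1 : q / Real.log q ^ 2 * ((∏ p ∈ S, (1 + 1 / (p : ℝ) ^ σ)) / ∏ p ∈ S, (1 - 1 / (p : ℝ))) / σ *
        ((M : ℝ) ^ (4 * s + 1)) ^ σ ≤ q * (ee * D / (16 * L)) := by
    calc _ ≤ q * (4 / L ^ 2) * ((∏ p ∈ S, (1 + 1 / (p : ℝ) ^ σ)) /
          ∏ p ∈ S, (1 - 1 / (p : ℝ))) / σ * ((M : ℝ) ^ (4 * s + 1)) ^ σ := by
          have : (q : ℝ) / Real.log q ^ 2 ≤ q * (4 / L ^ 2) := by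
            rw [div_eq_mul_one_div]
            have e2 : 1 / Real.log q ^ 2 ≤ 4 / L ^ 2 := by
              rw [div_le_div_iff₀ (by positivity) (by positivity)]
              nlinarith
            gcongr
          gcongr
      _ = q * (4 / L ^ 2 * ((∏ p ∈ S, (1 + 1 / (p : ℝ) ^ σ)) /
          ∏ p ∈ S, (1 - 1 / (p : ℝ))) / σ * ((M : ℝ) ^ (4 * s + 1)) ^ σ) := by ring
      _ ≤ _ := by gcongr
  have t2 : q * (3 * (ee * D) / (16 * L)) ≤ q / L * (ee / 4 * ((U : ℝ) - 1)) := by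
    have e1 : 3 / 4 * D ≤ (U : ℝ) - 1 := by linarith
    calc q * (3 * (ee * D) / (16 * L)) = q / L * (ee / 4 * (3 / 4 * D)) := by
          field_simp
          ring
      _ ≤ _ := by gcongr
  have t3 : q * (ee * D / (8 * L)) ≤ |∑ t ∈ Ico 1 U, Wt q t * dl S t| := by
    have e1 : q * (3 * (ee * D) / (16 * L)) - q * (ee * D / (16 * L)) =
        q * (ee * D / (8 * L)) := by
      field_simp
      ring
    linarith
  -- the error term
  have t4 : (P : ℝ) * ((U : ℝ) * Er + 8 * U + 6) ≤ q / L := by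
    have e1 : (U : ℝ) ≤ (x : ℝ) ^ (1 / 20 : ℝ) := by
      refine le_trans ?_ hMs
      exact_mod_cast hqU
    have e2 : (1 : ℝ) ≤ (x : ℝ) ^ (51 / 100 : ℝ) := Real.one_le_rpow (by
      have : (3 : ℝ) ≤ x := by exact_mod_cast x3
      linarith) (by norm_num)
    have e3 : (1 : ℝ) ≤ (x : ℝ) ^ (1 / 20 : ℝ) := Real.one_le_rpow (by
      have : (3 : ℝ) ≤ x := by exact_mod_cast x3
      linarith) (by norm_num)
    set u := (x : ℝ) ^ (1 / 20 : ℝ) with hu
    set v := (x : ℝ) ^ (51 / 100 : ℝ) with hv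
    rw [le_div_iff₀ hlx0]
    calc (P : ℝ) * ((U : ℝ) * Er + 8 * U + 6) * L ≤
        (x : ℝ) ^ (7 / 50 : ℝ) * (u * (4 * v) + 8 * u + 6) * L := by gcongr
      _ ≤ (x : ℝ) ^ (7 / 50 : ℝ) * (18 * (u * v)) * L := by
          have : 1 ≤ u * v := one_le_mul_of_one_le_of_one_le e3 e2
          have e4 : u ≤ u * v := le_mul_of_one_le_right (by linarith) e2
          gcongr
          linarith
      _ = 18 * (x : ℝ) ^ (7 / 10 : ℝ) * L := by
          rw [hu, hv]
          have : (x : ℝ) ^ (7 / 10 : ℝ) = (x : ℝ) ^ (7 / 50 : ℝ) *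
              ((x : ℝ) ^ (1 / 20 : ℝ) * (x : ℝ) ^ (51 / 100 : ℝ)) := by
            rw [← Real.rpow_add hx0, ← Real.rpow_add hx0]
            norm_num
          rw [this]
          ring
      _ ≤ q := by linarith
  have t5 : (P : ℝ) * G ≤ 5 * q / L := by
    have hPr0 : (0 : ℝ) < P := by exact_mod_cast hP0
    have e1 : (P : ℝ) * G = 4 * q / L + P * Er := by
      rw [hG]
      field_simp
      ring
    have e2 : (P : ℝ) * Er ≤ (P : ℝ) * ((U : ℝ) * Er + 8 * U + 6) := by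
      have e3 : (1 : ℝ) ≤ U := by linarith
      have e4 : Er ≤ (U : ℝ) * Er := le_mul_of_one_le_left hE0 e3
      gcongr
      linarith
    have e3 : 5 * (q : ℝ) / L = 4 * q / L + q / L := by ring
    linarith
  rw [le_div_iff₀ (by positivity)]
  have t6 : ee * D / (32 * L) * (2 * q) = q * (ee * D / (16 * L)) := by
    field_simp
    ring
  have t7 : q * (ee * D / (8 * L)) = q * (ee * D / (16 * L)) + q * (ee * D / (16 * L)) := by
    field_simp
    ring
  have t8 : (38 : ℝ) * (q / L) ≤ q * (ee * D / (16 * L)) := by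
    have e1 : 38 * ((q : ℝ) / L) = q * (608 / (16 * L)) := by
      field_simp
      norm_num
    rw [e1]
    gcongr
  have t9 : 4 * (8 * (q : ℝ) / L) = 32 * (q / L) := by ring
  have t10 : 5 * (q : ℝ) / L = 5 * (q / L) := by ring
  rw [t6]
  linarith

end Pool.Agent.H532.EH
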