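import Mathlib
import Pool.Agent.H532.EH.Numeric

/-!
The choice of the parameters for every modulus.
-/

namespace Pool.Agent.H532.EH

open Finset Filter Nmr

lemma pow_succ_bound {M k : ℕ} (hM : 3 ≤ M) (hk : k ≤ M) : (M + 1) ^ k ≤ M ^ (k + 1) := by
  have hM0 : (0 : ℝ) < M := by
    have : 0 < M := by omega
    exact_mod_cast this
  have h1 : ((M : ℝ) + 1) ^ k ≤ (M : ℝ) ^ (k + 1) := by
    have h2 : (M : ℝ) + 1 ≤ M * Real.exp (1 / M) := by
      have := Real.add_one_le_exp (1 / (M : ℝ))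
      have h3 : (M : ℝ) + 1 = M * (1 / M + 1) := by
        field_simp
        ring
      rw [h3]
      gcongr
    calc ((M : ℝ) + 1) ^ k ≤ (M * Real.exp (1 / M)) ^ k := by gcongr
      _ = (M : ℝ) ^ k * Real.exp (k * (1 / M)) := by rw [mul_pow, ← Real.exp_nat_mul]
      _ ≤ (M : ℝ) ^ k * Real.exp 1 := by
          gcongr
          rw [mul_one_div, div_le_one hM0]
          exact_mod_cast hk
      _ ≤ (M : ℝ) ^ k * M := by
          gcongr
          have := Real.exp_one_lt_three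
          have h3 : (3 : ℝ) ≤ M := by exact_mod_cast hM
          linarith
      _ = (M : ℝ) ^ (k + 1) := by ring
  exact_mod_cast h1

lemma prod_SM_big {M : ℕ} {m : ℝ} (hm : 7680 ≤ m) (hM : Real.exp m = M) (hc : CB M m) :
    M ^ 15 ≤ ∏ p ∈ SM M, p := by
  obtain ⟨h1, h2, h3⟩ := card_big (s := 3) hm hM hc (by norm_num; linarith)
  have h4 := piece_d (s := 3) hm hM (by norm_num; linarith)
  obtain ⟨A, hA1, hA2⟩ := exists_subset_card_eq (show 4 ≤ (SM M).card by omega)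
  refine (h4 A (mem_powersetCard.2 ⟨hA1, hA2⟩)).trans ?_
  exact Finset.prod_le_prod_of_subset_of_one_le' hA1 fun p hp _ => (mem_SM hp).1.one_le

lemma big_eS {M s : ℕ} {m : ℝ} (hm : 7680 ≤ m) (hM : Real.exp m = M) (hc : CB M m)
    (hs : 16 * ((s : ℝ) + 1) ≤ m) : 608 ≤ eS (s + 1) (SM M) * (M : ℝ) ^ (4 * s + 2) := by
  obtain ⟨h1, h2, h3⟩ := big_M hm hM
  have h4 := E_lower hm hM hc hs
  have hM0 : (0 : ℝ) < M := by linarith
  have hm0 : 0 < m := by linarith
  have hs0 : (0 : ℝ) ≤ s := Nat.cast_nonneg s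
  have h5 : 80 * m * ((s : ℝ) + 1) * (608 * (M : ℝ) ^ 2) ≤ (M : ℝ) ^ 4 := by
    have e1 : 80 * m * ((s : ℝ) + 1) ≤ 5 * m ^ 2 := by nlinarith
    have e2 : 3040 * m ^ 2 ≤ (M : ℝ) ^ 2 := by
      have e3 : 320 * m ≤ M := by
        have : m ≤ m ^ 3 := by
          have : 1 ≤ m := by linarith
          calc m = m ^ 1 := (pow_one m).symm
            _ ≤ m ^ 3 := pow_le_pow_right₀ this (by norm_num)
        linarith
      have e4 : (320 * m) ^ 2 ≤ (M : ℝ) ^ 2 := by gcongr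
      nlinarith
    calc 80 * m * ((s : ℝ) + 1) * (608 * (M : ℝ) ^ 2) ≤ 5 * m ^ 2 * (608 * (M : ℝ) ^ 2) := by gcongr
      _ = 3040 * m ^ 2 * (M : ℝ) ^ 2 := by ring
      _ ≤ (M : ℝ) ^ 2 * (M : ℝ) ^ 2 := by gcongr
      _ = (M : ℝ) ^ 4 := by ring
  have hd : 0 < 80 * m * ((s : ℝ) + 1) := by positivity
  have h6 : 608 * (M : ℝ) ^ 2 ≤ (M : ℝ) ^ 4 / (80 * m * ((s : ℝ) + 1)) := by
    rw [le_div_iff₀ hd]
    linarith
  have h7 : 1 ≤ (M : ℝ) ^ 4 / (80 * m * ((s : ℝ) + 1)) := by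
    refine le_trans ?_ h6
    nlinarith
  have h8 : (M : ℝ) ^ 4 / (80 * m * ((s : ℝ) + 1)) ≤
      ((M : ℝ) ^ 4 / (80 * m * ((s : ℝ) + 1))) ^ (s + 1) := le_self_pow₀ h7 (by omega)
  have h9 : ((M : ℝ) ^ 4 / (80 * m * ((s : ℝ) + 1))) ^ (s + 1) =
      (1 / (80 * m * ((s : ℝ) + 1))) ^ (s + 1) * ((M : ℝ) ^ (4 * s + 2) * (M : ℝ) ^ 2) := by
    rw [div_pow, div_pow, one_pow, ← pow_add, ← pow_mul]
    have : 4 * (s + 1) = 4 * s + 2 + 2 := by ring
    rw [this]
    ring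
  have h10 : 608 * (M : ℝ) ^ 2 ≤
      (eS (s + 1) (SM M) * (M : ℝ) ^ (4 * s + 2)) * (M : ℝ) ^ 2 := by
    calc 608 * (M : ℝ) ^ 2 ≤ (1 / (80 * m * ((s : ℝ) + 1))) ^ (s + 1) *
          ((M : ℝ) ^ (4 * s + 2) * (M : ℝ) ^ 2) := by linarith
      _ ≤ eS (s + 1) (SM M) * ((M : ℝ) ^ (4 * s + 2) * (M : ℝ) ^ 2) := by gcongr
      _ = _ := by ring
  exact le_of_mul_le_mul_right h10 (by positivity)

/-- the parameters for all scales -/
theorem numeric2 (K : ℝ) (hK : 0 < K) (n1 : ℕ) : ∃ A0 : ℝ, 0 < A0 ∧ ∀ᶠ x : ℕ in atTop,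
    ∀ U : ℕ, Real.log x ^ (1 / 3 : ℝ) ≤ U →
      Real.log U ≤ K * (Real.log (Real.log x) ^ 2 / Real.log (Real.log (Real.log x))) →
    ∃ (M s : ℕ) (σ : ℝ), 12 ≤ M ∧ 0 < σ ∧ σ ≤ 1 ∧ 10 * (M : ℝ) ^ 4 ≤ Real.log x ∧
      (M : ℝ) ^ (4 * s + 3) ≤ (x : ℝ) ^ (1 / 20 : ℝ) ∧ (SM M).Nonempty ∧
      (∀ A ∈ (SM M).powersetCard (s + 1), M ^ (4 * s + 3) ≤ ∏ p ∈ A, p) ∧
      eS (s + 2) (SM M) ≤ eS (s + 1) (SM M) / 2 ∧
      ∑ j ∈ range (s + 1), ((SM M).card.choose j : ℝ) ≤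
        (M : ℝ) ^ (4 * s + 1) * eS (s + 1) (SM M) / 4 ∧
      4 / Real.log x ^ 2 * ((∏ p ∈ SM M, (1 + 1 / (p : ℝ) ^ σ)) /
        ∏ p ∈ SM M, (1 - 1 / (p : ℝ))) / σ * ((M : ℝ) ^ (4 * s + 1)) ^ σ ≤
        eS (s + 1) (SM M) * (M : ℝ) ^ (4 * s + 2) / (16 * Real.log x) ∧
      M ^ 8 ≤ ∏ p ∈ SM M, p ∧ n1 ≤ ∏ p ∈ SM M, p ∧
      1 / 2 ≤ ∏ p ∈ SM M, (1 - 1 / (p : ℝ)) ∧
      608 ≤ eS (s + 1) (SM M) * (M : ℝ) ^ (4 * s + 2) ∧
      Real.log x ^ (-A0) ≤ eS (s + 1) (SM M) ∧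
      U ≤ M ^ (4 * s + 3) ∧ M ^ (4 * s + 2) ≤ U := by
  refine ⟨6 * (5 * K), by positivity, ?_⟩
  obtain ⟨y0, hy0⟩ := cheb
  have hlogx : Tendsto (fun x : ℕ => Real.log x) atTop atTop :=
    Real.tendsto_log_atTop.comp tendsto_natCast_atTop_atTop
  have hll : Tendsto (fun x : ℕ => Real.log (Real.log x)) atTop atTop :=
    Real.tendsto_log_atTop.comp hlogx
  have hlll : Tendsto (fun x : ℕ => Real.log (Real.log (Real.log x))) atTop atTop :=
    Real.tendsto_log_atTop.comp hll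
  have hlle : ∀ᶠ x : ℕ in atTop, Real.log (Real.log (Real.log x)) ≤
      K / 2 * Real.log (Real.log x) := by
    have h := Real.isLittleO_log_id_atTop.bound (show (0 : ℝ) < K / 2 by linarith)
    have h2 := hll.eventually h
    filter_upwards [h2, hll.eventually_ge_atTop 0] with x h3 h4
    rw [id, Real.norm_eq_abs, Real.norm_eq_abs, abs_of_nonneg h4] at h3
    exact (le_abs_self _).trans h3
  filter_upwards [hlogx.eventually_ge_atTop (10 ^ 100), hll.eventually_ge_atTop 84480,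
    hll.eventually_ge_atTop (11 * Real.log ((y0 : ℝ) + n1 + 1)), hlll.eventually_ge_atTop 1,
    hlll.eventually_ge_atTop (704 * K), hlle, eventually_gt_atTop 0] with
    x hx hm84 hmy hlm hlm2 hlm3 hx0 U hU1 hU2
  set L := Real.log (x : ℝ) with hL
  set ll := Real.log L with hlldef
  have hL0 : 0 < L := lt_of_lt_of_le (by positivity) hx
  have hL1 : 1 ≤ L := le_trans (by norm_num) hx
  set M0 : ℕ := ⌊(L / 10) ^ (1 / 4 : ℝ)⌋₊ with hM0def
  have hLexp : Real.exp ll = L := Real.exp_log hL0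
  have hy0' : 0 ≤ L / 10 := by positivity
  have h4th : ((L / 10) ^ (1 / 4 : ℝ)) ^ 4 = L / 10 := by
    rw [← Real.rpow_natCast, ← Real.rpow_mul hy0']
    norm_num
  have hM0le : (M0 : ℝ) ≤ (L / 10) ^ (1 / 4 : ℝ) := Nat.floor_le (by positivity)
  have hM0lt : (L / 10) ^ (1 / 4 : ℝ) < M0 + 1 := Nat.lt_floor_add_one _
  -- `M0 ≥ L ^ (1/5)`
  have hL5 : (10 : ℝ) ^ 5 ≤ L ^ (1 / 5 : ℝ) := by
    rw [Real.rpow_def_of_pos hL0, ← hlldef]
    have h1 := Real.quadratic_le_exp_of_nonneg (show 0 ≤ ll * (1 / 5) by linarith)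
    refine le_trans ?_ h1
    nlinarith
  have hLdom : 10 * L ^ (1 / 5 : ℝ) ≤ (L / 10) ^ (1 / 4 : ℝ) := by
    have h1 : (10 * L ^ (1 / 5 : ℝ)) ^ 4 ≤ L / 10 := by
      have h2 : (L ^ (1 / 5 : ℝ)) ^ 5 = L := by
        rw [← Real.rpow_natCast, ← Real.rpow_mul hL0.le]
        norm_num
      have h3 : 0 ≤ (L ^ (1 / 5 : ℝ)) ^ 4 := by positivity
      have h4 : (L ^ (1 / 5 : ℝ)) ^ 5 = (L ^ (1 / 5 : ℝ)) ^ 4 * L ^ (1 / 5 : ℝ) := by ring
      have h5 : (10 * L ^ (1 / 5 : ℝ)) ^ 4 = 10 ^ 4 * (L ^ (1 / 5 : ℝ)) ^ 4 := by ring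
      rw [h5]
      nlinarith
    have h2 : ((10 * L ^ (1 / 5 : ℝ)) ^ 4) ^ (1 / 4 : ℝ) = 10 * L ^ (1 / 5 : ℝ) := by
      rw [← Real.rpow_natCast, ← Real.rpow_mul (by positivity)]
      norm_num
    rw [← h2]
    exact Real.rpow_le_rpow (by positivity) h1 (by norm_num)
  have h15 : (1 : ℝ) ≤ L ^ (1 / 5 : ℝ) := Real.one_le_rpow hL1 (by norm_num)
  have hM0big : 2 * L ^ (1 / 5 : ℝ) ≤ M0 := by linarith
  have hM02 : 2 ≤ M0 := by
    have : (2 : ℝ) ≤ M0 := by linarith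
    exact_mod_cast this
  have hlogM0 : ll / 5 ≤ Real.log M0 := by
    have : Real.log (L ^ (1 / 5 : ℝ)) ≤ Real.log M0 := Real.log_le_log (by positivity) (by linarith)
    rw [Real.log_rpow hL0] at this
    linarith
  -- the parameter `s`
  have hex : ∃ s : ℕ, U ≤ M0 ^ (4 * s + 3) := by
    refine ⟨U, ?_⟩
    calc U ≤ 2 ^ U := Nat.lt_two_pow_self.le
      _ ≤ M0 ^ U := Nat.pow_le_pow_left hM02 _
      _ ≤ M0 ^ (4 * U + 3) := Nat.pow_le_pow_right (by omega) (by omega)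
  classical
  set s := Nat.find hex with hs
  have hs1 : U ≤ M0 ^ (4 * s + 3) := Nat.find_spec hex
  have hs2 : ∀ t < s, M0 ^ (4 * t + 3) < U := fun t ht => by
    have := Nat.find_min hex ht
    omega
  have hU0 : (0 : ℝ) < U := lt_of_lt_of_le (by positivity) hU1
  have hU0' : 0 < U := by exact_mod_cast hU0
  have hsK : (s : ℝ) + 1 ≤ 2 * K * ll / Real.log ll + 2 := by
    rcases Nat.eq_zero_or_pos s with h | h
    · rw [h]
      push_cast
      have : 0 ≤ 2 * K * ll / Real.log ll := by positivity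
      linarith
    · have e1 := hs2 (s - 1) (by omega)
      have e2 : 4 * (s - 1) + 3 = 4 * s - 1 := by omega
      rw [e2] at e1
      have e3 : Real.log (((M0 ^ (4 * s - 1) : ℕ)) : ℝ) ≤ Real.log U := by
        apply Real.log_le_log
        · have : 0 < M0 ^ (4 * s - 1) := by positivity
          exact_mod_cast this
        · exact_mod_cast e1.le
      push_cast at e3
      rw [Real.log_pow, Nat.cast_sub (by omega)] at e3
      push_cast at e3
      have hs0 : (1 : ℝ) ≤ s := by exact_mod_cast h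
      have e4 : (4 * (s : ℝ) - 1) * (ll / 5) ≤ K * (ll ^ 2 / Real.log ll) := by
        have : (4 * (s : ℝ) - 1) * (ll / 5) ≤ (4 * (s : ℝ) - 1) * Real.log M0 :=
          mul_le_mul_of_nonneg_left hlogM0 (by linarith)
        linarith
      have e5 : K * (ll ^ 2 / Real.log ll) = (5 * K * ll / Real.log ll) * (ll / 5) := by
        field_simp
      rw [e5] at e4
      have e6 := le_of_mul_le_mul_right e4 (by linarith)
      have e7 : 0 ≤ K * ll / Real.log ll := by positivity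
      have e8 : 5 * K * ll / Real.log ll = 5 * (K * ll / Real.log ll) := by ring
      have e9 : 2 * K * ll / Real.log ll = 2 * (K * ll / Real.log ll) := by ring
      rw [e8] at e6
      rw [e9]
      linarith
  -- the parameter `M`
  set M := Nat.findGreatest (fun M => M ^ (4 * s + 2) ≤ U) M0 with hMdef
  have hM1 : M ^ (4 * s + 2) ≤ U := by
    have := Nat.findGreatest_spec (P := fun M => M ^ (4 * s + 2) ≤ U) (Nat.zero_le M0) (by
      simp)
    exact this
  have hMM0 : M ≤ M0 := Nat.findGreatest_le _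
  have hM2 : M < M0 → U < (M + 1) ^ (4 * s + 2) := fun h => by
    have := Nat.findGreatest_is_greatest (P := fun M => M ^ (4 * s + 2) ≤ U)
      (k := M + 1) (n := M0) (by omega) (by omega)
    omega
  -- `M` is large
  have hMbig : L ^ (1 / 5 : ℝ) ≤ ((M : ℝ) + 1) ^ 2 := by
    have hMn : (0 : ℝ) ≤ M := Nat.cast_nonneg M
    rcases Nat.lt_or_ge M M0 with h | h
    · have e1 := hM2 h
      rcases Nat.eq_zero_or_pos s with h0 | h0
      · rw [h0] at e1
        have e2 : (U : ℝ) ≤ ((M : ℝ) + 1) ^ 2 := by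
          have : U ≤ (M + 1) ^ 2 := by simpa using e1.le
          exact_mod_cast this
        have e3 : L ^ (1 / 5 : ℝ) ≤ L ^ (1 / 3 : ℝ) :=
          Real.rpow_le_rpow_of_exponent_le hL1 (by norm_num)
        linarith
      · have e2 := hs2 (s - 1) (by omega)
        have e3 : 4 * (s - 1) + 3 = 4 * s - 1 := by omega
        rw [e3] at e2
        have e4 : M0 < (M + 1) ^ 2 := by
          by_contra hcon
          push Not at hcon
          have e5 : (M + 1) ^ (4 * s + 2) ≤ M0 ^ (4 * s - 1) := by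
            calc (M + 1) ^ (4 * s + 2) = ((M + 1) ^ 2) ^ (2 * s + 1) := by
                  rw [← pow_mul]; congr 1; ring
              _ ≤ M0 ^ (2 * s + 1) := Nat.pow_le_pow_left hcon _
              _ ≤ M0 ^ (4 * s - 1) := Nat.pow_le_pow_right (by omega) (by omega)
          omega
        have e5 : (M0 : ℝ) ≤ ((M : ℝ) + 1) ^ 2 := by exact_mod_cast e4.le
        linarith
    · have e1 : M = M0 := le_antisymm hMM0 h
      have e2 : (M : ℝ) = M0 := by rw [e1]
      nlinarith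
  have hMpos : 1 ≤ M := by
    by_contra hcon
    have e1 : M = 0 := by omega
    rw [e1] at hMbig
    push_cast at hMbig
    norm_num at hMbig hL5
    linarith
  set m := Real.log (M : ℝ) with hmdef
  have hm11 : ll / 11 ≤ m := by
    have hMr1 : (1 : ℝ) ≤ M := by exact_mod_cast hMpos
    have e1 : Real.log (L ^ (1 / 5 : ℝ)) ≤ Real.log (((M : ℝ) + 1) ^ 2) :=
      Real.log_le_log (by positivity) hMbig
    rw [Real.log_rpow hL0, Real.log_pow] at e1
    push_cast at e1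
    have e2 : Real.log ((M : ℝ) + 1) ≤ Real.log (2 * M) := Real.log_le_log (by positivity) (by
      linarith)
    rw [Real.log_mul (by norm_num) (by positivity)] at e2
    have e3 := Real.log_two_lt_d9
    linarith
  have hM0' : (0 : ℝ) < M := by exact_mod_cast hMpos
  have hM : Real.exp m = M := Real.exp_log hM0'
  have hm : 7680 ≤ m := by linarith
  have hm0 : 0 < m := by linarith
  have hy1 : 10 * (M : ℝ) ^ 4 ≤ L := by
    have h1 : (M : ℝ) ≤ (L / 10) ^ (1 / 4 : ℝ) := le_trans (by exact_mod_cast hMM0) hM0le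
    have := pow_le_pow_left₀ hM0'.le h1 4
    rw [h4th] at this
    linarith
  have h4m : 4 * m ≤ ll := by
    have h1 : Real.log ((M : ℝ) ^ 4) ≤ Real.log L := Real.log_le_log (by positivity) (by
      have : 0 < (M : ℝ) ^ 4 := by positivity
      linarith)
    rw [Real.log_pow] at h1
    push_cast at h1
    exact h1
  have hMy0 : (y0 : ℝ) + n1 + 1 ≤ M := by
    have h1 : Real.log ((y0 : ℝ) + n1 + 1) ≤ m := by linarith
    rw [← hM]
    rwa [Real.log_le_iff_le_exp (by positivity)] at h1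
  have hMy0' : y0 + n1 + 1 ≤ M := by exact_mod_cast hMy0
  obtain ⟨hb1, hb2, hb3⟩ := big_M hm hM
  have hcb : CB M m := by
    have h1 : y0 ≤ M ^ 4 := by
      calc y0 ≤ M := by omega
        _ = M ^ 1 := (pow_one M).symm
        _ ≤ M ^ 4 := Nat.pow_le_pow_right (by omega) (by norm_num)
    obtain ⟨h2, h3⟩ := hy0 (M ^ 4) h1
    have h4 : Real.log ((M ^ 4 : ℕ) : ℝ) = 4 * m := by
      push_cast
      rw [Real.log_pow]
      push_cast
      rfl
    rw [h4] at h2 h3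
    refine ⟨?_, ?_⟩
    · refine le_trans (le_of_eq ?_) h2
      push_cast
      congr 1
      ring
    · refine le_trans h3 (le_of_eq ?_)
      push_cast
      rfl
  have hlm0 : 0 < Real.log ll := by linarith
  have hs3 : 16 * ((s : ℝ) + 1) ≤ m := by
    have e1 : 2 * K * ll / Real.log ll ≤ ll / 352 := by
      rw [div_le_div_iff₀ hlm0 (by norm_num)]
      nlinarith
    linarith
  have hs4 : ((s : ℝ) + 1) * Real.log m ≤ 8 * (5 * K) * m := by
    have e1 : Real.log m ≤ Real.log ll := Real.log_le_log hm0 (by linarith)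
    have hs0 : (0 : ℝ) ≤ s := Nat.cast_nonneg s
    calc ((s : ℝ) + 1) * Real.log m ≤ ((s : ℝ) + 1) * Real.log ll := by gcongr
      _ ≤ (2 * K * ll / Real.log ll + 2) * Real.log ll := by gcongr
      _ = 2 * K * ll + 2 * Real.log ll := by field_simp
      _ ≤ 3 * K * ll := by linarith
      _ ≤ 8 * (5 * K) * m := by nlinarith
  have hs0 : (0 : ℝ) ≤ s := Nat.cast_nonneg s
  obtain ⟨w, hw⟩ : ∃ w : ℝ, Real.exp w = m * ((s : ℝ) + 1) :=
    ⟨Real.log (m * ((s : ℝ) + 1)), Real.exp_log (by positivity)⟩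
  obtain ⟨hσ0, hσ1, hg⟩ := piece_g (σ := 1 - w / (4 * m)) hm hM hcb hs3 hy1 hw rfl
  have hUM : U ≤ M ^ (4 * s + 3) := by
    rcases Nat.lt_or_ge M M0 with h | h
    · refine (hM2 h).le.trans ?_
      apply pow_succ_bound (by omega)
      have : (4 * (s : ℝ) + 2) ≤ M := by linarith
      exact_mod_cast this
    · have : M = M0 := le_antisymm hMM0 h
      rw [this]
      exact hs1
  have h15' := prod_SM_big hm hM hcb
  refine ⟨M, s, 1 - w / (4 * m), by omega, hσ0, hσ1, hy1, ?_, ?_, piece_d hm hM hs3,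
    piece_e hm hM hcb, piece_f hm hM hcb hs3, hg, ?_, ?_, ?_, big_eS hm hM hcb hs3, ?_, hUM, hM1⟩
  · have hx0' : (0 : ℝ) < x := by exact_mod_cast hx0
    rw [Real.rpow_def_of_pos hx0']
    exact piece_c hm hM hs3 hy1
  · obtain ⟨h1, h2, h3⟩ := card_big hm hM hcb hs3
    exact card_pos.1 (by omega)
  · exact (Nat.pow_le_pow_right (by omega) (by norm_num)).trans h15'
  · calc n1 ≤ M := by omega
      _ = M ^ 1 := (pow_one M).symm
      _ ≤ M ^ 15 := Nat.pow_le_pow_right (by omega) (by norm_num)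
      _ ≤ _ := h15'
  · have h1 := (prod_one_sub_ge (SM M) fun p hp => (mem_SM hp).1.one_le).1
    have h2 := e1_le hm hM hcb
    linarith
  · rw [Real.rpow_def_of_pos hL0]
    exact piece_h (by positivity) hm hM hcb hs3 h4m hs4

end Pool.Agent.H532.EH
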