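import Mathlib
import Pool.Agent.H532.EH.Neg2
import Pool.Agent.H532.EH.Num2

/-!
Every prime modulus beyond the threshold is irregular.
-/

namespace Pool.Agent.H532.EH

open Finset Filter
open Pool.Agent.H532.RM (RB)
open Pool.Agent.H532.SR (Red psiR)

lemma thr_small (K c : ℝ) (hc : 0 < c) : ∀ᶠ x : ℕ in atTop,
    K * (Real.log (Real.log x) ^ 2 / Real.log (Real.log (Real.log x))) ≤ c * Real.log x := by
  have hlog : Tendsto (fun x : ℕ => Real.log (x : ℝ)) atTop atTop :=
    Real.tendsto_log_atTop.comp tendsto_natCast_atTop_atTop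
  have hll : Tendsto (fun x : ℕ => Real.log (Real.log (x : ℝ))) atTop atTop :=
    Real.tendsto_log_atTop.comp hlog
  have hlll : Tendsto (fun x : ℕ => Real.log (Real.log (Real.log (x : ℝ)))) atTop atTop :=
    Real.tendsto_log_atTop.comp hll
  have h1 := (Real.isLittleO_pow_log_id_atTop (n := 2)).def (show 0 < c / (|K| + 1) by positivity)
  have h2 := hlog.eventually h1
  filter_upwards [h2, hll.eventually_ge_atTop 1, hlll.eventually_ge_atTop 1,
    hlog.eventually_ge_atTop 1] with x h3 h4 h5 h6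
  simp only [id] at h3
  rw [Real.norm_of_nonneg (by positivity), Real.norm_of_nonneg (by linarith)] at h3
  set l := Real.log (Real.log (x : ℝ)) with hl
  have h7 : l ^ 2 / Real.log l ≤ l ^ 2 := div_le_self (by positivity) h5
  have h8 : 0 ≤ l ^ 2 / Real.log l := by positivity
  calc K * (l ^ 2 / Real.log l) ≤ (|K| + 1) * (l ^ 2 / Real.log l) := by
        have := le_abs_self K
        gcongr
        linarith
    _ ≤ (|K| + 1) * (c / (|K| + 1) * Real.log x) := by gcongr; linarith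
    _ = c * Real.log x := by field_simp

theorem neg_all {z a : ℕ → ℕ} (ha : ∀ p, p.Prime → a p < p) (hz : Pool.Agent.H532.SR.Rt z)
    (hm : ∀ ε : ℝ, 0 < ε → ∀ᶠ X : ℕ in atTop, ∀ x y q b : ℕ, x + y ≤ 2 * X → 0 < q → q ≤ 2 * X →
      Red a q b → |psiR (RB z a) x y q b - y / Nat.totient q| ≤
        (X : ℝ) ^ ε * Real.sqrt (1 + y / q))
    (E : ℕ → ℕ → ℝ)
    (hE : ∀ x q b, b < q → Red a q b →
      |piR (RB z a) x q b - piR (RB z a) x 1 0 / Nat.totient q| ≤ E x q) (K : ℝ) (hK : 0 < K) :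
    ∃ A0 : ℝ, 0 < A0 ∧ ∀ᶠ x : ℕ in atTop, ∀ q : ℕ, q.Prime → q ≤ x →
      Real.log (x / q) ≤ K * (Real.log (Real.log x) ^ 2 / Real.log (Real.log (Real.log x))) →
      x / q * Real.log x ^ (-A0) ≤ E x q := by
  obtain ⟨n1, hn1⟩ := eventually_atTop.1 hz.lim.big
  obtain ⟨A1, hA1, hN⟩ := numeric2 K hK n1
  refine ⟨A1 + 3, by positivity, ?_⟩
  have hlog : Tendsto (fun x : ℕ => Real.log (x : ℝ)) atTop atTop :=
    Real.tendsto_log_atTop.comp tendsto_natCast_atTop_atTop
  filter_upwards [hN, hm (1 / 100) (by norm_num), pf2_ev, thr_small K (1 / 10) (by norm_num),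
    hlog.eventually_ge_atTop 640] with x hNx hmx pf hth hl640 q hq hqx hqK
  have hmx' : ∀ m y q b : ℕ, m + y ≤ 2 * x → 0 < q → q ≤ 2 * x → Red a q b →
      |psiR (RB z a) m y q b - y / Nat.totient q| ≤
        (x : ℝ) ^ (1 / 100 : ℝ) * Real.sqrt (1 + y / q) := fun m y q b h1 h2 h3 h4 => by
    have := hmx m y q b h1 h2 h3 h4
    exact_mod_cast this
  have x3 := pf.x3
  set L := Real.log (x : ℝ) with hL
  have hL0 : 0 < L := by linarith
  have hL1 : 1 ≤ L := by linarith
  have hx0 : (0 : ℝ) < x := by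
    have : 0 < x := by omega
    exact_mod_cast this
  have hq0 : (0 : ℝ) < q := by exact_mod_cast hq.pos
  have hq9 : (x : ℝ) ^ (9 / 10 : ℝ) ≤ q := by
    rw [← Real.log_le_log_iff (by positivity) hq0, Real.log_rpow hx0]
    rw [Real.log_div hx0.ne' hq0.ne'] at hqK
    linarith
  set U := x / q with hU
  have hU1 : 1 ≤ U := (Nat.le_div_iff_mul_le hq.pos).2 (by omega)
  have hU0 : (0 : ℝ) < U := by exact_mod_cast hU1
  have hUx : (U : ℝ) ≤ x / q := Nat.cast_div_le
  have hxU : x < (U + 1) * q := by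
    have e1 := Nat.div_add_mod x q
    have e2 := Nat.mod_lt x hq.pos
    have e3 : q * (x / q) = U * q := by rw [hU]; ring
    have e4 : (U + 1) * q = U * q + q := by ring
    omega
  have hxU2 : (x : ℝ) / q ≤ U + 1 := by
    rw [div_le_iff₀ hq0]
    exact_mod_cast hxU.le
  have hLA : L ^ (-(A1 + 3)) = L ^ (-A1) / L ^ 3 := by
    have h1 : L ^ (A1 + 3) = L ^ A1 * L ^ 3 := by
      rw [Real.rpow_add hL0]
      norm_num
    rw [Real.rpow_neg hL0.le, Real.rpow_neg hL0.le, h1]
    field_simp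
  rcases le_or_gt (L ^ (1 / 3 : ℝ)) (U : ℝ) with h3 | h3
  · -- long progressions
    have hlU : Real.log U ≤ K * (Real.log L ^ 2 / Real.log (Real.log L)) :=
      (Real.log_le_log hU0 hUx).trans hqK
    obtain ⟨M, s, σ, hM12, hσ0, hσ1, hMx, hMs, hSne, hprod, he1, he2, hfin, hP8, hPn, hv, hbig,
      hge, hUM, hMU⟩ := hNx U h3 hlU
    have hne : 0 < eS (s + 1) (SM M) := lt_of_lt_of_le (by positivity) hge
    obtain ⟨b, hb1, hb2, hb3⟩ := one_mod2 ha hn1 x hmx' M s σ hM12 hσ0 hσ1 hMx hMs hSne hprod he1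
      he2 hfin hP8 hPn hne hv hbig pf q hq hq9 hUM hMU
    refine le_trans ?_ (hb3.trans (hE x q b hb1 hb2))
    set D : ℝ := (M : ℝ) ^ (4 * s + 2) with hD
    have hMr : (12 : ℝ) ≤ M := by exact_mod_cast hM12
    have hM2 : 2 * (M : ℝ) ≤ L := by
      have : (M : ℝ) ≤ (M : ℝ) ^ 4 := le_self_pow₀ (by linarith) (by norm_num)
      linarith
    have hD0 : 0 < D := by positivity
    have hUD : (U : ℝ) ≤ M * D := by
      have : (U : ℝ) ≤ (M : ℝ) ^ (4 * s + 3) := by exact_mod_cast hUM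
      have e1 : (M : ℝ) ^ (4 * s + 3) = M * D := by rw [hD]; ring
      linarith
    have hU1r : (1 : ℝ) ≤ U := by exact_mod_cast hU1
    have hxD : (x : ℝ) / q ≤ L * D := by
      calc (x : ℝ) / q ≤ U + 1 := hxU2
        _ ≤ 2 * U := by linarith
        _ ≤ 2 * (M * D) := by linarith
        _ = (2 * M) * D := by ring
        _ ≤ L * D := by gcongr
    rw [hLA]
    calc (x : ℝ) / q * (L ^ (-A1) / L ^ 3) ≤ (L * D) * (eS (s + 1) (SM M) / L ^ 3) := by gcongr
      _ ≤ eS (s + 1) (SM M) * D / (32 * L) := by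
        rw [← mul_div_assoc, div_le_div_iff₀ (by positivity) (by positivity)]
        have e5 : 32 * L ≤ L ^ 2 := by nlinarith
        calc L * D * eS (s + 1) (SM M) * (32 * L) = eS (s + 1) (SM M) * D * (L * (32 * L)) := by
              ring
          _ ≤ eS (s + 1) (SM M) * D * (L * L ^ 2) := by gcongr
          _ = eS (s + 1) (SM M) * D * L ^ 3 := by ring
  · -- short progressions
    have hU1r : (1 : ℝ) ≤ U := by exact_mod_cast hU1
    set R := RB z a with hR
    have hup : piR R x 1 0 ≤ 3 * x / L := piR_up pf hmx' x le_rfl (by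
      have : (q : ℝ) ≤ x := by exact_mod_cast hqx
      linarith)
    have hlow : x / (2 * L) ≤ piR R x 1 0 := piR_low pf (by linarith) hmx'
    have hL3 : L ^ (1 / 3 : ℝ) * 24 ≤ L := by
      have e1 : L = L ^ (1 / 3 : ℝ) * L ^ (2 / 3 : ℝ) := by
        rw [← Real.rpow_add hL0]
        norm_num
      have e2 : (24 : ℝ) ≤ L ^ (2 / 3 : ℝ) := by
        have e3 : (24 : ℝ) ^ (3 / 2 : ℝ) ≤ L := by
          have e4 : (24 : ℝ) ^ (3 / 2 : ℝ) ≤ (24 : ℝ) ^ (2 : ℝ) :=
            Real.rpow_le_rpow_of_exponent_le (by norm_num) (by norm_num)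
          have e5 : (24 : ℝ) ^ (2 : ℝ) = 576 := by norm_num
          linarith
        have e4 := Real.rpow_le_rpow (by positivity) e3 (show (0 : ℝ) ≤ 2 / 3 by norm_num)
        rw [← Real.rpow_mul (by norm_num)] at e4
        norm_num at e4
        exact e4
      calc L ^ (1 / 3 : ℝ) * 24 ≤ L ^ (1 / 3 : ℝ) * L ^ (2 / 3 : ℝ) := by gcongr
        _ = L := e1.symm
    -- an element outside the removed class modulo `q`
    obtain ⟨n, hn1', hn2, hnR, hnq⟩ : ∃ n, 1 ≤ n ∧ n ≤ x ∧ n ∈ R ∧ ¬ n ≡ a q [MOD q] := by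
      by_contra hcon
      push Not at hcon
      have e1 : piR R x 1 0 ≤ piR R x q (a q) := by
        unfold piR
        have e2 : {n : ℕ | 1 ≤ n ∧ n ≤ x ∧ n ≡ 0 [MOD 1] ∧ n ∈ R} ⊆
            {n : ℕ | 1 ≤ n ∧ n ≤ x ∧ n ≡ a q [MOD q] ∧ n ∈ R} := by
          rintro n ⟨h4, h5, -, h7⟩
          exact ⟨h4, h5, hcon n h4 h5 h7, h7⟩
        have e3 : {n : ℕ | 1 ≤ n ∧ n ≤ x ∧ n ≡ a q [MOD q] ∧ n ∈ R}.Finite :=
          (Set.finite_le_nat x).subset fun n h => h.2.1
        exact_mod_cast Set.ncard_le_ncard e2 e3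
      have e2 := piR_le R x q (a q)
      have e3 : (U : ℝ) + 1 < x / (2 * L) := by
        rw [lt_div_iff₀ (by positivity)]
        have e4 : (U : ℝ) + 1 ≤ 2 * L := by
          have : L ^ (1 / 3 : ℝ) ≤ L := by
            have : 0 ≤ L ^ (1 / 3 : ℝ) := by positivity
            linarith
          linarith
        have e5 : (2 * L) * (2 * L) < x := by
          rw [hL]
          have h6 := Real.add_one_le_exp (L / 4)
          have h7 : Real.exp (L / 4) ^ 4 = x := by
            rw [← Real.exp_nat_mul]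
            push_cast
            rw [show 4 * (L / 4) = L by ring, hL, Real.exp_log hx0]
          have h8 : (L / 4 + 1) ^ 4 ≤ x := by
            rw [← h7]
            gcongr
          rw [← hL]
          have h9 : (4 : ℝ) * L ^ 2 < (L / 4 + 1) ^ 4 := by
            have h10 : 160 ≤ L / 4 := by linarith
            have h11 : (L / 4) ^ 4 ≤ (L / 4 + 1) ^ 4 := by gcongr; linarith
            have h12 : (L / 4) ^ 4 = (L / 4) ^ 2 * (L / 4) ^ 2 := by ring
            have h13 : (160 : ℝ) ^ 2 ≤ (L / 4) ^ 2 := by gcongr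
            have h14 : 0 < (L / 4) ^ 2 := by positivity
            nlinarith
          nlinarith
        calc ((U : ℝ) + 1) * (2 * L) ≤ (2 * L) * (2 * L) := by gcongr
          _ < x := e5
      linarith
    set b := n % q with hb
    have hbq : b < q := Nat.mod_lt n hq.pos
    have hbn : n ≡ b [MOD q] := (Nat.mod_modEq n q).symm
    have hbr : Red a q b := by
      intro p hp hpq hcon
      have e1 : p = q := (Nat.prime_dvd_prime_iff_eq hp hq).1 hpq
      rw [e1] at hcon
      exact hnq (hbn.trans hcon)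
    refine le_trans ?_ (hE x q b hbq hbr)
    have hge1 : 1 ≤ piR R x q b := by
      unfold piR
      have e3 : {m : ℕ | 1 ≤ m ∧ m ≤ x ∧ m ≡ b [MOD q] ∧ m ∈ R}.Finite :=
        (Set.finite_le_nat x).subset fun n h => h.2.1
      have e4 : 0 < {m : ℕ | 1 ≤ m ∧ m ≤ x ∧ m ≡ b [MOD q] ∧ m ∈ R}.ncard :=
        (Set.ncard_pos e3).2 ⟨n, hn1', hn2, hbn, hnR⟩
      exact_mod_cast e4
    have hphi : (Nat.totient q : ℝ) = (q : ℝ) - 1 := by
      rw [Nat.totient_prime hq, Nat.cast_sub hq.one_le, Nat.cast_one]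
    have hq2 : (q : ℝ) / 2 ≤ q - 1 := by
      have : (2 : ℝ) ≤ q := by exact_mod_cast hq.two_le
      linarith
    have hsmall : piR R x 1 0 / Nat.totient q ≤ 1 / 2 := by
      rw [hphi, div_le_iff₀ (by linarith)]
      have e1 : 3 * (x : ℝ) / L ≤ q / 4 := by
        rw [div_le_div_iff₀ hL0 (by norm_num)]
        have e2 : (x : ℝ) ≤ (U + 1) * q := by exact_mod_cast hxU.le
        have e3 : (U : ℝ) + 1 ≤ 2 * L ^ (1 / 3 : ℝ) := by
          linarith
        calc 3 * (x : ℝ) * 4 ≤ 3 * ((2 * L ^ (1 / 3 : ℝ)) * q) * 4 := by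
              have : (x : ℝ) ≤ (2 * L ^ (1 / 3 : ℝ)) * q := e2.trans (by gcongr)
              linarith
          _ = q * (L ^ (1 / 3 : ℝ) * 24) := by ring
          _ ≤ q * L := by gcongr
      linarith
    have hhalf : 1 / 2 ≤ |piR R x q b - piR R x 1 0 / Nat.totient q| := by
      refine le_trans ?_ (le_abs_self _)
      linarith
    refine le_trans ?_ hhalf
    rw [hLA]
    have e1 : (x : ℝ) / q ≤ L := by
      have : L ^ (1 / 3 : ℝ) * 24 ≤ L := hL3
      have : 0 ≤ L ^ (1 / 3 : ℝ) := by positivity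
      linarith
    have e2 : L ^ (-A1) ≤ 1 := Real.rpow_le_one_of_one_le_of_nonpos hL1 (by linarith)
    calc (x : ℝ) / q * (L ^ (-A1) / L ^ 3) ≤ L * (1 / L ^ 3) := by gcongr
      _ = 1 / L ^ 2 := by field_simp
      _ ≤ 1 / 2 := by
        apply one_div_le_one_div_of_le (by norm_num)
        nlinarith

end Pool.Agent.H532.EH
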