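import Mathlib
import Pool.Agent.H532.RM.Conc
import Pool.Agent.H532.EH.Block
import Pool.Agent.H532.EH.BlocksSum
import Pool.Agent.H532.EH.IffDet
import Pool.Agent.H532.EH.NegAll

/-!
The exact range of the Elliott-Halberstam conjecture in the random sieve model.
-/

namespace Pool.Agent.H532.EH

open Finset MeasureTheory Function ProbabilityTheory Filter Pool.Agent.H532.RM Pool.Agent.H532.SR
open scoped Topology ENNReal

/-- the largest discrepancy in the reduced classes modulo `q` -/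
noncomputable def Dis (R : Set ℕ) (a : ℕ → ℕ) (x q : ℕ) : ℝ :=
  ⨆ b : {b : ℕ // b < q ∧ Red a q b}, |piR R x q b - piR R x 1 0 / Nat.totient q|

lemma Dis_nonneg (R : Set ℕ) (a : ℕ → ℕ) (x q : ℕ) : 0 ≤ Dis R a x q :=
  Real.iSup_nonneg fun _ => abs_nonneg _

lemma fin_sub (a : ℕ → ℕ) (q : ℕ) : Finite {b : ℕ // b < q ∧ Red a q b} :=
  Set.Finite.to_subtype ((Set.finite_lt_nat q).subset fun _ h => h.1)

lemma le_Dis (R : Set ℕ) (a : ℕ → ℕ) (x q b : ℕ) (hb : b < q) (hr : Red a q b) :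
    |piR R x q b - piR R x 1 0 / Nat.totient q| ≤ Dis R a x q := by
  haveI := fin_sub a q
  exact le_ciSup (f := fun b : {b : ℕ // b < q ∧ Red a q b} =>
    |piR R x q b - piR R x 1 0 / Nat.totient q|) (Set.finite_range _).bddAbove ⟨b, hb, hr⟩

lemma Dis_le (R : Set ℕ) (a : ℕ → ℕ) (x q : ℕ) (B : ℝ) (hB : 0 ≤ B)
    (h : ∀ b < q, Red a q b → |piR R x q b - piR R x 1 0 / Nat.totient q| ≤ B) :
    Dis R a x q ≤ B :=
  Real.iSup_le (fun b => h b.1 b.2.1 b.2.2) hB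

lemma ratio_log : ∃ c : ℝ, 0 < c ∧ ∀ᶠ x : ℕ in atTop, ∀ q : ℕ, 0 < q → q ≤ 2 * x →
      (q : ℝ) / Nat.totient q ≤ c * Real.log x := by
  obtain ⟨c, hc, hct⟩ := totient_ratio
  refine ⟨2 * c, by positivity, ?_⟩
  have hlog : Tendsto (fun x : ℕ => Real.log (x : ℝ)) atTop atTop :=
    Real.tendsto_log_atTop.comp tendsto_natCast_atTop_atTop
  filter_upwards [scale_facts, hlog.eventually_ge_atTop 6, eventually_ge_atTop 2] with
    x h1 h2 h3 q hq hqx
  set j := Nat.log 2 x with hj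
  have hj1 : 1 ≤ j := Nat.log_pos (by norm_num) h3
  have hx2 : x < 2 ^ (j + 1) := Nat.lt_pow_succ_log_self (by norm_num) x
  have h2j : 2 ^ (j + 3) = 4 * 2 ^ (j + 1) := by ring
  have h4 := hct j q hj1 hq (by omega)
  have h5 := h1.1
  have hl2' := Real.log_two_gt_d9
  have h6 : (j : ℝ) + 3 ≤ 2 * Real.log x := by nlinarith
  calc (q : ℝ) / Nat.totient q ≤ c * ((j : ℝ) + 3) := h4
    _ ≤ c * (2 * Real.log x) := by gcongr
    _ = 2 * c * Real.log x := by ring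

/-- the positive part -/
theorem pos_as {Ω : Type} [MeasurableSpace Ω] {μ : Measure Ω} [IsProbabilityMeasure μ]
    {A : ℕ → Ω → ℕ} (hA : RandomClasses μ A) {z : ℕ → ℕ} (hz : Rt z) : ∀ᵐ ω ∂μ,
    ∀ B : ℝ, 0 < B → ∃ K : ℝ, 0 < K ∧ ∀ᶠ x : ℕ in atTop, ∀ q : ℕ, 1 ≤ q → q ≤ x →
      K * (Real.log (Real.log x) ^ 2 / Real.log (Real.log (Real.log x))) ≤ Real.log (x / q) →
      Dis (RB z (fun p => A p ω)) (fun p => A p ω) x q ≤ x / q * Real.log x ^ (-B) := by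
  have h1 := fun B : ℕ => block_x hA hz B
  choose K hK hKB using h1
  obtain ⟨c, hc0, hc⟩ := ratio_log
  filter_upwards [ae_all_iff.2 hKB] with ω hω B hB
  set a : ℕ → ℕ := fun p => A p ω with ha
  obtain ⟨K', hK', h2⟩ := blocks_sum (RB z a) (Red a)
    (fun b p hp hp1 => absurd (Nat.dvd_one.1 hp1) hp.one_lt.ne')
    (fun q b b' hbb h p hp hpq hcon => h p hp hpq ((hbb.of_dvd hpq).trans hcon)) c hc0 hc
    (fun B' => ⟨K B', hK B', hω B'⟩) B hB
  refine ⟨K', hK', ?_⟩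
  filter_upwards [h2, eventually_ge_atTop 3] with x hx hx3 q hq1 hq2 hq3
  have hlx : 0 ≤ Real.log (x : ℝ) := Real.log_natCast_nonneg x
  refine Dis_le _ _ _ _ _ (by positivity) fun b hb hr => ?_
  exact hx q b hq1 hb hq2 hq3 hr

/-- the Elliott-Halberstam sum -/
noncomputable def SQ (R : Set ℕ) (a : ℕ → ℕ) (x : ℕ) (Q : ℝ) : ℝ :=
  ∑ q ∈ Icc 1 ⌊Q⌋₊, Dis R a x q

lemma tend_theta {θ : ℝ} (hθ : θ < 1) :
    Tendsto (fun x : ℕ => Real.log (x / (x : ℝ) ^ θ) * Real.log (Real.log (Real.log x)) /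
        Real.log (Real.log x) ^ 2) atTop atTop := by
  have hlog : Tendsto (fun x : ℕ => Real.log (x : ℝ)) atTop atTop :=
    Real.tendsto_log_atTop.comp tendsto_natCast_atTop_atTop
  have hll : Tendsto (fun x : ℕ => Real.log (Real.log (x : ℝ))) atTop atTop :=
    Real.tendsto_log_atTop.comp hlog
  have hlll : Tendsto (fun x : ℕ => Real.log (Real.log (Real.log (x : ℝ)))) atTop atTop :=
    Real.tendsto_log_atTop.comp hll
  rw [tendsto_atTop]
  intro B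
  have h1 := (Real.isLittleO_pow_log_id_atTop (n := 2)).def
    (show 0 < (1 - θ) / (|B| + 1) by
      have : 0 < 1 - θ := by linarith
      positivity)
  have h2 := hlog.eventually h1
  filter_upwards [h2, hll.eventually_ge_atTop 1, hlll.eventually_ge_atTop 1,
    hlog.eventually_ge_atTop 1, eventually_ge_atTop 1] with x h3 h4 h5 h6 h7
  simp only [id] at h3
  rw [Real.norm_of_nonneg (by positivity), Real.norm_of_nonneg (by linarith)] at h3
  have hx0 : (0 : ℝ) < x := by exact_mod_cast h7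
  have h8 : Real.log (x / (x : ℝ) ^ θ) = (1 - θ) * Real.log x := by
    rw [Real.log_div hx0.ne' (by positivity), Real.log_rpow hx0]
    ring
  rw [h8, le_div_iff₀ (by positivity)]
  set l := Real.log (Real.log (x : ℝ)) with hl
  have hθ' : 0 < 1 - θ := by linarith
  calc B * l ^ 2 ≤ (|B| + 1) * l ^ 2 := by
        have := le_abs_self B
        gcongr
        linarith
    _ ≤ (|B| + 1) * ((1 - θ) / (|B| + 1) * Real.log x) := by gcongr
    _ = (1 - θ) * Real.log x := by field_simp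
    _ ≤ (1 - θ) * Real.log x * Real.log l := by
        apply le_mul_of_one_le_right (by positivity) h5

/-- **The exact range of the Elliott-Halberstam conjecture in the random sieve model.** -/
theorem eh_as {Ω : Type} [MeasurableSpace Ω] {μ : Measure Ω} [IsProbabilityMeasure μ]
    {A : ℕ → Ω → ℕ} (hA : RandomClasses μ A) {z : ℕ → ℕ} (hz : Rt z) : ∀ᵐ ω ∂μ,
    -- the exact range
    (∀ Q : ℕ → ℝ, (∀ x : ℕ, 1 ≤ x → 1 ≤ Q x ∧ Q x ≤ x) →
      ((∀ B : ℝ, 0 < B → ∃ C : ℝ, ∀ x : ℕ, 2 < x →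
        SQ (RB z (fun p => A p ω)) (fun p => A p ω) x (Q x) ≤ C * (x * Real.log x ^ (-B))) ↔
      Tendsto (fun x : ℕ => Real.log (x / Q x) * Real.log (Real.log (Real.log x)) /
        Real.log (Real.log x) ^ 2) atTop atTop)) ∧
    (∀ θ : ℝ, θ < 1 → ∀ B : ℝ, 0 < B → ∃ C : ℝ, ∀ x : ℕ, 2 < x →
        SQ (RB z (fun p => A p ω)) (fun p => A p ω) x ((x : ℝ) ^ θ) ≤
          C * (x * Real.log x ^ (-B))) ∧
    (∀ B : ℝ, 0 < B → ∃ K : ℝ, 0 < K ∧ ∀ᶠ x : ℕ in atTop, ∀ q : ℕ, 1 ≤ q → q ≤ x →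
      K * (Real.log (Real.log x) ^ 2 / Real.log (Real.log (Real.log x))) ≤ Real.log (x / q) →
      Dis (RB z (fun p => A p ω)) (fun p => A p ω) x q ≤ x / q * Real.log x ^ (-B)) ∧
    (∀ K : ℝ, 0 < K → ∃ B : ℝ, 0 < B ∧ ∀ᶠ x : ℕ in atTop, ∀ q : ℕ, q.Prime → q ≤ x →
      Real.log (x / q) ≤ K * (Real.log (Real.log x) ^ 2 / Real.log (Real.log (Real.log x))) →
      x / q * Real.log x ^ (-B) ≤ Dis (RB z (fun p => A p ω)) (fun p => A p ω) x q) := by
  filter_upwards [pos_as hA hz, mont_all hA hz, ae_lt hA] with ω h1 h2 h3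
  set a : ℕ → ℕ := fun p => A p ω with ha
  have h4 := fun K hK => neg_det h3 hz h2 (fun x q => Dis (RB z a) a x q)
    (fun x q => Dis_nonneg _ _ _ _) (fun x q b hb hr => le_Dis _ _ _ _ _ hb hr) K hK
  have h4' := fun K hK => neg_all h3 hz h2 (fun x q => Dis (RB z a) a x q)
    (fun x q b hb hr => le_Dis _ _ _ _ _ hb hr) K hK
  have h5 : ∀ Q : ℕ → ℝ, (∀ x : ℕ, 1 ≤ x → 1 ≤ Q x ∧ Q x ≤ x) →
      ((∀ B : ℝ, 0 < B → ∃ C : ℝ, ∀ x : ℕ, 2 < x →
        SQ (RB z a) a x (Q x) ≤ C * (x * Real.log x ^ (-B))) ↔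
      Tendsto (fun x : ℕ => Real.log (x / Q x) * Real.log (Real.log (Real.log x)) /
        Real.log (Real.log x) ^ 2) atTop atTop) := by
    intro Q hQ
    refine eh_iff_det (fun x q => Dis (RB z a) a x q) (fun x q => Dis_nonneg _ _ _ _) h1 ?_ Q hQ
    intro K hK
    obtain ⟨A0, hA0, h5⟩ := h4 K hK
    refine ⟨A0, hA0, ?_⟩
    filter_upwards [h5] with x hx
    obtain ⟨Y, hY1, hY2, -, hY3⟩ := hx
    exact ⟨Y, hY1, hY2, hY3⟩
  refine ⟨h5, ?_, h1, h4'⟩
  intro θ hθ B hB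
  rcases le_or_gt 0 θ with h0 | h0
  · refine (h5 (fun x => (x : ℝ) ^ θ) (fun x hx => ?_)).2 (tend_theta hθ) B hB
    have hx1 : (1 : ℝ) ≤ x := by exact_mod_cast hx
    refine ⟨Real.one_le_rpow hx1 h0, ?_⟩
    calc (x : ℝ) ^ θ ≤ (x : ℝ) ^ (1 : ℝ) := Real.rpow_le_rpow_of_exponent_le hx1 hθ.le
      _ = x := Real.rpow_one _
  · refine ⟨0, fun x hx => ?_⟩
    have hx1 : (1 : ℝ) < x := by
      have : 1 < x := by omega
      exact_mod_cast this
    have h6 : (x : ℝ) ^ θ < 1 := Real.rpow_lt_one_of_one_lt_of_neg hx1 h0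
    unfold SQ
    rw [Nat.floor_eq_zero.2 h6]
    simp

end Pool.Agent.H532.EH
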